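import Pool.Agent.Lib.MP_d41ace_co.Wheel

/-!
Lower end of the spectrum: no minimal PLD-maximal graph of order `n ≥ 40` has a size strictly
between `2 (n - 1)` and `9 (n - 1) / 4`.
-/

set_option autoImplicit false

namespace MPd41ace

open SimpleGraph

variable {V : Type*} [Fintype V] {G : SimpleGraph V} {n : ℕ}

/-- a spanning path as a function -/
structure Ham (G : SimpleGraph V) (n : ℕ) (u v : V) (f : ℕ → V) : Prop where
  /-- distinct vertices -/
  inj : ∀ i j, i < n → j < n → f i = f j → i = j
  /-- all vertices -/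
  surj : ∀ x, ∃ i < n, f i = x
  /-- start -/
  fst : f 0 = u
  /-- end -/
  lst : f (n - 1) = v
  /-- adjacency -/
  adj : ∀ i, i + 1 < n → G.Adj (f i) (f (i + 1))

lemma exists_ham (h : IsPLD G n) (hc : Fintype.card V = n) (hn : 3 ≤ n) {u v : V} (huv : u ≠ v) :
    ∃ f, Ham G n u v f := by
  classical
  obtain ⟨l, hl, hln⟩ := hasP_iff.1 (h n hn le_rfl) u v huv
  refine ⟨fun i => l.getD i u, ?_, ?_, ?_, ?_, ?_⟩
  · intro i j hi hj e
    rw [List.getD_eq_getElem _ _ (by omega), List.getD_eq_getElem _ _ (by omega)] at e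
    exact (List.Nodup.getElem_inj_iff hl.nodup).1 e
  · intro x
    have hx : x ∈ l := by
      have h1 : l.toFinset.card = Fintype.card V := by
        rw [List.toFinset_card_of_nodup hl.nodup, hln, hc]
      have h2 := Finset.eq_univ_of_card _ h1
      have h3 : x ∈ l.toFinset := by
        rw [h2]
        exact Finset.mem_univ _
      exact List.mem_toFinset.1 h3
    obtain ⟨i, hi, e⟩ := List.getElem_of_mem hx
    refine ⟨i, by omega, ?_⟩
    rw [List.getD_eq_getElem _ _ hi, e]
  · have := hl.head
    rw [List.head?_eq_getElem?] at this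
    rw [List.getD_eq_getElem?_getD, this]
    rfl
  · have := hl.last
    rw [List.getLast?_eq_getElem?, hln] at this
    rw [List.getD_eq_getElem?_getD, this]
    rfl
  · intro i hi
    have := hl.chain
    rw [List.isChain_iff_getElem] at this
    have k := this i (by omega)
    rw [List.getD_eq_getElem _ _ (by omega), List.getD_eq_getElem _ _ (by omega)]
    exact k

open scoped Classical in
/-- the edges avoiding a set with at least two elements -/
lemma edges_out (h : IsPLD G n) (hc : Fintype.card V = n) (hn : 3 ≤ n) {u v : V} (huv : u ≠ v)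
    {S : Finset V} (hu : u ∈ S) (hv : v ∈ S) :
    n + 1 ≤ 2 * S.card + (G.edgeFinset.filter fun e => ∀ x ∈ e, x ∉ S).card := by
  obtain ⟨f, hf⟩ := exists_ham h hc hn huv
  set I := Finset.range (n - 1) with hI
  set A := I.filter fun i => f i ∈ S with hA
  set B := I.filter fun i => f (i + 1) ∈ S with hB
  set C := I.filter fun i => f i ∉ S ∧ f (i + 1) ∉ S with hC
  have hAc : A.card ≤ S.card - 1 := by
    rw [← Finset.card_erase_of_mem hv]
    refine Finset.card_le_card_of_injOn f ?_ ?_
    · intro i hi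
      rw [hA, Finset.coe_filter, hI] at hi
      simp only [Finset.mem_range] at hi
      have hi' : i < n - 1 ∧ f i ∈ S := hi
      rw [Finset.mem_coe, Finset.mem_erase]
      refine ⟨fun e => ?_, hi'.2⟩
      rw [← hf.lst] at e
      have := hf.inj _ _ (by omega) (by omega) e
      omega
    · intro i hi j hj e
      rw [hA, Finset.coe_filter, hI] at hi hj
      simp only [Finset.mem_range] at hi hj
      have hi' : i < n - 1 ∧ f i ∈ S := hi
      have hj' : j < n - 1 ∧ f j ∈ S := hj
      exact hf.inj _ _ (by omega) (by omega) e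
  have hBc : B.card ≤ S.card - 1 := by
    rw [← Finset.card_erase_of_mem hu]
    refine Finset.card_le_card_of_injOn (fun i => f (i + 1)) ?_ ?_
    · intro i hi
      rw [hB, Finset.coe_filter, hI] at hi
      simp only [Finset.mem_range] at hi
      have hi' : i < n - 1 ∧ f (i + 1) ∈ S := hi
      rw [Finset.mem_coe, Finset.mem_erase]
      refine ⟨fun e => ?_, hi'.2⟩
      rw [← hf.fst] at e
      have := hf.inj _ _ (by omega) (by omega) e
      omega
    · intro i hi j hj e
      rw [hB, Finset.coe_filter, hI] at hi hj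
      simp only [Finset.mem_range] at hi hj
      have hi' : i < n - 1 ∧ f (i + 1) ∈ S := hi
      have hj' : j < n - 1 ∧ f (j + 1) ∈ S := hj
      have := hf.inj _ _ (by omega) (by omega) e
      omega
  have hABC : I ⊆ (A ∪ B) ∪ C := by
    intro i hi
    rw [Finset.mem_union, Finset.mem_union, hA, hB, hC, Finset.mem_filter, Finset.mem_filter,
      Finset.mem_filter]
    by_cases c1 : f i ∈ S
    · exact Or.inl (Or.inl ⟨hi, c1⟩)
    · by_cases c2 : f (i + 1) ∈ S
      · exact Or.inl (Or.inr ⟨hi, c2⟩)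
      · exact Or.inr ⟨hi, c1, c2⟩
  have k1 : n - 1 ≤ A.card + B.card + C.card := by
    calc n - 1 = I.card := by rw [hI, Finset.card_range]
      _ ≤ _ := Finset.card_le_card hABC
      _ ≤ _ := Finset.card_union_le _ _
      _ ≤ _ := Nat.add_le_add_right (Finset.card_union_le _ _) _
  have k2 : C.card ≤ (G.edgeFinset.filter fun e => ∀ x ∈ e, x ∉ S).card := by
    refine Finset.card_le_card_of_injOn (fun i => s(f i, f (i + 1))) ?_ ?_
    · intro i hi
      rw [hC, Finset.coe_filter, hI] at hi
      simp only [Finset.mem_range] at hi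
      have hi' : i < n - 1 ∧ f i ∉ S ∧ f (i + 1) ∉ S := hi
      rw [Finset.mem_coe, Finset.mem_filter, SimpleGraph.mem_edgeFinset,
        SimpleGraph.mem_edgeSet]
      refine ⟨hf.adj i (by omega), ?_⟩
      intro x hx
      rw [Sym2.mem_iff] at hx
      rcases hx with rfl | rfl
      · exact hi'.2.1
      · exact hi'.2.2
    · intro i hi j hj e
      rw [hC, Finset.coe_filter, hI] at hi hj
      simp only [Finset.mem_range] at hi hj
      have hi' : i < n - 1 ∧ f i ∉ S ∧ f (i + 1) ∉ S := hi
      have hj' : j < n - 1 ∧ f j ∉ S ∧ f (j + 1) ∉ S := hj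
      simp only [Sym2.eq_iff] at e
      rcases e with ⟨e, _⟩ | ⟨e1, e2⟩
      · exact hf.inj _ _ (by omega) (by omega) e
      · have := hf.inj _ _ (by omega) (by omega) e1
        have := hf.inj _ _ (by omega) (by omega) e2
        omega
  have hS : 1 ≤ S.card := Finset.card_pos.2 ⟨u, hu⟩
  omega

omit [Fintype V] in
/-- common neighbours -/
lemma common (h : IsPLD G n) (hn : 3 ≤ n) {u v : V} (huv : u ≠ v) :
    ∃ w, G.Adj u w ∧ G.Adj w v := by
  obtain ⟨l, hl, hl3⟩ := (hasP_iff.1 (h 3 le_rfl hn)) u v huv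
  match l, hl3 with
  | [p, q, r], _ =>
    have e1 : p = u := by simpa using hl.head
    have e2 : r = v := by simpa using hl.last
    have hc := hl.chain
    rw [List.isChain_cons_cons, List.isChain_cons_cons] at hc
    obtain ⟨c1, c2, _⟩ := hc
    subst e1 e2
    exact ⟨q, c1, c2⟩

open scoped Classical in
lemma three_le_degree (h : IsPLD G n) (hc : Fintype.card V = n) (hn : 4 ≤ n) (v : V) :
    3 ≤ G.degree v := by
  by_contra hcon
  rw [not_le] at hcon
  have h2 : (G.neighborFinset v).card ≤ 2 := by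
    rw [SimpleGraph.card_neighborFinset_eq_degree]
    omega
  -- two distinct vertices containing all neighbours
  obtain ⟨a, b, hab, hva, hvb, hN⟩ : ∃ a b, a ≠ b ∧ v ≠ a ∧ v ≠ b ∧
      ∀ x, G.Adj v x → x = a ∨ x = b := by
    obtain ⟨T, hT1, hT2⟩ : ∃ T : Finset V, G.neighborFinset v ⊆ T ∧ T ⊆ Finset.univ.erase v ∧
        T.card = 2 := by
      obtain ⟨T, h1, h3, h4⟩ := Finset.exists_subsuperset_card_eq
        (s := G.neighborFinset v) (t := Finset.univ.erase v) (n := 2)
        (by
          intro x hx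
          rw [SimpleGraph.mem_neighborFinset] at hx
          exact Finset.mem_erase.2 ⟨hx.ne', Finset.mem_univ _⟩) h2
        (by
          rw [Finset.card_erase_of_mem (Finset.mem_univ _), Finset.card_univ, hc]
          omega)
      exact ⟨T, h1, h3, h4⟩
    obtain ⟨a, b, hab, rfl⟩ := Finset.card_eq_two.1 hT2.2
    refine ⟨a, b, hab, ?_, ?_, ?_⟩
    · have := hT2.1 (Finset.mem_insert_self a {b})
      exact (Finset.mem_erase.1 this).1.symm
    · have := hT2.1 (Finset.mem_insert_of_mem (Finset.mem_singleton_self b))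
      exact (Finset.mem_erase.1 this).1.symm
    · intro x hx
      have := hT1 ((SimpleGraph.mem_neighborFinset _ _ _).2 hx)
      rw [Finset.mem_insert, Finset.mem_singleton] at this
      exact this
  obtain ⟨f, hf⟩ := exists_ham h hc (by omega) hab
  obtain ⟨i, hi, hiv⟩ := hf.surj v
  have i0 : i ≠ 0 := by
    rintro rfl
    exact hva (hiv.symm.trans hf.fst)
  have i1 : i ≠ n - 1 := by
    rintro rfl
    exact hvb (hiv.symm.trans hf.lst)
  have a1 : G.Adj v (f (i - 1)) := by
    have := hf.adj (i - 1) (by omega)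
    rw [show i - 1 + 1 = i by omega, hiv] at this
    exact this.symm
  have a2 : G.Adj v (f (i + 1)) := by
    have := hf.adj i (by omega)
    rwa [hiv] at this
  rcases hN _ a1 with e | e
  · rw [← hf.fst] at e
    have e3 := hf.inj _ _ (by omega) (by omega) e
    rcases hN _ a2 with e' | e'
    · rw [← hf.fst] at e'
      have := hf.inj _ _ (by omega) (by omega) e'
      omega
    · rw [← hf.lst] at e'
      have := hf.inj _ _ (by omega) (by omega) e'
      omega
  · rw [← hf.lst] at e
    have := hf.inj _ _ (by omega) (by omega) e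
    omega

open scoped Classical in
/-- THE MAIN COUNT: `x` is not adjacent to `c` -/
lemma count_main (h : IsPLD G n) (hc : Fintype.card V = n) (hn : 4 ≤ n) {c x : V} (hcx : c ≠ x)
    (hna : ¬ G.Adj c x) :
    2 * G.degree c + 4 * n ≤ 2 * G.edgeFinset.card + 3 * G.degree x + 6 := by
  set D := G.neighborFinset x with hD
  have hDm : ∀ y, y ∈ D ↔ G.Adj x y := fun y => SimpleGraph.mem_neighborFinset _ _ _
  have hDc : D.card = G.degree x := SimpleGraph.card_neighborFinset_eq_degree _ _
  have hd : 3 ≤ G.degree x := three_le_degree h hc hn x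
  have hcD : c ∉ D := fun k => hna ((hDm c).1 k).symm
  have hxD : x ∉ D := fun k => (G.irrefl ((hDm x).1 k)).elim
  -- neighbours in `D`
  have hg : ∀ y, y ≠ x → ∃ z, z ∈ D ∧ G.Adj y z := by
    intro y hy
    obtain ⟨w, h1, h2⟩ := common h (by omega) hy
    exact ⟨w, (hDm w).2 h2.symm, h1⟩
  choose! g hg1 hg2 using hg
  set S := insert c D with hS
  have hSc : S.card = G.degree x + 1 := by
    rw [hS, Finset.card_insert_of_notMem hcD, hDc]
  set E := G.edgeFinset with hE
  set E1 := G.incidenceFinset c with hE1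
  set E2 := G.incidenceFinset x with hE2
  set E3 := E.filter (fun e => ∀ y ∈ e, y ∉ S) with hE3
  set W := Finset.univ \ (insert x S) with hW
  set E4 := W.image (fun y => s(y, g y)) with hE4
  set E5 := D.image (fun y => s(y, g y)) with hE5
  have m1 : ∀ e, e ∈ E1 ↔ e ∈ E ∧ c ∈ e := by
    intro e
    rw [hE1, hE, SimpleGraph.mem_incidenceFinset, SimpleGraph.mem_edgeFinset]
    rfl
  have m2 : ∀ e, e ∈ E2 ↔ e ∈ E ∧ x ∈ e := by
    intro e
    rw [hE2, hE, SimpleGraph.mem_incidenceFinset, SimpleGraph.mem_edgeFinset]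
    rfl
  have m3 : ∀ e, e ∈ E3 ↔ e ∈ E ∧ ∀ y ∈ e, y ∉ S := by
    intro e
    rw [hE3, Finset.mem_filter]
  have mW : ∀ y, y ∈ W ↔ y ≠ x ∧ y ≠ c ∧ y ∉ D := by
    intro y
    rw [hW, Finset.mem_sdiff, Finset.mem_insert, hS, Finset.mem_insert]
    simp only [Finset.mem_univ, true_and, not_or]
  have c1 : E1.card = G.degree c := SimpleGraph.card_incidenceFinset_eq_degree _ _
  have c2 : E2.card = G.degree x := SimpleGraph.card_incidenceFinset_eq_degree _ _
  have c3 : n + 1 ≤ 2 * S.card + E3.card := by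
    obtain ⟨y, hy⟩ : ∃ y, y ∈ D := Finset.card_pos.1 (by omega)
    exact edges_out h hc (by omega) (u := c) (v := y) (fun e => hcD (e ▸ hy))
      (Finset.mem_insert_self _ _) (Finset.mem_insert_of_mem hy)
  have c4 : E4.card = W.card := by
    rw [hE4, Finset.card_image_of_injOn]
    intro y hy z hz e
    rw [Finset.mem_coe, mW] at hy hz
    simp only [Sym2.eq_iff] at e
    rcases e with ⟨e, _⟩ | ⟨e, _⟩
    · exact e
    · exfalso
      apply hy.2.2
      rw [e]
      exact hg1 z hz.1
  have cW : W.card + (G.degree x + 2) = n := by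
    have h1 : (insert x S).card = G.degree x + 2 := by
      rw [Finset.card_insert_of_notMem, hSc]
      rw [hS, Finset.mem_insert, not_or]
      exact ⟨hcx.symm, hxD⟩
    have h2 : W.card + (insert x S).card = Fintype.card V := by
      rw [hW, ← Finset.card_univ]
      exact Finset.card_sdiff_add_card_eq_card (Finset.subset_univ _)
    rw [h1, hc] at h2
    exact h2
  have c5 : D.card ≤ 2 * E5.card := by
    rw [hE5]
    refine Finset.card_le_mul_card_image_of_maps_to (f := fun y => s(y, g y))
      (fun y hy => Finset.mem_image_of_mem (fun y => s(y, g y)) hy) 2 ?_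
    intro e _
    induction e using Sym2.ind with
    | _ a b =>
      have : (D.filter fun y => s(y, g y) = s(a, b)) ⊆ {a, b} := by
        intro y hy
        rw [Finset.mem_filter, Sym2.eq_iff] at hy
        rw [Finset.mem_insert, Finset.mem_singleton]
        rcases hy.2 with ⟨e, _⟩ | ⟨e, _⟩
        · exact Or.inl e
        · exact Or.inr e
      exact (Finset.card_le_card this).trans Finset.card_le_two
  have m4 : ∀ e, e ∈ E4 → e ∈ E ∧ ∃ y z, e = s(y, z) ∧ y ∈ W ∧ z ∈ D := by
    intro e he
    rw [hE4, Finset.mem_image] at he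
    obtain ⟨y, hy, rfl⟩ := he
    have hy' := (mW y).1 hy
    refine ⟨?_, y, g y, rfl, hy, hg1 y hy'.1⟩
    rw [hE, SimpleGraph.mem_edgeFinset]
    exact hg2 y hy'.1
  have m5 : ∀ e, e ∈ E5 → e ∈ E ∧ ∃ y z, e = s(y, z) ∧ y ∈ D ∧ z ∈ D := by
    intro e he
    rw [hE5, Finset.mem_image] at he
    obtain ⟨y, hy, rfl⟩ := he
    have hy' : y ≠ x := fun e => hxD (e ▸ hy)
    refine ⟨?_, y, g y, rfl, hy, hg1 y hy'⟩
    rw [hE, SimpleGraph.mem_edgeFinset]
    exact hg2 y hy'
  have d12 : Disjoint E1 E2 := by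
    rw [Finset.disjoint_left]
    intro e h1 h2
    obtain ⟨h1, h1'⟩ := (m1 e).1 h1
    obtain ⟨_, h2'⟩ := (m2 e).1 h2
    have : e = s(c, x) := ((Sym2.mem_and_mem_iff hcx).1 ⟨h1', h2'⟩)
    rw [this, hE, SimpleGraph.mem_edgeFinset] at h1
    exact hna h1
  have d3 : Disjoint (E1 ∪ E2) E3 := by
    rw [Finset.disjoint_left]
    intro e h1 h3
    obtain ⟨_, h3⟩ := (m3 e).1 h3
    rcases Finset.mem_union.1 h1 with h1 | h1
    · exact h3 c ((m1 e).1 h1).2 (Finset.mem_insert_self _ _)
    · obtain ⟨k1, k2⟩ := (m2 e).1 h1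
      obtain ⟨z, rfl⟩ := Sym2.mem_iff_exists.1 k2
      rw [hE, SimpleGraph.mem_edgeFinset] at k1
      exact h3 z (Sym2.mem_mk_right _ _) (Finset.mem_insert_of_mem ((hDm z).2 k1))
  have d4 : Disjoint (E1 ∪ E2 ∪ E3) E4 := by
    rw [Finset.disjoint_left]
    intro e h1 h4
    obtain ⟨_, y, z, rfl, hy, hz⟩ := m4 e h4
    rw [mW] at hy
    rcases Finset.mem_union.1 h1 with h1 | h1
    · rcases Finset.mem_union.1 h1 with h1 | h1
      · have := ((m1 _).1 h1).2
        rw [Sym2.mem_iff] at this
        rcases this with e | e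
        · exact hy.2.1 e.symm
        · exact hcD (e ▸ hz)
      · have := ((m2 _).1 h1).2
        rw [Sym2.mem_iff] at this
        rcases this with e | e
        · exact hy.1 e.symm
        · exact hxD (e ▸ hz)
    · exact ((m3 _).1 h1).2 z (Sym2.mem_mk_right _ _) (Finset.mem_insert_of_mem hz)
  have d5 : Disjoint (E1 ∪ E2 ∪ E3 ∪ E4) E5 := by
    rw [Finset.disjoint_left]
    intro e h1 h4
    obtain ⟨_, y, z, rfl, hy, hz⟩ := m5 e h4
    rcases Finset.mem_union.1 h1 with h1 | h1
    · rcases Finset.mem_union.1 h1 with h1 | h1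
      · rcases Finset.mem_union.1 h1 with h1 | h1
        · have := ((m1 _).1 h1).2
          rw [Sym2.mem_iff] at this
          rcases this with e | e
          · exact hcD (e ▸ hy)
          · exact hcD (e ▸ hz)
        · have := ((m2 _).1 h1).2
          rw [Sym2.mem_iff] at this
          rcases this with e | e
          · exact hxD (e ▸ hy)
          · exact hxD (e ▸ hz)
      · exact ((m3 _).1 h1).2 z (Sym2.mem_mk_right _ _) (Finset.mem_insert_of_mem hz)
    · obtain ⟨_, y', z', e, hy', hz'⟩ := m4 _ h1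
      rw [mW] at hy'
      have : y' ∈ s(y, z) := by
        rw [e]
        exact Sym2.mem_mk_left _ _
      rw [Sym2.mem_iff] at this
      rcases this with e | e
      · exact hy'.2.2 (e ▸ hy)
      · exact hy'.2.2 (e ▸ hz)
  have hsub : E1 ∪ E2 ∪ E3 ∪ E4 ∪ E5 ⊆ E := by
    intro e he
    rcases Finset.mem_union.1 he with h1 | h1
    · rcases Finset.mem_union.1 h1 with h1 | h1
      · rcases Finset.mem_union.1 h1 with h1 | h1
        · rcases Finset.mem_union.1 h1 with h1 | h1
          · exact ((m1 _).1 h1).1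
          · exact ((m2 _).1 h1).1
        · exact ((m3 _).1 h1).1
      · exact (m4 _ h1).1
    · exact (m5 _ h1).1
  have htot := Finset.card_le_card hsub
  rw [Finset.card_union_of_disjoint d5, Finset.card_union_of_disjoint d4,
    Finset.card_union_of_disjoint d3, Finset.card_union_of_disjoint d12, c1, c2, c4] at htot
  omega

open scoped Classical in
/-- the count for two hubs -/
lemma count_two (h : IsPLD G n) (hc : Fintype.card V = n) (hn : 4 ≤ n) {c x : V} (hcx : c ≠ x)
    (hna : ¬ G.Adj c x) : G.degree c + G.degree x + n ≤ G.edgeFinset.card + 3 := by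
  set E := G.edgeFinset with hE
  set E1 := G.incidenceFinset c with hE1
  set E2 := G.incidenceFinset x with hE2
  set S : Finset V := {c, x} with hS
  set E3 := E.filter (fun e => ∀ y ∈ e, y ∉ S) with hE3
  have m1 : ∀ e, e ∈ E1 ↔ e ∈ E ∧ c ∈ e := by
    intro e
    rw [hE1, hE, SimpleGraph.mem_incidenceFinset, SimpleGraph.mem_edgeFinset]
    rfl
  have m2 : ∀ e, e ∈ E2 ↔ e ∈ E ∧ x ∈ e := by
    intro e
    rw [hE2, hE, SimpleGraph.mem_incidenceFinset, SimpleGraph.mem_edgeFinset]
    rfl
  have m3 : ∀ e, e ∈ E3 ↔ e ∈ E ∧ ∀ y ∈ e, y ∉ S := by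
    intro e
    rw [hE3, Finset.mem_filter]
  have c1 : E1.card = G.degree c := SimpleGraph.card_incidenceFinset_eq_degree _ _
  have c2 : E2.card = G.degree x := SimpleGraph.card_incidenceFinset_eq_degree _ _
  have c3 : n + 1 ≤ 2 * S.card + E3.card :=
    edges_out h hc (by omega) (u := c) (v := x) hcx (Finset.mem_insert_self _ _)
      (Finset.mem_insert_of_mem (Finset.mem_singleton_self _))
  have cS : S.card = 2 := Finset.card_pair hcx
  have d12 : Disjoint E1 E2 := by
    rw [Finset.disjoint_left]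
    intro e h1 h2
    obtain ⟨h1, h1'⟩ := (m1 e).1 h1
    obtain ⟨_, h2'⟩ := (m2 e).1 h2
    have : e = s(c, x) := ((Sym2.mem_and_mem_iff hcx).1 ⟨h1', h2'⟩)
    rw [this, hE, SimpleGraph.mem_edgeFinset] at h1
    exact hna h1
  have d3 : Disjoint (E1 ∪ E2) E3 := by
    rw [Finset.disjoint_left]
    intro e h1 h3
    obtain ⟨_, h3⟩ := (m3 e).1 h3
    rcases Finset.mem_union.1 h1 with h1 | h1
    · exact h3 c ((m1 e).1 h1).2 (Finset.mem_insert_self _ _)
    · exact h3 x ((m2 e).1 h1).2 (Finset.mem_insert_of_mem (Finset.mem_singleton_self _))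
  have hsub : E1 ∪ E2 ∪ E3 ⊆ E := by
    intro e he
    rcases Finset.mem_union.1 he with h1 | h1
    · rcases Finset.mem_union.1 h1 with h1 | h1
      · exact ((m1 _).1 h1).1
      · exact ((m2 _).1 h1).1
    · exact ((m3 _).1 h1).1
  have htot := Finset.card_le_card hsub
  rw [Finset.card_union_of_disjoint d3, Finset.card_union_of_disjoint d12, c1, c2] at htot
  omega

end MPd41ace
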