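import Pool.Agent.Lib.MP_d41ace_co.Gadget
import Pool.Agent.Lib.MP_d41ace_co.Gap

/-!
A wheel with further vertices inside an arbitrary graph: paths of all lengths. Edges that are
needed because of a vertex of degree three, or because of the only path with four vertices.
-/

set_option autoImplicit false

namespace MPd41ace

open SimpleGraph

variable {V : Type*} {G : SimpleGraph V} {N : ℕ} [NeZero N] {z : ZMod N → V} {w : V}
  {E : Finset V} {X : V → V → Prop}

/-- a wheel and a set `E` of further vertices -/
structure Bs (G : SimpleGraph V) (N : ℕ) [NeZero N] (z : ZMod N → V) (w : V) (E : Finset V)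
    (X : V → V → Prop) : Prop where
  /-- the wheel -/
  whl : Whl G N z w
  /-- disjoint -/
  out : ∀ x ∈ E, x ∉ WS z w
  /-- many places for every vertex -/
  plc : ∀ x ∈ E, E.card + 2 ≤ tot z (G.Adj x)
  /-- common neighbours -/
  com : ∀ x ∈ E, ∀ v, (v ∈ WS z w ∨ v ∈ E) → x ≠ v → ¬ X x v →
    ∃ c, (c ∈ WS z w ∨ c ∈ E) ∧ G.Adj x c ∧ G.Adj c v
  /-- two neighbours on the rim -/
  nb : ∀ x ∈ E, ∀ v, ∃ i, z i ≠ v ∧ G.Adj x (z i)
  /-- adjacent rim neighbours -/
  adj : ∀ x ∈ E, ∀ y ∈ E, x ≠ y → ∃ i i', G.Adj (z i) (z i') ∧ G.Adj x (z i) ∧ G.Adj (z i') y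

namespace Bs

variable (h : Bs G N z w E X)

include h

lemma core (F : Finset V) {s t : V} (hs : s ∈ WS z w) (ht : t ∈ WS z w)
    (hst : s ≠ t) {j : ℕ} (h3 : 3 ≤ j) (hN : 3 ≤ N) (hj : j ≤ N + 1 + (E.card - F.card))
    (hF : F ⊆ E) :
    ∃ l, PathL G s t l ∧ l.length = j ∧ ∀ y ∈ l, y ∈ WS z w ∨ (y ∈ E ∧ y ∉ F) := by
  classical
  rcases le_or_gt j (N + 1) with hjN | hjN
  · obtain ⟨l, h1, h2, h3, _⟩ := h.whl.paths hs ht hst h3 hjN
    exact ⟨l, h1, h2, fun y hy => Or.inl (h3 y hy)⟩
  · obtain ⟨l, h1, h2, h3, h4⟩ := h.whl.paths hs ht hst (j := N + 1) (by omega) le_rfl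
    have hcF : (E \ F).card = E.card - F.card := by
      rw [Finset.card_sdiff_of_subset hF]
    set Y : List V := ((E \ F).toList).take (j - (N + 1)) with hY
    have hYl : Y.length = j - (N + 1) := by
      rw [hY, List.length_take, Finset.length_toList, hcF]
      omega
    have hYm : ∀ y ∈ Y, y ∈ E ∧ y ∉ F := by
      intro y hy
      have := List.mem_of_mem_take hy
      rw [Finset.mem_toList, Finset.mem_sdiff] at this
      exact this
    obtain ⟨l', k1, k2, k3⟩ := insert_many Y l h1
      (List.Nodup.sublist (List.take_sublist _ _) (Finset.nodup_toList _))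
      (by
        intro y hy hy'
        exact h.out y (hYm y hy).1 (h3 _ hy'))
      (by
        intro y hy
        have q1 := h.plc y (hYm y hy).1
        have q2 := h4 rfl (G.Adj y)
        omega)
    refine ⟨l', k1, by omega, ?_⟩
    intro y hy
    rcases k3 y hy with q | q
    · exact Or.inl (h3 y q)
    · exact Or.inr (hYm y q)

variable [DecidableEq V]

/-- THE BASE -/
theorem plx (hN : 3 ≤ N) (hX : ∀ a e, X a e → X e a) {U : Finset V}
    (hU : ∀ v, v ∈ U ↔ v ∈ WS z w ∨ v ∈ E) (hc : U.card = N + 1 + E.card) : PLx G X U := by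
  -- an end in `E`
  have key : ∀ x ∈ E, ∀ v ∈ WS z w, ∀ j, 3 ≤ j → j ≤ U.card → (j = 3 → ¬ X x v) →
      ∃ l, PathL G x v l ∧ l.length = j ∧ ∀ y ∈ l, y ∈ U := by
    intro x hx v hv j j3 jU jX
    have hxv : x ≠ v := fun q => h.out x hx (q ▸ hv)
    rcases Nat.eq_or_lt_of_le j3 with rfl | j4
    · obtain ⟨c, hc', c1, c2⟩ := h.com x hx v (Or.inl hv) hxv (jX rfl)
      refine ⟨[x, c, v], ?_, rfl, ?_⟩
      · refine ((PathL.single v).cons c2 ?_).cons c1 ?_
        · rw [List.mem_singleton]
          exact c2.ne
        · simp only [List.mem_cons, List.not_mem_nil, or_false, not_or]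
          exact ⟨c1.ne, hxv⟩
      · intro y hy
        simp only [List.mem_cons, List.not_mem_nil, or_false] at hy
        rw [hU]
        rcases hy with rfl | rfl | rfl
        · exact Or.inr hx
        · exact hc'
        · exact Or.inl hv
    · obtain ⟨i, i1, i2⟩ := h.nb x hx v
      have hE1 : 1 ≤ E.card := Finset.card_pos.2 ⟨x, hx⟩
      obtain ⟨l, k1, k2, k3⟩ := h.core {x} (Set.mem_insert_of_mem _ ⟨i, rfl⟩) hv i1
        (j := j - 1) (by omega) hN (by
          rw [Finset.card_singleton]
          omega) (by
          rw [Finset.singleton_subset_iff]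
          exact hx)
      refine ⟨x :: l, k1.cons i2 ?_, ?_, ?_⟩
      · intro hxl
        rcases k3 _ hxl with q | q
        · exact h.out x hx q
        · exact q.2 (Finset.mem_singleton_self x)
      · rw [List.length_cons]
        omega
      · intro y hy
        rw [hU]
        rcases List.mem_cons.1 hy with rfl | q
        · exact Or.inr hx
        · rcases k3 y q with q | q
          · exact Or.inl q
          · exact Or.inr q.1
  intro a ha e he hae j j3 jU jX
  rcases (hU a).1 ha with ha' | ha' <;> rcases (hU e).1 he with he' | he'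
  · obtain ⟨l, k1, k2, k3⟩ := h.core ∅ ha' he' hae j3 hN (by
      rw [Finset.card_empty]
      omega) (Finset.empty_subset _)
    refine ⟨l, k1, k2, fun y hy => ?_⟩
    rw [hU]
    rcases k3 y hy with q | q
    · exact Or.inl q
    · exact Or.inr q.1
  · obtain ⟨l, l1, l2, l3⟩ := key e he' a ha' j j3 jU (fun q k => jX q (hX _ _ k))
    exact ⟨l.reverse, l1.reverse, by rw [List.length_reverse, l2],
      fun y hy => l3 y (List.mem_reverse.1 hy)⟩
  · exact key a ha' e he' j j3 jU jX
  · rcases Nat.eq_or_lt_of_le j3 with rfl | j4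
    · obtain ⟨c, hc', c1, c2⟩ := h.com a ha' e (Or.inr he') hae (jX rfl)
      refine ⟨[a, c, e], ?_, rfl, ?_⟩
      · refine ((PathL.single e).cons c2 ?_).cons c1 ?_
        · rw [List.mem_singleton]
          exact c2.ne
        · simp only [List.mem_cons, List.not_mem_nil, or_false, not_or]
          exact ⟨c1.ne, hae⟩
      · intro y hy
        simp only [List.mem_cons, List.not_mem_nil, or_false] at hy
        rw [hU]
        rcases hy with rfl | rfl | rfl
        · exact Or.inr ha'
        · exact hc'
        · exact Or.inr he'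
    · obtain ⟨i, i', i1, i2, i3⟩ := h.adj a ha' e he' hae
      have hz1 : z i ∈ WS z w := Set.mem_insert_of_mem _ ⟨i, rfl⟩
      have hz2 : z i' ∈ WS z w := Set.mem_insert_of_mem _ ⟨i', rfl⟩
      have hE2 : 2 ≤ E.card := by
        have : ({a, e} : Finset V) ⊆ E := by
          intro y hy
          rw [Finset.mem_insert, Finset.mem_singleton] at hy
          rcases hy with rfl | rfl
          · exact ha'
          · exact he'
        have h2 := Finset.card_le_card this
        rwa [Finset.card_pair hae] at h2
      have mk : ∀ l, PathL G (z i) (z i') l → (∀ y ∈ l, y ∈ WS z w ∨ (y ∈ E ∧ y ∉ ({a, e} :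
          Finset V))) → PathL G a e (a :: (l ++ [e])) ∧ ∀ y ∈ a :: (l ++ [e]), y ∈ U := by
        intro l k1 k3
        have na : a ∉ l := by
          intro hx
          rcases k3 _ hx with q | q
          · exact h.out a ha' q
          · exact q.2 (Finset.mem_insert_self _ _)
        have ne : e ∉ l := by
          intro hx
          rcases k3 _ hx with q | q
          · exact h.out e he' q
          · exact q.2 (Finset.mem_insert_of_mem (Finset.mem_singleton_self _))
        refine ⟨(k1.snoc i3 ne).cons i2 ?_, ?_⟩
        · rw [List.mem_append, List.mem_singleton, not_or]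
          exact ⟨na, hae⟩
        · intro y hy
          rw [hU]
          rcases List.mem_cons.1 hy with rfl | q
          · exact Or.inr ha'
          · rcases List.mem_append.1 q with q | q
            · rcases k3 y q with q | q
              · exact Or.inl q
              · exact Or.inr q.1
            · rw [List.mem_singleton] at q
              rw [q]
              exact Or.inr he'
      rcases Nat.eq_or_lt_of_le (show 4 ≤ j from j4) with rfl | j5
      · have k1 : PathL G (z i) (z i') [z i, z i'] := by
          refine (PathL.single (z i')).cons i1 ?_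
          rw [List.mem_singleton]
          exact i1.ne
        obtain ⟨q1, q2⟩ := mk _ k1 (by
          intro y hy
          simp only [List.mem_cons, List.not_mem_nil, or_false] at hy
          rcases hy with rfl | rfl
          · exact Or.inl hz1
          · exact Or.inl hz2)
        exact ⟨_, q1, rfl, q2⟩
      · obtain ⟨l, k1, k2, k3⟩ := h.core {a, e} hz1 hz2 i1.ne (j := j - 2) (by omega) hN (by
          rw [Finset.card_pair hae]
          omega) (by
          intro y hy
          rw [Finset.mem_insert, Finset.mem_singleton] at hy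
          rcases hy with rfl | rfl
          · exact ha'
          · exact he')
        obtain ⟨q1, q2⟩ := mk _ k1 k3
        refine ⟨_, q1, ?_, q2⟩
        rw [List.length_cons, List.length_append, List.length_singleton]
        omega

end Bs

/-! ### Needed edges -/

/-- the edges of the only path with four vertices are needed -/
lemma needed4 {n : ℕ} {a y p q : V} (hn : 4 ≤ n) (hay : a ≠ y)
    (hu : ∀ d e, G.Adj a d → G.Adj d e → G.Adj e y → d ≠ y → e ≠ a → d = p ∧ e = q) {f : Sym2 V}
    (hf : f = s(a, p) ∨ f = s(p, q) ∨ f = s(q, y)) : ¬ IsPLD (G.deleteEdges {f}) n := by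
  intro hP
  obtain ⟨l, hl, hl4⟩ := (hasP_iff.1 (hP 4 (by norm_num) hn)) a y hay
  match l, hl4 with
  | [p', q', r', t'], _ =>
    have e1 : p' = a := by simpa using hl.head
    have e2 : t' = y := by simpa using hl.last
    have hc := hl.chain
    rw [List.isChain_cons_cons, List.isChain_cons_cons, List.isChain_cons_cons] at hc
    obtain ⟨c1, c2, c3, _⟩ := hc
    subst e1 e2
    rw [SimpleGraph.deleteEdges_adj] at c1 c2 c3
    have hnd := hl.nodup
    simp only [List.nodup_cons, List.mem_cons, List.not_mem_nil, or_false, not_or] at hnd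
    obtain ⟨e3, e4⟩ := hu q' r' c1.1 c2.1 c3.1 (fun k => hnd.2.1.2 k)
      (fun k => hnd.1.2.1 k.symm)
    subst e3 e4
    rcases hf with rfl | rfl | rfl
    · exact c1.2 rfl
    · exact c2.2 rfl
    · exact c3.2 rfl

open scoped Classical in
/-- the edges at a vertex of degree three are needed -/
lemma needed_deg [Fintype V] {n : ℕ} (hc : Fintype.card V = n) (hn : 4 ≤ n) {a c p q t : V}
    (h : ∀ d, G.Adj a d → d = p ∨ d = q ∨ d = t) (hcm : c = p ∨ c = q ∨ c = t) :
    ¬ IsPLD (G.deleteEdges {s(a, c)}) n := by
  intro hP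
  have h3 := three_le_degree hP hc hn a
  rw [← SimpleGraph.card_neighborFinset_eq_degree] at h3
  have key : ∀ T : Finset V, (∀ d ∈ T, (G.deleteEdges {s(a, c)}).Adj a d) → T.card ≤ 2 := by
    classical
    intro T hT
    have hsub : T ⊆ ({p, q, t} : Finset V).erase c := by
      intro d hd
      have hd' := hT d hd
      rw [SimpleGraph.deleteEdges_adj] at hd'
      rw [Finset.mem_erase]
      refine ⟨?_, ?_⟩
      · rintro rfl
        exact hd'.2 rfl
      · simp only [Finset.mem_insert, Finset.mem_singleton]
        exact h d hd'.1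
    have h4 := Finset.card_le_card hsub
    have h8 : c ∈ ({p, q, t} : Finset V) := by
      simp only [Finset.mem_insert, Finset.mem_singleton]
      exact hcm
    rw [Finset.card_erase_of_mem h8] at h4
    have h5 : ({p, q, t} : Finset V).card ≤ 3 := Finset.card_le_three
    omega
  have h7 := h3.trans (key _ (fun d hd => by rwa [SimpleGraph.mem_neighborFinset] at hd))
  omega

end MPd41ace
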