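import Mathlib

/-!
Paths with a prescribed number of vertices, PLD-maximal graphs, lists that are paths, insertion of
vertices into a path.
-/

set_option autoImplicit false

namespace MPd41ace

open SimpleGraph

variable {V W : Type*}

/-- property `P_i`: any two distinct vertices are the end points of a path with exactly `i`
vertices -/
def HasP (G : SimpleGraph V) (i : ℕ) : Prop :=
  ∀ u v : V, u ≠ v → ∃ p : G.Walk u v, p.IsPath ∧ p.support.length = i

/-- `G` (of order `n`) is PLD-maximal: property `P_i` for `3 ≤ i ≤ n` -/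
def IsPLD (G : SimpleGraph V) (n : ℕ) : Prop :=
  ∀ i : ℕ, 3 ≤ i → i ≤ n → HasP G i

/-- `G` (of order `n`) is a minimal PLD-maximal graph -/
def IsMinPLD (G : SimpleGraph V) (n : ℕ) : Prop :=
  IsPLD G n ∧ ∀ e ∈ G.edgeSet, ¬ IsPLD (G.deleteEdges {e}) n

/-! ### Lists that are paths -/

/-- `l` is a path from `u` to `v` -/
structure PathL (G : SimpleGraph V) (u v : V) (l : List V) : Prop where
  /-- distinct vertices -/
  nodup : l.Nodup
  /-- consecutive vertices are adjacent -/
  chain : l.IsChain G.Adj
  /-- first vertex -/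
  head : l.head? = some u
  /-- last vertex -/
  last : l.getLast? = some v

lemma exists_path_iff {G : SimpleGraph V} {u v : V} {i : ℕ} :
    (∃ p : G.Walk u v, p.IsPath ∧ p.support.length = i) ↔ ∃ l, PathL G u v l ∧ l.length = i := by
  constructor
  · rintro ⟨p, hp, rfl⟩
    refine ⟨p.support, ⟨hp.support_nodup, p.isChain_adj_support, ?_, ?_⟩, rfl⟩
    · rw [List.head?_eq_some_head p.support_ne_nil, p.head_support]
    · rw [List.getLast?_eq_some_getLast p.support_ne_nil, p.getLast_support]
  · rintro ⟨l, ⟨h1, h2, h3, h4⟩, rfl⟩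
    have hne : l ≠ [] := by
      rintro rfl
      simp at h3
    have e1 : l.head hne = u := by
      rw [List.head?_eq_some_head hne] at h3
      exact Option.some_injective _ h3
    have e2 : l.getLast hne = v := by
      rw [List.getLast?_eq_some_getLast hne] at h4
      exact Option.some_injective _ h4
    subst e1 e2
    refine ⟨Walk.ofSupport l hne h2, ?_, ?_⟩
    · rw [Walk.isPath_def, Walk.support_ofSupport]
      exact h1
    · rw [Walk.support_ofSupport]

lemma hasP_iff {G : SimpleGraph V} {i : ℕ} :
    HasP G i ↔ ∀ u v : V, u ≠ v → ∃ l, PathL G u v l ∧ l.length = i := by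
  unfold HasP
  simp only [exists_path_iff]

namespace PathL

variable {G H : SimpleGraph V} {u v a b s : V} {l l₁ l₂ : List V}

lemma ne_nil (h : PathL G u v l) : l ≠ [] := by
  rintro rfl
  have := h.head
  simp at this

lemma mem_left (h : PathL G u v l) : u ∈ l := List.mem_of_mem_head? (by rw [h.head]; simp)

lemma mem_right (h : PathL G u v l) : v ∈ l := List.mem_of_mem_getLast? (by rw [h.last]; simp)

lemma single (u : V) : PathL G u u [u] :=
  ⟨List.nodup_singleton u, .singleton u, rfl, rfl⟩

lemma mono (h : PathL G u v l) (hGH : ∀ x y, x ∈ l → y ∈ l → G.Adj x y → H.Adj x y) :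
    PathL H u v l := by
  refine ⟨h.nodup, ?_, h.head, h.last⟩
  have := h.chain
  rw [List.isChain_iff_getElem] at this ⊢
  intro i hi
  exact hGH _ _ (List.getElem_mem _) (List.getElem_mem _) (this i hi)

lemma mono' (h : PathL G u v l) (hGH : G ≤ H) : PathL H u v l :=
  h.mono fun _ _ _ _ h => hGH h

lemma cons (h : PathL G s v l) (hu : G.Adj u s) (hn : u ∉ l) : PathL G u v (u :: l) := by
  refine ⟨List.nodup_cons.2 ⟨hn, h.nodup⟩, h.chain.cons ?_, rfl, ?_⟩
  · intro y hy
    rw [h.head] at hy
    have : s = y := by simpa using hy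
    rwa [← this]
  · rw [List.getLast?_cons_of_ne_nil h.ne_nil]
    exact h.last

lemma append (h₁ : PathL G u a l₁) (h₂ : PathL G b v l₂) (hab : G.Adj a b)
    (hd : List.Disjoint l₁ l₂) : PathL G u v (l₁ ++ l₂) := by
  refine ⟨List.nodup_append'.2 ⟨h₁.nodup, h₂.nodup, hd⟩, h₁.chain.append h₂.chain ?_, ?_, ?_⟩
  · intro x hx y hy
    rw [h₁.last] at hx
    rw [h₂.head] at hy
    have e1 : a = x := by simpa using hx
    have e2 : b = y := by simpa using hy
    rwa [← e1, ← e2]
  · rw [List.head?_append_of_ne_nil _ h₁.ne_nil]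
    exact h₁.head
  · rw [List.getLast?_append_of_ne_nil _ h₂.ne_nil]
    exact h₂.last

lemma reverse (h : PathL G u v l) : PathL G v u l.reverse := by
  refine ⟨List.nodup_reverse.2 h.nodup, ?_, ?_, ?_⟩
  · rw [List.isChain_reverse]
    exact h.chain.imp fun a b hab => hab.symm
  · rw [List.head?_reverse]
    exact h.last
  · rw [List.getLast?_reverse]
    exact h.head

lemma snoc (h : PathL G u s l) (hv : G.Adj s v) (hn : v ∉ l) : PathL G u v (l ++ [v]) :=
  h.append (single v) hv (by
    intro x hx hx'
    rw [List.mem_singleton] at hx'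
    exact hn (hx' ▸ hx))

end PathL

/-! ### Counting good pairs -/

open scoped Classical in
/-- number of consecutive pairs of `l` with both members in `A` -/
noncomputable def cnt (A : V → Prop) : List V → ℕ
  | [] => 0
  | [_] => 0
  | a :: b :: t => (if A a ∧ A b then 1 else 0) + cnt A (b :: t)

variable {A B : V → Prop}

@[simp] lemma cnt_nil : cnt A [] = 0 := rfl

@[simp] lemma cnt_single (a : V) : cnt A [a] = 0 := rfl

open scoped Classical in
lemma cnt_cons_cons (a b : V) (t : List V) :
    cnt A (a :: b :: t) = (if A a ∧ A b then 1 else 0) + cnt A (b :: t) := rfl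

lemma cnt_le_cons (a : V) (l : List V) : cnt A l ≤ cnt A (a :: l) := by
  cases l with
  | nil => simp
  | cons b t =>
    rw [cnt_cons_cons]
    omega

lemma cnt_split (l₁ l₂ : List V) (a : V) :
    cnt A (l₁ ++ a :: l₂) = cnt A (l₁ ++ [a]) + cnt A (a :: l₂) := by
  induction l₁ with
  | nil => simp
  | cons b t ih =>
    cases t with
    | nil =>
      show cnt A (b :: a :: l₂) = cnt A [b, a] + _
      rw [cnt_cons_cons, cnt_cons_cons]
      simp
    | cons c t =>
      show cnt A (b :: c :: (t ++ a :: l₂)) = cnt A (b :: c :: (t ++ [a])) + _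
      rw [cnt_cons_cons, cnt_cons_cons]
      have : cnt A (c :: (t ++ a :: l₂)) = cnt A (c :: (t ++ [a])) + cnt A (a :: l₂) := ih
      omega

lemma cnt_append_le (l₁ l₂ : List V) : cnt A l₁ + cnt A l₂ ≤ cnt A (l₁ ++ l₂) := by
  induction l₁ with
  | nil => simp
  | cons b t ih =>
    cases t with
    | nil =>
      have := cnt_le_cons (A := A) b l₂
      simpa using this
    | cons c t =>
      show cnt A (b :: c :: t) + _ ≤ cnt A (b :: c :: (t ++ l₂))
      rw [cnt_cons_cons, cnt_cons_cons]
      have : cnt A (c :: t) + cnt A l₂ ≤ cnt A (c :: (t ++ l₂)) := ih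
      omega

open scoped Classical in
lemma cnt_concat (l : List V) (a b : V) :
    cnt A (l ++ [a] ++ [b]) = cnt A (l ++ [a]) + if A a ∧ A b then 1 else 0 := by
  rw [List.append_assoc]
  show cnt A (l ++ a :: [b]) = _
  rw [cnt_split, cnt_cons_cons]
  simp

open scoped Classical in
lemma cnt_reverse (l : List V) : cnt A l.reverse = cnt A l := by
  induction l with
  | nil => rfl
  | cons a t ih =>
    cases t with
    | nil => rfl
    | cons b t =>
      rw [List.reverse_cons, List.reverse_cons, cnt_concat, cnt_cons_cons, ← List.reverse_cons, ih]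
      simp only [and_comm, add_comm]

/-- a good pair can be found -/
lemma exists_pair {l : List V} (h : 0 < cnt A l) :
    ∃ l₁ a b l₂, l = l₁ ++ a :: b :: l₂ ∧ A a ∧ A b := by
  induction l with
  | nil => simp at h
  | cons a t ih =>
    cases t with
    | nil => simp at h
    | cons b t =>
      rw [cnt_cons_cons] at h
      by_cases hab : A a ∧ A b
      · exact ⟨[], a, b, t, rfl, hab.1, hab.2⟩
      · rw [if_neg hab] at h
        obtain ⟨l₁, x, y, l₂, e, hx, hy⟩ := ih (by omega)
        exact ⟨a :: l₁, x, y, l₂, by rw [e]; rfl, hx, hy⟩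

lemma cnt_insert (l₁ l₂ : List V) (a b x : V) :
    cnt B (l₁ ++ a :: b :: l₂) ≤ cnt B (l₁ ++ a :: x :: b :: l₂) + 1 := by
  rw [cnt_split, cnt_split (l₂ := x :: b :: l₂), cnt_cons_cons, cnt_cons_cons, cnt_cons_cons]
  split_ifs <;> omega

/-- INSERTION: every vertex of `X` can be inserted -/
theorem insert_many {G : SimpleGraph V} {u v : V} : ∀ (X l : List V), PathL G u v l → X.Nodup →
    List.Disjoint X l → (∀ x ∈ X, X.length ≤ cnt (G.Adj x) l) →
    ∃ l', PathL G u v l' ∧ l'.length = l.length + X.length ∧ ∀ y ∈ l', y ∈ l ∨ y ∈ X := by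
  intro X
  induction X with
  | nil => exact fun l hl _ _ _ => ⟨l, hl, rfl, fun y hy => Or.inl hy⟩
  | cons x X ih =>
    intro l hl hX hd hc
    have hx := hc x List.mem_cons_self
    obtain ⟨l₁, a, b, l₂, rfl, ha, hb⟩ := exists_pair (l := l) (A := G.Adj x) (by
      rw [List.length_cons] at hx
      omega)
    have hxl : x ∉ l₁ ++ a :: b :: l₂ := fun h => hd List.mem_cons_self h
    have hP : PathL G u v (l₁ ++ a :: x :: b :: l₂) := by
      have hn := hl.nodup
      have hch := hl.chain
      have hh := hl.head
      have hla := hl.last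
      refine ⟨?_, ?_, ?_, ?_⟩
      · have p : List.Perm (l₁ ++ a :: x :: b :: l₂) (x :: (l₁ ++ a :: b :: l₂)) := by
          have q := List.perm_middle (a := x) (l₁ := l₁ ++ [a]) (l₂ := b :: l₂)
          simpa using q
        rw [p.nodup_iff]
        exact List.nodup_cons.2 ⟨hxl, hn⟩
      · rw [List.isChain_append_cons_cons] at hch ⊢
        obtain ⟨c1, c2, c3⟩ := hch
        refine ⟨c1, ha.symm, ?_⟩
        rw [List.isChain_cons_cons]
        exact ⟨hb, c3⟩
      · cases l₁ with
        | nil => simpa using hh
        | cons c t => simpa using hh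
      · rw [List.getLast?_append_of_ne_nil _ (by simp)] at hla ⊢
        rw [List.getLast?_cons_cons] at hla ⊢
        rw [List.getLast?_cons_cons]
        exact hla
    obtain ⟨l', h1, h2, h3⟩ := ih (l₁ ++ a :: x :: b :: l₂) hP (List.nodup_cons.1 hX).2
      (by
        intro y hy hy'
        have hyx : y ≠ x := by
          rintro rfl
          exact (List.nodup_cons.1 hX).1 hy
        apply hd (List.mem_cons_of_mem _ hy)
        simp only [List.mem_append, List.mem_cons] at hy' ⊢
        tauto)
      (by
        intro y hy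
        have k1 := hc y (List.mem_cons_of_mem _ hy)
        have k2 := cnt_insert (B := G.Adj y) l₁ l₂ a b x
        rw [List.length_cons] at k1
        omega)
    refine ⟨l', h1, ?_, ?_⟩
    · rw [h2]
      simp only [List.length_append, List.length_cons]
      omega
    · intro y hy
      rcases h3 y hy with h | h
      · simp only [List.mem_append, List.mem_cons] at h ⊢
        tauto
      · exact Or.inr (List.mem_cons_of_mem _ h)

end MPd41ace
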