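import Pool.Agent.Lib.MP_d41ace_co.Family

/-!
Number of edges of the graphs of the family; transport to `Fin n`.
-/

set_option autoImplicit false

namespace MPd41ace

open SimpleGraph

/-! ### Isomorphisms -/

section iso

variable {V W : Type*} {G : SimpleGraph V} {H : SimpleGraph W}

lemma PathL.map (f : G ≃g H) {u v : V} {l : List V} (h : PathL G u v l) :
    PathL H (f u) (f v) (l.map f) := by
  refine ⟨h.nodup.map f.injective, ?_, ?_, ?_⟩
  · rw [List.isChain_map]
    exact h.chain.imp fun a b hab => f.map_adj_iff.2 hab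
  · rw [List.head?_map, h.head]
    rfl
  · rw [List.getLast?_map, h.last]
    rfl

lemma IsPLD.iso (f : G ≃g H) {n : ℕ} (h : IsPLD G n) : IsPLD H n := by
  intro i h3 hi
  rw [hasP_iff]
  intro u v huv
  obtain ⟨l, h1, h2⟩ := hasP_iff.1 (h i h3 hi) (f.symm u) (f.symm v)
    (fun e => huv (f.symm.injective e))
  refine ⟨l.map f, ?_, by rw [List.length_map, h2]⟩
  have := h1.map f
  rwa [RelIso.apply_symm_apply, RelIso.apply_symm_apply] at this

/-- the isomorphism after the deletion of an edge -/
def isoDel (f : G ≃g H) (a c : V) :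
    G.deleteEdges {s(a, c)} ≃g H.deleteEdges {s(f a, f c)} where
  toEquiv := f.toEquiv
  map_rel_iff' := by
    intro x y
    rw [SimpleGraph.deleteEdges_adj, SimpleGraph.deleteEdges_adj]
    have e1 : H.Adj (f.toEquiv x) (f.toEquiv y) ↔ G.Adj x y := f.map_adj_iff
    have e2 : s(f.toEquiv x, f.toEquiv y) ∈ ({s(f a, f c)} : Set (Sym2 W)) ↔
        s(x, y) ∈ ({s(a, c)} : Set (Sym2 V)) := by
      rw [Set.mem_singleton_iff, Set.mem_singleton_iff]
      have e3 : s(f.toEquiv x, f.toEquiv y) = Sym2.map f s(x, y) := rfl
      have e4 : s(f a, f c) = Sym2.map f s(a, c) := rfl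
      rw [e3, e4]
      exact (Sym2.map.injective f.injective).eq_iff
    rw [e1, e2]

lemma IsMinPLD.iso (f : G ≃g H) {n : ℕ} (h : IsMinPLD G n) : IsMinPLD H n := by
  refine ⟨h.1.iso f, fun e he hP => ?_⟩
  induction e using Sym2.ind with
  | _ a c =>
    rw [SimpleGraph.mem_edgeSet] at he
    have ha : f (f.symm a) = a := f.apply_symm_apply a
    have hc : f (f.symm c) = c := f.apply_symm_apply c
    have hadj : G.Adj (f.symm a) (f.symm c) := f.symm.map_adj_iff.2 he
    apply h.2 s(f.symm a, f.symm c) hadj
    have g := isoDel f (f.symm a) (f.symm c)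
    rw [ha, hc] at g
    exact hP.iso g.symm

end iso

/-- the pair `(n, m)` is realised by a minimal PLD-maximal graph -/
def Realised (n m : ℕ) : Prop :=
  ∃ G : SimpleGraph (Fin n), IsMinPLD G n ∧ G.edgeSet.ncard = m

lemma realised_of {V : Type*} [Fintype V] {G : SimpleGraph V} {n m : ℕ}
    (hn : Fintype.card V = n) (h : IsMinPLD G n) (hm : G.edgeSet.ncard = m) : Realised n m := by
  have e : V ≃ Fin n := Fintype.equivFinOfCardEq hn
  have f : G ≃g G.map e.toEmbedding := SimpleGraph.Iso.map e G
  refine ⟨_, h.iso f, ?_⟩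
  rw [← hm, ← Nat.card_coe_set_eq, ← Nat.card_coe_set_eq]
  exact (Nat.card_congr f.mapEdgeSet).symm

/-! ### The number of edges -/

variable {N b : ℕ} {S : Fin b → ZMod N → Prop}

open scoped Classical in
lemma Good.card_edges [NeZero N] (h : Good N b S) :
    (fam S).edgeSet.ncard = 2 * N + ∑ x, (Finset.univ.filter (S x)).card := by
  have key : 2 * (fam S).edgeFinset.card = 4 * N + 2 * ∑ x, (Finset.univ.filter (S x)).card := by
    rw [← SimpleGraph.sum_degrees_eq_twice_card_edges]
    have deg : ∀ v, (fam S).degree v = ∑ u, if (fam S).Adj v u then 1 else 0 := by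
      intro v
      rw [← SimpleGraph.card_neighborFinset_eq_degree, SimpleGraph.neighborFinset_eq_filter,
        Finset.card_filter]
    simp only [deg, Fintype.sum_sum_type, Fintype.sum_option]
    have t1 : ∀ i : ZMod N, (∑ j : ZMod N, if (fam S).Adj (.inl i) (.inl j) then 1 else 0) = 2 := by
      intro i
      rw [← Finset.card_filter]
      have : (Finset.univ.filter fun j : ZMod N => (fam S).Adj (.inl i) (.inl j))
          = {i + 1, i - 1} := by
        ext j
        rw [Finset.mem_filter, Finset.mem_insert, Finset.mem_singleton]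
        constructor
        · rintro ⟨_, k⟩
          rcases (adj_rim_rim.1 k).2 with e | e
          · exact Or.inl e
          · right
            rw [e]
            ring
        · rintro (e | e)
          · refine ⟨Finset.mem_univ _, ?_⟩
            rw [e]
            exact h.whl.rim i
          · refine ⟨Finset.mem_univ _, ?_⟩
            rw [e]
            have := h.whl.rim (i - 1)
            rw [sub_add_cancel] at this
            exact this.symm
      rw [this, Finset.card_pair]
      intro e
      apply h.two_ne
      have e3 : (2 : ZMod N) = (i + 1) - (i - 1) := by ring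
      rw [e3, e]
      ring
    have t2 : ∀ i : ZMod N, (if (fam S).Adj (.inl i) (.inr none) then 1 else 0) = 1 := fun i =>
      if_pos adj_rim_hb
    have t3 : ∀ (i : ZMod N) (x : Fin b), (if (fam S).Adj (.inl i) (.inr (some x)) then 1 else 0)
        = if S x i then 1 else 0 := fun i x => by
      simp only [show (fam S).Adj (.inl i) (.inr (some x)) ↔ S x i from adj_rim_ex]
    have t4 : ∀ i : ZMod N, (if (fam S).Adj (.inr none) (.inl i) then 1 else 0) = 1 := fun i =>
      if_pos adj_hb_rim
    have t5 : (if (fam S).Adj (.inr none) (.inr none) then 1 else 0) = 0 :=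
      if_neg (SimpleGraph.irrefl _)
    have t6 : ∀ x : Fin b, (if (fam S).Adj (.inr none) (.inr (some x)) then 1 else 0) = 0 :=
      fun x => if_neg not_adj_hb_ex
    have t7 : ∀ (x : Fin b) (i : ZMod N), (if (fam S).Adj (.inr (some x)) (.inl i) then 1 else 0)
        = if S x i then 1 else 0 := fun x i => by
      simp only [show (fam S).Adj (.inr (some x)) (.inl i) ↔ S x i from adj_ex_rim]
    have t8 : ∀ x : Fin b, (if (fam S).Adj (.inr (some x)) (.inr none) then 1 else 0) = 0 :=
      fun x => if_neg fun k => not_adj_hb_ex k.symm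
    have t9 : ∀ x y : Fin b, (if (fam S).Adj (.inr (some x)) (.inr (some y)) then 1 else 0) = 0 :=
      fun x y => if_neg not_adj_ex_ex
    simp only [t1, t2, t3, t4, t5, t6, t7, t8, t9, Finset.sum_add_distrib, Finset.sum_const,
      Finset.card_univ, ZMod.card, Finset.card_filter, smul_eq_mul, mul_zero, mul_one, add_zero]
    rw [Finset.sum_comm (s := (Finset.univ : Finset (ZMod N)))]
    ring
  rw [Set.ncard_eq_toFinset_card', ← SimpleGraph.edgeFinset]
  omega

/-- THE PAIRS REALISED BY THE FAMILY -/
theorem Good.realised [NeZero N] (h : Good N b S) {m : ℕ}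
    (hm : ∑ x, {i | S x i}.ncard = m) : Realised (N + 1 + b) (2 * N + m) := by
  classical
  refine realised_of (G := fam S) ?_ h.isMinPLD ?_
  · rw [Fintype.card_sum, Fintype.card_option, ZMod.card, Fintype.card_fin]
    ring
  · rw [h.card_edges, ← hm]
    congr 1
    refine Finset.sum_congr rfl fun x _ => ?_
    rw [Set.ncard_eq_toFinset_card']
    congr 1
    ext i
    simp

end MPd41ace
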