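import Pool.Agent.Lib.MP_d41ace_co.Base
import Pool.Agent.Lib.MP_d41ace_co.Count

/-!
A graph with a dominating vertex.
-/

set_option autoImplicit false

namespace MPd41ace

open SimpleGraph

variable {V : Type*}

/-- add a vertex joined to all vertices -/
def cone (H : SimpleGraph V) : SimpleGraph (Option V) where
  Adj a b := match a, b with
    | none, none => False
    | none, some _ => True
    | some _, none => True
    | some a, some b => H.Adj a b
  symm := ⟨by
    rintro (_ | a) (_ | b) h
    · exact h
    · trivial
    · trivial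
    · exact SimpleGraph.Adj.symm h⟩
  loopless := ⟨by
    rintro (_ | a) h
    · exact h
    · exact H.irrefl h⟩

variable {H : SimpleGraph V}

lemma cone_ss {a b : V} : (cone H).Adj (some a) (some b) ↔ H.Adj a b := Iff.rfl

lemma cone_ns {b : V} : (cone H).Adj none (some b) := trivial

lemma cone_sn {b : V} : (cone H).Adj (some b) none := trivial

/-- every vertex is the first vertex of a path through all vertices -/
def HT (H : SimpleGraph V) : Prop := ∀ v, ∃ w l, PathL H v w l ∧ ∀ x, x ∈ l

lemma PathL.pre_of {u v : V} {l₁ l₂ : List V} (h : PathL H u v (l₁ ++ l₂)) (h1 : l₁ ≠ []) :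
    ∃ w, PathL H u w l₁ := by
  refine ⟨l₁.getLast h1, ⟨(List.nodup_append'.1 h.nodup).1, h.chain.left_of_append, ?_, ?_⟩⟩
  · have := h.head
    rwa [List.head?_append_of_ne_nil _ h1] at this
  · exact List.getLast?_eq_some_getLast h1

lemma PathL.suf_of {u v : V} {l₁ l₂ : List V} (h : PathL H u v (l₁ ++ l₂)) (h2 : l₂ ≠ []) :
    ∃ w, PathL H w v l₂ := by
  refine ⟨l₂.head h2, ⟨(List.nodup_append'.1 h.nodup).2.1, h.chain.right_of_append, ?_, ?_⟩⟩
  · exact List.head?_eq_some_head h2
  · have := h.last
    rwa [List.getLast?_append_of_ne_nil _ h2] at this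

lemma PathL.take_of {u v : V} {l : List V} (h : PathL H u v l) {k : ℕ} (hk : 1 ≤ k) :
    ∃ w, PathL H u w (l.take k) := by
  have hne := h.ne_nil
  have h1 : l.take k ≠ [] := by
    rw [Ne, List.take_eq_nil_iff]
    rintro (e | e)
    · omega
    · exact hne e
  refine PathL.pre_of (l₂ := l.drop k) (v := v) ?_ h1
  rwa [List.take_append_drop]

lemma PathL.cone {u v : V} {l : List V} (h : PathL H u v l) :
    PathL (MPd41ace.cone H) (some u) (some v) (l.map some) := by
  refine ⟨h.nodup.map (Option.some_injective _), ?_, ?_, ?_⟩
  · rw [List.isChain_map]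
    exact h.chain
  · rw [List.head?_map, h.head]
    rfl
  · rw [List.getLast?_map, h.last]
    rfl

lemma none_not_mem {l : List V} : none ∉ l.map some := by
  rw [List.mem_map]
  rintro ⟨a, _, e⟩
  simp at e

theorem cone_isPLD [Fintype V] {N : ℕ} (hN : Fintype.card V = N) (h : HT H) :
    IsPLD (cone H) (N + 1) := by
  classical
  intro j h3 hj
  rw [hasP_iff]
  have len : ∀ {v w : V} {l : List V}, PathL H v w l → (∀ x, x ∈ l) → l.length = N := by
    intro v w l h1 h2
    rw [← hN, ← Finset.card_univ, ← List.toFinset_card_of_nodup h1.nodup]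
    congr 1
    ext x
    simp [h2 x]
  have key : ∀ v : V, ∃ l, PathL (cone H) (some v) none l ∧ l.length = j := by
    intro v
    obtain ⟨w, l, h1, h2⟩ := h v
    obtain ⟨w', h4⟩ := h1.take_of (k := j - 1) (by omega)
    refine ⟨_, h4.cone.snoc cone_sn none_not_mem, ?_⟩
    rw [List.length_append, List.length_map, List.length_take, len h1 h2, List.length_singleton]
    omega
  intro u v huv
  rcases u with _ | u <;> rcases v with _ | v
  · exact absurd rfl huv
  · obtain ⟨l, k1, k2⟩ := key v
    exact ⟨l.reverse, k1.reverse, by rw [List.length_reverse, k2]⟩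
  · exact key u
  · have huv' : u ≠ v := fun e => huv (by rw [e])
    obtain ⟨w, l, h1, h2⟩ := h u
    obtain ⟨l₁, l₂, rfl⟩ := List.append_of_mem (h2 v)
    have hl1 : l₁ ≠ [] := by
      rintro rfl
      have := h1.head
      rw [List.nil_append, List.head?_cons, Option.some_inj] at this
      exact huv' this.symm
    have hlen := len h1 h2
    have hp1 : 1 ≤ l₁.length := List.length_pos_iff.2 hl1
    rw [List.length_append, List.length_cons] at hlen
    obtain ⟨w1, k1⟩ := h1.pre_of hl1
    obtain ⟨w2, k2⟩ := h1.suf_of (List.cons_ne_nil v l₂)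
    have e2 : w2 = v := by
      have := k2.head
      rw [List.head?_cons, Option.some_inj] at this
      exact this.symm
    subst e2
    set s := min l₁.length (j - 2) with hs
    obtain ⟨w3, k3⟩ := k1.take_of (k := s) (by omega)
    obtain ⟨w4, k4⟩ := k2.take_of (k := j - 1 - s) (by omega)
    have hd : List.Disjoint l₁ (w2 :: l₂) := (List.nodup_append'.1 h1.nodup).2.2
    refine ⟨(l₁.take s).map some ++ ([none] ++ (((w2 :: l₂).take (j - 1 - s)).map some).reverse),
      ?_, ?_⟩
    · refine k3.cone.append ((PathL.single none).append k4.cone.reverse cone_ns ?_) cone_sn ?_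
      · intro x hx hx'
        rw [List.mem_singleton] at hx
        rw [List.mem_reverse, hx] at hx'
        exact none_not_mem hx'
      · intro x hx hx'
        rw [List.singleton_append, List.mem_cons, List.mem_reverse] at hx'
        rcases hx' with rfl | hx'
        · exact none_not_mem hx
        · rw [List.mem_map] at hx hx'
          obtain ⟨a, ha, rfl⟩ := hx
          obtain ⟨a', ha', e⟩ := hx'
          rw [Option.some_inj] at e
          subst e
          exact hd (List.mem_of_mem_take ha) (List.mem_of_mem_take ha')
    · rw [List.length_append, List.length_append, List.length_reverse, List.length_map,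
        List.length_map, List.length_take, List.length_take, List.length_singleton,
        List.length_cons]
      omega

theorem ht_of_cone [Fintype V] {N : ℕ} (hN : Fintype.card V = N) (h1 : 2 ≤ N)
    (h : IsPLD (cone H) (N + 1)) : HT H := by
  classical
  intro v
  obtain ⟨l, k1, k2⟩ := hasP_iff.1 (h (N + 1) (by omega) le_rfl) none (some v) (by simp)
  cases l with
  | nil => exact absurd rfl k1.ne_nil
  | cons a t =>
    have e1 : a = none := by
      have := k1.head
      rwa [List.head?_cons, Option.some_inj] at this
    subst e1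
    have hn := k1.nodup
    rw [List.nodup_cons] at hn
    have hch := k1.chain
    rw [List.length_cons] at k2
    have hne : t ≠ [] := by
      rintro rfl
      simp at k2
      omega
    obtain ⟨s, rfl⟩ : ∃ s : List V, t = s.map some := by
      have : ∀ t : List (Option V), none ∉ t → ∃ s : List V, t = s.map some := by
        intro t
        induction t with
        | nil => exact fun _ => ⟨[], rfl⟩
        | cons a t ih =>
          intro ht
          rw [List.mem_cons, not_or] at ht
          obtain ⟨s, rfl⟩ := ih ht.2
          rcases a with _ | a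
          · exact absurd rfl ht.1
          · exact ⟨a :: s, rfl⟩
      exact this t hn.1
    have hsne : s ≠ [] := by
      rintro rfl
      exact hne rfl
    have hlast := k1.last
    rw [List.getLast?_cons_of_ne_nil hne, List.getLast?_map] at hlast
    have hs : s.getLast? = some v := by
      rcases hg : s.getLast? with _ | b
      · rw [hg] at hlast
        simp at hlast
      · rw [hg] at hlast
        simp only [Option.map_some, Option.some_inj] at hlast
        rw [hlast]
    have hsn : s.Nodup := List.Nodup.of_map _ hn.2
    have hp : PathL H (s.head hsne) v s := by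
      refine ⟨hsn, ?_, List.head?_eq_some_head hsne, hs⟩
      have : (s.map some).IsChain (cone H).Adj := hch.tail
      rw [List.isChain_map] at this
      exact this
    refine ⟨_, s.reverse, hp.reverse, ?_⟩
    intro x
    rw [List.mem_reverse]
    have hc : s.toFinset = Finset.univ := by
      rw [← Finset.card_eq_iff_eq_univ, List.toFinset_card_of_nodup hsn, hN]
      rw [List.length_map] at k2
      omega
    rw [← List.mem_toFinset, hc]
    exact Finset.mem_univ x

lemma cone_del {a b : V} : (cone H).deleteEdges {s(some a, some b)} =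
    cone (H.deleteEdges {s(a, b)}) := by
  ext x y
  rw [SimpleGraph.deleteEdges_adj]
  rcases x with _ | x <;> rcases y with _ | y
  · exact ⟨fun k => k.1, fun k => ⟨k, by simp⟩⟩
  · exact ⟨fun k => k.1, fun k => ⟨k, by simp⟩⟩
  · exact ⟨fun k => k.1, fun k => ⟨k, by simp⟩⟩
  · rw [cone_ss, cone_ss, SimpleGraph.deleteEdges_adj]
    refine and_congr_right fun _ => not_congr ?_
    rw [Set.mem_singleton_iff, Set.mem_singleton_iff, Sym2.eq_iff, Sym2.eq_iff]
    simp

theorem cone_isMinPLD [Fintype V] {N : ℕ} (hN : Fintype.card V = N) (h1 : 2 ≤ N) (h : HT H)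
    (hc : ∀ a b, H.Adj a b → ¬ HT (H.deleteEdges {s(a, b)}))
    (hs : ∀ x, ∃ y, y ≠ x ∧ ∀ d, H.Adj x d → ¬ H.Adj d y) : IsMinPLD (cone H) (N + 1) := by
  refine ⟨cone_isPLD hN h, ?_⟩
  have key : ∀ x : V, ¬ IsPLD ((cone H).deleteEdges {s(some x, none)}) (N + 1) := by
    intro x
    obtain ⟨y, h2, h3⟩ := hs x
    refine needed (y := some y) (by omega) (fun e => h2 (Option.some_injective _ e).symm) ?_
    intro d k1 k2
    rcases d with _ | d
    · rfl
    · exact absurd k2 (h3 d k1)
  intro e he
  induction e using Sym2.ind with
  | _ a c =>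
    rw [SimpleGraph.mem_edgeSet] at he
    rcases a with _ | a <;> rcases c with _ | c
    · exact absurd he (SimpleGraph.irrefl _)
    · rw [Sym2.eq_swap]
      exact key c
    · exact key a
    · rw [cone_del]
      exact fun k => hc a c he (ht_of_cone hN h1 k)

/-- number of edges of a graph given by an oriented relation -/
lemma card_fromRel [Fintype V] {r : V → V → Prop} (hr : ∀ a b, r a b → a ≠ b ∧ ¬ r b a) :
    (SimpleGraph.fromRel r).edgeSet.ncard = {p : V × V | r p.1 p.2}.ncard := by
  symm
  refine Set.ncard_congr (fun p _ => s(p.1, p.2)) ?_ ?_ ?_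
  · rintro ⟨a, b⟩ h
    rw [SimpleGraph.mem_edgeSet, SimpleGraph.fromRel_adj]
    exact ⟨(hr a b h).1, Or.inl h⟩
  · rintro ⟨a, b⟩ ⟨a', b'⟩ h h' e
    rw [Sym2.eq_iff] at e
    rcases e with ⟨e1, e2⟩ | ⟨e1, e2⟩
    · exact Prod.ext e1 e2
    · exfalso
      have k := (hr a b h).2
      apply k
      have : r a' b' := h'
      simp only at e1 e2
      rw [e1, e2]
      exact this
  · intro e he
    induction e using Sym2.ind with
    | _ a c =>
      rw [SimpleGraph.mem_edgeSet, SimpleGraph.fromRel_adj] at he
      rcases he.2 with k | k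
      · exact ⟨(a, c), k, rfl⟩
      · exact ⟨(c, a), k, Sym2.eq_swap⟩

/-- number of edges of a cone -/
lemma card_cone [Fintype V] {N : ℕ} (hN : Fintype.card V = N) :
    (cone H).edgeSet.ncard = N + H.edgeSet.ncard := by
  classical
  have h1 : (cone H).edgeSet = (Set.range fun v : V => s(none, some v)) ∪
      (Sym2.map some '' H.edgeSet) := by
    ext e
    induction e using Sym2.ind with
    | _ a c =>
      rw [SimpleGraph.mem_edgeSet, Set.mem_union, Set.mem_range, Set.mem_image]
      constructor
      · intro h
        rcases a with _ | a <;> rcases c with _ | c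
        · exact absurd h (SimpleGraph.irrefl _)
        · exact Or.inl ⟨c, rfl⟩
        · exact Or.inl ⟨a, Sym2.eq_swap⟩
        · exact Or.inr ⟨s(a, c), h, rfl⟩
      · rintro (⟨v, e⟩ | ⟨f, hf, e⟩)
        · rw [Sym2.eq_iff] at e
          rcases e with ⟨e1, e2⟩ | ⟨e1, e2⟩
          · rw [← e1, ← e2]
            trivial
          · rw [← e1, ← e2]
            trivial
        · induction f using Sym2.ind with
          | _ x y =>
            rw [Sym2.map_mk, Sym2.eq_iff] at e
            rcases e with ⟨e1, e2⟩ | ⟨e1, e2⟩
            · rw [← e1, ← e2]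
              exact hf
            · rw [← e1, ← e2]
              exact SimpleGraph.Adj.symm hf
  rw [h1, Set.ncard_union_eq ?_ (Set.toFinite _) (Set.toFinite _)]
  · congr 1
    · rw [← hN, ← Nat.card_eq_fintype_card, ← Set.ncard_univ, ← Set.image_univ]
      refine Set.ncard_image_of_injective _ ?_
      intro a b e
      rw [Sym2.eq_iff] at e
      rcases e with ⟨_, e⟩ | ⟨e, _⟩
      · exact Option.some_injective _ e
      · simp at e
    · exact Set.ncard_image_of_injective _ (Sym2.map.injective (Option.some_injective _))
  · rw [Set.disjoint_left]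
    rintro e ⟨v, rfl⟩ ⟨f, hf, e⟩
    induction f using Sym2.ind with
    | _ x y =>
      rw [Sym2.map_mk, Sym2.eq_iff] at e
      rcases e with ⟨e1, _⟩ | ⟨_, e2⟩
      · simp at e1
      · simp at e2

end MPd41ace
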