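import Pool.Agent.Lib.MP_d41ace_co.Wheel

/-!
A wheel with an independent set of further vertices, joined to minimal total dominating sets of the
rim: a minimal PLD-maximal graph.
-/

set_option autoImplicit false

namespace MPd41ace

open SimpleGraph

/-- vertices: rim, hub, further vertices -/
abbrev VT (N b : ℕ) := ZMod N ⊕ Option (Fin b)

variable {N b : ℕ} {S : Fin b → ZMod N → Prop}

/-- the relation behind the graph -/
def rel (S : Fin b → ZMod N → Prop) : VT N b → VT N b → Prop
  | .inl i, .inl j => j = i + 1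
  | .inl _, .inr none => True
  | .inl i, .inr (some x) => S x i
  | _, _ => False

/-- the graph -/
def fam (S : Fin b → ZMod N → Prop) : SimpleGraph (VT N b) := SimpleGraph.fromRel (rel S)

/-- rim vertices -/
def rim (b : ℕ) (i : ZMod N) : VT N b := .inl i

/-- the hub -/
def hb (N b : ℕ) : VT N b := .inr none

/-- further vertices -/
def ex (N : ℕ) (x : Fin b) : VT N b := .inr (some x)

lemma adj_rim_ex {i : ZMod N} {x : Fin b} : (fam S).Adj (rim b i) (ex N x) ↔ S x i := by
  unfold fam
  rw [SimpleGraph.fromRel_adj]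
  simp [rel, rim, ex]

lemma adj_ex_rim {i : ZMod N} {x : Fin b} : (fam S).Adj (ex N x) (rim b i) ↔ S x i := by
  rw [SimpleGraph.adj_comm, adj_rim_ex]

lemma adj_rim_hb {i : ZMod N} : (fam S).Adj (rim b i) (hb N b) := by
  unfold fam
  rw [SimpleGraph.fromRel_adj]
  simp [rel, rim, hb]

lemma adj_hb_rim {i : ZMod N} : (fam S).Adj (hb N b) (rim b i) := adj_rim_hb.symm

lemma not_adj_hb_ex {x : Fin b} : ¬ (fam S).Adj (hb N b) (ex N x) := by
  unfold fam
  rw [SimpleGraph.fromRel_adj]
  simp [rel, hb, ex]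

lemma not_adj_ex_ex {x y : Fin b} : ¬ (fam S).Adj (ex N x) (ex N y) := by
  unfold fam
  rw [SimpleGraph.fromRel_adj]
  simp [rel, ex]

lemma adj_rim_rim {i j : ZMod N} :
    (fam S).Adj (rim b i) (rim b j) ↔ i ≠ j ∧ (j = i + 1 ∨ i = j + 1) := by
  unfold fam
  rw [SimpleGraph.fromRel_adj]
  simp [rel, rim]

/-- the vertices of the wheel -/
def WT (N b : ℕ) : Set (VT N b) := WS (rim b) (hb N b)

lemma vcases (v : VT N b) : (∃ i, v = rim b i) ∨ v = hb N b ∨ ∃ x, v = ex N x := by
  rcases v with i | _ | x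
  · exact Or.inl ⟨i, rfl⟩
  · exact Or.inr (Or.inl rfl)
  · exact Or.inr (Or.inr ⟨x, rfl⟩)

lemma rim_inj {i j : ZMod N} : rim b i = rim b j ↔ i = j := Sum.inl_injective.eq_iff

lemma rim_mem (i : ZMod N) : rim b i ∈ WT N b := Set.mem_insert_of_mem _ ⟨i, rfl⟩

lemma hb_mem : hb N b ∈ WT N b := Set.mem_insert _ _

lemma rim_ne_hb (i : ZMod N) : rim b i ≠ hb N b := Sum.inl_ne_inr

lemma rim_ne_ex (i : ZMod N) (x : Fin b) : rim b i ≠ ex N x := Sum.inl_ne_inr

lemma hb_ne_ex (x : Fin b) : hb N b ≠ ex N x := by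
  unfold hb ex
  simp

lemma ex_not_mem (x : Fin b) : ex N x ∉ WT N b := by
  rintro (h | ⟨i, h⟩)
  · exact hb_ne_ex x h.symm
  · exact rim_ne_ex i x h

lemma ex_inj {x y : Fin b} : ex N x = ex N y ↔ x = y := by
  unfold ex
  simp

/-- the conditions on the sets `S x` -/
structure Good (N b : ℕ) (S : Fin b → ZMod N → Prop) : Prop where
  /-- total domination -/
  dom : ∀ x i, S x (i - 1) ∨ S x (i + 1)
  /-- minimality -/
  mini : ∀ x i, S x i → ¬ S x (i + 2) ∨ ¬ S x (i - 2)
  /-- rim edges are needed -/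
  crit : ∀ i, ∃ x, (S x (i + 1) ∧ ¬ S x (i - 1)) ∨ (S x i ∧ ¬ S x (i + 2))
  /-- spokes are needed -/
  zero : ∀ i, ∃ q, q ≠ i ∧ q ≠ i + 2 ∧ i ≠ q + 2 ∧ ∀ x, ¬ (S x i ∧ S x q)
  /-- the sets meet -/
  meet : ∀ x y, ∃ i, S x i ∧ S y i
  /-- size -/
  size : 4 * (b + 2) ≤ N

namespace Good

variable (h : Good N b S)

include h

lemma one_ne : (1 : ZMod N) ≠ 0 := by
  have hs := h.size
  intro e
  have := MPd41ace.cast_inj (N := N) (s := 1) (t := 0) (by omega) (by omega) (by simpa using e)
  omega

lemma two_ne : (2 : ZMod N) ≠ 0 := by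
  have hs := h.size
  intro e
  have := MPd41ace.cast_inj (N := N) (s := 2) (t := 0) (by omega) (by omega) (by simpa using e)
  omega

lemma whl : Whl (fam S) N (rim b) (hb N b) := by
  refine ⟨fun i j => rim_inj.1, rim_ne_hb, fun i => ?_, fun i => adj_hb_rim⟩
  rw [adj_rim_rim]
  refine ⟨fun e => h.one_ne ?_, Or.inl rfl⟩
  exact left_eq_add.1 e

lemma le_tot [NeZero N] (x : Fin b) : N ≤ 4 * tot (rim b) ((fam S).Adj (ex N x)) := by
  classical
  set T : Finset (ZMod N) := Finset.univ.filter (S x) with hT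
  set E : Finset (ZMod N) := Finset.univ.filter fun t => S x t ∧ S x (t + 1) with hE
  have e1 : tot (rim b) ((fam S).Adj (ex N x)) = E.card := by
    unfold tot gd
    rw [hE, Finset.card_filter]
    refine Finset.sum_congr rfl fun t _ => ?_
    rw [adj_ex_rim, adj_ex_rim]
  have e2 : T.card ≤ E.card + E.card := by
    have : T ⊆ E ∪ E.image (· + 1) := by
      intro s hs
      rw [hT, Finset.mem_filter] at hs
      rw [Finset.mem_union]
      rcases h.dom x s with k | k
      · right
        rw [Finset.mem_image]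
        refine ⟨s - 1, ?_, by ring⟩
        rw [hE, Finset.mem_filter]
        refine ⟨Finset.mem_univ _, k, ?_⟩
        rw [sub_add_cancel]
        exact hs.2
      · left
        rw [hE, Finset.mem_filter]
        exact ⟨Finset.mem_univ _, hs.2, k⟩
    calc T.card ≤ _ := Finset.card_le_card this
      _ ≤ _ := Finset.card_union_le _ _
      _ ≤ _ := Nat.add_le_add_left Finset.card_image_le _
  have e3 : N ≤ T.card + T.card := by
    have : (Finset.univ : Finset (ZMod N)) ⊆ T.image (· + 1) ∪ T.image (· - 1) := by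
      intro s _
      rw [Finset.mem_union, Finset.mem_image, Finset.mem_image]
      rcases h.dom x s with k | k
      · left
        refine ⟨s - 1, ?_, by ring⟩
        rw [hT, Finset.mem_filter]
        exact ⟨Finset.mem_univ _, k⟩
      · right
        refine ⟨s + 1, ?_, by ring⟩
        rw [hT, Finset.mem_filter]
        exact ⟨Finset.mem_univ _, k⟩
    calc N = (Finset.univ : Finset (ZMod N)).card := by rw [Finset.card_univ, ZMod.card]
      _ ≤ _ := Finset.card_le_card this
      _ ≤ _ := Finset.card_union_le _ _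
      _ ≤ _ := Nat.add_le_add Finset.card_image_le Finset.card_image_le
  omega

/-- paths between vertices of the wheel -/
lemma core [NeZero N] (F : Finset (Fin b)) {s t : VT N b} (hs : s ∈ WT N b) (ht : t ∈ WT N b)
    (hst : s ≠ t) {j : ℕ} (h3 : 3 ≤ j) (hj : j ≤ N + 1 + (b - F.card)) :
    ∃ l, PathL (fam S) s t l ∧ l.length = j ∧
      ∀ y ∈ l, y ∈ WT N b ∨ ∃ x, x ∉ F ∧ y = ex N x := by
  classical
  rcases le_or_gt j (N + 1) with hjN | hjN
  · obtain ⟨l, h1, h2, h3, _⟩ := h.whl.paths hs ht hst h3 hjN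
    exact ⟨l, h1, h2, fun y hy => Or.inl (h3 y hy)⟩
  · obtain ⟨l, h1, h2, h3, h4⟩ := h.whl.paths hs ht hst (j := N + 1)
      (by have := h.size; omega) le_rfl
    set X : List (VT N b) := ((Fᶜ.toList).map fun x => ex N x).take (j - (N + 1)) with hX
    have hXl : X.length = j - (N + 1) := by
      rw [hX, List.length_take, List.length_map, Finset.length_toList, Finset.card_compl,
        Fintype.card_fin]
      omega
    have hXm : ∀ y ∈ X, ∃ x, x ∉ F ∧ y = ex N x := by
      intro y hy
      have := List.mem_of_mem_take hy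
      rw [List.mem_map] at this
      obtain ⟨x, hx, rfl⟩ := this
      rw [Finset.mem_toList, Finset.mem_compl] at hx
      exact ⟨x, hx, rfl⟩
    obtain ⟨l', k1, k2, k3⟩ := insert_many X l h1
      (by
        refine List.Nodup.sublist (List.take_sublist _ _) ?_
        exact (Finset.nodup_toList _).map fun x y e => ex_inj.1 e)
      (by
        intro y hy hy'
        obtain ⟨x, _, rfl⟩ := hXm y hy
        exact ex_not_mem x (h3 _ hy'))
      (by
        intro y hy
        obtain ⟨x, _, rfl⟩ := hXm y hy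
        have q1 := h.le_tot x
        have q2 := h4 rfl ((fam S).Adj (ex N x))
        have q3 := h.size
        omega)
    refine ⟨l', k1, by omega, ?_⟩
    intro y hy
    rcases k3 y hy with q | q
    · exact Or.inl (h3 y q)
    · exact Or.inr (hXm y q)

lemma exists_mem (x : Fin b) (v : VT N b) : ∃ s, S x s ∧ rim b s ≠ v := by
  rcases h.dom x 0 with k | k
  · rcases h.dom x (0 - 1) with k' | k'
    · by_cases e : rim b (0 - 1) = v
      · refine ⟨_, k', ?_⟩
        rw [← e, Ne, rim_inj]
        intro e'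
        apply h.one_ne
        have : (0 - 1 : ZMod N) - 1 + 1 = 0 - 1 + 1 := by rw [e']
        rw [sub_add_cancel] at this
        have e3 : (1 : ZMod N) = (0 - 1 : ZMod N) + 1 - (0 - 1) := by ring
        rw [e3, ← this]
        ring
      · exact ⟨_, k, e⟩
    · by_cases e : rim b (0 - 1) = v
      · refine ⟨_, k', ?_⟩
        rw [← e, Ne, rim_inj]
        intro e'
        exact h.one_ne (add_eq_left.1 e')
      · exact ⟨_, k, e⟩
  · rcases h.dom x (0 + 1) with k' | k'
    · by_cases e : rim b (0 + 1) = v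
      · refine ⟨_, k', ?_⟩
        rw [← e, Ne, rim_inj]
        intro e'
        apply h.one_ne
        have e3 : (1 : ZMod N) = (0 + 1 : ZMod N) - ((0 + 1) - 1) := by ring
        rw [e3, e']
        ring
      · exact ⟨_, k, e⟩
    · by_cases e : rim b (0 + 1) = v
      · refine ⟨_, k', ?_⟩
        rw [← e, Ne, rim_inj]
        intro e'
        exact h.one_ne (add_eq_left.1 e')
      · exact ⟨_, k, e⟩

/-- a further vertex and a vertex of the wheel -/
lemma ex_wheel [NeZero N] (x : Fin b) {v : VT N b} (hv : v ∈ WT N b) {j : ℕ} (h3 : 3 ≤ j)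
    (hj : j ≤ N + 1 + b) : ∃ l, PathL (fam S) (ex N x) v l ∧ l.length = j := by
  have hb1 : 1 ≤ b := Nat.one_le_iff_ne_zero.2 (by rintro rfl; exact x.elim0)
  rcases Nat.eq_or_lt_of_le h3 with rfl | h4
  · rcases hv with rfl | ⟨i, rfl⟩
    · obtain ⟨s, hs, _⟩ := h.exists_mem x (hb N b)
      refine ⟨[ex N x, rim b s, hb N b], ?_, rfl⟩
      refine (((PathL.single (hb N b)).cons adj_rim_hb ?_).cons (adj_ex_rim.2 hs) ?_)
      · simp [rim_ne_hb]
      · simp only [List.mem_cons, List.not_mem_nil, or_false, not_or]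
        exact ⟨(rim_ne_ex s x).symm, (hb_ne_ex x).symm⟩
    · have key : ∀ s, S x s → (fam S).Adj (rim b s) (rim b i) →
          ∃ l, PathL (fam S) (ex N x) (rim b i) l ∧ l.length = 3 := by
        intro s hs ha
        refine ⟨[ex N x, rim b s, rim b i], ?_, rfl⟩
        refine (((PathL.single (rim b i)).cons ha ?_).cons (adj_ex_rim.2 hs) ?_)
        · rw [List.mem_singleton]
          exact ha.ne
        · simp only [List.mem_cons, List.not_mem_nil, or_false, not_or]
          exact ⟨(rim_ne_ex s x).symm, (rim_ne_ex i x).symm⟩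
      rcases h.dom x i with k | k
      · refine key _ k ?_
        have := h.whl.rim (i - 1)
        rwa [sub_add_cancel] at this
      · exact key _ k (h.whl.rim i).symm
  · obtain ⟨s, hs, hsv⟩ := h.exists_mem x v
    obtain ⟨l, k1, k2, k3⟩ := h.core {x} (rim_mem s) hv hsv (j := j - 1) (by omega) (by
      rw [Finset.card_singleton]
      omega)
    refine ⟨ex N x :: l, k1.cons (adj_ex_rim.2 hs) ?_, ?_⟩
    · intro hx
      rcases k3 _ hx with q | ⟨y, hy, e⟩
      · exact ex_not_mem x q
      · rw [ex_inj] at e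
        exact hy (by rw [← e]; exact Finset.mem_singleton_self _)
    · rw [List.length_cons]
      omega

/-- two further vertices -/
lemma ex_ex [NeZero N] {x y : Fin b} (hxy : x ≠ y) {j : ℕ} (h3 : 3 ≤ j)
    (hj : j ≤ N + 1 + b) : ∃ l, PathL (fam S) (ex N x) (ex N y) l ∧ l.length = j := by
  have hb2 : 2 ≤ b := by
    have h1 := x.isLt
    have h2 := y.isLt
    have h3 : (x : ℕ) ≠ y := fun e => hxy (Fin.ext e)
    omega
  have hxy' : ex N x ≠ ex N y := fun e => hxy (ex_inj.1 e)
  rcases Nat.eq_or_lt_of_le h3 with rfl | h4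
  · obtain ⟨i, h1, h2⟩ := h.meet x y
    refine ⟨[ex N x, rim b i, ex N y], ?_, rfl⟩
    refine (((PathL.single (ex N y)).cons (adj_rim_ex.2 h2) ?_).cons (adj_ex_rim.2 h1) ?_)
    · rw [List.mem_singleton]
      exact rim_ne_ex _ _
    · simp only [List.mem_cons, List.not_mem_nil, or_false, not_or]
      exact ⟨(rim_ne_ex i x).symm, hxy'⟩
  · obtain ⟨s, hs, _⟩ := h.exists_mem x (hb N b)
    obtain ⟨t, ht, hst⟩ : ∃ t, S y t ∧ (fam S).Adj (rim b s) (rim b t) := by
      rcases h.dom y s with k | k
      · refine ⟨_, k, ?_⟩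
        have := h.whl.rim (s - 1)
        rw [sub_add_cancel] at this
        exact this.symm
      · exact ⟨_, k, h.whl.rim s⟩
    rcases Nat.eq_or_lt_of_le (show 4 ≤ j from h4) with rfl | h5
    · refine ⟨[ex N x, rim b s, rim b t, ex N y], ?_, rfl⟩
      refine ((((PathL.single (ex N y)).cons (adj_rim_ex.2 ht) ?_).cons hst ?_).cons
        (adj_ex_rim.2 hs) ?_)
      · rw [List.mem_singleton]
        exact rim_ne_ex _ _
      · simp only [List.mem_cons, List.not_mem_nil, or_false, not_or]
        exact ⟨hst.ne, rim_ne_ex _ _⟩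
      · simp only [List.mem_cons, List.not_mem_nil, or_false, not_or]
        exact ⟨(rim_ne_ex _ _).symm, (rim_ne_ex _ _).symm, hxy'⟩
    · obtain ⟨l, k1, k2, k3⟩ := h.core {x, y} (rim_mem s) (rim_mem t) hst.ne (j := j - 2)
        (by omega) (by
          rw [Finset.card_pair hxy]
          omega)
      have nx : ex N x ∉ l := by
        intro hx
        rcases k3 _ hx with q | ⟨z, hz, e⟩
        · exact ex_not_mem x q
        · rw [ex_inj] at e
          exact hz (by rw [← e]; simp)
      have ny : ex N y ∉ l := by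
        intro hx
        rcases k3 _ hx with q | ⟨z, hz, e⟩
        · exact ex_not_mem y q
        · rw [ex_inj] at e
          exact hz (by rw [← e]; simp)
      refine ⟨ex N x :: (l ++ [ex N y]), (k1.snoc (adj_rim_ex.2 ht) ny).cons
        (adj_ex_rim.2 hs) ?_, ?_⟩
      · rw [List.mem_append, List.mem_singleton, not_or]
        exact ⟨nx, hxy'⟩
      · rw [List.length_cons, List.length_append, List.length_singleton]
        omega

/-- THE GRAPH IS PLD-MAXIMAL -/
theorem isPLD [NeZero N] : IsPLD (fam S) (N + 1 + b) := by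
  intro j h3 hj
  rw [hasP_iff]
  intro u v huv
  have cases2 : ∀ v : VT N b, v ∈ WT N b ∨ ∃ x, v = ex N x := by
    intro v
    rcases vcases v with ⟨i, rfl⟩ | rfl | ⟨x, rfl⟩
    · exact Or.inl (rim_mem i)
    · exact Or.inl hb_mem
    · exact Or.inr ⟨x, rfl⟩
  rcases cases2 u with hu | ⟨x, rfl⟩
  · rcases cases2 v with hv | ⟨y, rfl⟩
    · obtain ⟨l, k1, k2, _⟩ := h.core ∅ hu hv huv h3 (by
        rw [Finset.card_empty]
        omega)
      exact ⟨l, k1, k2⟩
    · obtain ⟨l, k1, k2⟩ := h.ex_wheel y hu h3 hj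
      exact ⟨l.reverse, k1.reverse, by rw [List.length_reverse, k2]⟩
  · rcases cases2 v with hv | ⟨y, rfl⟩
    · exact h.ex_wheel x hv h3 hj
    · exact h.ex_ex (fun e => huv (by rw [e])) h3 hj

end Good

/-! ### Minimality -/

/-- an edge used by the only path with three vertices between two vertices is needed -/
lemma needed {V : Type*} {G : SimpleGraph V} {n : ℕ} {a c y : V} (hn : 3 ≤ n)
    (hay : a ≠ y) (hu : ∀ d, G.Adj a d → G.Adj d y → d = c) :
    ¬ IsPLD (G.deleteEdges {s(a, c)}) n := by
  intro hP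
  obtain ⟨l, hl, hl3⟩ := (hasP_iff.1 (hP 3 le_rfl hn)) a y hay
  match l, hl3 with
  | [p, q, r], _ =>
    have e1 : p = a := by simpa using hl.head
    have e2 : r = y := by simpa using hl.last
    have hc := hl.chain
    rw [List.isChain_cons_cons, List.isChain_cons_cons] at hc
    obtain ⟨c1, c2, _⟩ := hc
    subst e1 e2
    rw [SimpleGraph.deleteEdges_adj] at c1 c2
    have e := hu q c1.1 c2.1
    subst e
    exact c1.2 rfl

theorem Good.isMinPLD [NeZero N] (h : Good N b S) : IsMinPLD (fam S) (N + 1 + b) := by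
  refine ⟨h.isPLD, ?_⟩
  have hn : 3 ≤ N + 1 + b := by
    have := h.size
    omega
  -- a rim vertex and a further vertex: common neighbours
  have cn : ∀ (i : ZMod N) (x : Fin b) (d : VT N b), (fam S).Adj (rim b i) d →
      (fam S).Adj d (ex N x) → (d = rim b (i + 1) ∧ S x (i + 1)) ∨
        (d = rim b (i - 1) ∧ S x (i - 1)) := by
    intro i x d h1 h2
    rcases vcases d with ⟨j, rfl⟩ | rfl | ⟨y, rfl⟩
    · rw [adj_rim_ex] at h2
      rw [adj_rim_rim] at h1
      rcases h1.2 with e | e
      · left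
        exact ⟨by rw [e], by rw [← e]; exact h2⟩
      · right
        have : j = i - 1 := by rw [e]; ring
        exact ⟨by rw [this], by rw [← this]; exact h2⟩
    · exact absurd h2 not_adj_hb_ex
    · exact absurd h2 not_adj_ex_ex
  -- a needed neighbour
  have nd : ∀ (i : ZMod N) (x : Fin b), S x (i + 1) → ¬ S x (i - 1) →
      (¬ IsPLD ((fam S).deleteEdges {s(rim b i, rim b (i + 1))}) (N + 1 + b)) ∧
      ¬ IsPLD ((fam S).deleteEdges {s(ex N x, rim b (i + 1))}) (N + 1 + b) := by
    intro i x h1 h2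
    constructor
    · refine needed hn (rim_ne_ex i x) fun d k1 k2 => ?_
      rcases cn i x d k1 k2 with q | q
      · exact q.1
      · exact absurd q.2 h2
    · refine needed hn (rim_ne_ex i x).symm fun d k1 k2 => ?_
      rcases cn i x d k2.symm k1.symm with q | q
      · exact q.1
      · exact absurd q.2 h2
  have nd' : ∀ (i : ZMod N) (x : Fin b), S x (i - 1) → ¬ S x (i + 1) →
      (¬ IsPLD ((fam S).deleteEdges {s(rim b i, rim b (i - 1))}) (N + 1 + b)) ∧
      ¬ IsPLD ((fam S).deleteEdges {s(ex N x, rim b (i - 1))}) (N + 1 + b) := by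
    intro i x h1 h2
    constructor
    · refine needed hn (rim_ne_ex i x) fun d k1 k2 => ?_
      rcases cn i x d k1 k2 with q | q
      · exact absurd q.2 h2
      · exact q.1
    · refine needed hn (rim_ne_ex i x).symm fun d k1 k2 => ?_
      rcases cn i x d k2.symm k1.symm with q | q
      · exact absurd q.2 h2
      · exact q.1
  have E1 : ∀ i : ZMod N,
      ¬ IsPLD ((fam S).deleteEdges {s(rim b i, rim b (i + 1))}) (N + 1 + b) := by
    intro i
    obtain ⟨x, ⟨h1, h2⟩ | ⟨h1, h2⟩⟩ := h.crit i
    · exact (nd i x h1 h2).1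
    · have k := (nd' (i + 1) x (by rwa [add_sub_cancel_right]) (by
        rw [add_assoc, one_add_one_eq_two]
        exact h2)).1
      rw [add_sub_cancel_right] at k
      rwa [Sym2.eq_swap]
  have E2 : ∀ i : ZMod N,
      ¬ IsPLD ((fam S).deleteEdges {s(rim b i, hb N b)}) (N + 1 + b) := by
    intro i
    obtain ⟨q, q1, q2, q3, q4⟩ := h.zero i
    refine needed (y := rim b q) hn (fun e => q1 (rim_inj.1 e).symm) fun d k1 k2 => ?_
    rcases vcases d with ⟨j, rfl⟩ | rfl | ⟨x, rfl⟩
    · exfalso
      rw [adj_rim_rim] at k1 k2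
      rcases k1.2 with e | e <;> rcases k2.2 with e' | e'
      · apply q2
        rw [e', e]
        ring
      · apply q1
        rw [e] at e'
        exact (add_right_cancel e').symm
      · apply q1
        rw [e', e]
      · apply q3
        rw [e, e']
        ring
    · rfl
    · rw [adj_rim_ex] at k1
      rw [adj_ex_rim] at k2
      exact absurd ⟨k1, k2⟩ (q4 x)
  have E3 : ∀ (i : ZMod N) (x : Fin b), S x i →
      ¬ IsPLD ((fam S).deleteEdges {s(rim b i, ex N x)}) (N + 1 + b) := by
    intro i x hi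
    rw [Sym2.eq_swap]
    rcases h.mini x i hi with k | k
    · have e : i + 2 - 1 = i + 1 := by ring
      have := (nd' (i + 1) x (by rwa [add_sub_cancel_right]) (by
        rw [add_assoc, one_add_one_eq_two]
        exact k)).2
      rwa [add_sub_cancel_right] at this
    · have := (nd (i - 1) x (by rwa [sub_add_cancel]) (by
        rw [sub_sub, one_add_one_eq_two]
        exact k)).2
      rwa [sub_add_cancel] at this
  intro e he
  induction e using Sym2.ind with
  | _ a c =>
    rw [SimpleGraph.mem_edgeSet] at he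
    rcases vcases a with ⟨i, rfl⟩ | rfl | ⟨x, rfl⟩
    · rcases vcases c with ⟨j, rfl⟩ | rfl | ⟨y, rfl⟩
      · rw [adj_rim_rim] at he
        rcases he.2 with e | e
        · rw [e]
          exact E1 i
        · rw [e, Sym2.eq_swap]
          exact E1 j
      · exact E2 i
      · exact E3 i y (adj_rim_ex.1 he)
    · rcases vcases c with ⟨j, rfl⟩ | rfl | ⟨y, rfl⟩
      · rw [Sym2.eq_swap]
        exact E2 j
      · exact absurd he (SimpleGraph.irrefl _)
      · exact absurd he not_adj_hb_ex
    · rcases vcases c with ⟨j, rfl⟩ | rfl | ⟨y, rfl⟩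
      · rw [Sym2.eq_swap]
        exact E3 j x (adj_ex_rim.1 he)
      · exact absurd he.symm not_adj_hb_ex
      · exact absurd he not_adj_ex_ex

end MPd41ace
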