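import Pool.Agent.Lib.MP_d41ace_co.Family

/-!
Adding a few vertices to a set of vertices with paths of all lengths.
-/

set_option autoImplicit false

namespace MPd41ace

open SimpleGraph

variable {V : Type*} {G : SimpleGraph V}

lemma PathL.split {a e y p : V} {l₁ l₂ : List V} (h : PathL G a e (l₁ ++ y :: p :: l₂)) :
    PathL G a y (l₁ ++ [y]) ∧ PathL G p e (p :: l₂) ∧ List.Disjoint (l₁ ++ [y]) (p :: l₂) := by
  have hn := h.nodup
  have hc := h.chain
  have e0 : l₁ ++ y :: p :: l₂ = (l₁ ++ [y]) ++ p :: l₂ := by simp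
  have hh := h.head
  have hl := h.last
  rw [e0] at hn hh hl
  rw [List.isChain_append_cons_cons] at hc
  rw [List.nodup_append'] at hn
  refine ⟨⟨hn.1, hc.1, ?_, ?_⟩, ⟨hn.2.1, hc.2.2, rfl, ?_⟩, hn.2.2⟩
  · rwa [List.head?_append_of_ne_nil _ (by simp)] at hh
  · simp
  · rwa [List.getLast?_append_of_ne_nil _ (by simp)] at hl

/-- insert a path between two consecutive vertices -/
lemma PathL.splice {a e y p s t : V} {l₁ l₂ g : List V} (h : PathL G a e (l₁ ++ y :: p :: l₂))
    (hg : PathL G s t g) (hys : G.Adj y s) (htp : G.Adj t p)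
    (hd : List.Disjoint g (l₁ ++ y :: p :: l₂)) :
    PathL G a e ((l₁ ++ [y]) ++ (g ++ p :: l₂)) := by
  obtain ⟨h1, h2, h3⟩ := h.split
  refine h1.append (hg.append h2 htp ?_) hys ?_
  · intro x hx hx'
    refine hd hx ?_
    simp only [List.mem_append, List.mem_cons] at hx' ⊢
    tauto
  · intro x hx hx'
    rcases List.mem_append.1 hx' with k | k
    · refine hd k ?_
      simp only [List.mem_append, List.mem_cons, List.not_mem_nil, or_false] at hx ⊢
      tauto
    · exact h3 hx k

/-- counting successors -/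
lemma succ_count (A B : V → Prop) [DecidablePred A] [DecidablePred B] : ∀ l : List V,
    (∀ l₁ y p l₂, l = l₁ ++ y :: p :: l₂ → A y → B p) →
    l.countP (fun y => decide (A y)) ≤ l.tail.countP (fun y => decide (B y)) + 1 := by
  intro l
  induction l with
  | nil =>
    intro _
    simp
  | cons a t ih =>
    intro h
    cases t with
    | nil =>
      have := List.countP_le_length (p := fun y => decide (A y)) (l := [a])
      simpa using this
    | cons b t =>
      have h' := ih (fun l₁ y p l₂ e => h (a :: l₁) y p l₂ (by rw [e]; rfl))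
      have hab := h [] a b t rfl
      rw [List.tail_cons] at h' ⊢
      have e1 := List.countP_cons (p := fun y => decide (A y)) (a := a) (l := b :: t)
      have e2 := List.countP_cons (p := fun y => decide (B y)) (a := b) (l := t)
      rw [e1, e2]
      by_cases ha : A a
      · have hb := hab ha
        simp only [ha, hb, decide_true, if_true]
        omega
      · simp only [ha, decide_false]
        simp only [Bool.false_eq_true, if_false]
        split_ifs <;> omega

open scoped Classical in
/-- a long path contains a member of `E` followed by a vertex outside `Bad` -/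
lemma exists_succ {a e : V} {l : List V} {U E Bad : Finset V} (h : PathL G a e l)
    (hl : ∀ y ∈ l, y ∈ U) (hlen : U.card ≤ l.length + 2) (hE : E ⊆ U)
    (hc : Bad.card + 4 ≤ E.card) :
    ∃ l₁ y p l₂, l = l₁ ++ y :: p :: l₂ ∧ y ∈ E ∧ p ∉ Bad := by
  by_contra hcon
  push Not at hcon
  have h1 : l.countP (fun y => decide (y ∈ E)) ≤
      l.tail.countP (fun y => decide (y ∈ Bad)) + 1 :=
    succ_count _ _ l (fun l₁ y p l₂ e hy => hcon l₁ y p l₂ e hy)
  have h2 : l.tail.countP (fun y => decide (y ∈ Bad)) ≤ Bad.card := by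
    rw [List.countP_eq_length_filter]
    have hn : (l.tail.filter (fun y => decide (y ∈ Bad))).Nodup :=
      (h.nodup.tail).filter _
    rw [← List.toFinset_card_of_nodup hn]
    refine Finset.card_le_card fun y hy => ?_
    rw [List.mem_toFinset, List.mem_filter] at hy
    simpa using hy.2
  have h3 : E.card ≤ l.countP (fun y => decide (y ∈ E)) + 2 := by
    rw [List.countP_eq_length_filter]
    have hn : (l.filter (fun y => decide (y ∈ E))).Nodup := h.nodup.filter _
    rw [← List.toFinset_card_of_nodup hn]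
    have hsub : E ⊆ (l.filter (fun y => decide (y ∈ E))).toFinset ∪ (U \ l.toFinset) := by
      intro y hy
      rw [Finset.mem_union, List.mem_toFinset, List.mem_filter, Finset.mem_sdiff,
        List.mem_toFinset]
      by_cases c : y ∈ l
      · exact Or.inl ⟨c, by simpa using hy⟩
      · exact Or.inr ⟨hE hy, c⟩
    have k1 := (Finset.card_le_card hsub).trans (Finset.card_union_le _ _)
    have k2 : (U \ l.toFinset).card + l.toFinset.card = U.card :=
      Finset.card_sdiff_add_card_eq_card fun y hy => hl y (List.mem_toFinset.1 hy)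
    rw [List.toFinset_card_of_nodup h.nodup] at k2
    omega
  omega

/-- paths of all lengths inside a set, with exceptions for three vertices -/
def PLx (G : SimpleGraph V) (X : V → V → Prop) (U : Finset V) : Prop :=
  ∀ a ∈ U, ∀ e ∈ U, a ≠ e → ∀ j, 3 ≤ j → j ≤ U.card → (j = 3 → ¬ X a e) →
    ∃ l, PathL G a e l ∧ l.length = j ∧ ∀ y ∈ l, y ∈ U

variable {X : V → V → Prop} {U W : Finset V}

lemma PLx.pre (h : PLx G X U) {a s w e : V} {pr : List V} {j : ℕ} (hp : PathL G a s pr)
    (hd : ∀ y ∈ pr, y ∉ U) (hsw : G.Adj s w) (hw : w ∈ U) (he : e ∈ U) (hwe : w ≠ e)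
    (h1 : pr.length + 3 ≤ j) (h2 : j ≤ U.card + pr.length)
    (hX : j = pr.length + 3 → ¬ X w e) :
    ∃ l, PathL G a e l ∧ l.length = j ∧ ∀ y ∈ l, y ∈ U ∨ y ∈ pr := by
  obtain ⟨l, k1, k2, k3⟩ := h w hw e he hwe (j - pr.length) (by omega) (by omega)
    (fun q => hX (by omega))
  refine ⟨pr ++ l, hp.append k1 hsw fun y hy hy' => hd y hy (k3 y hy'), ?_, ?_⟩
  · rw [List.length_append]
    omega
  · intro y hy
    rcases List.mem_append.1 hy with q | q
    · exact Or.inr q
    · exact Or.inl (k3 y q)

lemma PLx.pre2 (h : PLx G X U) {a s w w' t e : V} {pr su : List V} {j : ℕ}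
    (hp : PathL G a s pr) (hq : PathL G t e su) (hd : ∀ y ∈ pr, y ∉ U) (hd' : ∀ y ∈ su, y ∉ U)
    (hdd : List.Disjoint pr su) (hsw : G.Adj s w) (hwt : G.Adj w' t) (hw : w ∈ U) (hw' : w' ∈ U)
    (hww : w ≠ w') (h1 : pr.length + su.length + 3 ≤ j) (h2 : j ≤ U.card + pr.length + su.length)
    (hX : j = pr.length + su.length + 3 → ¬ X w w') :
    ∃ l, PathL G a e l ∧ l.length = j ∧ ∀ y ∈ l, y ∈ U ∨ y ∈ pr ∨ y ∈ su := by
  obtain ⟨l, k1, k2, k3⟩ := h w hw w' hw' hww (j - pr.length - su.length) (by omega) (by omega)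
    (fun q => hX (by omega))
  refine ⟨pr ++ (l ++ su), hp.append (k1.append hq hwt fun y hy hy' => hd' y hy' (k3 y hy)) hsw
    ?_, ?_, ?_⟩
  · intro y hy hy'
    rcases List.mem_append.1 hy' with q | q
    · exact hd y hy (k3 y q)
    · exact hdd hy q
  · rw [List.length_append, List.length_append]
    omega
  · intro y hy
    rcases List.mem_append.1 hy with q | q
    · exact Or.inr (Or.inl q)
    · rcases List.mem_append.1 q with q | q
      · exact Or.inl (k3 y q)
      · exact Or.inr (Or.inr q)

variable [DecidableEq V]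

/-- THE STEP -/
theorem PLx.step (h : PLx G X U) (hX : ∀ a e, X a e → X e a) (hU : 8 ≤ U.card)
    (hW : W.card ≤ 4) (hd : Disjoint U W)
    (hin : ∀ a ∈ U, ∀ e ∈ U, a ≠ e → ∀ j, U.card < j → j ≤ U.card + W.card →
      ∃ l, PathL G a e l ∧ l.length = j ∧ ∀ y ∈ l, y ∈ U ∪ W)
    (h3 : ∀ a ∈ W, ∀ e ∈ U ∪ W, a ≠ e → ¬ X a e → ∃ w ∈ U ∪ W, G.Adj a w ∧ G.Adj w e)
    (one : ∀ a ∈ W, ∀ e ∈ U, ∃ w ∈ U, w ≠ e ∧ G.Adj a w ∧ ¬ X w e)
    (full : ∀ a ∈ W, ∀ e ∈ U, ∃ pr s w, PathL G a s pr ∧ pr.length = W.card ∧ (∀ y ∈ pr, y ∈ W) ∧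
      w ∈ U ∧ w ≠ e ∧ G.Adj s w)
    (four : ∀ a ∈ W, ∀ e ∈ W, a ≠ e → ∃ l, PathL G a e l ∧ l.length = 4 ∧ ∀ y ∈ l, y ∈ U ∪ W)
    (two : ∀ a ∈ W, ∀ e ∈ W, a ≠ e → ∃ w ∈ U, ∃ w' ∈ U, w ≠ w' ∧ G.Adj a w ∧ G.Adj w' e ∧
      ¬ X w w')
    (full2 : ∀ a ∈ W, ∀ e ∈ W, a ≠ e → ∃ pr su s t, PathL G a s pr ∧ PathL G t e su ∧
      List.Disjoint pr su ∧ pr.length + su.length = W.card ∧ (∀ y ∈ pr, y ∈ W) ∧
      (∀ y ∈ su, y ∈ W) ∧ ∃ w ∈ U, ∃ w' ∈ U, w ≠ w' ∧ G.Adj s w ∧ G.Adj w' t) :
    PLx G X (U ∪ W) := by
  have hcard : (U ∪ W).card = U.card + W.card := Finset.card_union_of_disjoint hd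
  have hWU : ∀ y ∈ W, y ∉ U := fun y hy hy' => Finset.disjoint_left.1 hd hy' hy
  -- one new end
  have key : ∀ a ∈ W, ∀ e ∈ U, ∀ j, 3 ≤ j → j ≤ (U ∪ W).card → (j = 3 → ¬ X a e) →
      ∃ l, PathL G a e l ∧ l.length = j ∧ ∀ y ∈ l, y ∈ U ∪ W := by
    intro a ha e he j j3 jU jX
    have hae : a ≠ e := fun q => hWU a ha (q ▸ he)
    rcases Nat.eq_or_lt_of_le j3 with rfl | j4
    · obtain ⟨w, hw, w1, w2⟩ := h3 a ha e (Finset.mem_union_left _ he) hae (jX rfl)
      refine ⟨[a, w, e], ?_, rfl, ?_⟩
      · refine ((PathL.single e).cons w2 ?_).cons w1 ?_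
        · rw [List.mem_singleton]
          exact w2.ne
        · simp only [List.mem_cons, List.not_mem_nil, or_false, not_or]
          exact ⟨w1.ne, hae⟩
      · intro y hy
        simp only [List.mem_cons, List.not_mem_nil, or_false] at hy
        rcases hy with rfl | rfl | rfl
        · exact Finset.mem_union_right _ ha
        · exact hw
        · exact Finset.mem_union_left _ he
    · rcases le_or_gt j (U.card + 1) with c | c
      · obtain ⟨w, hw, w1, w2, w3⟩ := one a ha e he
        obtain ⟨l, l1, l2, l3⟩ := h.pre (j := j) (PathL.single a) (by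
          intro y hy
          rw [List.mem_singleton] at hy
          rw [hy]
          exact hWU a ha) w2 hw he w1
          (by
            rw [List.length_singleton]
            omega)
          (by
            rw [List.length_singleton]
            omega) (fun _ => w3)
        refine ⟨l, l1, l2, fun y hy => ?_⟩
        rcases l3 y hy with q | q
        · exact Finset.mem_union_left _ q
        · rw [List.mem_singleton] at q
          rw [q]
          exact Finset.mem_union_right _ ha
      · obtain ⟨pr, s, w, p1, p2, p3, p4, p5, p6⟩ := full a ha e he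
        obtain ⟨l, l1, l2, l3⟩ := h.pre (j := j) p1 (fun y hy => hWU y (p3 y hy)) p6 p4 he p5
          (by omega) (by omega) (fun q => by omega)
        refine ⟨l, l1, l2, fun y hy => ?_⟩
        rcases l3 y hy with q | q
        · exact Finset.mem_union_left _ q
        · exact Finset.mem_union_right _ (p3 y q)
  intro a ha e he hae j j3 jU jX
  rcases Finset.mem_union.1 ha with ha | ha <;> rcases Finset.mem_union.1 he with he | he
  · rcases le_or_gt j U.card with c | c
    · obtain ⟨l, l1, l2, l3⟩ := h a ha e he hae j j3 c jX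
      exact ⟨l, l1, l2, fun y hy => Finset.mem_union_left _ (l3 y hy)⟩
    · exact hin a ha e he hae j c (by omega)
  · obtain ⟨l, l1, l2, l3⟩ := key e he a ha j j3 jU (fun q k => jX q (hX _ _ k))
    refine ⟨l.reverse, l1.reverse, by rw [List.length_reverse, l2], fun y hy => ?_⟩
    exact l3 y (List.mem_reverse.1 hy)
  · exact key a ha e he j j3 jU jX
  · rcases Nat.eq_or_lt_of_le j3 with rfl | j4
    · obtain ⟨w, hw, w1, w2⟩ := h3 a ha e (Finset.mem_union_right _ he) hae (jX rfl)
      refine ⟨[a, w, e], ?_, rfl, ?_⟩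
      · refine ((PathL.single e).cons w2 ?_).cons w1 ?_
        · rw [List.mem_singleton]
          exact w2.ne
        · simp only [List.mem_cons, List.not_mem_nil, or_false, not_or]
          exact ⟨w1.ne, hae⟩
      · intro y hy
        simp only [List.mem_cons, List.not_mem_nil, or_false] at hy
        rcases hy with rfl | rfl | rfl
        · exact Finset.mem_union_right _ ha
        · exact hw
        · exact Finset.mem_union_right _ he
    · rcases Nat.eq_or_lt_of_le (show 4 ≤ j from j4) with rfl | j5
      · exact four a ha e he hae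
      · rcases le_or_gt j (U.card + 2) with c | c
        · obtain ⟨w, hw, w', hw', w1, w2, w3, w4⟩ := two a ha e he hae
          obtain ⟨l, l1, l2, l3⟩ := h.pre2 (j := j) (PathL.single a) (PathL.single e) (by
            intro y hy
            rw [List.mem_singleton] at hy
            rw [hy]
            exact hWU a ha) (by
            intro y hy
            rw [List.mem_singleton] at hy
            rw [hy]
            exact hWU e he) (by
            intro y hy hy'
            rw [List.mem_singleton] at hy hy'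
            exact hae (hy.symm.trans hy')) w2 w3 hw hw' w1
            (by
              simp only [List.length_singleton]
              omega)
            (by
              simp only [List.length_singleton]
              omega) (fun _ => w4)
          refine ⟨l, l1, l2, fun y hy => ?_⟩
          rcases l3 y hy with q | q | q
          · exact Finset.mem_union_left _ q
          · rw [List.mem_singleton] at q
            rw [q]
            exact Finset.mem_union_right _ ha
          · rw [List.mem_singleton] at q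
            rw [q]
            exact Finset.mem_union_right _ he
        · obtain ⟨pr, su, s, t, p1, p2, p3, p4, p5, p6, w, hw, w', hw', w1, w2, w3⟩ :=
            full2 a ha e he hae
          obtain ⟨l, l1, l2, l3⟩ := h.pre2 (j := j) p1 p2 (fun y hy => hWU y (p5 y hy))
            (fun y hy => hWU y (p6 y hy)) p3 w2 w3 hw hw' w1 (by omega) (by omega)
            (fun q => by omega)
          refine ⟨l, l1, l2, fun y hy => ?_⟩
          rcases l3 y hy with q | q | q
          · exact Finset.mem_union_left _ q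
          · exact Finset.mem_union_right _ (p5 y q)
          · exact Finset.mem_union_right _ (p6 y q)

/-- insertion of a path into the long paths -/
lemma PLx.ins (h : PLx G X U) {E Bad : Finset V} (hE : E ⊆ U) (hB : Bad.card + 4 ≤ E.card)
    {s t : V} {g : List V} (hg : PathL G s t g) (hgW : ∀ y ∈ g, y ∈ W) (hd : Disjoint U W)
    (hs : ∀ y ∈ E, G.Adj y s) (ht : ∀ y ∈ E, ∀ p ∈ U, G.Adj y p → p ∉ Bad → G.Adj t p)
    (hU : 6 ≤ U.card) {a e : V} (ha : a ∈ U) (he : e ∈ U) (hae : a ≠ e) {j : ℕ}
    (h1 : U.card + g.length ≤ j + 2) (h2 : j ≤ U.card + g.length) :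
    ∃ l, PathL G a e l ∧ l.length = j ∧ ∀ y ∈ l, y ∈ U ∪ W := by
  obtain ⟨l, l1, l2, l3⟩ := h a ha e he hae (j - g.length) (by omega) (by omega)
    (fun q => by omega)
  obtain ⟨l₁, y, p, l₂, rfl, hy, hp⟩ := exists_succ l1 l3 (by omega) hE hB
  have hyp : G.Adj y p := by
    have := l1.chain
    rw [List.isChain_append_cons_cons] at this
    exact this.2.1
  have hpU : p ∈ U := l3 p (by simp)
  refine ⟨_, l1.splice hg (hs y hy) (ht y hy p hpU hyp hp) ?_, ?_, ?_⟩
  · intro x hx hx'
    exact Finset.disjoint_left.1 hd (l3 x hx') (hgW x hx)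
  · simp only [List.length_append, List.length_cons] at l2 ⊢
    simp only [List.length_nil] at l2 ⊢
    omega
  · intro x hx
    simp only [List.mem_append, List.mem_cons, List.not_mem_nil, or_false] at hx
    rcases hx with (q | q) | (q | (q | q))
    · exact Finset.mem_union_left _ (l3 x (by simp [q]))
    · exact Finset.mem_union_left _ (l3 x (by simp [q]))
    · exact Finset.mem_union_right _ (hgW x q)
    · exact Finset.mem_union_left _ (l3 x (by simp [q]))
    · exact Finset.mem_union_left _ (l3 x (by simp [q]))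

end MPd41ace
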