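import Pool.Agent.Lib.MP_d41ace_co.Base

/-!
A wheel, twins joined to parts of the rim, and matched pairs joined to all twins.
-/

set_option autoImplicit false

namespace MPd41ace

open SimpleGraph

/-- vertices: rim, hub, further vertices, matched pairs -/
inductive VG (N b r : ℕ) where
  /-- rim -/
  | rm (i : ZMod N)
  /-- hub -/
  | hu
  /-- further vertex -/
  | fx (x : Fin b)
  /-- member of a pair -/
  | pa (j : Fin r) (s : Bool)
  deriving DecidableEq

namespace VG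

variable {N b r : ℕ}

/-- as a sum -/
def eqv (N b r : ℕ) : VG N b r ≃ ((ZMod N ⊕ Unit) ⊕ (Fin b ⊕ (Fin r × Bool))) where
  toFun
    | rm i => .inl (.inl i)
    | hu => .inl (.inr ())
    | fx x => .inr (.inl x)
    | pa j s => .inr (.inr (j, s))
  invFun
    | .inl (.inl i) => rm i
    | .inl (.inr ()) => hu
    | .inr (.inl x) => fx x
    | .inr (.inr (j, s)) => pa j s
  left_inv v := by
    cases v <;> rfl
  right_inv v := by
    rcases v with (i | ⟨⟩) | (x | ⟨j, s⟩) <;> rfl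

instance [NeZero N] : Fintype (VG N b r) := Fintype.ofEquiv _ (eqv N b r).symm

lemma card [NeZero N] : Fintype.card (VG N b r) = N + 1 + b + 2 * r := by
  rw [Fintype.card_congr (eqv N b r)]
  simp only [Fintype.card_sum, ZMod.card, Fintype.card_unit, Fintype.card_fin, Fintype.card_prod,
    Fintype.card_bool]
  ring

end VG

open VG

variable {N b r : ℕ} {z0 : ZMod N} {S : Fin b → ZMod N → Prop}

/-- the relation behind the graph -/
def rel2 (r : ℕ) (z0 : ZMod N) (S : Fin b → ZMod N → Prop) : VG N b r → VG N b r → Prop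
  | rm i, rm j => j = i + 1
  | rm _, hu => True
  | rm i, fx x => S x i
  | rm i, pa _ s => i = z0 ∧ s = false
  | hu, pa _ _ => True
  | fx _, pa _ _ => True
  | pa j s, pa j' s' => j = j' ∧ s ≠ s'
  | _, _ => False

/-- the graph -/
def gam (r : ℕ) (z0 : ZMod N) (S : Fin b → ZMod N → Prop) : SimpleGraph (VG N b r) :=
  SimpleGraph.fromRel (rel2 r z0 S)

lemma g_rr {i j : ZMod N} : (gam r z0 S).Adj (rm i) (rm j) ↔ i ≠ j ∧ (j = i + 1 ∨ i = j + 1) := by
  unfold gam
  rw [SimpleGraph.fromRel_adj]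
  simp [rel2]

lemma g_rh {i : ZMod N} : (gam r z0 S).Adj (rm i) hu := by
  unfold gam
  rw [SimpleGraph.fromRel_adj]
  simp [rel2]

lemma g_hr {i : ZMod N} : (gam r z0 S).Adj hu (rm i) := g_rh.symm

lemma g_re {i : ZMod N} {x : Fin b} : (gam r z0 S).Adj (rm i) (fx x) ↔ S x i := by
  unfold gam
  rw [SimpleGraph.fromRel_adj]
  simp [rel2]

lemma g_er {i : ZMod N} {x : Fin b} : (gam r z0 S).Adj (fx x) (rm i) ↔ S x i := by
  rw [SimpleGraph.adj_comm, g_re]

lemma g_rp {i : ZMod N} {j : Fin r} {s : Bool} :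
    (gam r z0 S).Adj (rm i) (pa j s) ↔ i = z0 ∧ s = false := by
  unfold gam
  rw [SimpleGraph.fromRel_adj]
  simp [rel2]

lemma g_pr {i : ZMod N} {j : Fin r} {s : Bool} :
    (gam r z0 S).Adj (pa j s) (rm i) ↔ i = z0 ∧ s = false := by
  rw [SimpleGraph.adj_comm, g_rp]

lemma g_hp {j : Fin r} {s : Bool} : (gam r z0 S).Adj hu (pa j s) := by
  unfold gam
  rw [SimpleGraph.fromRel_adj]
  simp [rel2]

lemma g_ph {j : Fin r} {s : Bool} : (gam r z0 S).Adj (pa j s) hu := g_hp.symm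

lemma g_ep {x : Fin b} {j : Fin r} {s : Bool} : (gam r z0 S).Adj (fx x) (pa j s) := by
  unfold gam
  rw [SimpleGraph.fromRel_adj]
  simp [rel2]

lemma g_pe {x : Fin b} {j : Fin r} {s : Bool} : (gam r z0 S).Adj (pa j s) (fx x) := g_ep.symm

lemma g_pp {j j' : Fin r} {s s' : Bool} :
    (gam r z0 S).Adj (pa j s) (pa j' s') ↔ j = j' ∧ s ≠ s' := by
  unfold gam
  rw [SimpleGraph.fromRel_adj]
  simp only [rel2, ne_eq, pa.injEq]
  constructor
  · rintro ⟨_, h | h⟩
    · exact h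
    · exact ⟨h.1.symm, fun e => h.2 e.symm⟩
  · intro h
    exact ⟨fun e => h.2 e.2, Or.inl h⟩

lemma g_he {x : Fin b} : ¬ (gam r z0 S).Adj hu (fx x) := by
  unfold gam
  rw [SimpleGraph.fromRel_adj]
  simp [rel2]

lemma g_ee {x y : Fin b} : ¬ (gam r z0 S).Adj (fx x) (fx y) := by
  unfold gam
  rw [SimpleGraph.fromRel_adj]
  simp [rel2]

/-- the conditions -/
structure Gd (N b r b0 : ℕ) [NeZero N] (z0 : ZMod N) (S : Fin b → ZMod N → Prop) : Prop where
  /-- total domination -/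
  dom : ∀ x i, i ≠ z0 → S x (i - 1) ∨ S x (i + 1)
  /-- minimality -/
  mini : ∀ x i, S x i → ¬ S x (i + 2) ∨ ¬ S x (i - 2)
  /-- the special rim vertex -/
  nz : ∀ x, ¬ S x z0
  /-- its neighbours -/
  nz1 : ∀ x, ¬ S x (z0 + 1)
  /-- its neighbours -/
  nz2 : ∀ x, ¬ S x (z0 - 1)
  /-- rim edges are needed -/
  crit : ∀ i, (∀ x, ¬ S x i) ∨ (∀ x, ¬ S x (i + 1)) ∨
    ∃ x, (S x (i + 1) ∧ ¬ S x (i - 1)) ∨ (S x i ∧ ¬ S x (i + 2))
  /-- spokes are needed -/
  zero : ∀ i, ∃ q, q ≠ i ∧ q ≠ i + 2 ∧ i ≠ q + 2 ∧ ∀ x, ¬ (S x i ∧ S x q)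
  /-- the sets meet -/
  meet : ∀ x y, ∃ i, S x i ∧ S y i
  /-- many places -/
  plc : ∀ x : Fin b, b0 + 2 ≤ tot (fun i => i) (S x)
  /-- few differences -/
  bad : ∀ x : Fin b, ∃ B : Finset (ZMod N), B.card + 4 ≤ b0 ∧
    ∀ y : Fin b, ∀ i, S y i → i ∉ B → S x i
  /-- number of pairs -/
  r1 : 1 ≤ r
  /-- number of further vertices -/
  lo : b0 + r ≤ b
  /-- number of further vertices -/
  hi : b ≤ b0 + 2 * r

namespace Gd

variable [NeZero N] {b0 : ℕ} (h : Gd N b r b0 z0 S)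

include h

lemma hb0 : 4 ≤ b0 := by
  have h1 := h.r1
  have h2 := h.lo
  obtain ⟨B, hB, _⟩ := h.bad ⟨0, by omega⟩
  omega

omit h in
lemma tot_le (x : Fin b) : tot (fun i : ZMod N => i) (S x) ≤ N := by
  unfold tot
  calc _ ≤ ∑ _t : ZMod N, 1 := Finset.sum_le_sum fun t _ => gd_le _ _
    _ = N := by rw [Finset.sum_const, Finset.card_univ, ZMod.card, smul_eq_mul, mul_one]

lemma N6 : 6 ≤ N := by
  have h1 := h.r1
  have h2 := h.lo
  have h3 := h.plc ⟨0, by omega⟩
  have h4 := tot_le (S := S) ⟨0, by omega⟩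
  have h5 := h.hb0
  omega

lemma one_ne : (1 : ZMod N) ≠ 0 := by
  have hs := h.N6
  intro e
  have := MPd41ace.cast_inj (N := N) (s := 1) (t := 0) (by omega) (by omega) (by simpa using e)
  omega

lemma two_ne : (2 : ZMod N) ≠ 0 := by
  have hs := h.N6
  intro e
  have := MPd41ace.cast_inj (N := N) (s := 2) (t := 0) (by omega) (by omega) (by simpa using e)
  omega

lemma succ_ne (i : ZMod N) : i + 1 ≠ i := fun e => h.one_ne (add_eq_left.1 e)

lemma adj_succ (i : ZMod N) : (gam r z0 S).Adj (rm i) (rm (i + 1)) := by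
  rw [g_rr]
  exact ⟨(h.succ_ne i).symm, Or.inl rfl⟩

lemma adj_pred (i : ZMod N) : (gam r z0 S).Adj (rm i) (rm (i - 1)) := by
  have := h.adj_succ (i - 1)
  rw [sub_add_cancel] at this
  exact this.symm

lemma whl : Whl (gam r z0 S) N rm hu := by
  refine ⟨fun i j e => by simpa using e, fun i => by simp, fun i => h.adj_succ i, fun i => g_hr⟩

omit h in
lemma tot_eq (x : Fin b) :
    tot (rm : ZMod N → VG N b r) ((gam r z0 S).Adj (fx x)) = tot (fun i => i) (S x) := by
  unfold tot gd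
  refine Finset.sum_congr rfl fun t _ => ?_
  have e : ((gam r z0 S).Adj (fx x) (rm t) ∧ (gam r z0 S).Adj (fx x) (rm (t + 1))) ↔
      (S x t ∧ S x (t + 1)) := by
    rw [g_er, g_er]
  by_cases c : S x t ∧ S x (t + 1)
  · rw [if_pos (e.2 c), if_pos c]
  · rw [if_neg (fun k => c (e.1 k)), if_neg c]

/-- two rim neighbours -/
lemma two_nb (x : Fin b) (v : VG N b r) : ∃ i, (rm i : VG N b r) ≠ v ∧ S x i := by
  classical
  have h1 := h.plc x
  have h2 : 0 < tot (fun i : ZMod N => i) (S x) := by omega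
  obtain ⟨t, ht⟩ : ∃ t : ZMod N, S x t ∧ S x (t + 1) := by
    by_contra hcon
    push Not at hcon
    have : tot (fun i : ZMod N => i) (S x) = 0 := by
      unfold tot gd
      refine Finset.sum_eq_zero fun t _ => ?_
      rw [if_neg]
      exact fun k => hcon t k.1 k.2
    omega
  by_cases c : (rm t : VG N b r) = v
  · refine ⟨t + 1, ?_, ht.2⟩
    rw [← c]
    intro e
    exact h.succ_ne t (by simpa using e)
  · exact ⟨t, c, ht.1⟩

/-- a neighbour on the rim of `i` in `S x` -/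
lemma dom' (x : Fin b) {i : ZMod N} (hi : i ≠ z0) :
    ∃ i', (gam r z0 S).Adj (rm i) (rm i') ∧ S x i' := by
  rcases h.dom x i hi with k | k
  · exact ⟨_, h.adj_pred i, k⟩
  · exact ⟨_, h.adj_succ i, k⟩

end Gd

/-- the exceptional pairs -/
def exc (z0 : ZMod N) : VG N b r → VG N b r → Prop
  | rm i, fx _ => i = z0
  | fx _, rm i => i = z0
  | _, _ => False

lemma exc_symm (a e : VG N b r) (h : exc z0 a e) : exc z0 e a := by
  rcases a with i | _ | x | ⟨j, s⟩ <;> rcases e with i' | _ | x' | ⟨j', s'⟩ <;> exact h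

namespace Gd

variable [NeZero N] {b0 : ℕ} (h : Gd N b r b0 z0 S)

include h

/-- the first further vertices -/
def E0 (_ : Gd N b r b0 z0 S) : Finset (VG N b r) :=
  (Finset.univ.filter fun x : Fin b => x.val < b0).map ⟨fx, fun x y e => by simpa using e⟩

lemma mem_E0 {v : VG N b r} : v ∈ h.E0 ↔ ∃ x : Fin b, x.val < b0 ∧ fx x = v := by
  unfold E0
  rw [Finset.mem_map]
  simp only [Finset.mem_filter, Finset.mem_univ, true_and]
  exact Iff.rfl

lemma card_E0 : h.E0.card = b0 := by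
  unfold E0
  have h2 := h.lo
  rw [Finset.card_map, Fin.card_filter_val_lt]
  omega

omit h in
/-- membership in a stage -/
def stp (p q : ℕ) : VG N b r → Prop
  | rm _ => True
  | hu => True
  | fx x => x.val < q
  | pa j _ => j.val < p

open scoped Classical in
/-- the vertices of stage `p`, with `q` further vertices -/
noncomputable def st (_ : Gd N b r b0 z0 S) (p q : ℕ) : Finset (VG N b r) :=
  Finset.univ.filter (stp p q)

lemma mem_rm (p q : ℕ) (i : ZMod N) : rm i ∈ h.st p q := by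
  simp [st, stp]

lemma mem_hb (p q : ℕ) : hu ∈ h.st p q := by
  simp [st, stp]

lemma mem_ex {p q : ℕ} {x : Fin b} : fx x ∈ h.st p q ↔ x.val < q := by
  simp [st, stp]

lemma mem_pr {p q : ℕ} {j : Fin r} {s : Bool} : pa j s ∈ h.st p q ↔ j.val < p := by
  simp [st, stp]

omit [NeZero N] h in
lemma mem_ws {v : VG N b r} : v ∈ WS (rm : ZMod N → VG N b r) hu ↔ v = hu ∨ ∃ i, rm i = v := by
  unfold WS
  rw [Set.mem_insert_iff, Set.mem_range]

/-- stage zero -/
lemma stage0 : PLx (gam r z0 S) (exc z0) (h.st 0 b0) := by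
  have hN := h.N6
  have hb := h.hb0
  have hlo := h.lo
  have B : Bs (gam r z0 S) N rm hu h.E0 (exc z0) := by
    refine ⟨h.whl, ?_, ?_, ?_, ?_, ?_⟩
    · intro x hx
      obtain ⟨x, _, rfl⟩ := h.mem_E0.1 hx
      rw [mem_ws]
      simp
    · intro x hx
      obtain ⟨x, _, rfl⟩ := h.mem_E0.1 hx
      rw [h.card_E0, tot_eq]
      exact h.plc x
    · intro x hx v hv hxv hX
      obtain ⟨x, hx', rfl⟩ := h.mem_E0.1 hx
      rcases hv with hv | hv
      · rw [mem_ws] at hv
        rcases hv with rfl | ⟨i, rfl⟩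
        · obtain ⟨i, _, hi⟩ := h.two_nb x hu
          exact ⟨rm i, Or.inl (mem_ws.2 (Or.inr ⟨i, rfl⟩)), g_er.2 hi, g_rh⟩
        · have hi : i ≠ z0 := fun e => hX e
          obtain ⟨i', k1, k2⟩ := h.dom' x hi
          exact ⟨rm i', Or.inl (mem_ws.2 (Or.inr ⟨i', rfl⟩)), g_er.2 k2, k1.symm⟩
      · obtain ⟨y, hy', rfl⟩ := h.mem_E0.1 hv
        obtain ⟨i, k1, k2⟩ := h.meet x y
        exact ⟨rm i, Or.inl (mem_ws.2 (Or.inr ⟨i, rfl⟩)), g_er.2 k1, g_re.2 k2⟩
    · intro x hx v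
      obtain ⟨x, _, rfl⟩ := h.mem_E0.1 hx
      obtain ⟨i, k1, k2⟩ := h.two_nb x v
      exact ⟨i, k1, g_er.2 k2⟩
    · intro x hx y hy _
      obtain ⟨x, _, rfl⟩ := h.mem_E0.1 hx
      obtain ⟨y, _, rfl⟩ := h.mem_E0.1 hy
      obtain ⟨i, _, hi⟩ := h.two_nb x hu
      obtain ⟨i', k1, k2⟩ := h.dom' y (i := i) (by
        rintro rfl
        exact h.nz x hi)
      exact ⟨i, i', k1, g_er.2 hi, g_re.2 k2⟩
  refine B.plx (by omega) exc_symm (U := h.st 0 b0) ?_ ?_
  · intro v
    rw [mem_ws, h.mem_E0]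
    rcases v with i | _ | x | ⟨j, s⟩
    · simp [h.mem_rm]
    · simp [h.mem_hb]
    · simp [h.mem_ex]
    · simp [h.mem_pr]
  · have e : h.st 0 b0 = ((Finset.univ : Finset (ZMod N)).map ⟨rm, fun x y e => by
        simpa using e⟩ ∪ {hu}) ∪ h.E0 := by
      ext v
      rw [Finset.mem_union, Finset.mem_union, h.mem_E0, Finset.mem_map, Finset.mem_singleton]
      rcases v with i | _ | x | ⟨j, s⟩
      · exact ⟨fun _ => Or.inl (Or.inl ⟨i, Finset.mem_univ _, rfl⟩), fun _ => h.mem_rm _ _ _⟩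
      · simp [h.mem_hb]
      · simp [h.mem_ex]
      · simp [h.mem_pr]
    rw [e, Finset.card_union_of_disjoint, Finset.card_union_of_disjoint, Finset.card_map,
      Finset.card_univ, ZMod.card, Finset.card_singleton]
    · rw [Finset.disjoint_left]
      intro v hv hv'
      rw [Finset.mem_singleton] at hv'
      subst hv'
      simp at hv
    · rw [Finset.disjoint_left]
      intro v hv hv'
      obtain ⟨x, _, rfl⟩ := h.mem_E0.1 hv'
      simp at hv

end Gd

end MPd41ace
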