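import Pool.Agent.Lib.MP_d41ace_co.GamStep
import Pool.Agent.Lib.MP_d41ace_co.Count

/-!
Minimality and number of edges.
-/

set_option autoImplicit false

namespace MPd41ace

open SimpleGraph VG

variable {N b r : ℕ} {z0 : ZMod N} {S : Fin b → ZMod N → Prop}

namespace Gd

variable [NeZero N] {b0 : ℕ} (h : Gd N b r b0 z0 S)

include h

theorem isMinPLD : IsMinPLD (gam r z0 S) (N + 1 + b + 2 * r) := by
  refine ⟨h.isPLD, ?_⟩
  have hN := h.N6
  have hn : 4 ≤ N + 1 + b + 2 * r := by omega
  have hn3 : 3 ≤ N + 1 + b + 2 * r := by omega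
  have hcard : Fintype.card (VG N b r) = N + 1 + b + 2 * r := VG.card
  -- a rim vertex and a further vertex: common neighbours
  have cn : ∀ (i : ZMod N) (x : Fin b) (d : VG N b r), i ≠ z0 → (gam r z0 S).Adj (rm i) d →
      (gam r z0 S).Adj d (fx x) → (d = rm (i + 1) ∧ S x (i + 1)) ∨
        (d = rm (i - 1) ∧ S x (i - 1)) := by
    intro i x d hi h1 h2
    rcases d with j | _ | y | ⟨j, s⟩
    · rw [g_re] at h2
      rw [g_rr] at h1
      rcases h1.2 with e | e
      · left
        exact ⟨by rw [e], by rw [← e]; exact h2⟩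
      · right
        have : j = i - 1 := by rw [e]; ring
        exact ⟨by rw [this], by rw [← this]; exact h2⟩
    · exact absurd h2 g_he
    · exact absurd h2 g_ee
    · rw [g_rp] at h1
      exact absurd h1.1 hi
  -- a needed neighbour
  have nd : ∀ (i : ZMod N) (x : Fin b), S x (i + 1) → ¬ S x (i - 1) →
      (¬ IsPLD ((gam r z0 S).deleteEdges {s(rm i, rm (i + 1))}) (N + 1 + b + 2 * r)) ∧
      ¬ IsPLD ((gam r z0 S).deleteEdges {s(fx x, rm (i + 1))}) (N + 1 + b + 2 * r) := by
    intro i x h1 h2
    have hi : i ≠ z0 := by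
      rintro rfl
      exact h.nz1 x h1
    constructor
    · refine needed hn3 (y := fx x) (by simp) fun d k1 k2 => ?_
      rcases cn i x d hi k1 k2 with q | q
      · exact q.1
      · exact absurd q.2 h2
    · refine needed hn3 (y := rm i) (by simp) fun d k1 k2 => ?_
      rcases cn i x d hi k2.symm k1.symm with q | q
      · exact q.1
      · exact absurd q.2 h2
  have nd' : ∀ (i : ZMod N) (x : Fin b), S x (i - 1) → ¬ S x (i + 1) →
      (¬ IsPLD ((gam r z0 S).deleteEdges {s(rm i, rm (i - 1))}) (N + 1 + b + 2 * r)) ∧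
      ¬ IsPLD ((gam r z0 S).deleteEdges {s(fx x, rm (i - 1))}) (N + 1 + b + 2 * r) := by
    intro i x h1 h2
    have hi : i ≠ z0 := by
      rintro rfl
      exact h.nz2 x h1
    constructor
    · refine needed hn3 (y := fx x) (by simp) fun d k1 k2 => ?_
      rcases cn i x d hi k1 k2 with q | q
      · exact absurd q.2 h2
      · exact q.1
    · refine needed hn3 (y := rm i) (by simp) fun d k1 k2 => ?_
      rcases cn i x d hi k2.symm k1.symm with q | q
      · exact absurd q.2 h2
      · exact q.1
  have dg : ∀ i : ZMod N, i ≠ z0 → (∀ x, ¬ S x i) → ∀ d, (gam r z0 S).Adj (rm i) d →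
      d = rm (i + 1) ∨ d = rm (i - 1) ∨ d = hu := by
    intro i hi hS d hd
    rcases d with j | _ | y | ⟨j, s⟩
    · rw [g_rr] at hd
      rcases hd.2 with e | e
      · exact Or.inl (by rw [e])
      · refine Or.inr (Or.inl ?_)
        have : j = i - 1 := by rw [e]; ring
        rw [this]
    · exact Or.inr (Or.inr rfl)
    · rw [g_re] at hd
      exact absurd hd (hS y)
    · rw [g_rp] at hd
      exact absurd hd.1 hi
  have E1 : ∀ i : ZMod N,
      ¬ IsPLD ((gam r z0 S).deleteEdges {s(rm i, rm (i + 1))}) (N + 1 + b + 2 * r) := by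
    intro i
    have A1 : i ≠ z0 → (∀ x, ¬ S x i) →
        ¬ IsPLD ((gam r z0 S).deleteEdges {s(rm i, rm (i + 1))}) (N + 1 + b + 2 * r) :=
      fun hi hS => needed_deg hcard hn (dg i hi hS) (Or.inl rfl)
    have A2 : i + 1 ≠ z0 → (∀ x, ¬ S x (i + 1)) →
        ¬ IsPLD ((gam r z0 S).deleteEdges {s(rm i, rm (i + 1))}) (N + 1 + b + 2 * r) := by
      intro hi hS
      rw [Sym2.eq_swap]
      refine needed_deg hcard hn (dg (i + 1) hi hS) (Or.inr (Or.inl ?_))
      rw [add_sub_cancel_right]
    by_cases c1 : i = z0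
    · refine A2 ?_ (by rw [c1]; exact h.nz1)
      rw [c1]
      exact h.succ_ne z0
    · by_cases c2 : i + 1 = z0
      · refine A1 c1 ?_
        have : i = z0 - 1 := by rw [← c2]; ring
        rw [this]
        exact h.nz2
      · rcases h.crit i with k | k | ⟨x, ⟨h1, h2⟩ | ⟨h1, h2⟩⟩
        · exact A1 c1 k
        · exact A2 c2 k
        · exact (nd i x h1 h2).1
        · have k := (nd' (i + 1) x (by rwa [add_sub_cancel_right]) (by
            rw [add_assoc, one_add_one_eq_two]
            exact h2)).1
          rw [add_sub_cancel_right] at k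
          rwa [Sym2.eq_swap]
  have E2 : ∀ i : ZMod N,
      ¬ IsPLD ((gam r z0 S).deleteEdges {s(rm i, hu)}) (N + 1 + b + 2 * r) := by
    intro i
    obtain ⟨q, q1, q2, q3, q4⟩ := h.zero i
    refine needed (y := rm q) hn3 (fun e => q1 (by simpa using e.symm)) fun d k1 k2 => ?_
    rcases d with j | _ | x | ⟨j, s⟩
    · exfalso
      rw [g_rr] at k1 k2
      rcases k1.2 with e | e <;> rcases k2.2 with e' | e'
      · apply q2
        rw [e', e]
        ring
      · apply q1
        rw [e] at e'
        exact (add_right_cancel e').symm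
      · apply q1
        rw [e', e]
      · apply q3
        rw [e, e']
        ring
    · rfl
    · rw [g_re] at k1
      rw [g_er] at k2
      exact absurd ⟨k1, k2⟩ (q4 x)
    · rw [g_rp] at k1
      rw [g_pr] at k2
      exact absurd (k2.1.trans k1.1.symm) q1
  have E3 : ∀ (i : ZMod N) (x : Fin b), S x i →
      ¬ IsPLD ((gam r z0 S).deleteEdges {s(rm i, fx x)}) (N + 1 + b + 2 * r) := by
    intro i x hi
    rw [Sym2.eq_swap]
    rcases h.mini x i hi with k | k
    · have := (nd' (i + 1) x (by rwa [add_sub_cancel_right]) (by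
        rw [add_assoc, one_add_one_eq_two]
        exact k)).2
      rwa [add_sub_cancel_right] at this
    · have := (nd (i - 1) x (by rwa [sub_add_cancel]) (by
        rw [sub_sub, one_add_one_eq_two]
        exact k)).2
      rwa [sub_add_cancel] at this
  have E4 : ∀ j : Fin r,
      (¬ IsPLD ((gam r z0 S).deleteEdges {s(hu, pa j false)}) (N + 1 + b + 2 * r)) ∧
      ¬ IsPLD ((gam r z0 S).deleteEdges {s(pa j true, pa j false)}) (N + 1 + b + 2 * r) := by
    intro j
    have key : ∀ d, (gam r z0 S).Adj hu d → (gam r z0 S).Adj d (pa j true) → d = pa j false := by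
      intro d k1 k2
      rcases d with i | _ | x | ⟨j', s⟩
      · rw [g_rp] at k2
        exact absurd k2.2 (by simp)
      · exact absurd k1 (SimpleGraph.irrefl _)
      · exact absurd k1 g_he
      · rw [g_pp] at k2
        obtain ⟨rfl, k2⟩ := k2
        cases s
        · rfl
        · exact absurd rfl k2
    exact ⟨needed hn3 (y := pa j true) (by simp) key,
      needed hn3 (y := hu) (by simp) fun d k1 k2 => key d k2.symm k1.symm⟩
  have E5 : ∀ (j : Fin r) (f : Sym2 (VG N b r)),
      (f = s(pa j false, rm z0) ∨ f = s(rm z0, hu) ∨ f = s(hu, pa j true)) →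
      ¬ IsPLD ((gam r z0 S).deleteEdges {f}) (N + 1 + b + 2 * r) := by
    intro j f hf
    refine needed4 (a := pa j false) (y := pa j true) hn (by simp) ?_ hf
    intro d e k1 k2 k3 k4 k5
    have hd : d = rm z0 ∨ d = hu ∨ ∃ x, d = fx x := by
      rcases d with i | _ | x | ⟨j', s⟩
      · rw [g_pr] at k1
        exact Or.inl (by rw [k1.1])
      · exact Or.inr (Or.inl rfl)
      · exact Or.inr (Or.inr ⟨x, rfl⟩)
      · rw [g_pp] at k1
        obtain ⟨rfl, k1⟩ := k1
        cases s
        · exact absurd rfl k1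
        · exact absurd rfl k4
    have he : e = hu ∨ ∃ x, e = fx x := by
      rcases e with i | _ | x | ⟨j', s⟩
      · rw [g_rp] at k3
        exact absurd k3.2 (by simp)
      · exact Or.inl rfl
      · exact Or.inr ⟨x, rfl⟩
      · rw [g_pp] at k3
        obtain ⟨rfl, k3⟩ := k3
        cases s
        · exact absurd rfl k5
        · exact absurd rfl k3
    rcases hd with rfl | rfl | ⟨x, rfl⟩ <;> rcases he with rfl | ⟨x', rfl⟩
    · exact ⟨rfl, rfl⟩
    · rw [g_re] at k2
      exact absurd k2 (h.nz x')
    · exact absurd k2 (SimpleGraph.irrefl _)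
    · exact absurd k2 g_he
    · exact absurd k2.symm g_he
    · exact absurd k2 g_ee
  have E6 : ∀ (x : Fin b) (j : Fin r) (s : Bool),
      ¬ IsPLD ((gam r z0 S).deleteEdges {s(fx x, pa j s)}) (N + 1 + b + 2 * r) := by
    intro x j s
    refine needed hn3 (y := pa j (!s)) (by simp) fun d k1 k2 => ?_
    rcases d with i | _ | y | ⟨j', s'⟩
    · rw [g_er] at k1
      rw [g_rp] at k2
      exact absurd (k2.1 ▸ k1) (h.nz x)
    · exact absurd k1.symm g_he
    · exact absurd k1 g_ee
    · rw [g_pp] at k2
      obtain ⟨rfl, k2⟩ := k2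
      cases s <;> cases s' <;> simp_all
  intro e he
  induction e using Sym2.ind with
  | _ a c =>
    rw [SimpleGraph.mem_edgeSet] at he
    rcases a with i | _ | x | ⟨j, s⟩
    · rcases c with i' | _ | x' | ⟨j', s'⟩
      · rw [g_rr] at he
        rcases he.2 with e | e
        · rw [e]
          exact E1 i
        · rw [e, Sym2.eq_swap]
          exact E1 i'
      · exact E2 i
      · exact E3 i x' (g_re.1 he)
      · rw [g_rp] at he
        obtain ⟨rfl, rfl⟩ := he
        exact E5 j' _ (Or.inl Sym2.eq_swap)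
    · rcases c with i' | _ | x' | ⟨j', s'⟩
      · rw [Sym2.eq_swap]
        exact E2 i'
      · exact absurd he (SimpleGraph.irrefl _)
      · exact absurd he g_he
      · cases s'
        · exact (E4 j').1
        · exact E5 j' _ (Or.inr (Or.inr rfl))
    · rcases c with i' | _ | x' | ⟨j', s'⟩
      · rw [Sym2.eq_swap]
        exact E3 i' x (g_er.1 he)
      · exact absurd he.symm g_he
      · exact absurd he g_ee
      · exact E6 x j' s'
    · rcases c with i' | _ | x' | ⟨j', s'⟩
      · rw [g_pr] at he
        obtain ⟨rfl, rfl⟩ := he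
        exact E5 j _ (Or.inl rfl)
      · cases s
        · rw [Sym2.eq_swap]
          exact (E4 j).1
        · exact E5 j _ (Or.inr (Or.inr Sym2.eq_swap))
      · rw [Sym2.eq_swap]
        exact E6 x' j s
      · rw [g_pp] at he
        obtain ⟨rfl, he⟩ := he
        cases s <;> cases s'
        · exact absurd rfl he
        · rw [Sym2.eq_swap]
          exact (E4 j).2
        · exact (E4 j).2
        · exact absurd rfl he

end Gd

/-! ### The number of edges -/

lemma sum_VG [NeZero N] (f : VG N b r → ℕ) :
    ∑ v, f v = ∑ i, f (rm i) + f hu + (∑ x, f (fx x) + ∑ j, (f (pa j false) + f (pa j true))) := by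
  rw [← Equiv.sum_comp (eqv N b r).symm f]
  rw [Fintype.sum_sum_type, Fintype.sum_sum_type, Fintype.sum_sum_type, Fintype.sum_prod_type]
  have e1 : ∑ u : Unit, f ((eqv N b r).symm (Sum.inl (Sum.inr u))) = f hu := by
    rw [Fintype.sum_unique]
    rfl
  rw [e1]
  congr 2
  refine Finset.sum_congr rfl fun j _ => ?_
  rw [Fintype.sum_bool, add_comm]
  rfl

open scoped Classical in
lemma Gd.card_edges [NeZero N] {b0 : ℕ} (h : Gd N b r b0 z0 S) :
    (gam r z0 S).edgeSet.ncard =
      2 * N + ∑ x, (Finset.univ.filter (S x)).card + 4 * r + 2 * r * b := by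
  have key : 2 * (gam r z0 S).edgeFinset.card =
      4 * N + 2 * ∑ x, (Finset.univ.filter (S x)).card + 8 * r + 4 * r * b := by
    rw [← SimpleGraph.sum_degrees_eq_twice_card_edges]
    have deg : ∀ v, (gam r z0 S).degree v = ∑ u, if (gam r z0 S).Adj v u then 1 else 0 := by
      intro v
      rw [← SimpleGraph.card_neighborFinset_eq_degree, SimpleGraph.neighborFinset_eq_filter,
        Finset.card_filter]
    simp only [deg, sum_VG]
    have t1 : ∀ i : ZMod N,
        (∑ j : ZMod N, if (gam r z0 S).Adj (rm i) (rm j) then 1 else 0) = 2 := by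
      intro i
      rw [← Finset.card_filter]
      have : (Finset.univ.filter fun j : ZMod N => (gam r z0 S).Adj (rm i) (rm j))
          = {i + 1, i - 1} := by
        ext j
        rw [Finset.mem_filter, Finset.mem_insert, Finset.mem_singleton]
        constructor
        · rintro ⟨_, k⟩
          rcases (g_rr.1 k).2 with e | e
          · exact Or.inl e
          · right
            rw [e]
            ring
        · rintro (e | e)
          · refine ⟨Finset.mem_univ _, ?_⟩
            rw [e]
            exact h.adj_succ i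
          · refine ⟨Finset.mem_univ _, ?_⟩
            rw [e]
            exact h.adj_pred i
      rw [this, Finset.card_pair]
      intro e
      apply h.two_ne
      have e3 : (2 : ZMod N) = (i + 1) - (i - 1) := by ring
      rw [e3, e]
      ring
    have t2 : ∀ i : ZMod N, (if (gam r z0 S).Adj (rm i) hu then 1 else 0) = 1 := fun i =>
      if_pos g_rh
    have t3 : ∀ (i : ZMod N) (x : Fin b), (if (gam r z0 S).Adj (rm i) (fx x) then 1 else 0)
        = if S x i then 1 else 0 := fun i x => by
      simp only [g_re]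
    have t4 : ∀ (i : ZMod N) (j : Fin r), (if (gam r z0 S).Adj (rm i) (pa j false) then 1 else 0)
        = if i = z0 then 1 else 0 := fun i j => by
      simp only [g_rp, and_true]
    have t5 : ∀ (i : ZMod N) (j : Fin r), (if (gam r z0 S).Adj (rm i) (pa j true) then 1 else 0)
        = 0 := fun i j => by
      rw [if_neg]
      rw [g_rp]
      simp
    have t6 : ∀ i : ZMod N, (if (gam r z0 S).Adj hu (rm i) then 1 else 0) = 1 := fun i =>
      if_pos g_hr
    have t7 : (if (gam r z0 S).Adj hu hu then 1 else 0) = 0 := if_neg (SimpleGraph.irrefl _)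
    have t8 : ∀ x : Fin b, (if (gam r z0 S).Adj hu (fx x) then 1 else 0) = 0 := fun x =>
      if_neg g_he
    have t9 : ∀ (j : Fin r) (s : Bool), (if (gam r z0 S).Adj hu (pa j s) then 1 else 0) = 1 :=
      fun j s => if_pos g_hp
    have u1 : ∀ (x : Fin b) (i : ZMod N), (if (gam r z0 S).Adj (fx x) (rm i) then 1 else 0)
        = if S x i then 1 else 0 := fun x i => by
      simp only [g_er]
    have u2 : ∀ x : Fin b, (if (gam r z0 S).Adj (fx x) hu then 1 else 0) = 0 := fun x =>
      if_neg fun k => g_he k.symm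
    have u3 : ∀ x y : Fin b, (if (gam r z0 S).Adj (fx x) (fx y) then 1 else 0) = 0 := fun x y =>
      if_neg g_ee
    have u4 : ∀ (x : Fin b) (j : Fin r) (s : Bool),
        (if (gam r z0 S).Adj (fx x) (pa j s) then 1 else 0) = 1 := fun x j s => if_pos g_ep
    have v1 : ∀ (j : Fin r) (i : ZMod N), (if (gam r z0 S).Adj (pa j false) (rm i) then 1 else 0)
        = if i = z0 then 1 else 0 := fun j i => by
      simp only [g_pr, and_true]
    have v2 : ∀ (j : Fin r) (i : ZMod N), (if (gam r z0 S).Adj (pa j true) (rm i) then 1 else 0)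
        = 0 := fun j i => by
      rw [if_neg]
      rw [g_pr]
      simp
    have v3 : ∀ (j : Fin r) (s : Bool), (if (gam r z0 S).Adj (pa j s) hu then 1 else 0) = 1 :=
      fun j s => if_pos g_ph
    have v4 : ∀ (x : Fin b) (j : Fin r) (s : Bool),
        (if (gam r z0 S).Adj (pa j s) (fx x) then 1 else 0) = 1 := fun x j s => if_pos g_pe
    have w1 : ∀ (j j' : Fin r), (if (gam r z0 S).Adj (pa j false) (pa j' false) then 1 else 0) = 0 :=
      fun j j' => if_neg fun k => (g_pp.1 k).2 rfl
    have w2 : ∀ (j j' : Fin r), (if (gam r z0 S).Adj (pa j true) (pa j' true) then 1 else 0) = 0 :=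
      fun j j' => if_neg fun k => (g_pp.1 k).2 rfl
    have w3 : ∀ (j j' : Fin r), (if (gam r z0 S).Adj (pa j false) (pa j' true) then 1 else 0) =
        if j = j' then 1 else 0 := fun j j' => by
      simp [g_pp]
    have w4 : ∀ (j j' : Fin r), (if (gam r z0 S).Adj (pa j true) (pa j' false) then 1 else 0) =
        if j = j' then 1 else 0 := fun j j' => by
      simp [g_pp]
    simp only [t1, t2, t3, t4, t5, t6, t7, t8, t9, u1, u2, u3, u4, v1, v2, v3, v4, w1, w2, w3, w4,
      Finset.sum_add_distrib, Finset.sum_const, Finset.card_univ, ZMod.card, Fintype.card_fin,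
      Finset.card_filter, smul_eq_mul, mul_zero, mul_one, add_zero, zero_add,
      Finset.sum_ite_eq, Finset.sum_ite_eq', Finset.mem_univ, if_true]
    rw [Finset.sum_comm (s := (Finset.univ : Finset (ZMod N)))]
    have x1 : ∑ i : ZMod N, (r * if i = z0 then 1 else 0) = r := by
      rw [← Finset.mul_sum, Finset.sum_ite_eq']
      simp
    rw [x1]
    ring
  rw [Set.ncard_eq_toFinset_card', ← SimpleGraph.edgeFinset]
  nlinarith

/-- THE PAIRS REALISED BY THE FAMILY -/
theorem Gd.realised [NeZero N] {b0 : ℕ} (h : Gd N b r b0 z0 S) {m : ℕ}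
    (hm : ∑ x, {i | S x i}.ncard = m) :
    Realised (N + 1 + b + 2 * r) (2 * N + m + 4 * r + 2 * r * b) := by
  classical
  refine realised_of (G := gam r z0 S) VG.card h.isMinPLD ?_
  rw [h.card_edges, ← hm]
  congr 3
  refine Finset.sum_congr rfl fun x _ => ?_
  rw [Set.ncard_eq_toFinset_card']
  congr 1
  ext i
  simp

end MPd41ace
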