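import Pool.Agent.Lib.MP_d41ace_co.Gam

/-!
The two steps: a matched pair with one or with two further vertices.
-/

set_option autoImplicit false

namespace MPd41ace

open SimpleGraph VG

section paths

variable {V : Type*} {G : SimpleGraph V}

lemma path2 {a c : V} (h : G.Adj a c) : PathL G a c [a, c] := by
  refine (PathL.single c).cons h ?_
  rw [List.mem_singleton]
  exact h.ne

lemma path3 {a c d : V} (h1 : G.Adj a c) (h2 : G.Adj c d) (h3 : a ≠ d) : PathL G a d [a, c, d] := by
  refine (path2 h2).cons h1 ?_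
  simp only [List.mem_cons, List.not_mem_nil, or_false, not_or]
  exact ⟨h1.ne, h3⟩

lemma path4 {a c d e : V} (h1 : G.Adj a c) (h2 : G.Adj c d) (h3 : G.Adj d e) (h4 : a ≠ d)
    (h5 : a ≠ e) (h6 : c ≠ e) : PathL G a e [a, c, d, e] := by
  refine (path3 h2 h3 h6).cons h1 ?_
  simp only [List.mem_cons, List.not_mem_nil, or_false, not_or]
  exact ⟨h1.ne, h4, h5⟩

end paths

variable {N b r : ℕ} {z0 : ZMod N} {S : Fin b → ZMod N → Prop}

lemma nexc_rm {i : ZMod N} (hi : i ≠ z0) (e : VG N b r) : ¬ exc z0 (rm i) e := by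
  rcases e with i' | _ | x' | ⟨j', s'⟩
  · exact fun k => k
  · exact fun k => k
  · exact hi
  · exact fun k => k

lemma nexc_hu (e : VG N b r) : ¬ exc z0 hu e := by
  rcases e with i' | _ | x' | ⟨j', s'⟩ <;> exact fun k => k

lemma nexc_fx {x : Fin b} {e : VG N b r} (he : ∀ i, e ≠ rm i) : ¬ exc z0 (fx x) e := by
  rcases e with i' | _ | x' | ⟨j', s'⟩
  · exact fun _ => he i' rfl
  · exact fun k => k
  · exact fun k => k
  · exact fun k => k

namespace Gd

variable [NeZero N] {b0 : ℕ} (h : Gd N b r b0 z0 S)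

include h

lemma exE (e : VG N b r) : ∃ y : Fin b, y.val < b0 ∧ fx y ≠ e := by
  have h1 := h.hb0
  have h2 := h.lo
  by_cases c : (fx ⟨0, by omega⟩ : VG N b r) = e
  · refine ⟨⟨1, by omega⟩, by simp; omega, ?_⟩
    rw [← c]
    simp
  · exact ⟨⟨0, by omega⟩, by simp; omega, c⟩

/-- a rim neighbour of `x` different from `e` -/
lemma exR (x : Fin b) (e : VG N b r) : ∃ i, (rm i : VG N b r) ≠ e ∧ S x i ∧ i ≠ z0 := by
  obtain ⟨i, h1, h2⟩ := h.two_nb x e
  exact ⟨i, h1, h2, fun k => h.nz x (k ▸ h2)⟩

lemma card8 (p q : ℕ) (hq : b0 ≤ q) : 8 ≤ (h.st p q).card := by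
  have h1 := h.N6
  have h2 := h.hb0
  have h3 : h.E0 ∪ (Finset.univ : Finset (ZMod N)).map ⟨rm, fun x y e => by simpa using e⟩ ⊆
      h.st p q := by
    intro v hv
    rcases Finset.mem_union.1 hv with k | k
    · obtain ⟨x, hx, rfl⟩ := h.mem_E0.1 k
      rw [h.mem_ex]
      omega
    · obtain ⟨i, _, rfl⟩ := Finset.mem_map.1 k
      exact h.mem_rm _ _ _
  have h4 := Finset.card_le_card h3
  rw [Finset.card_union_of_disjoint, h.card_E0, Finset.card_map, Finset.card_univ,
    ZMod.card] at h4
  · omega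
  · rw [Finset.disjoint_left]
    intro v hv hv'
    obtain ⟨x, _, rfl⟩ := h.mem_E0.1 hv
    simp at hv'

/-- common neighbours of a new vertex -/
lemma h3x {p q : ℕ} {U' : Finset (VG N b r)} (hrm : ∀ i, rm i ∈ U')
    {j : Fin r} (hj : ∀ s, pa j s ∈ U') (hmate : ∀ j' s, pa j' s ∈ U' → pa j' (!s) ∈ U')
    (x : Fin b) (e : VG N b r) (he : e ∈ U') (hxe : fx x ≠ e) (hX : ¬ exc z0 (fx x) e)
    (_ : p = q) : ∃ w ∈ U', (gam r z0 S).Adj (fx x) w ∧ (gam r z0 S).Adj w e := by
  rcases e with i | _ | y | ⟨j', s⟩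
  · have hi : i ≠ z0 := hX
    obtain ⟨i', k1, k2⟩ := h.dom' x hi
    exact ⟨rm i', hrm _, g_er.2 k2, k1.symm⟩
  · obtain ⟨i, _, hi, _⟩ := h.exR x hu
    exact ⟨rm i, hrm _, g_er.2 hi, g_rh⟩
  · exact ⟨pa j false, hj _, g_ep, g_pe⟩
  · refine ⟨pa j' (!s), hmate _ _ he, g_ep, g_pp.2 ⟨rfl, ?_⟩⟩
    cases s <;> simp

omit h in
/-- common neighbours of a member of a pair -/
lemma h3p {U' : Finset (VG N b r)} (hhu : hu ∈ U') {j : Fin r} (hj : ∀ s, pa j s ∈ U') (s : Bool)
    (e : VG N b r) (hxe : pa j s ≠ e) :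
    ∃ w ∈ U', (gam r z0 S).Adj (pa j s) w ∧ (gam r z0 S).Adj w e := by
  rcases e with i | _ | y | ⟨j', s'⟩
  · exact ⟨hu, hhu, g_ph, g_hr⟩
  · refine ⟨pa j (!s), hj _, g_pp.2 ⟨rfl, ?_⟩, g_ph⟩
    cases s <;> simp
  · refine ⟨pa j (!s), hj _, g_pp.2 ⟨rfl, ?_⟩, g_pe⟩
    cases s <;> simp
  · exact ⟨hu, hhu, g_ph, g_hp⟩

/-- a neighbour in the old set -/
lemma one {p q : ℕ} (hq0 : b0 ≤ q) {a : VG N b r} (ha : (∃ x, a = fx x) ∨ ∃ j s, a = pa j s)
    (e : VG N b r) : ∃ w ∈ h.st p q, w ≠ e ∧ (gam r z0 S).Adj a w ∧ ¬ exc z0 w e := by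
  rcases ha with ⟨x, rfl⟩ | ⟨j, s, rfl⟩
  · obtain ⟨i, h1, h2, h3⟩ := h.exR x e
    exact ⟨rm i, h.mem_rm _ _ _, h1, g_er.2 h2, nexc_rm h3 e⟩
  · by_cases c : e = hu
    · obtain ⟨y, h1, h2⟩ := h.exE e
      refine ⟨fx y, h.mem_ex.2 (by omega), h2, g_pe, nexc_fx fun i => ?_⟩
      rw [c]
      simp
    · exact ⟨hu, h.mem_hb _ _, fun k => c k.symm, g_ph, nexc_hu e⟩

/-- STEP ONE -/
theorem step1 {p q : ℕ} (hp : p < r) (hq : q < b) (hq0 : b0 ≤ q)
    (hP : PLx (gam r z0 S) (exc z0) (h.st p q)) :
    PLx (gam r z0 S) (exc z0) (h.st (p + 1) (q + 1)) := by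
  set j : Fin r := ⟨p, hp⟩ with hj
  set x : Fin b := ⟨q, hq⟩ with hx
  set W : Finset (VG N b r) := {pa j false, pa j true, fx x} with hW
  have hWm : ∀ a, a ∈ W ↔ a = fx x ∨ ∃ s, a = pa j s := by
    intro a
    rw [hW, Finset.mem_insert, Finset.mem_insert, Finset.mem_singleton]
    constructor
    · rintro (k | k | k)
      · exact Or.inr ⟨_, k⟩
      · exact Or.inr ⟨_, k⟩
      · exact Or.inl k
    · rintro (k | ⟨s, k⟩)
      · exact Or.inr (Or.inr k)
      · cases s
        · exact Or.inl k
        · exact Or.inr (Or.inl k)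
  have hxW : fx x ∈ W := (hWm _).2 (Or.inl rfl)
  have hpW : ∀ s, pa j s ∈ W := fun s => (hWm _).2 (Or.inr ⟨s, rfl⟩)
  have hWc : W.card = 3 := Finset.card_eq_three.2 ⟨_, _, _, by simp, by simp, by simp, hW⟩
  have hd : Disjoint (h.st p q) W := by
    rw [Finset.disjoint_left]
    intro v hv hv'
    rcases (hWm v).1 hv' with rfl | ⟨s, rfl⟩
    · rw [h.mem_ex] at hv
      simp [hx] at hv
    · rw [h.mem_pr] at hv
      simp [hj] at hv
  have hun : h.st (p + 1) (q + 1) = h.st p q ∪ W := by
    ext v
    rw [Finset.mem_union, hWm]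
    rcases v with i | _ | y | ⟨j', s⟩
    · simp [h.mem_rm]
    · simp [h.mem_hb]
    · simp only [h.mem_ex, fx.injEq, reduceCtorEq, exists_false, or_false, hx, Fin.ext_iff]
      omega
    · simp only [h.mem_pr, pa.injEq, reduceCtorEq, false_or, hj, Fin.ext_iff, exists_and_left,
        exists_eq', and_true]
      omega
  have hU := h.card8 p q hq0
  have hE : h.E0 ⊆ h.st p q := by
    intro v hv
    obtain ⟨y, hy, rfl⟩ := h.mem_E0.1 hv
    exact h.mem_ex.2 (by omega)
  have nb : ∀ s : Bool, (s : Bool) ≠ !s := fun s => by cases s <;> simp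
  rw [hun]
  refine hP.step exc_symm hU (by omega) hd ?_ ?_ ?_ ?_ ?_ ?_ ?_
  · -- insertion
    intro a ha e he hae t ht1 ht2
    obtain ⟨B, hB1, hB2⟩ := h.bad x
    have hBi : Function.Injective (rm : ZMod N → VG N b r) := fun x y e => by simpa using e
    refine hP.ins hE (Bad := B.map ⟨rm, hBi⟩) ?_ (s := pa j false) (t := fx x)
      (g := [pa j false, pa j true, fx x]) ?_ ?_ hd ?_ ?_ (by omega) ha he hae ?_ ?_
    · rw [Finset.card_map, h.card_E0]
      exact hB1
    · exact path3 (g_pp.2 ⟨rfl, nb false⟩) g_pe (by simp)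
    · intro y hy
      simp only [List.mem_cons, List.not_mem_nil, or_false] at hy
      rcases hy with rfl | rfl | rfl
      · exact hpW _
      · exact hpW _
      · exact hxW
    · intro y hy
      obtain ⟨y, _, rfl⟩ := h.mem_E0.1 hy
      exact g_ep
    · intro y hy v hv hyv hvB
      obtain ⟨y, _, rfl⟩ := h.mem_E0.1 hy
      rcases v with i | _ | y' | ⟨j', s⟩
      · rw [g_er] at hyv ⊢
        refine hB2 y i hyv fun k => hvB ?_
        rw [Finset.mem_map]
        exact ⟨i, k, rfl⟩
      · exact absurd hyv.symm g_he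
      · exact absurd hyv g_ee
      · exact g_ep
    · simp only [List.length_cons, List.length_nil]
      omega
    · simp only [List.length_cons, List.length_nil]
      omega
  · -- common neighbours
    intro a ha e he hae hX
    have hjm : ∀ s, pa j s ∈ h.st p q ∪ W := fun s => Finset.mem_union_right _ (hpW s)
    rcases (hWm a).1 ha with rfl | ⟨s, rfl⟩
    · refine h.h3x (p := 0) (q := 0) (fun i => Finset.mem_union_left _ (h.mem_rm _ _ _)) hjm ?_ x e
        he hae hX rfl
      intro j' s hs
      rw [← hun] at hs ⊢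
      rw [h.mem_pr] at hs ⊢
      exact hs
    · exact h3p (Finset.mem_union_left _ (h.mem_hb _ _)) hjm s e hae
  · -- one
    intro a ha e _
    refine h.one hq0 ?_ e
    rcases (hWm a).1 ha with rfl | ⟨s, rfl⟩
    · exact Or.inl ⟨_, rfl⟩
    · exact Or.inr ⟨_, _, rfl⟩
  · -- full
    intro a ha e _
    rcases (hWm a).1 ha with rfl | ⟨s, rfl⟩
    · obtain ⟨y, y1, y2⟩ := h.exE e
      refine ⟨[fx x, pa j false, pa j true], pa j true, fx y,
        path3 g_ep (g_pp.2 ⟨rfl, nb false⟩) (by simp), by rw [hWc]; rfl, ?_,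
        h.mem_ex.2 (by omega), y2, g_pe⟩
      intro y hy
      simp only [List.mem_cons, List.not_mem_nil, or_false] at hy
      rcases hy with rfl | rfl | rfl
      · exact hxW
      · exact hpW _
      · exact hpW _
    · obtain ⟨i, i1, i2, i3⟩ := h.exR x e
      refine ⟨[pa j s, pa j (!s), fx x], fx x, rm i,
        path3 (g_pp.2 ⟨rfl, nb s⟩) g_pe (by simp), by rw [hWc]; rfl, ?_,
        h.mem_rm _ _ _, i1, g_er.2 i2⟩
      intro y hy
      simp only [List.mem_cons, List.not_mem_nil, or_false] at hy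
      rcases hy with rfl | rfl | rfl
      · exact hpW _
      · exact hpW _
      · exact hxW
  · -- four
    intro a ha e he hae
    have f1 : ∀ s, ∃ l, PathL (gam r z0 S) (pa j s) (fx x) l ∧ l.length = 4 ∧
        ∀ y ∈ l, y ∈ h.st p q ∪ W := by
      intro s
      obtain ⟨i, i1, i2, i3⟩ := h.exR x hu
      refine ⟨[pa j s, hu, rm i, fx x], path4 g_ph g_hr (g_re.2 i2) (by simp) (by simp)
        (by simp), rfl, ?_⟩
      intro y hy
      simp only [List.mem_cons, List.not_mem_nil, or_false] at hy
      rcases hy with rfl | rfl | rfl | rfl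
      · exact Finset.mem_union_right _ (hpW _)
      · exact Finset.mem_union_left _ (h.mem_hb _ _)
      · exact Finset.mem_union_left _ (h.mem_rm _ _ _)
      · exact Finset.mem_union_right _ hxW
    have f2 : ∃ l, PathL (gam r z0 S) (pa j false) (pa j true) l ∧ l.length = 4 ∧
        ∀ y ∈ l, y ∈ h.st p q ∪ W := by
      refine ⟨[pa j false, rm z0, hu, pa j true], path4 (g_pr.2 ⟨rfl, rfl⟩) g_rh g_hp (by simp)
        (by simp) (by simp), rfl, ?_⟩
      intro y hy
      simp only [List.mem_cons, List.not_mem_nil, or_false] at hy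
      rcases hy with rfl | rfl | rfl | rfl
      · exact Finset.mem_union_right _ (hpW _)
      · exact Finset.mem_union_left _ (h.mem_rm _ _ _)
      · exact Finset.mem_union_left _ (h.mem_hb _ _)
      · exact Finset.mem_union_right _ (hpW _)
    have rev : ∀ {a e : VG N b r}, (∃ l, PathL (gam r z0 S) a e l ∧ l.length = 4 ∧
        ∀ y ∈ l, y ∈ h.st p q ∪ W) → ∃ l, PathL (gam r z0 S) e a l ∧ l.length = 4 ∧
        ∀ y ∈ l, y ∈ h.st p q ∪ W := by
      rintro a e ⟨l, l1, l2, l3⟩
      exact ⟨l.reverse, l1.reverse, by rw [List.length_reverse, l2],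
        fun y hy => l3 y (List.mem_reverse.1 hy)⟩
    rcases (hWm a).1 ha with rfl | ⟨s, rfl⟩ <;> rcases (hWm e).1 he with rfl | ⟨s', rfl⟩
    · exact absurd rfl hae
    · exact rev (f1 s')
    · exact f1 s
    · cases s <;> cases s'
      · exact absurd rfl hae
      · exact f2
      · exact rev f2
      · exact absurd rfl hae
  · -- two
    intro a ha e he hae
    rcases (hWm a).1 ha with rfl | ⟨s, rfl⟩ <;> rcases (hWm e).1 he with rfl | ⟨s', rfl⟩
    · exact absurd rfl hae
    · obtain ⟨y, y1, y2⟩ := h.exE hu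
      obtain ⟨i, i1, i2, i3⟩ := h.exR x hu
      exact ⟨rm i, h.mem_rm _ _ _, fx y, h.mem_ex.2 (by omega), by simp, g_er.2 i2, g_ep,
        nexc_rm i3 _⟩
    · obtain ⟨y, y1, y2⟩ := h.exE hu
      obtain ⟨i, i1, i2, i3⟩ := h.exR x hu
      exact ⟨fx y, h.mem_ex.2 (by omega), rm i, h.mem_rm _ _ _, by simp, g_pe, g_re.2 i2,
        fun k => nexc_rm i3 _ (exc_symm _ _ k)⟩
    · obtain ⟨y, y1, y2⟩ := h.exE hu
      obtain ⟨y', y1', y2'⟩ := h.exE (fx y)
      exact ⟨fx y', h.mem_ex.2 (by omega), fx y, h.mem_ex.2 (by omega), y2', g_pe, g_ep,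
        nexc_fx (by simp)⟩
  · -- full2
    intro a ha e he hae
    obtain ⟨y, y1, y2⟩ := h.exE hu
    obtain ⟨i, i1, i2, i3⟩ := h.exR x hu
    rcases (hWm a).1 ha with rfl | ⟨s, rfl⟩ <;> rcases (hWm e).1 he with rfl | ⟨s', rfl⟩
    · exact absurd rfl hae
    · refine ⟨[fx x], [pa j (!s'), pa j s'], fx x, pa j (!s'), PathL.single _,
        path2 (g_pp.2 ⟨rfl, (nb s').symm⟩), ?_, by rw [hWc]; rfl, ?_, ?_, rm i, h.mem_rm _ _ _,
        fx y, h.mem_ex.2 (by omega), by simp, g_er.2 i2, g_ep⟩
      · intro v hv hv'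
        simp only [List.mem_cons, List.not_mem_nil, or_false] at hv hv'
        subst hv
        simp at hv'
      · intro v hv
        rw [List.mem_singleton] at hv
        rw [hv]
        exact hxW
      · intro v hv
        simp only [List.mem_cons, List.not_mem_nil, or_false] at hv
        rcases hv with rfl | rfl <;> exact hpW _
    · refine ⟨[pa j s, pa j (!s)], [fx x], pa j (!s), fx x, path2 (g_pp.2 ⟨rfl, nb s⟩),
        PathL.single _, ?_, by rw [hWc]; rfl, ?_, ?_, fx y, h.mem_ex.2 (by omega), rm i,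
        h.mem_rm _ _ _, by simp, g_pe, g_re.2 i2⟩
      · intro v hv hv'
        simp only [List.mem_cons, List.not_mem_nil, or_false] at hv hv'
        subst hv'
        simp at hv
      · intro v hv
        simp only [List.mem_cons, List.not_mem_nil, or_false] at hv
        rcases hv with rfl | rfl <;> exact hpW _
      · intro v hv
        rw [List.mem_singleton] at hv
        rw [hv]
        exact hxW
    · refine ⟨[pa j s, fx x], [pa j s'], fx x, pa j s', path2 g_pe, PathL.single _, ?_,
        by rw [hWc]; rfl, ?_, ?_, rm i, h.mem_rm _ _ _, fx y, h.mem_ex.2 (by omega), by simp,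
        g_er.2 i2, g_ep⟩
      · intro v hv hv'
        simp only [List.mem_cons, List.not_mem_nil, or_false] at hv hv'
        subst hv'
        rcases hv with k | k
        · exact hae k.symm
        · simp at k
      · intro v hv
        simp only [List.mem_cons, List.not_mem_nil, or_false] at hv
        rcases hv with rfl | rfl
        · exact hpW _
        · exact hxW
      · intro v hv
        rw [List.mem_singleton] at hv
        rw [hv]
        exact hpW _

/-- STEP TWO -/
theorem step2 {p q : ℕ} (hp : p < r) (hq : q + 1 < b) (hq0 : b0 ≤ q)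
    (hP : PLx (gam r z0 S) (exc z0) (h.st p q)) :
    PLx (gam r z0 S) (exc z0) (h.st (p + 1) (q + 2)) := by
  set j : Fin r := ⟨p, hp⟩ with hj
  set xx : Bool → Fin b := fun t => if t then ⟨q + 1, hq⟩ else ⟨q, by omega⟩ with hxx
  have hx0 : (xx false).val = q := rfl
  have hx1 : (xx true).val = q + 1 := rfl
  have hxn : ∀ t, xx (!t) ≠ xx t := by
    intro t
    cases t
    · intro k
      have := congrArg Fin.val k
      simp only [Bool.not_false] at this
      omega
    · intro k
      have := congrArg Fin.val k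
      simp only [Bool.not_true] at this
      omega
  set W : Finset (VG N b r) := {pa j false, pa j true, fx (xx false), fx (xx true)} with hW
  have hWm : ∀ a, a ∈ W ↔ (∃ t, a = fx (xx t)) ∨ ∃ s, a = pa j s := by
    intro a
    rw [hW, Finset.mem_insert, Finset.mem_insert, Finset.mem_insert, Finset.mem_singleton]
    constructor
    · rintro (k | k | k | k)
      · exact Or.inr ⟨_, k⟩
      · exact Or.inr ⟨_, k⟩
      · exact Or.inl ⟨_, k⟩
      · exact Or.inl ⟨_, k⟩
    · rintro (⟨t, k⟩ | ⟨s, k⟩)
      · cases t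
        · exact Or.inr (Or.inr (Or.inl k))
        · exact Or.inr (Or.inr (Or.inr k))
      · cases s
        · exact Or.inl k
        · exact Or.inr (Or.inl k)
  have hxW : ∀ t, fx (xx t) ∈ W := fun t => (hWm _).2 (Or.inl ⟨t, rfl⟩)
  have hpW : ∀ s, pa j s ∈ W := fun s => (hWm _).2 (Or.inr ⟨s, rfl⟩)
  have hWc : W.card = 4 := by
    rw [hW, Finset.card_insert_of_notMem, Finset.card_insert_of_notMem,
      Finset.card_insert_of_notMem, Finset.card_singleton]
    · rw [Finset.mem_singleton]
      intro k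
      exact hxn true (by simpa using k)
    · simp
    · simp
  have hd : Disjoint (h.st p q) W := by
    rw [Finset.disjoint_left]
    intro v hv hv'
    rcases (hWm v).1 hv' with ⟨t, rfl⟩ | ⟨s, rfl⟩
    · rw [h.mem_ex] at hv
      cases t
      · omega
      · omega
    · rw [h.mem_pr] at hv
      simp [hj] at hv
  have hun : h.st (p + 1) (q + 2) = h.st p q ∪ W := by
    ext v
    rw [Finset.mem_union, hWm]
    rcases v with i | _ | y | ⟨j', s⟩
    · simp [h.mem_rm]
    · simp [h.mem_hb]
    · simp only [h.mem_ex, fx.injEq, reduceCtorEq, exists_false, or_false, Fin.ext_iff]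
      constructor
      · intro k
        rcases Nat.lt_or_ge y.val q with c | c
        · exact Or.inl c
        · rcases Nat.eq_or_lt_of_le c with c | c
          · exact Or.inr ⟨false, by omega⟩
          · exact Or.inr ⟨true, by omega⟩
      · rintro (k | ⟨t, k⟩)
        · omega
        · cases t
          · omega
          · omega
    · simp only [h.mem_pr, pa.injEq, reduceCtorEq, exists_false, false_or, hj, Fin.ext_iff,
        exists_and_left, exists_eq', and_true]
      omega
  have hU := h.card8 p q hq0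
  have hE : h.E0 ⊆ h.st p q := by
    intro v hv
    obtain ⟨y, hy, rfl⟩ := h.mem_E0.1 hv
    exact h.mem_ex.2 (by omega)
  have nb : ∀ s : Bool, (s : Bool) ≠ !s := fun s => by cases s <;> simp
  rw [hun]
  refine hP.step exc_symm hU (by omega) hd ?_ ?_ ?_ ?_ ?_ ?_ ?_
  · -- insertion
    intro a ha e he hae t ht1 ht2
    obtain ⟨B, hB1, hB2⟩ := h.bad (xx true)
    have hBi : Function.Injective (rm : ZMod N → VG N b r) := fun x y e => by simpa using e
    have hEs : ∀ y ∈ h.E0, (gam r z0 S).Adj y (pa j false) := by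
      intro y hy
      obtain ⟨y, _, rfl⟩ := h.mem_E0.1 hy
      exact g_ep
    have hEt : ∀ y ∈ h.E0, ∀ v ∈ h.st p q, (gam r z0 S).Adj y v → v ∉ B.map ⟨rm, hBi⟩ →
        (gam r z0 S).Adj (fx (xx true)) v := by
      intro y hy v hv hyv hvB
      obtain ⟨y, _, rfl⟩ := h.mem_E0.1 hy
      rcases v with i | _ | y' | ⟨j', s⟩
      · rw [g_er] at hyv ⊢
        refine hB2 y i hyv fun k => hvB ?_
        rw [Finset.mem_map]
        exact ⟨i, k, rfl⟩
      · exact absurd hyv.symm g_he
      · exact absurd hyv g_ee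
      · exact g_ep
    rcases Nat.lt_or_ge t ((h.st p q).card + 4) with c | c
    · refine hP.ins hE (Bad := B.map ⟨rm, hBi⟩) ?_ (s := pa j false) (t := fx (xx true))
        (g := [pa j false, pa j true, fx (xx true)]) ?_ ?_ hd hEs hEt (by omega) ha he hae ?_ ?_
      · rw [Finset.card_map, h.card_E0]
        exact hB1
      · exact path3 (g_pp.2 ⟨rfl, nb false⟩) g_pe (by simp)
      · intro y hy
        simp only [List.mem_cons, List.not_mem_nil, or_false] at hy
        rcases hy with rfl | rfl | rfl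
        · exact hpW _
        · exact hpW _
        · exact hxW _
      · simp only [List.length_cons, List.length_nil]
        omega
      · simp only [List.length_cons, List.length_nil]
        omega
    · refine hP.ins hE (Bad := B.map ⟨rm, hBi⟩) ?_ (s := pa j false) (t := fx (xx true))
        (g := [pa j false, fx (xx false), pa j true, fx (xx true)]) ?_ ?_ hd hEs hEt (by omega)
        ha he hae ?_ ?_
      · rw [Finset.card_map, h.card_E0]
        exact hB1
      · exact path4 g_pe g_ep g_pe (by simp) (by simp) (by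
          intro k
          exact hxn true (by simpa using k))
      · intro y hy
        simp only [List.mem_cons, List.not_mem_nil, or_false] at hy
        rcases hy with rfl | rfl | rfl | rfl
        · exact hpW _
        · exact hxW _
        · exact hpW _
        · exact hxW _
      · simp only [List.length_cons, List.length_nil]
        omega
      · simp only [List.length_cons, List.length_nil]
        omega
  · -- common neighbours
    intro a ha e he hae hX
    have hjm : ∀ s, pa j s ∈ h.st p q ∪ W := fun s => Finset.mem_union_right _ (hpW s)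
    rcases (hWm a).1 ha with ⟨t, rfl⟩ | ⟨s, rfl⟩
    · refine h.h3x (p := 0) (q := 0) (fun i => Finset.mem_union_left _ (h.mem_rm _ _ _)) hjm ?_ _ e
        he hae hX rfl
      intro j' s hs
      rw [← hun] at hs ⊢
      rw [h.mem_pr] at hs ⊢
      exact hs
    · exact h3p (Finset.mem_union_left _ (h.mem_hb _ _)) hjm s e hae
  · -- one
    intro a ha e _
    refine h.one hq0 ?_ e
    rcases (hWm a).1 ha with ⟨t, rfl⟩ | ⟨s, rfl⟩
    · exact Or.inl ⟨_, rfl⟩
    · exact Or.inr ⟨_, _, rfl⟩
  · -- full
    intro a ha e _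
    rcases (hWm a).1 ha with ⟨t, rfl⟩ | ⟨s, rfl⟩
    · obtain ⟨y, y1, y2⟩ := h.exE e
      refine ⟨[fx (xx t), pa j false, fx (xx (!t)), pa j true], pa j true, fx y,
        path4 g_ep g_pe g_ep (fun k => hxn t (by simpa using k.symm)) (by simp) (by simp),
        by rw [hWc]; rfl, ?_, h.mem_ex.2 (by omega), y2, g_pe⟩
      intro y hy
      simp only [List.mem_cons, List.not_mem_nil, or_false] at hy
      rcases hy with rfl | rfl | rfl | rfl
      · exact hxW _
      · exact hpW _
      · exact hxW _
      · exact hpW _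
    · obtain ⟨i, i1, i2, i3⟩ := h.exR (xx true) e
      refine ⟨[pa j s, fx (xx false), pa j (!s), fx (xx true)], fx (xx true), rm i,
        path4 g_pe g_ep g_pe (by simp) (by simp) (fun k => hxn true (by simpa using k)),
        by rw [hWc]; rfl, ?_, h.mem_rm _ _ _, i1, g_er.2 i2⟩
      intro y hy
      simp only [List.mem_cons, List.not_mem_nil, or_false] at hy
      rcases hy with rfl | rfl | rfl | rfl
      · exact hpW _
      · exact hxW _
      · exact hpW _
      · exact hxW _
  · -- four
    intro a ha e he hae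
    have f1 : ∀ s t, ∃ l, PathL (gam r z0 S) (pa j s) (fx (xx t)) l ∧ l.length = 4 ∧
        ∀ y ∈ l, y ∈ h.st p q ∪ W := by
      intro s t
      obtain ⟨i, i1, i2, i3⟩ := h.exR (xx t) hu
      refine ⟨[pa j s, hu, rm i, fx (xx t)], path4 g_ph g_hr (g_re.2 i2) (by simp) (by simp)
        (by simp), rfl, ?_⟩
      intro y hy
      simp only [List.mem_cons, List.not_mem_nil, or_false] at hy
      rcases hy with rfl | rfl | rfl | rfl
      · exact Finset.mem_union_right _ (hpW _)
      · exact Finset.mem_union_left _ (h.mem_hb _ _)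
      · exact Finset.mem_union_left _ (h.mem_rm _ _ _)
      · exact Finset.mem_union_right _ (hxW _)
    have f2 : ∃ l, PathL (gam r z0 S) (pa j false) (pa j true) l ∧ l.length = 4 ∧
        ∀ y ∈ l, y ∈ h.st p q ∪ W := by
      refine ⟨[pa j false, rm z0, hu, pa j true], path4 (g_pr.2 ⟨rfl, rfl⟩) g_rh g_hp (by simp)
        (by simp) (by simp), rfl, ?_⟩
      intro y hy
      simp only [List.mem_cons, List.not_mem_nil, or_false] at hy
      rcases hy with rfl | rfl | rfl | rfl
      · exact Finset.mem_union_right _ (hpW _)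
      · exact Finset.mem_union_left _ (h.mem_rm _ _ _)
      · exact Finset.mem_union_left _ (h.mem_hb _ _)
      · exact Finset.mem_union_right _ (hpW _)
    have f3 : ∃ l, PathL (gam r z0 S) (fx (xx false)) (fx (xx true)) l ∧ l.length = 4 ∧
        ∀ y ∈ l, y ∈ h.st p q ∪ W := by
      refine ⟨[fx (xx false), pa j false, pa j true, fx (xx true)], path4 g_ep
        (g_pp.2 ⟨rfl, nb false⟩) g_pe (by simp) (fun k => hxn true (by simpa using k))
        (by simp), rfl, ?_⟩
      intro y hy
      simp only [List.mem_cons, List.not_mem_nil, or_false] at hy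
      rcases hy with rfl | rfl | rfl | rfl
      · exact Finset.mem_union_right _ (hxW _)
      · exact Finset.mem_union_right _ (hpW _)
      · exact Finset.mem_union_right _ (hpW _)
      · exact Finset.mem_union_right _ (hxW _)
    have rev : ∀ {a e : VG N b r}, (∃ l, PathL (gam r z0 S) a e l ∧ l.length = 4 ∧
        ∀ y ∈ l, y ∈ h.st p q ∪ W) → ∃ l, PathL (gam r z0 S) e a l ∧ l.length = 4 ∧
        ∀ y ∈ l, y ∈ h.st p q ∪ W := by
      rintro a e ⟨l, l1, l2, l3⟩
      exact ⟨l.reverse, l1.reverse, by rw [List.length_reverse, l2],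
        fun y hy => l3 y (List.mem_reverse.1 hy)⟩
    rcases (hWm a).1 ha with ⟨t, rfl⟩ | ⟨s, rfl⟩ <;>
      rcases (hWm e).1 he with ⟨t', rfl⟩ | ⟨s', rfl⟩
    · cases t <;> cases t'
      · exact absurd rfl hae
      · exact f3
      · exact rev f3
      · exact absurd rfl hae
    · exact rev (f1 s' t)
    · exact f1 s t'
    · cases s <;> cases s'
      · exact absurd rfl hae
      · exact f2
      · exact rev f2
      · exact absurd rfl hae
  · -- two
    intro a ha e he hae
    rcases (hWm a).1 ha with ⟨t, rfl⟩ | ⟨s, rfl⟩ <;>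
      rcases (hWm e).1 he with ⟨t', rfl⟩ | ⟨s', rfl⟩
    · obtain ⟨i, i1, i2, i3⟩ := h.exR (xx t) hu
      obtain ⟨i', i1', i2', i3'⟩ := h.exR (xx t') (rm i)
      exact ⟨rm i, h.mem_rm _ _ _, rm i', h.mem_rm _ _ _, i1'.symm, g_er.2 i2, g_re.2 i2',
        nexc_rm i3 _⟩
    · obtain ⟨y, y1, y2⟩ := h.exE hu
      obtain ⟨i, i1, i2, i3⟩ := h.exR (xx t) hu
      exact ⟨rm i, h.mem_rm _ _ _, fx y, h.mem_ex.2 (by omega), by simp, g_er.2 i2, g_ep,
        nexc_rm i3 _⟩
    · obtain ⟨y, y1, y2⟩ := h.exE hu
      obtain ⟨i, i1, i2, i3⟩ := h.exR (xx t') hu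
      exact ⟨fx y, h.mem_ex.2 (by omega), rm i, h.mem_rm _ _ _, by simp, g_pe, g_re.2 i2,
        fun k => nexc_rm i3 _ (exc_symm _ _ k)⟩
    · obtain ⟨y, y1, y2⟩ := h.exE hu
      obtain ⟨y', y1', y2'⟩ := h.exE (fx y)
      exact ⟨fx y', h.mem_ex.2 (by omega), fx y, h.mem_ex.2 (by omega), y2', g_pe, g_ep,
        nexc_fx (by simp)⟩
  · -- full2
    intro a ha e he hae
    obtain ⟨y, y1, y2⟩ := h.exE hu
    rcases (hWm a).1 ha with ⟨t, rfl⟩ | ⟨s, rfl⟩ <;>
      rcases (hWm e).1 he with ⟨t', rfl⟩ | ⟨s', rfl⟩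
    · obtain ⟨i, i1, i2, i3⟩ := h.exR (xx t') hu
      refine ⟨[fx (xx t), pa j false, pa j true], [fx (xx t')], pa j true, fx (xx t'),
        path3 g_ep (g_pp.2 ⟨rfl, nb false⟩) (by simp), PathL.single _, ?_, by rw [hWc]; rfl,
        ?_, ?_, fx y, h.mem_ex.2 (by omega), rm i, h.mem_rm _ _ _, by simp, g_pe, g_re.2 i2⟩
      · intro v hv hv'
        simp only [List.mem_cons, List.not_mem_nil, or_false] at hv hv'
        subst hv'
        rcases hv with k | k | k
        · exact hae k.symm
        · simp at k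
        · simp at k
      · intro v hv
        simp only [List.mem_cons, List.not_mem_nil, or_false] at hv
        rcases hv with rfl | rfl | rfl
        · exact hxW _
        · exact hpW _
        · exact hpW _
      · intro v hv
        rw [List.mem_singleton] at hv
        rw [hv]
        exact hxW _
    · obtain ⟨i, i1, i2, i3⟩ := h.exR (xx t) hu
      refine ⟨[fx (xx t)], [pa j (!s'), fx (xx (!t)), pa j s'], fx (xx t), pa j (!s'),
        PathL.single _, path3 g_pe g_ep (by simp), ?_, by rw [hWc]; rfl, ?_, ?_,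
        rm i, h.mem_rm _ _ _, fx y, h.mem_ex.2 (by omega), by simp, g_er.2 i2, g_ep⟩
      · intro v hv hv'
        simp only [List.mem_cons, List.not_mem_nil, or_false] at hv hv'
        subst hv
        rcases hv' with k | k | k
        · simp at k
        · exact hxn t (by simpa using k.symm)
        · simp at k
      · intro v hv
        rw [List.mem_singleton] at hv
        rw [hv]
        exact hxW _
      · intro v hv
        simp only [List.mem_cons, List.not_mem_nil, or_false] at hv
        rcases hv with rfl | rfl | rfl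
        · exact hpW _
        · exact hxW _
        · exact hpW _
    · obtain ⟨i, i1, i2, i3⟩ := h.exR (xx t') hu
      refine ⟨[pa j s, fx (xx (!t')), pa j (!s)], [fx (xx t')], pa j (!s), fx (xx t'),
        path3 g_pe g_ep (by simp), PathL.single _, ?_, by rw [hWc]; rfl, ?_, ?_,
        fx y, h.mem_ex.2 (by omega), rm i, h.mem_rm _ _ _, by simp, g_pe, g_re.2 i2⟩
      · intro v hv hv'
        simp only [List.mem_cons, List.not_mem_nil, or_false] at hv hv'
        subst hv'
        rcases hv with k | k | k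
        · simp at k
        · exact hxn t' (by simpa using k.symm)
        · simp at k
      · intro v hv
        simp only [List.mem_cons, List.not_mem_nil, or_false] at hv
        rcases hv with rfl | rfl | rfl
        · exact hpW _
        · exact hxW _
        · exact hpW _
      · intro v hv
        rw [List.mem_singleton] at hv
        rw [hv]
        exact hxW _
    · obtain ⟨i, i1, i2, i3⟩ := h.exR (xx false) hu
      obtain ⟨i', i1', i2', i3'⟩ := h.exR (xx true) (rm i)
      refine ⟨[pa j s, fx (xx false)], [fx (xx true), pa j s'], fx (xx false), fx (xx true),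
        path2 g_pe, path2 g_ep, ?_, by rw [hWc]; rfl, ?_, ?_, rm i, h.mem_rm _ _ _, rm i',
        h.mem_rm _ _ _, i1'.symm, g_er.2 i2, g_re.2 i2'⟩
      · intro v hv hv'
        simp only [List.mem_cons, List.not_mem_nil, or_false] at hv hv'
        rcases hv with rfl | rfl
        · rcases hv' with k | k
          · simp at k
          · exact hae k
        · rcases hv' with k | k
          · exact hxn true (by simpa using k)
          · simp at k
      · intro v hv
        simp only [List.mem_cons, List.not_mem_nil, or_false] at hv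
        rcases hv with rfl | rfl
        · exact hpW _
        · exact hxW _
      · intro v hv
        simp only [List.mem_cons, List.not_mem_nil, or_false] at hv
        rcases hv with rfl | rfl
        · exact hxW _
        · exact hpW _

/-- all stages -/
theorem stages : ∀ p k, p + k ≤ r → b0 + p + 2 * k ≤ b →
    PLx (gam r z0 S) (exc z0) (h.st (p + k) (b0 + p + 2 * k)) := by
  intro p
  induction p with
  | zero =>
    intro k
    induction k with
    | zero =>
      intro _ _
      exact h.stage0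
    | succ k ih =>
      intro h1 h2
      exact h.step2 (p := 0 + k) (q := b0 + 0 + 2 * k) (by omega) (by omega) (by omega)
        (ih (by omega) (by omega))
  | succ p ih =>
    intro k h1 h2
    have := h.step1 (p := p + k) (q := b0 + p + 2 * k) (by omega) (by omega) (by omega)
      (ih k (by omega) (by omega))
    rwa [show p + k + 1 = p + 1 + k by omega,
      show b0 + p + 2 * k + 1 = b0 + (p + 1) + 2 * k by omega] at this

/-- THE GRAPH IS PLD-MAXIMAL -/
theorem isPLD : IsPLD (gam r z0 S) (N + 1 + b + 2 * r) := by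
  have h1 := h.r1
  have h2 := h.lo
  have h3 := h.hi
  have hP := h.stages (b0 + 2 * r - b) (b - b0 - r) (by omega) (by omega)
  rw [show b0 + 2 * r - b + (b - b0 - r) = r by omega,
    show b0 + (b0 + 2 * r - b) + 2 * (b - b0 - r) = b by omega] at hP
  have hu : h.st r b = Finset.univ := by
    ext v
    rcases v with i | _ | x | ⟨j, s⟩
    · simp [h.mem_rm]
    · simp [h.mem_hb]
    · simp [h.mem_ex]
    · simp [h.mem_pr]
  rw [hu] at hP
  intro j j3 jn
  rw [hasP_iff]
  intro u v huv
  have hcard : (Finset.univ : Finset (VG N b r)).card = N + 1 + b + 2 * r := by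
    rw [Finset.card_univ, VG.card]
  by_cases c : j = 3 ∧ exc z0 u v
  · obtain ⟨rfl, c⟩ := c
    rcases u with i | _ | x | ⟨p, s⟩ <;> rcases v with i' | _ | x' | ⟨p', s'⟩ <;>
      first
      | exact absurd c id
      | skip
    · have hi : i = z0 := c
      subst hi
      exact ⟨_, path3 (g_rp (j := ⟨0, by omega⟩).2 ⟨rfl, rfl⟩) g_pe huv, rfl⟩
    · have hi : i' = z0 := c
      subst hi
      exact ⟨_, path3 (g_ep (j := ⟨0, by omega⟩)) (g_pr.2 ⟨rfl, rfl⟩) huv, rfl⟩
  · obtain ⟨l, l1, l2, _⟩ := hP u (Finset.mem_univ _) v (Finset.mem_univ _) huv j j3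
      (by rw [hcard]; exact jn) (fun e k => c ⟨e, k⟩)
    exact ⟨l, l1, l2⟩

end Gd

end MPd41ace
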