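import Pool.Agent.Lib.MP_d41ace_co.Gap
import Pool.Agent.Lib.MP_d41ace_co.Count

/-!
Lower end of the spectrum, second part: the count of `P_3`, the case of a dominating vertex and the
theorem.
-/

set_option autoImplicit false

namespace MPd41ace

open SimpleGraph

variable {V : Type*} [Fintype V] {G : SimpleGraph V} {n : ℕ}

open scoped Classical in
/-- every pair has a common neighbour -/
lemma p3_count (h : IsPLD G n) (hc : Fintype.card V = n) (hn : 3 ≤ n) :
    n * n + ∑ v, G.degree v ≤ ∑ v, G.degree v * G.degree v + n := by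
  have hg : ∀ u v, u ≠ v → ∃ w, G.Adj u w ∧ G.Adj w v := fun u v huv => common h hn huv
  choose! g hg1 hg2 using hg
  have h1 : ((Finset.univ : Finset V).offDiag).card ≤
      (Finset.univ.sigma fun w : V => (G.neighborFinset w).offDiag).card := by
    refine Finset.card_le_card_of_injOn
      (fun p : V × V => (⟨g p.1 p.2, p⟩ : Σ _ : V, V × V)) ?_ ?_
    · intro p hp
      rw [Finset.mem_coe, Finset.mem_offDiag] at hp
      rw [Finset.mem_coe, Finset.mem_sigma]
      refine ⟨Finset.mem_univ _, ?_⟩
      rw [Finset.mem_offDiag, SimpleGraph.mem_neighborFinset, SimpleGraph.mem_neighborFinset]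
      exact ⟨(hg1 _ _ hp.2.2).symm, hg2 _ _ hp.2.2, hp.2.2⟩
    · intro p _ q _ e
      simp only [Sigma.mk.injEq, heq_eq_eq] at e
      exact e.2
  rw [Finset.offDiag_card, Finset.card_sigma, Finset.card_univ, hc] at h1
  have h2 : ∑ v, (G.neighborFinset v).offDiag.card + ∑ v, G.degree v
      = ∑ v, G.degree v * G.degree v := by
    rw [← Finset.sum_add_distrib]
    refine Finset.sum_congr rfl fun v _ => ?_
    rw [Finset.offDiag_card, SimpleGraph.card_neighborFinset_eq_degree]
    exact Nat.sub_add_cancel (Nat.le_mul_self _)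
  have h3 : n ≤ n * n := Nat.le_mul_self _
  omega

open scoped Classical in
lemma delta_bound (h : IsPLD G n) (hc : Fintype.card V = n) (hn : 4 ≤ n) {D : ℕ}
    (hD : ∀ v, G.degree v ≤ D) :
    n * n + 3 * (D + 2) * n ≤ (D + 2) * (2 * G.edgeFinset.card) + 7 * n := by
  have h1 := p3_count h hc (by omega)
  have h2 : ∀ v, G.degree v * G.degree v + 3 * (D + 2) ≤
      G.degree v + (D + 2) * G.degree v + 6 := by
    intro v
    obtain ⟨a, ha⟩ := Nat.exists_eq_add_of_le (three_le_degree h hc hn v)
    obtain ⟨b, hb⟩ := Nat.exists_eq_add_of_le (hD v)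
    rw [hb, ha]
    nlinarith [Nat.zero_le (a * b)]
  have h3 := Finset.sum_le_sum fun v (_ : v ∈ (Finset.univ : Finset V)) => h2 v
  have h4 : ∑ v, (D + 2) * G.degree v = (D + 2) * ∑ v, G.degree v :=
    (Finset.mul_sum _ _ _).symm
  rw [Finset.sum_add_distrib, Finset.sum_add_distrib, Finset.sum_add_distrib, h4,
    Finset.sum_const, Finset.sum_const, Finset.card_univ, hc,
    SimpleGraph.sum_degrees_eq_twice_card_edges, smul_eq_mul, smul_eq_mul] at h3
  rw [SimpleGraph.sum_degrees_eq_twice_card_edges] at h1
  nlinarith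

open scoped Classical in
lemma no_two (h : IsMinPLD G n) (hc : Fintype.card V = n) (hn : 4 ≤ n) {w : V}
    (hw : ∀ v, v ≠ w → G.Adj w v) (hm : 2 * (n - 1) < G.edgeFinset.card) {v a b : V} (hv : v ≠ w)
    (ha : a ≠ w) (hb : b ≠ w) (hab : a ≠ b) (hva : G.Adj v a) (hvb : G.Adj v b)
    (da : G.degree a = 3) (db : G.degree b = 3) : False := by
  obtain ⟨f, hf⟩ := exists_ham h.1 hc (by omega) hv
  have key : ∀ c, c ≠ w → G.Adj v c → G.degree c = 3 → c = f 1 ∨ c = f (n - 2) := by
    intro c hcw hvc dc
    obtain ⟨i, hi, rfl⟩ := hf.surj c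
    have i0 : i ≠ 0 := by
      rintro rfl
      rw [hf.fst] at hvc
      exact G.irrefl hvc
    have i1 : i ≠ n - 1 := by
      rintro rfl
      exact hcw hf.lst
    by_cases i2 : i = n - 2
    · exact Or.inr (by rw [i2])
    left
    have a1 : G.Adj (f i) (f (i - 1)) := by
      have := hf.adj (i - 1) (by omega)
      rw [show i - 1 + 1 = i by omega] at this
      exact this.symm
    have a2 : G.Adj (f i) (f (i + 1)) := hf.adj i (by omega)
    have e1 : f (i - 1) ≠ f (i + 1) := by
      intro e
      have := hf.inj _ _ (by omega) (by omega) e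
      omega
    have e2 : f (i - 1) ≠ w := by
      intro e
      rw [← hf.lst] at e
      have := hf.inj _ _ (by omega) (by omega) e
      omega
    have e3 : f (i + 1) ≠ w := by
      intro e
      rw [← hf.lst] at e
      have := hf.inj _ _ (by omega) (by omega) e
      omega
    have hs : ({f (i - 1), f (i + 1), w} : Finset V) ⊆ G.neighborFinset (f i) := by
      intro y hy
      rw [SimpleGraph.mem_neighborFinset]
      simp only [Finset.mem_insert, Finset.mem_singleton] at hy
      rcases hy with rfl | rfl | rfl
      · exact a1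
      · exact a2
      · exact (hw _ hcw).symm
    have hcard : ({f (i - 1), f (i + 1), w} : Finset V).card = 3 :=
      Finset.card_eq_three.2 ⟨_, _, _, e1, e2, e3, rfl⟩
    have heq := Finset.eq_of_subset_of_card_le hs (by
      rw [SimpleGraph.card_neighborFinset_eq_degree, dc, hcard])
    have hvm : v ∈ G.neighborFinset (f i) := (SimpleGraph.mem_neighborFinset _ _ _).2 hvc.symm
    rw [← heq] at hvm
    simp only [Finset.mem_insert, Finset.mem_singleton] at hvm
    rcases hvm with e | e | e
    · rw [← hf.fst] at e
      have := hf.inj _ _ (by omega) (by omega) e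
      rw [show i = 1 by omega]
    · rw [← hf.fst] at e
      have := hf.inj _ _ (by omega) (by omega) e
      omega
    · exact absurd e hv
  have hcl : G.Adj (f 0) (f (n - 2)) := by
    rw [hf.fst]
    rcases key a ha hva da with e | e
    · rcases key b hb hvb db with e' | e'
      · exact absurd (e.trans e'.symm) hab
      · rw [← e']
        exact hvb
    · rw [← e]
      exact hva
  -- the wheel
  obtain ⟨N, rfl⟩ : ∃ N, n = N + 1 := ⟨n - 1, by omega⟩
  have hN : 3 ≤ N := by omega
  have : NeZero N := ⟨by omega⟩
  set z : ZMod N → V := fun t => f t.val with hz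
  have zinj : Function.Injective z := by
    intro s t e
    have s1 := ZMod.val_lt s
    have t1 := ZMod.val_lt t
    exact ZMod.val_injective N (hf.inj _ _ (by omega) (by omega) e)
  have hwN : f N = w := hf.lst
  have zhub : ∀ i, z i ≠ w := by
    intro i e
    have s1 := ZMod.val_lt i
    rw [← hwN] at e
    have := hf.inj _ _ (by omega) (by omega) e
    omega
  have zrim : ∀ i, G.Adj (z i) (z (i + 1)) := by
    intro i
    have s1 := ZMod.val_lt i
    by_cases c : i.val + 1 = N
    · have e : (i + 1).val = 0 := by
        have e1 : i + 1 = ((i.val + 1 : ℕ) : ZMod N) := by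
          push_cast
          rw [ZMod.natCast_zmod_val]
        rw [e1, c]
        simp
      show G.Adj (f i.val) (f (i + 1).val)
      rw [e, show i.val = N + 1 - 2 by omega]
      exact hcl.symm
    · have e : (i + 1).val = i.val + 1 := by
        have e1 : i + 1 = ((i.val + 1 : ℕ) : ZMod N) := by
          push_cast
          rw [ZMod.natCast_zmod_val]
        rw [e1, ZMod.val_natCast, Nat.mod_eq_of_lt (by omega)]
      show G.Adj (f i.val) (f (i + 1).val)
      rw [e]
      exact hf.adj _ (by omega)
  have zspoke : ∀ i, G.Adj w (z i) := fun i => hw _ (zhub i)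
  set WE : Finset (Sym2 V) := (Finset.univ.image fun t : ZMod N => s(z t, z (t + 1))) ∪
    (Finset.univ.image fun t : ZMod N => s(w, z t)) with hWE
  have hWc : WE.card ≤ 2 * N := by
    refine (Finset.card_union_le _ _).trans ?_
    have k1 := Finset.card_image_le (s := (Finset.univ : Finset (ZMod N)))
      (f := fun t : ZMod N => s(z t, z (t + 1)))
    have k2 := Finset.card_image_le (s := (Finset.univ : Finset (ZMod N)))
      (f := fun t : ZMod N => s(w, z t))
    rw [Finset.card_univ, ZMod.card] at k1 k2
    omega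
  obtain ⟨e, he1, he2⟩ := Finset.exists_mem_notMem_of_card_lt_card
    (s := WE) (t := G.edgeFinset) (by omega)
  have hW' : Whl (G.deleteEdges {e}) N z w := by
    refine ⟨zinj, zhub, ?_, ?_⟩
    · intro i
      rw [SimpleGraph.deleteEdges_adj]
      refine ⟨zrim i, ?_⟩
      rw [Set.mem_singleton_iff]
      rintro rfl
      exact he2 (Finset.mem_union_left _ (Finset.mem_image_of_mem
        (fun t : ZMod N => s(z t, z (t + 1))) (Finset.mem_univ i)))
    · intro i
      rw [SimpleGraph.deleteEdges_adj]
      refine ⟨zspoke i, ?_⟩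
      rw [Set.mem_singleton_iff]
      rintro rfl
      exact he2 (Finset.mem_union_right _ (Finset.mem_image_of_mem
        (fun t : ZMod N => s(w, z t)) (Finset.mem_univ i)))
  refine h.2 e ((SimpleGraph.mem_edgeFinset).1 he1) ?_
  have hall : ∀ x, x ∈ WS z w := by
    intro x
    obtain ⟨i, hi, rfl⟩ := hf.surj x
    by_cases c : i = N
    · subst c
      rw [hwN]
      exact Set.mem_insert _ _
    · refine Set.mem_insert_of_mem _ ⟨(i : ZMod N), ?_⟩
      show f ((i : ZMod N)).val = f i
      rw [ZMod.val_natCast, Nat.mod_eq_of_lt (by omega)]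
  intro i h3 hi
  rw [hasP_iff]
  intro u y huy
  obtain ⟨l, hl, hl2, _⟩ := hW'.paths (hall u) (hall y) huy h3 hi
  exact ⟨l, hl, hl2⟩

open scoped Classical in
lemma dom_case (h : IsMinPLD G n) (hc : Fintype.card V = n) (hn : 4 ≤ n) {w : V}
    (hw : ∀ v, v ≠ w → G.Adj w v) (hm : 2 * (n - 1) < G.edgeFinset.card) :
    9 * (n - 1) ≤ 4 * G.edgeFinset.card := by
  set U : Finset V := Finset.univ.erase w with hU
  set T : Finset V := U.filter fun v => G.degree v = 3 with hT
  have hUc : U.card = n - 1 := by
    rw [hU, Finset.card_erase_of_mem (Finset.mem_univ _), Finset.card_univ, hc]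
  have hmT : ∀ t, t ∈ T ↔ t ≠ w ∧ G.degree t = 3 := by
    intro t
    rw [hT, Finset.mem_filter, hU, Finset.mem_erase]
    simp
  have h1 : T.card * 2 ≤ U.card * 1 := by
    refine Finset.card_mul_le_card_mul (fun a b => G.Adj a b) ?_ ?_
    · intro t ht
      obtain ⟨ht1, ht2⟩ := (hmT t).1 ht
      have e : U.bipartiteAbove (fun a b => G.Adj a b) t = (G.neighborFinset t).erase w := by
        ext y
        simp only [Finset.mem_bipartiteAbove, Finset.mem_erase, SimpleGraph.mem_neighborFinset, hU,
          Finset.mem_univ, and_true]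
      rw [e, Finset.card_erase_of_mem, SimpleGraph.card_neighborFinset_eq_degree, ht2]
      rw [SimpleGraph.mem_neighborFinset]
      exact (hw t ht1).symm
    · intro v hv
      rw [hU, Finset.mem_erase] at hv
      rw [Finset.card_le_one]
      intro a ha b hb
      rw [Finset.mem_bipartiteBelow] at ha hb
      by_contra hab
      obtain ⟨ha1, ha2⟩ := (hmT a).1 ha.1
      obtain ⟨hb1, hb2⟩ := (hmT b).1 hb.1
      exact no_two h hc hn hw hm hv.1 ha1 hb1 hab ha.2.symm hb.2.symm ha2 hb2
  have h2 : ∑ v, G.degree v = 2 * G.edgeFinset.card := G.sum_degrees_eq_twice_card_edges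
  have h3 : G.degree w = n - 1 := by
    rw [← SimpleGraph.card_neighborFinset_eq_degree, ← hUc]
    congr 1
    ext y
    rw [SimpleGraph.mem_neighborFinset, hU, Finset.mem_erase]
    constructor
    · intro k
      exact ⟨k.ne', Finset.mem_univ _⟩
    · intro k
      exact hw _ k.1
  have h4 : ∑ v ∈ U, G.degree v + G.degree w = ∑ v, G.degree v :=
    Finset.sum_erase_add _ _ (Finset.mem_univ w)
  have h5 : 4 * U.card ≤ ∑ v ∈ U, G.degree v + T.card := by
    have e : T.card = ∑ v ∈ U, if G.degree v = 3 then 1 else 0 := by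
      rw [hT, Finset.card_filter]
    rw [e, ← Finset.sum_add_distrib, mul_comm, ← smul_eq_mul, ← Finset.sum_const]
    refine Finset.sum_le_sum fun v _ => ?_
    have := three_le_degree h.1 hc hn v
    split_ifs with c
    · omega
    · omega
  omega

/-- pure arithmetic -/
lemma arith {n m D k d : ℕ} (hn : 32 ≤ n) (hD : D + k + 1 = n) (hk : 1 ≤ k)
    (hm : 4 * m < 9 * (n - 1))
    (h1 : n * n + 3 * (D + 2) * n ≤ (D + 2) * (2 * m) + 7 * n)
    (h2 : 2 * D + 4 * n ≤ 2 * m + 3 * d + 6)
    (h3 : D + d + n ≤ m + 3)
    (h4 : D + k * d + 3 * D ≤ 2 * m) : False := by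
  have m1 : 4 * m + 10 ≤ 9 * n := by omega
  have e1 : 3 * n ≤ 4 * k + 6 * d + 6 := by omega
  have e3 : 4 * d ≤ n + 6 + 4 * k := by omega
  have e2 : 2 * (k * d) ≤ n + 8 * k := by omega
  have e0 : 3 * k ≤ n + 12 := by
    by_contra hcon
    rw [not_le] at hcon
    have c1 : 2 * (n * n) + 6 * (D + 2) * n ≤ (D + 2) * (9 * n - 10) + 14 * n := by
      have : (D + 2) * (4 * m) ≤ (D + 2) * (9 * n - 10) := Nat.mul_le_mul_left _ (by omega)
      nlinarith
    zify [show 10 ≤ 9 * n by omega] at *
    have hD' : (D : ℤ) = n - 1 - k := by linarith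
    rw [hD'] at c1
    nlinarith
  rcases Nat.lt_or_ge k 2 with c | c
  · obtain rfl : k = 1 := by omega
    omega
  · zify at *
    nlinarith [mul_nonneg (sub_nonneg.2 (show (2 : ℤ) ≤ k by exact_mod_cast c))
      (sub_nonneg.2 e0)]

open scoped Classical in
/-- THE LOWER GAP -/
theorem lower_gap (h : IsMinPLD G n) (hc : Fintype.card V = n) (hn : 32 ≤ n)
    (hm : 2 * (n - 1) < G.edgeFinset.card) : 9 * (n - 1) ≤ 4 * G.edgeFinset.card := by
  by_contra hcon
  rw [not_le] at hcon
  have : Nonempty V := by
    rw [← Fintype.card_pos_iff]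
    omega
  obtain ⟨c, _, hcmax⟩ := Finset.exists_max_image (Finset.univ : Finset V) (fun v => G.degree v)
    Finset.univ_nonempty
  set K : Finset V := Finset.univ.filter fun v => v ≠ c ∧ ¬ G.Adj c v with hK
  have hsum : G.degree c + K.card + 1 = n := by
    rw [← SimpleGraph.card_neighborFinset_eq_degree]
    have e : insert c (G.neighborFinset c ∪ K) = Finset.univ := by
      ext y
      simp only [Finset.mem_insert, Finset.mem_union, SimpleGraph.mem_neighborFinset, hK,
        Finset.mem_filter, Finset.mem_univ, true_and, iff_true]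
      tauto
    have hdis : Disjoint (G.neighborFinset c) K := by
      rw [Finset.disjoint_left]
      intro y hy hy'
      rw [SimpleGraph.mem_neighborFinset] at hy
      exact (Finset.mem_filter.1 hy').2.2 hy
    have hnot : c ∉ G.neighborFinset c ∪ K := by
      rw [Finset.mem_union, SimpleGraph.mem_neighborFinset, hK, Finset.mem_filter]
      rintro (k | k)
      · exact G.irrefl k
      · exact k.2.1 rfl
    have k1 := congrArg Finset.card e
    rw [Finset.card_insert_of_notMem hnot, Finset.card_union_of_disjoint hdis, Finset.card_univ,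
      hc] at k1
    exact k1
  rcases K.eq_empty_or_nonempty with hK0 | hKn
  · have := dom_case h hc (by omega) (w := c) (by
      intro v hv
      by_contra hna
      have : v ∈ K := Finset.mem_filter.2 ⟨Finset.mem_univ _, hv, hna⟩
      rw [hK0] at this
      exact absurd this (Finset.notMem_empty _)) hm
    omega
  · obtain ⟨x, hx, hxmin⟩ := Finset.exists_min_image K (fun v => G.degree v) hKn
    have hx' := (Finset.mem_filter.1 hx).2
    have k1 := delta_bound h.1 hc (by omega) (D := G.degree c) fun v => hcmax v (Finset.mem_univ _)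
    have k2 := count_main h.1 hc (by omega) hx'.1.symm hx'.2
    have k3 := count_two h.1 hc (by omega) hx'.1.symm hx'.2
    have k4 : G.degree c + K.card * G.degree x + 3 * G.degree c ≤ 2 * G.edgeFinset.card := by
      rw [← G.sum_degrees_eq_twice_card_edges]
      have hdis : Disjoint (G.neighborFinset c) K := by
        rw [Finset.disjoint_left]
        intro y hy hy'
        rw [SimpleGraph.mem_neighborFinset] at hy
        exact (Finset.mem_filter.1 hy').2.2 hy
      have hnot : c ∉ G.neighborFinset c ∪ K := by
        rw [Finset.mem_union, SimpleGraph.mem_neighborFinset, hK, Finset.mem_filter]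
        rintro (k | k)
        · exact G.irrefl k
        · exact k.2.1 rfl
      have e1 : ∑ v ∈ insert c (G.neighborFinset c ∪ K), G.degree v ≤ ∑ v, G.degree v :=
        Finset.sum_le_sum_of_subset (Finset.subset_univ _)
      rw [Finset.sum_insert hnot, Finset.sum_union hdis] at e1
      have e2 : G.degree c * 3 ≤ ∑ v ∈ G.neighborFinset c, G.degree v := by
        have := Finset.card_nsmul_le_sum (G.neighborFinset c) (fun v => G.degree v) 3
          fun v _ => three_le_degree h.1 hc (by omega) v
        rwa [SimpleGraph.card_neighborFinset_eq_degree, smul_eq_mul] at this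
      have e3 : K.card * G.degree x ≤ ∑ v ∈ K, G.degree v := by
        have := Finset.card_nsmul_le_sum K (fun v => G.degree v) (G.degree x)
          fun v hv => hxmin v hv
        rwa [smul_eq_mul] at this
      omega
    exact arith hn hsum (Finset.card_pos.2 hKn) (by omega) k1 k2 k3 k4

/-- the lower gap, for the spectrum -/
theorem not_realised {n m : ℕ} (hn : 32 ≤ n) (h1 : 2 * (n - 1) < m) (h2 : 4 * m < 9 * (n - 1)) :
    ¬ Realised n m := by
  classical
  rintro ⟨G, hG, hm⟩
  have e : G.edgeFinset.card = m := by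
    rw [← hm, Set.ncard_eq_toFinset_card', ← SimpleGraph.edgeFinset]
  have := lower_gap hG (Fintype.card_fin n) hn (by
    convert h1 using 1)
  have e' : (@SimpleGraph.edgeFinset (Fin n) G _).card = m := by
    convert e
  rw [e'] at this
  omega

end MPd41ace
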