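import Pool.Agent.Lib.MP_d41ace_co.Pattern

/-!
All sizes between `5 n` and `n ^ 2 / 10` are realised.
-/

set_option autoImplicit false

namespace MPd41ace

/-- the sets of the family -/
def sets (N b o α : ℕ) (O A : Fin b → ℕ) : Fin (b + 2) → ZMod N → Prop :=
  Fin.cons (fun i => pt o α i.val) (Fin.cons (fun i => pt o α (i - 1).val)
    (fun x i => pt (O x) (A x) i.val) : Fin (b + 1) → ZMod N → Prop)

variable {N b o α : ℕ} {O A B : Fin b → ℕ}

lemma sets_ok1 [NeZero N] (h0 : N = 12 + 5 * o + 4 * α)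
    (h : ∀ x, N = 12 + 5 * O x + 4 * A x + 3 * B x) (x : Fin (b + 2)) :
    Ok1 (sets N b o α O A x) := by
  induction x using Fin.cases with
  | zero => exact ok1_pt (β := 0) (by omega)
  | succ x =>
    induction x using Fin.cases with
    | zero => exact ok1_shift (β := 0) (by omega)
    | succ x => exact ok1_pt (h x)

lemma sets_good [NeZero N] (h0 : N = 12 + 5 * o + 4 * α) (hs : 4 * (b + 4) ≤ N)
    (h : ∀ x, N = 12 + 5 * O x + 4 * A x + 3 * B x) : Good N (b + 2) (sets N b o α O A) := by
  have ok := sets_ok1 h0 h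
  refine ⟨fun x => (ok x).dom, fun x => (ok x).mini, fun i => ?_, fun i => ?_,
    fun x y => ⟨1, (ok x).one, (ok y).one⟩, by omega⟩
  · by_cases c : pt o α i.val ∨ pt o α (i + 1).val
    · exact ⟨0, crit_pt h0 i c⟩
    · rw [not_or] at c
      refine ⟨1, Or.inr ⟨?_, ?_⟩⟩
      · rcases (ok 0).dom i with k | k
        · exact k
        · exact absurd k c.2
      · show ¬ pt o α (i + 2 - 1).val
        rw [show i + 2 - 1 = i + 1 by ring]
        exact c.2
  · have ne : ∀ s t : ℕ, s < 16 → t < 16 → s ≠ t → (s : ZMod N) ≠ (t : ZMod N) := by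
      intro s t hs' ht' hst e
      exact hst (cast_inj (by omega) (by omega) e)
    by_cases c : i = 3 ∨ i = 1 ∨ i = 5
    · refine ⟨11, ?_, ?_, ?_, fun x hx => (ok x).z11 hx.2⟩
      · have k3 := ne 11 3 (by norm_num) (by norm_num) (by norm_num)
        have k1 := ne 11 1 (by norm_num) (by norm_num) (by norm_num)
        have k5 := ne 11 5 (by norm_num) (by norm_num) (by norm_num)
        push_cast at k3 k1 k5
        rcases c with rfl | rfl | rfl
        · exact k3
        · exact k1
        · exact k5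
      · have k3 := ne 11 5 (by norm_num) (by norm_num) (by norm_num)
        have k1 := ne 11 3 (by norm_num) (by norm_num) (by norm_num)
        have k5 := ne 11 7 (by norm_num) (by norm_num) (by norm_num)
        push_cast at k3 k1 k5
        rcases c with rfl | rfl | rfl
        · rwa [show (3 : ZMod N) + 2 = 5 by ring]
        · rwa [show (1 : ZMod N) + 2 = 3 by ring]
        · rwa [show (5 : ZMod N) + 2 = 7 by ring]
      · have k3 := ne 3 13 (by norm_num) (by norm_num) (by norm_num)
        have k1 := ne 1 13 (by norm_num) (by norm_num) (by norm_num)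
        have k5 := ne 5 13 (by norm_num) (by norm_num) (by norm_num)
        push_cast at k3 k1 k5
        rw [show (11 : ZMod N) + 2 = 13 by ring]
        rcases c with rfl | rfl | rfl
        · exact k3
        · exact k1
        · exact k5
    · rw [not_or, not_or] at c
      refine ⟨3, fun e => c.1 e.symm, fun e => c.2.1 ?_, fun e => c.2.2 ?_,
        fun x hx => (ok x).z3 hx.2⟩
      · have : i = i + 2 - 2 := by ring
        rw [this, ← e]
        ring
      · rw [e]
        ring

theorem realised_blocks (h0 : N = 12 + 5 * o + 4 * α) (hs : 4 * (b + 4) ≤ N)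
    (h : ∀ x, N = 12 + 5 * O x + 4 * A x + 3 * B x) :
    Realised (N + 3 + b) (3 * N + o + ∑ x, (6 + 3 * O x + 2 * A x + 2 * B x)) := by
  have : NeZero N := ⟨by omega⟩
  have v1 : ∀ t < N, ((t : ℕ) : ZMod N).val = t := fun k hk => ZMod.val_natCast_of_lt hk
  have g := (sets_good h0 hs h).realised rfl
  have e1 : {i : ZMod N | pt o α i.val}.ncard = 6 + 3 * o + 2 * α := by
    rw [ncard_eq_sum (fun i : ZMod N => pt o α i.val) (pt o α) 0
      (fun t ht => by rw [zero_add, v1 t ht])]
    have := sum_pt o α 0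
    rw [show 12 + 5 * o + 4 * α + 3 * 0 = N by omega] at this
    rw [this]
    ring
  have e2 : {i : ZMod N | pt o α (i - 1).val}.ncard = 6 + 3 * o + 2 * α := by
    rw [ncard_eq_sum (fun i : ZMod N => pt o α (i - 1).val) (pt o α) 1
      (fun t ht => by rw [add_sub_cancel_left, v1 t ht])]
    have := sum_pt o α 0
    rw [show 12 + 5 * o + 4 * α + 3 * 0 = N by omega] at this
    rw [this]
    ring
  have e3 : ∀ x, {i : ZMod N | pt (O x) (A x) i.val}.ncard
      = 6 + 3 * O x + 2 * A x + 2 * B x := by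
    intro x
    rw [ncard_eq_sum (fun i : ZMod N => pt (O x) (A x) i.val) (pt (O x) (A x)) 0
      (fun t ht => by rw [zero_add, v1 t ht])]
    have := sum_pt (O x) (A x) (B x)
    rw [← h x] at this
    exact this
  rw [Fin.sum_univ_succ, Fin.sum_univ_succ] at g
  have e4 : ∑ x : Fin b, {i | sets N b o α O A x.succ.succ i}.ncard
      = ∑ x, (6 + 3 * O x + 2 * A x + 2 * B x) := Finset.sum_congr rfl fun x _ => e3 x
  rw [e4] at g
  have e5 : {i | sets N b o α O A 0 i}.ncard = 6 + 3 * o + 2 * α := e1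
  have e6 : {i | sets N b o α O A (Fin.succ 0) i}.ncard = 6 + 3 * o + 2 * α := e2
  rw [e5, e6] at g
  have a1 : N + 1 + (b + 2) = N + 3 + b := by omega
  have a2 : ∀ T : ℕ, 2 * N + (6 + 3 * o + 2 * α + (6 + 3 * o + 2 * α + T)) = 3 * N + o + T := by
    intro T
    omega
  rw [a1, a2] at g
  exact g

lemma exists_pattern {N s : ℕ} (h1 : N + 1 ≤ 2 * s) (h2 : 3 * s + 7 ≤ 2 * N) :
    ∃ O A B : ℕ, N = 12 + 5 * O + 4 * A + 3 * B ∧ 6 + 3 * O + 2 * A + 2 * B = s := by
  rcases Nat.even_or_odd s with ⟨k, hk⟩ | ⟨k, hk⟩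
  · exact ⟨0, N - 12 - 3 * (k - 3), 4 * (k - 3) + 12 - N, by omega, by omega⟩
  · exact ⟨1, N - 17 - 3 * (k - 4), 4 * (k - 4) + 17 - N, by omega, by omega⟩

theorem realised_sum {N b T L U : ℕ} (hN : 27 ≤ N) (hs : 4 * (b + 4) ≤ N) (hb : 0 < b)
    (hL : N + 1 ≤ 2 * L) (hU : 3 * U + 7 ≤ 2 * N) (h1 : b * L ≤ T) (h2 : T ≤ b * U) :
    Realised (N + 3 + b) (3 * N + N % 4 + T) := by
  set q := T / b with hq
  set r := T % b with hr
  have hT : b * q + r = T := Nat.div_add_mod T b
  have hrb : r < b := Nat.mod_lt _ hb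
  have hLq : L ≤ q := (Nat.le_div_iff_mul_le hb).2 (by rw [mul_comm]; exact h1)
  set f : Fin b → ℕ := fun x => if x.val < r then q + 1 else q with hf
  have hf1 : ∀ x, N + 1 ≤ 2 * f x := by
    intro x
    simp only [hf]
    split_ifs <;> omega
  have hf2 : ∀ x, 3 * f x + 7 ≤ 2 * N := by
    intro x
    have : f x ≤ U := by
      simp only [hf]
      split_ifs with c
      · have : b * q < b * U := by omega
        exact Nat.lt_of_mul_lt_mul_left this
      · have : b * q ≤ b * U := by omega
        exact Nat.le_of_mul_le_mul_left this hb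
    omega
  have hsum : ∑ x, f x = T := by
    have e : ∀ x : Fin b, f x = q + if x.val < r then 1 else 0 := by
      intro x
      simp only [hf]
      split_ifs <;> rfl
    simp only [e, Finset.sum_add_distrib, Finset.sum_const, Finset.card_univ, Fintype.card_fin,
      smul_eq_mul]
    rw [← hT]
    congr 1
    rw [← Finset.card_filter]
    have : (Finset.univ.filter fun x : Fin b => x.val < r).card = r := by
      have := Fin.card_filter_val_lt (n := b) (m := r)
      rw [this]
      exact min_eq_right hrb.le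
    exact this
  choose O A B hO using fun x => exists_pattern (hf1 x) (hf2 x)
  have g := realised_blocks (N := N) (b := b) (o := N % 4) (α := (N - 12 - 5 * (N % 4)) / 4)
    (O := O) (A := A) (B := B) (by omega) hs (fun x => (hO x).1)
  have e : ∑ x, (6 + 3 * O x + 2 * A x + 2 * B x) = T := by
    rw [← hsum]
    exact Finset.sum_congr rfl fun x _ => (hO x).2
  rw [e] at g
  exact g

/-- the least and the greatest size for given `b` -/
lemma interval_step {n m B : ℕ} (hB : 4 ≤ B) (hn : 5 * B + 19 ≤ n) (hN : 84 ≤ n - B)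
    (h : 3 * (n - 3 - B) + (n - 3 - B) % 4 + B * ((2 * (n - 3 - B) - 7) / 3) < m) :
    3 * (n - 3 - (B + 1)) + (n - 3 - (B + 1)) % 4 + (B + 1) * ((n - 3 - (B + 1) + 2) / 2) ≤ m := by
  obtain ⟨N, rfl⟩ : ∃ N, n = N + 3 + B := ⟨n - 3 - B, by omega⟩
  have e1 : N + 3 + B - 3 - B = N := by omega
  have e2 : N + 3 + B - 3 - (B + 1) = N - 1 := by omega
  rw [e1] at h
  rw [e2]
  have hN' : 81 ≤ N := by omega
  set U := (2 * N - 7) / 3 with hU
  set L := (N - 1 + 2) / 2 with hL
  have u1 : 2 * N - 9 ≤ 3 * U := by omega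
  have l1 : 2 * L ≤ N + 1 := by omega
  have k1 : B * (2 * N - 9) ≤ B * (3 * U) := Nat.mul_le_mul_left _ u1
  have k2 : (B + 1) * (2 * L) ≤ (B + 1) * (N + 1) := Nat.mul_le_mul_left _ l1
  obtain ⟨M, rfl⟩ : ∃ M, N = M + 81 := ⟨N - 81, by omega⟩
  have e3 : 2 * (M + 81) - 9 = 2 * M + 153 := by omega
  rw [e3] at k1
  have k3 : 4 * M ≤ B * M := Nat.mul_le_mul_right _ hB
  have m1 : (M + 81 - 1) % 4 ≤ 3 := by omega
  have s1 : M + 81 - 1 = M + 80 := by omega
  rw [s1] at m1 ⊢
  generalize (M + 80) % 4 = r' at m1 ⊢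
  generalize (M + 81) % 4 = r at h
  clear_value U L
  by_contra hcon
  rw [not_le] at hcon
  have k4 : B * (2 * M + 153) = 2 * (B * M) + 153 * B := by ring
  have k5 : B * (3 * U) = 3 * (B * U) := by ring
  have k6 : (B + 1) * (2 * L) = 2 * ((B + 1) * L) := by ring
  have k7 : (B + 1) * (M + 81 + 1) = B * M + 82 * B + M + 82 := by ring
  rw [k4, k5] at k1
  rw [k6, k7] at k2
  generalize B * M = x at *
  generalize B * U = y at *
  generalize (B + 1) * L = w at *
  omega

lemma interval_top {n m B : ℕ} (hB : 4 ≤ B) (hn : 5 * B + 19 ≤ n) (hn' : n ≤ 5 * B + 23)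
    (hN : 81 ≤ n - 3 - B) (h : 10 * m ≤ n ^ 2) :
    m ≤ 3 * (n - 3 - B) + (n - 3 - B) % 4 + B * ((2 * (n - 3 - B) - 7) / 3) := by
  obtain ⟨N, rfl⟩ : ∃ N, n = N + 3 + B := ⟨n - 3 - B, by omega⟩
  have e1 : N + 3 + B - 3 - B = N := by omega
  rw [e1] at hN ⊢
  set U := (2 * N - 7) / 3 with hU
  have u1 : 2 * N - 9 ≤ 3 * U := by omega
  have k1 : B * (2 * N - 9) ≤ B * (3 * U) := Nat.mul_le_mul_left _ u1
  obtain ⟨c, hc, rfl⟩ : ∃ c ≤ 4, N = 4 * B + 16 + c := ⟨N - 4 * B - 16, by omega, by omega⟩
  have e3 : 2 * (4 * B + 16 + c) - 9 = 8 * B + 23 + 2 * c := by omega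
  rw [e3] at k1
  have hB16 : 16 ≤ B := by omega
  by_contra hcon
  rw [not_le] at hcon
  generalize (4 * B + 16 + c) % 4 = r at hcon
  clear_value U
  have k2 : B * (3 * U) = 3 * (B * U) := by ring
  have k3 : B * (8 * B + 23 + 2 * c) = 8 * (B * B) + (23 + 2 * c) * B := by ring
  have k4 : (4 * B + 16 + c + 3 + B) ^ 2
      = 25 * (B * B) + (190 + 10 * c) * B + (19 + c) * (19 + c) := by ring
  have k5 : 16 * B ≤ B * B := Nat.mul_le_mul_right _ hB16
  rw [k2, k3] at k1
  rw [k4] at h
  generalize B * B = x at *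
  generalize B * U = y at *
  interval_cases c <;> omega

theorem realised_interval {n m : ℕ} (hn : 110 ≤ n) (h1 : 5 * n ≤ m) (h2 : 10 * m ≤ n ^ 2) :
    Realised n m := by
  -- the largest number of further vertices
  set M := (n - 19) / 5 with hM
  have key : ∀ B, 4 ≤ B → B ≤ M →
      m ≤ 3 * (n - 3 - B) + (n - 3 - B) % 4 + B * ((2 * (n - 3 - B) - 7) / 3) →
      Realised n m := by
    intro B hB
    induction B, hB using Nat.le_induction with
    | base =>
      intro hBM hm
      have g := realised_sum (N := n - 7) (b := 4) (T := m - (3 * (n - 7) + (n - 7) % 4))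
        (L := (n - 7 + 2) / 2) (U := (2 * (n - 7) - 7) / 3) (by omega) (by omega) (by omega)
        (by omega) (by omega) (by omega) (by
          have e : n - 3 - 4 = n - 7 := by omega
          rw [e] at hm
          omega)
      have a1 : n - 7 + 3 + 4 = n := by omega
      have a2 : 3 * (n - 7) + (n - 7) % 4 + (m - (3 * (n - 7) + (n - 7) % 4)) = m := by omega
      rwa [a1, a2] at g
    | succ B hB ih =>
      intro hBM hm
      by_cases c : m ≤ 3 * (n - 3 - B) + (n - 3 - B) % 4 + B * ((2 * (n - 3 - B) - 7) / 3)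
      · exact ih (by omega) c
      · rw [not_le] at c
        have k := interval_step hB (by omega) (by omega) c
        set N := n - 3 - (B + 1) with hN
        have g := realised_sum (N := N) (b := B + 1) (T := m - (3 * N + N % 4))
          (L := (N + 2) / 2) (U := (2 * N - 7) / 3) (by omega) (by omega) (by omega)
          (by omega) (by omega) (by omega) (by omega)
        have a1 : N + 3 + (B + 1) = n := by omega
        have a2 : 3 * N + N % 4 + (m - (3 * N + N % 4)) = m := by omega
        rwa [a1, a2] at g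
  exact key M (by omega) le_rfl (interval_top (by omega) (by omega) (by omega) (by omega) h2)

end MPd41ace
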