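import Pool.Agent.Lib.MP_d41ace_co.Win
import Pool.Agent.Lib.MP_d41ace_co.Interval

/-!
All sizes between `5 n` and `n ^ 2 / 4 - 12 n` are realised.
-/

set_option autoImplicit false

namespace MPd41ace

theorem realised_gad {L b0 b r W F : ℕ} (h1 : 3 * W + 4 ≤ b0) (h2 : b0 + 1 ≤ L) (hr : 1 ≤ r)
    (hlo : b0 + r ≤ b) (hhi : b ≤ b0 + 2 * r) (hF : F ≤ W * b) :
    Realised (6 + 3 * L + b + 2 * r)
      (10 + 6 * L + 4 * r + 2 * r * b + (b * (2 + 2 * L) - F)) := by
  have hb : 0 < b := by omega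
  set q := F / b with hq
  set t := F % b with ht
  have hT : b * q + t = F := Nat.div_add_mod F b
  have htb : t < b := Nat.mod_lt _ hb
  set k : Fin b → ℕ := fun x => if x.val < t then q + 1 else q with hk
  have hkW : ∀ x, k x ≤ W := by
    intro x
    simp only [hk]
    split_ifs with c
    · have : b * q < b * W := by
        rw [mul_comm b W]
        omega
      exact Nat.lt_of_mul_lt_mul_left this
    · have : b * q ≤ b * W := by
        rw [mul_comm b W]
        omega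
      exact Nat.le_of_mul_le_mul_left this hb
  have hsum : ∑ x, k x = F := by
    have e : ∀ x : Fin b, k x = q + if x.val < t then 1 else 0 := by
      intro x
      simp only [hk]
      split_ifs <;> rfl
    simp only [e, Finset.sum_add_distrib, Finset.sum_const, Finset.card_univ, Fintype.card_fin,
      smul_eq_mul]
    rw [← hT]
    congr 1
    rw [← Finset.card_filter]
    have : (Finset.univ.filter fun x : Fin b => x.val < t).card = t := by
      have := Fin.card_filter_val_lt (n := b) (m := t)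
      rw [this]
      exact min_eq_right htb.le
    exact this
  have : Nonempty (Fin b) := ⟨⟨0, hb⟩⟩
  obtain ⟨x0, _, hx0⟩ := Finset.exists_max_image (Finset.univ : Finset (Fin b)) k
    Finset.univ_nonempty
  set N := 5 + 3 * L with hN
  have : NeZero N := ⟨by omega⟩
  have hK := hkW x0
  have g := (gd_pw (N := N) (L := L) (K := k x0) (b0 := b0) (r := r) (k := k) hN (by omega) h2 hr
    hlo hhi (fun x => hx0 x (Finset.mem_univ _)) ⟨x0, rfl⟩).realised rfl
  have v1 : ∀ t < N, ((t : ℕ) : ZMod N).val = t := fun k hk => ZMod.val_natCast_of_lt hk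
  have e1 : ∀ x, {i : ZMod N | pw (k x) i.val}.ncard + k x = 2 + 2 * L := by
    intro x
    have kx := hkW x
    rw [ncard_eq_sum (fun i : ZMod N => pw (k x) i.val) (pw (k x)) 0
      (fun t ht => by rw [zero_add, v1 t ht])]
    have := sum_pw (k x) (L - 1 - 3 * k x)
    rw [show 8 + 9 * k x + 3 * (L - 1 - 3 * k x) = N by omega] at this
    rw [this]
    omega
  have e2 : ∑ x, {i : ZMod N | pw (k x) i.val}.ncard + F = b * (2 + 2 * L) := by
    rw [← hsum, ← Finset.sum_add_distrib, Finset.sum_congr rfl fun x _ => e1 x, Finset.sum_const,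
      Finset.card_univ, Fintype.card_fin, smul_eq_mul]
  have e3 : N + 1 + b + 2 * r = 6 + 3 * L + b + 2 * r := by omega
  rw [e3] at g
  have e4 : 2 * N + ∑ x, {i : ZMod N | pw (k x) i.val}.ncard + 4 * r + 2 * r * b =
      10 + 6 * L + 4 * r + 2 * r * b + (b * (2 + 2 * L) - F) := by omega
  rw [e4] at g
  exact g

/-- one further vertex for every pair -/
lemma stage1 {T b0 W m r : ℕ} (hW : 3 * W + 4 ≤ b0) (hr : 1 ≤ r) (hT : r + b0 + 1 ≤ T)
    (h1 : m + 2 * r ≤ 10 + 6 * T + (b0 + r) * (2 * T + 2))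
    (h2 : 10 + 6 * T + (b0 + r) * (2 * T + 2) ≤ m + 2 * r + W * (b0 + r)) :
    Realised (3 * T + 6 + b0) m := by
  obtain ⟨L, rfl⟩ : ∃ L, T = r + L := ⟨T - r, by omega⟩
  have e0 : (b0 + r) * (2 * (r + L) + 2) = 2 * r * (b0 + r) + (b0 + r) * (2 + 2 * L) := by ring
  rw [e0] at h1 h2
  have hle : W * (b0 + r) ≤ (b0 + r) * (2 + 2 * L) := by
    rw [mul_comm]
    exact Nat.mul_le_mul_left _ (by omega)
  have g := realised_gad (L := L) (b0 := b0) (b := b0 + r) (r := r) (W := W)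
    (F := 10 + 6 * (r + L) + (2 * r * (b0 + r) + (b0 + r) * (2 + 2 * L)) - (m + 2 * r))
    hW (by omega) hr le_rfl (by omega) (by omega)
  generalize (b0 + r) * (2 + 2 * L) = x at *
  generalize 2 * r * (b0 + r) = y at *
  generalize W * (b0 + r) = w at *
  have e1 : 6 + 3 * L + (b0 + r) + 2 * r = 3 * (r + L) + 6 + b0 := by omega
  have e2 : 10 + 6 * L + 4 * r + y + (x - (10 + 6 * (r + L) + (y + x) - (m + 2 * r))) = m := by
    omega
  rwa [e1, e2] at g

/-- the size of the graphs of the second stage -/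
def g2 (b0 r s : ℕ) : ℕ :=
  16 + 6 * b0 + 4 * r + 2 * r * (b0 + r + 3 * s) + (b0 + r + 3 * s) * (2 * b0 + 4)

lemma stage2 {b0 W m r s : ℕ} (hW : 3 * W + 4 ≤ b0) (hr : 1 ≤ r) (hs : 3 * s ≤ r)
    (h1 : m ≤ g2 b0 r s) (h2 : g2 b0 r s ≤ m + W * (b0 + r + 3 * s)) :
    Realised (9 + 4 * b0 + 3 * (r + s)) m := by
  have hle : W * (b0 + r + 3 * s) ≤ (b0 + r + 3 * s) * (2 + 2 * (b0 + 1)) := by
    rw [mul_comm]
    exact Nat.mul_le_mul_left _ (by omega)
  have g := realised_gad (L := b0 + 1) (b0 := b0) (b := b0 + r + 3 * s) (r := r) (W := W)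
    (F := g2 b0 r s - m) hW le_rfl hr (by omega) (by omega) (by omega)
  unfold g2 at *
  rw [show 2 * b0 + 4 = 2 + 2 * (b0 + 1) by ring] at *
  generalize (b0 + r + 3 * s) * (2 + 2 * (b0 + 1)) = x at *
  generalize 2 * r * (b0 + r + 3 * s) = y at *
  generalize W * (b0 + r + 3 * s) = w at *
  have e1 : 6 + 3 * (b0 + 1) + (b0 + r + 3 * s) + 2 * r = 9 + 4 * b0 + 3 * (r + s) := by omega
  have e2 : 10 + 6 * (b0 + 1) + 4 * r + y + (x - (16 + 6 * b0 + 4 * r + y + x - m)) = m := by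
    omega
  rwa [e1, e2] at g

/-- the first stage -/
lemma run1 {T b0 m r0 : ℕ} (hW : 19 ≤ b0) (hr : 1 ≤ r0) (hr0 : 2 * T ≤ 5 * (b0 + r0 + 1))
    (hm : 10 + 6 * T + (b0 + r0) * (2 * T + 2) ≤ m + 2 * r0) :
    ∀ r, r0 ≤ r → r + b0 + 1 ≤ T → m + 2 * r ≤ 10 + 6 * T + (b0 + r) * (2 * T + 2) →
      Realised (3 * T + 6 + b0) m := by
  intro r hrr
  induction r, hrr using Nat.le_induction with
  | base =>
    intro h1 h2
    exact stage1 (W := 5) (by omega) hr (by omega) h2 (by omega)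
  | succ r hrr ih =>
    intro h1 h2
    by_cases c : m + 2 * r ≤ 10 + 6 * T + (b0 + r) * (2 * T + 2)
    · exact ih (by omega) c
    · rw [not_le] at c
      refine stage1 (W := 5) (r := r + 1) (by omega) (by omega) (by omega) h2 ?_
      have e : (b0 + (r + 1)) * (2 * T + 2) = (b0 + r) * (2 * T + 2) + (2 * T + 2) := by ring
      rw [e]
      omega

lemma g2_step {b0 r s : ℕ} (hs : 3 * s ≤ r) :
    g2 b0 r (s + 1) + 6 * s ≤ g2 b0 (r + 1) s + 2 * (r + 1) + 2 * b0 := by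
  unfold g2
  have e1 : 2 * r * (b0 + r + 3 * (s + 1)) = 2 * (r * b0) + 2 * (r * r) + 6 * (r * s) + 6 * r := by
    ring
  have e2 : 2 * (r + 1) * (b0 + (r + 1) + 3 * s)
      = 2 * (r * b0) + 2 * (r * r) + 6 * (r * s) + 4 * r + 2 * b0 + 2 + 6 * s := by ring
  have e3 : (b0 + r + 3 * (s + 1)) * (2 * b0 + 4)
      = (b0 + (r + 1) + 3 * s) * (2 * b0 + 4) + 4 * b0 + 8 := by ring
  rw [e1, e2, e3]
  omega

/-- the second stage -/
lemma run2 {b0 m r1 : ℕ} (hW : 19 ≤ b0) (hr1 : 2 ≤ r1)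
    (hm : m ≤ g2 b0 r1 0 → Realised (9 + 4 * b0 + 3 * r1) m) :
    ∀ s, 4 * s ≤ r1 → m ≤ g2 b0 (r1 - s) s → Realised (9 + 4 * b0 + 3 * r1) m := by
  intro s
  induction s with
  | zero =>
    intro _ h
    exact hm h
  | succ s ih =>
    intro h1 h2
    by_cases c : m ≤ g2 b0 (r1 - s) s
    · exact ih (by omega) c
    · rw [not_le] at c
      obtain ⟨r, hr⟩ : ∃ r, r1 = r + (s + 1) := ⟨r1 - (s + 1), by omega⟩
      have e1 : r1 - (s + 1) = r := by omega
      have e2 : r1 - s = r + 1 := by omega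
      rw [e1] at h2
      rw [e2] at c
      have k := g2_step (b0 := b0) (r := r) (s := s) (by omega)
      have g := stage2 (W := 5) (b0 := b0) (r := r) (s := s + 1) (m := m) (by omega) (by omega)
        (by omega) h2 (by omega)
      rwa [← hr] at g

lemma top_le {b0 r1 m n : ℕ} (h1 : 19 ≤ b0) (h2 : b0 ≤ 21) (hn : n = 9 + 4 * b0 + 3 * r1)
    (hm : 4 * m + 48 * n ≤ n ^ 2) : m ≤ g2 b0 (r1 - r1 / 4) (r1 / 4) := by
  obtain ⟨s, c, hc, hr⟩ : ∃ s c, c < 4 ∧ r1 = 4 * s + c :=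
    ⟨r1 / 4, r1 % 4, Nat.mod_lt _ (by norm_num), (Nat.div_add_mod r1 4).symm⟩
  have e1 : r1 / 4 = s := by omega
  have e2 : r1 - s = 3 * s + c := by omega
  rw [e1, e2]
  unfold g2
  subst hn
  rw [hr] at hm
  have e3 : 3 * s + c + 3 * s = 6 * s + c := by ring
  rw [show b0 + (3 * s + c) + 3 * s = b0 + 6 * s + c by ring]
  interval_cases b0 <;> interval_cases c <;> nlinarith

theorem realised_interval2 {n m : ℕ} (hn : 200 ≤ n) (h1 : 5 * n ≤ m)
    (h2 : 4 * m + 48 * n ≤ n ^ 2) : Realised n m := by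
  rcases le_or_gt (10 * m) (n ^ 2) with c | c
  · exact realised_interval (by omega) h1 c
  obtain ⟨T, b0, hb1, hb2, hT⟩ : ∃ T b0, 19 ≤ b0 ∧ b0 ≤ 21 ∧ n = 3 * T + 6 + b0 :=
    ⟨(n - 25) / 3, 19 + (n - 25) % 3, by omega, by omega, by omega⟩
  have hT55 : 57 ≤ T := by omega
  set r0 := 2 * T / 5 - b0 with hr0
  have q1 : 2 * T / 5 = b0 + r0 := by omega
  have q2 : 1 ≤ r0 := by omega
  have q3 : 2 * T ≤ 5 * (b0 + r0 + 1) := by omega
  have q4 : 5 * (b0 + r0) ≤ 2 * T := by omega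
  have hm0 : 10 + 6 * T + (b0 + r0) * (2 * T + 2) ≤ m + 2 * r0 := by
    have k1 : 5 * (b0 + r0) * (2 * T + 2) ≤ 2 * T * (2 * T + 2) := Nat.mul_le_mul_right _ q4
    have k2 : (3 * T + 25) ^ 2 ≤ n ^ 2 := Nat.pow_le_pow_left (by omega) 2
    nlinarith
  set r1 := T - b0 - 1 with hr1
  have e1 : 3 * T + 6 + b0 = 9 + 4 * b0 + 3 * r1 := by omega
  have e2 : T = r1 + b0 + 1 := by omega
  have base : m ≤ g2 b0 r1 0 → Realised (9 + 4 * b0 + 3 * r1) m := by
    intro h
    rw [← e1]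
    refine run1 hb1 q2 q3 hm0 r1 (by omega) (by omega) ?_
    unfold g2 at h
    rw [e2]
    nlinarith
  have := run2 hb1 (by omega) base (r1 / 4) (by omega) (top_le hb1 hb2 (hT.trans e1) h2)
  rwa [hT, e1]

end MPd41ace
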