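import Pool.Agent.Lib.MP_d41ace_co.Count

/-!
Block patterns on a cycle: minimal total dominating sets of prescribed size.
-/

set_option autoImplicit false

namespace MPd41ace

/-- three blocks `1100`, then `o` blocks `11100`, then `α` blocks `1100`, then blocks `110` -/
def pt (o α p : ℕ) : Prop :=
  (p < 12 ∧ p % 4 < 2) ∨ (12 ≤ p ∧ p < 12 + 5 * o ∧ (p - 12) % 5 < 3) ∨
    (12 + 5 * o ≤ p ∧ p < 12 + 5 * o + 4 * α ∧ (p - 12 - 5 * o) % 4 < 2) ∨
    (12 + 5 * o + 4 * α ≤ p ∧ (p - 12 - 5 * o - 4 * α) % 3 < 2)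

instance (o α p : ℕ) : Decidable (pt o α p) := by
  unfold pt
  infer_instance

lemma mod_add {N t k : ℕ} (ht : t < N) (hk : k ≤ N) :
    (t + k) % N = if t + k < N then t + k else t + k - N := by
  split_ifs with c
  · exact Nat.mod_eq_of_lt c
  · rw [Nat.mod_eq_sub_mod (by omega), Nat.mod_eq_of_lt (by omega)]

section

variable {N o α β t : ℕ} (hN : N = 12 + 5 * o + 4 * α + 3 * β)

include hN

lemma pt_dom (ht : t < N) : pt o α t ∨ pt o α ((t + 2) % N) := by
  rw [mod_add ht (by omega)]
  unfold pt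
  split_ifs with c <;> omega

lemma pt_min (ht : t < N) (h : pt o α ((t + 2) % N)) : ¬ pt o α ((t + 4) % N) ∨ ¬ pt o α t := by
  rw [mod_add ht (by omega)] at h
  rw [mod_add ht (by omega)]
  unfold pt at h ⊢
  split_ifs with c <;> split_ifs at h with c' <;> omega

end

section

variable {N o α t : ℕ} (hN : N = 12 + 5 * o + 4 * α)

include hN

lemma pt_A (ht : t < N) (h1 : pt o α t) (h2 : pt o α ((t + 2) % N)) :
    pt o α ((t + 1) % N) := by
  rw [mod_add ht (by omega)] at h2
  rw [mod_add ht (by omega)]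
  unfold pt at h1 h2 ⊢
  rcases Nat.lt_or_ge (t + 2) 12 with c | c
  · rw [if_pos (by omega)] at h2 ⊢
    omega
  rcases Nat.lt_or_ge (t + 2) N with c' | c'
  · rw [if_pos (by omega)] at h2 ⊢
    omega
  · rw [if_neg (by omega)] at h2
    rcases Nat.eq_zero_or_pos o with rfl | ho <;> rcases Nat.eq_zero_or_pos α with rfl | hα <;>
      split_ifs <;> omega

lemma pt_B (ht : t < N) : ¬ (pt o α t ∧ pt o α ((t + 1) % N) ∧ pt o α ((t + 2) % N) ∧
    pt o α ((t + 3) % N)) := by
  rw [mod_add ht (by omega), mod_add ht (by omega), mod_add ht (by omega)]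
  unfold pt
  rcases Nat.lt_or_ge (t + 3) N with c' | c'
  · rw [if_pos (by omega), if_pos (by omega), if_pos (by omega)]
    omega
  · rw [if_neg (by omega : ¬ t + 3 < N)]
    rcases Nat.eq_zero_or_pos o with rfl | ho <;> rcases Nat.eq_zero_or_pos α with rfl | hα <;>
      split_ifs <;> omega

end

/-! ### Counting -/

lemma sum_period (k c : ℕ)
    (h : ∑ x ∈ Finset.range k, (if x % k < c then 1 else 0) = c) (n : ℕ) :
    ∑ x ∈ Finset.range (k * n), (if x % k < c then 1 else 0) = c * n := by
  induction n with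
  | zero => simp
  | succ n ih =>
    rw [Nat.mul_succ, Finset.sum_range_add, ih, Nat.mul_succ]
    congr 1
    refine Eq.trans (Finset.sum_congr rfl fun x _ => ?_) h
    rw [Nat.mul_add_mod]

lemma sum_pt (o α β : ℕ) :
    ∑ p ∈ Finset.range (12 + 5 * o + 4 * α + 3 * β), (if pt o α p then 1 else 0)
      = 6 + 3 * o + 2 * α + 2 * β := by
  rw [Finset.sum_range_add, Finset.sum_range_add, Finset.sum_range_add]
  have e1 : ∑ p ∈ Finset.range 12, (if pt o α p then 1 else 0) = 6 := by
    have : ∑ p ∈ Finset.range 12, (if pt o α p then 1 else 0)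
        = ∑ p ∈ Finset.range 12, (if p % 4 < 2 then 1 else 0) := by
      refine Finset.sum_congr rfl fun x hx => ?_
      rw [Finset.mem_range] at hx
      congr 1
      rw [eq_iff_iff]
      unfold pt
      omega
    rw [this]
    decide
  have e2 : ∑ p ∈ Finset.range (5 * o), (if pt o α (12 + p) then 1 else 0) = 3 * o := by
    rw [← sum_period 5 3 (by decide) o]
    refine Finset.sum_congr rfl fun x hx => ?_
    rw [Finset.mem_range] at hx
    congr 1
    rw [eq_iff_iff]
    unfold pt
    omega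
  have e3 : ∑ p ∈ Finset.range (4 * α), (if pt o α (12 + 5 * o + p) then 1 else 0) = 2 * α := by
    rw [← sum_period 4 2 (by decide) α]
    refine Finset.sum_congr rfl fun x hx => ?_
    rw [Finset.mem_range] at hx
    congr 1
    rw [eq_iff_iff]
    unfold pt
    omega
  have e4 : ∑ p ∈ Finset.range (3 * β), (if pt o α (12 + 5 * o + 4 * α + p) then 1 else 0)
      = 2 * β := by
    rw [← sum_period 3 2 (by decide) β]
    refine Finset.sum_congr rfl fun x hx => ?_
    rw [Finset.mem_range] at hx
    congr 1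
    rw [eq_iff_iff]
    unfold pt
    omega
  rw [e1, e2, e3, e4]

section zmod

variable {N : ℕ} [NeZero N]

lemma ncard_eq_sum (T : ZMod N → Prop) (f : ℕ → Prop) [DecidablePred f] (c : ZMod N)
    (h : ∀ t < N, T (c + (t : ℕ)) ↔ f t) :
    {i | T i}.ncard = ∑ t ∈ Finset.range N, (if f t then 1 else 0) := by
  classical
  rw [Set.ncard_eq_toFinset_card', Set.toFinset_ofPred, Finset.card_filter,
    ← sum_range_rot (fun i => if T i then 1 else 0) c]
  refine Finset.sum_congr rfl fun t ht => ?_
  rw [Finset.mem_range] at ht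
  simp only [h t ht]

/-- the conditions on a single set -/
structure Ok1 (T : ZMod N → Prop) : Prop where
  /-- total domination -/
  dom : ∀ i, T (i - 1) ∨ T (i + 1)
  /-- minimality -/
  mini : ∀ i, T i → ¬ T (i + 2) ∨ ¬ T (i - 2)
  /-- the position 3 is free -/
  z3 : ¬ T 3
  /-- the position 11 is free -/
  z11 : ¬ T 11
  /-- the position 1 is not free -/
  one : T 1

lemma val_add (i : ZMod N) (k : ℕ) : (i + (k : ZMod N)).val = (i.val + k) % N := by
  rw [ZMod.val_add, ZMod.val_natCast, Nat.add_mod_mod]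

lemma ok1_pt {o α β : ℕ} (hN : N = 12 + 5 * o + 4 * α + 3 * β) :
    Ok1 fun i : ZMod N => pt o α i.val := by
  have v1 : ∀ k : ℕ, k < N → ((k : ℕ) : ZMod N).val = k := fun k hk => ZMod.val_natCast_of_lt hk
  refine ⟨fun i => ?_, fun i hi => ?_, ?_, ?_, ?_⟩
  · have h := pt_dom hN (ZMod.val_lt (i - 1))
    rw [← val_add] at h
    have e : i - 1 + ((2 : ℕ) : ZMod N) = i + 1 := by
      push_cast
      ring
    rwa [e] at h
  · have h := pt_min hN (ZMod.val_lt (i - 2))
    rw [← val_add, ← val_add] at h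
    have e : i - 2 + ((2 : ℕ) : ZMod N) = i := by
      push_cast
      ring
    have e' : i - 2 + ((4 : ℕ) : ZMod N) = i + 2 := by
      push_cast
      ring
    rw [e, e'] at h
    exact h hi
  · have := v1 3 (by omega)
    push_cast at this
    show ¬ pt o α (3 : ZMod N).val
    rw [this]
    unfold pt
    omega
  · have := v1 11 (by omega)
    push_cast at this
    show ¬ pt o α (11 : ZMod N).val
    rw [this]
    unfold pt
    omega
  · have := v1 1 (by omega)
    push_cast at this
    show pt o α (1 : ZMod N).val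
    rw [this]
    unfold pt
    omega

lemma ok1_shift {o α β : ℕ} (hN : N = 12 + 5 * o + 4 * α + 3 * β) :
    Ok1 fun i : ZMod N => pt o α (i - 1).val := by
  have v1 : ∀ k : ℕ, k < N → ((k : ℕ) : ZMod N).val = k := fun k hk => ZMod.val_natCast_of_lt hk
  have h0 := ok1_pt hN
  refine ⟨fun i => ?_, fun i hi => ?_, ?_, ?_, ?_⟩
  · have := h0.dom (i - 1)
    have e : i - 1 + 1 = i + 1 - 1 := by ring
    rwa [e] at this
  · have := h0.mini (i - 1) hi
    have e : i - 1 + 2 = i + 2 - 1 := by ring
    have e' : i - 1 - 2 = i - 2 - 1 := by ring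
    rwa [e, e'] at this
  · have := v1 2 (by omega)
    push_cast at this
    show ¬ pt o α (3 - 1 : ZMod N).val
    rw [show (3 - 1 : ZMod N) = 2 by ring, this]
    unfold pt
    omega
  · have := v1 10 (by omega)
    push_cast at this
    show ¬ pt o α (11 - 1 : ZMod N).val
    rw [show (11 - 1 : ZMod N) = 10 by ring, this]
    unfold pt
    omega
  · show pt o α (1 - 1 : ZMod N).val
    rw [sub_self, ZMod.val_zero]
    unfold pt
    omega

/-- the first set needs every edge which it touches -/
lemma crit_pt {o α : ℕ} (hN : N = 12 + 5 * o + 4 * α) (i : ZMod N)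
    (h : pt o α i.val ∨ pt o α (i + 1).val) :
    (pt o α (i + 1).val ∧ ¬ pt o α (i - 1).val) ∨ (pt o α i.val ∧ ¬ pt o α (i + 2).val) := by
  have A := pt_A hN (ZMod.val_lt (i - 1))
  have A' := pt_A hN (ZMod.val_lt i)
  have B := pt_B hN (ZMod.val_lt (i - 1))
  rw [← val_add, ← val_add] at A A'
  rw [← val_add, ← val_add, ← val_add] at B
  have e1 : i - 1 + ((1 : ℕ) : ZMod N) = i := by push_cast; ring
  have e2 : i - 1 + ((2 : ℕ) : ZMod N) = i + 1 := by push_cast; ring
  have e3 : i - 1 + ((3 : ℕ) : ZMod N) = i + 2 := by push_cast; ring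
  have e4 : i + ((1 : ℕ) : ZMod N) = i + 1 := by push_cast; ring
  have e5 : i + ((2 : ℕ) : ZMod N) = i + 2 := by push_cast; ring
  rw [e1, e2] at A
  rw [e4, e5] at A'
  rw [e1, e2, e3] at B
  by_cases a : pt o α (i - 1).val
  · by_cases d : pt o α (i + 2).val
    · rcases h with h | h
      · exact absurd ⟨a, h, A' h d, d⟩ B
      · exact absurd ⟨a, A a h, h, d⟩ B
    · rcases h with h | h
      · exact Or.inr ⟨h, d⟩
      · exact Or.inr ⟨A a h, d⟩
  · by_cases c : pt o α (i + 1).val
    · exact Or.inl ⟨c, a⟩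
    · rcases h with h | h
      · exact Or.inr ⟨h, fun d => c (A' h d)⟩
      · exact absurd h c

end zmod

end MPd41ace
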