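import Pool.Agent.Lib.MP_d41ace_co.Cone

/-!
Rungs in a ring: every vertex is the first vertex of a path through all vertices.
-/

set_option autoImplicit false

namespace MPd41ace

open SimpleGraph

variable {V : Type*} {H : SimpleGraph V} {p : ℕ} {e t : ZMod (2 * p) → V}
  {Z : ZMod (2 * p) → V → Prop}

/-- a ring of rungs: the rung `j` consists of the ends `e j`, `e (j + p)` and the set `Z j` which is
joined to the rest of the graph by the two edges `e j, t j` and `e (j + p), t (j + p)` only -/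
structure Ring (H : SimpleGraph V) (p : ℕ) (e t : ZMod (2 * p) → V)
    (Z : ZMod (2 * p) → V → Prop) : Prop where
  /-- number of rungs -/
  big : 6 ≤ p
  /-- distinct ends -/
  einj : Function.Injective e
  /-- both directions -/
  zper : ∀ j x, Z (j + p) x ↔ Z j x
  /-- disjoint -/
  zdis : ∀ i j x, Z i x → Z j x → i = j ∨ i = j + p
  /-- disjoint from the ends -/
  ze : ∀ i j, ¬ Z j (e i)
  /-- all vertices -/
  cov : ∀ x, (∃ i, x = e i) ∨ ∃ i, Z i x
  /-- the ports -/
  tz : ∀ j, Z j (t j)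
  /-- links -/
  link : ∀ j, H.Adj (e j) (e (j + p + 1))
  /-- rung edges -/
  port : ∀ j, H.Adj (e j) (t j)
  /-- no other edges at the ends -/
  eadj : ∀ j x, H.Adj (e j) x → x = t j ∨ x = e (j + p + 1) ∨ x = e (j + p - 1)
  /-- no other edges at the inner vertices -/
  zadj : ∀ j x y, Z j x → H.Adj x y → Z j y ∨ ∃ i, (i = j ∨ i = j + p) ∧ x = t i ∧ y = e i
  /-- through `Z j` -/
  ham : ∀ j, ∃ l, PathL H (t j) (t (j + p)) l ∧ ∀ x, x ∈ l ↔ Z j x
  /-- from a vertex of `Z j` to a port -/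
  hamv : ∀ j x, Z j x → ∃ i l, (i = j ∨ i = j + p) ∧ PathL H x (t i) l ∧ ∀ y, y ∈ l ↔ Z j y
  /-- edges inside `Z j` -/
  crit : ∀ j x y, Z j x → Z j y → H.Adj x y → ∃ v, Z j v ∧
    ∀ i l, (i = j ∨ i = j + p) → PathL (H.deleteEdges {s(x, y)}) v (t i) l →
      (∀ z, z ∈ l ↔ Z j z) → False

namespace Ring

variable (h : Ring H p e t Z)

lemma pp (p : ℕ) : (p : ZMod (2 * p)) + p = 0 := by
  have : ((2 * p : ℕ) : ZMod (2 * p)) = 0 := ZMod.natCast_self _
  rw [← this]
  push_cast
  ring

lemma apap (p : ℕ) (j : ZMod (2 * p)) : j + p + p = j := by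
  rw [add_assoc, pp, add_zero]

include h

lemma natne {a b : ℕ} (ha : a < 2 * p) (hb : b < 2 * p) (hab : a ≠ b) :
    (a : ZMod (2 * p)) ≠ b := fun k => hab (MPd41ace.cast_inj ha hb k)

/-- the rung `j` -/
def _root_.MPd41ace.Rg (p : ℕ) (e : ZMod (2 * p) → V) (Z : ZMod (2 * p) → V → Prop)
    (j : ZMod (2 * p)) (x : V) : Prop := Z j x ∨ x = e j ∨ x = e (j + p)

lemma rg_dis {i j : ZMod (2 * p)} {x : V} (h1 : Rg p e Z i x) (h2 : Rg p e Z j x) :
    i = j ∨ i = j + p := by
  rcases h1 with h1 | h1 | h1 <;> rcases h2 with h2 | h2 | h2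
  · exact h.zdis i j x h1 h2
  · exact absurd (h2 ▸ h1) (h.ze _ _)
  · exact absurd (h2 ▸ h1) (h.ze _ _)
  · exact absurd (h1 ▸ h2) (h.ze _ _)
  · exact Or.inl (h.einj (h1.symm.trans h2))
  · exact Or.inr (h.einj (h1.symm.trans h2))
  · exact absurd (h1 ▸ h2) (h.ze _ _)
  · right
    have := h.einj (h1.symm.trans h2)
    rw [← this, apap]
  · exact Or.inl (add_right_cancel (h.einj (h1.symm.trans h2)))

lemma rg_per {j : ZMod (2 * p)} {x : V} : Rg p e Z (j + p) x ↔ Rg p e Z j x := by
  unfold Rg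
  rw [h.zper, apap]
  tauto

lemma rg_shift {i : ZMod (2 * p)} {a b : ℕ} (ha : a < p) (hb : b < p) {x : V}
    (h1 : Rg p e Z (i + a) x) (h2 : Rg p e Z (i + b) x) : a = b := by
  rcases h.rg_dis h1 h2 with k | k
  · exact MPd41ace.cast_inj (by omega) (by omega) (add_left_cancel k)
  · exfalso
    rw [add_assoc] at k
    have k2 := add_left_cancel k
    have k3 : ((a : ℕ) : ZMod (2 * p)) = ((b + p : ℕ) : ZMod (2 * p)) := by
      rw [k2]
      push_cast
      ring
    have := MPd41ace.cast_inj (by omega) (by omega) k3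
    omega

/-- every vertex is in one of `p` consecutive rungs -/
lemma rg_cov (i : ZMod (2 * p)) (x : V) : ∃ a < p, Rg p e Z (i + a) x := by
  have hp := h.big
  have : NeZero (2 * p) := ⟨by omega⟩
  have key : ∀ j, Rg p e Z j x → ∃ a < p, Rg p e Z (i + a) x := by
    intro j hj
    obtain ⟨w, h1, h2⟩ : ∃ w < 2 * p, i + (w : ZMod (2 * p)) = j := by
      refine ⟨(j - i).val, ZMod.val_lt (j - i), ?_⟩
      rw [ZMod.natCast_zmod_val]
      ring
    by_cases c : w < p
    · exact ⟨_, c, by rwa [h2]⟩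
    · refine ⟨w - p, by omega, ?_⟩
      rw [← h.rg_per]
      have : i + ((w - p : ℕ) : ZMod (2 * p)) + p = j := by
        rw [Nat.cast_sub (by omega), ← h2]
        ring
      rwa [this]
  rcases h.cov x with ⟨j, rfl⟩ | ⟨j, hj⟩
  · exact key j (Or.inr (Or.inl rfl))
  · exact key j (Or.inl hj)

/-- one rung as a path -/
lemma rung (j : ZMod (2 * p)) : ∃ l, PathL H (e j) (e (j + p)) l ∧ ∀ x, x ∈ l ↔ Rg p e Z j x := by
  obtain ⟨l, h1, h2⟩ := h.ham j
  have hne : e j ≠ e (j + p) := by
    intro k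
    have := h.einj k
    have h3 : ((0 : ℕ) : ZMod (2 * p)) = (p : ℕ) := by
      rw [Nat.cast_zero]
      exact (left_eq_add.1 this).symm
    have hp := h.big
    exact h.natne (a := 0) (b := p) (by omega) (by omega) (by omega) h3
  refine ⟨(e j :: l) ++ [e (j + p)], (h1.cons (h.port j) ?_).snoc (h.port _).symm ?_, ?_⟩
  · rw [h2]
    exact h.ze _ _
  · rw [List.mem_cons, h2, not_or]
    exact ⟨hne.symm, h.ze _ _⟩
  · intro x
    rw [List.mem_append, List.mem_cons, List.mem_singleton, h2]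
    unfold Rg
    tauto

/-- from the end of a rung to the next rung -/
lemma next (j : ZMod (2 * p)) : H.Adj (e (j + p)) (e (j + 1)) := by
  have := h.link (j + p)
  rwa [apap] at this

/-- consecutive rungs as a path -/
lemma chainR (i : ZMod (2 * p)) : ∀ k < p, ∃ l, PathL H (e i) (e (i + k + p)) l ∧
    ∀ x, x ∈ l ↔ ∃ a ≤ k, Rg p e Z (i + a) x := by
  intro k
  induction k with
  | zero =>
    intro _
    obtain ⟨l, h1, h2⟩ := h.rung i
    refine ⟨l, by simpa using h1, fun x => ?_⟩
    rw [h2]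
    constructor
    · intro k
      exact ⟨0, le_rfl, by simpa using k⟩
    · rintro ⟨a, ha, k⟩
      have : a = 0 := by omega
      subst this
      simpa using k
  | succ k ih =>
    intro hk
    obtain ⟨l, h1, h2⟩ := ih (by omega)
    obtain ⟨l', h3, h4⟩ := h.rung (i + (k + 1 : ℕ))
    refine ⟨l ++ l', h1.append h3 ?_ ?_, ?_⟩
    · have := h.next (i + k)
      have e1 : i + (k : ZMod (2 * p)) + 1 = i + ((k + 1 : ℕ) : ZMod (2 * p)) := by
        push_cast
        ring
      rwa [e1] at this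
    · intro x hx hx'
      rw [h2] at hx
      rw [h4] at hx'
      obtain ⟨a, ha, hx⟩ := hx
      have := h.rg_shift (by omega) hk hx hx'
      omega
    · intro x
      rw [List.mem_append, h2, h4]
      constructor
      · rintro (⟨a, ha, k⟩ | k)
        · exact ⟨a, by omega, k⟩
        · exact ⟨_, le_rfl, k⟩
      · rintro ⟨a, ha, q⟩
        rcases Nat.lt_or_ge a (k + 1) with c | c
        · exact Or.inl ⟨a, by omega, q⟩
        · right
          have : a = k + 1 := le_antisymm ha c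
          rwa [← this]

end Ring

end MPd41ace
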