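import Pool.Agent.Lib.MP_d41ace_co.RingA

/-!
Rungs in a ring, continued: every vertex is the first vertex of a path through all vertices.
-/

set_option autoImplicit false

namespace MPd41ace

open SimpleGraph

variable {V : Type*} {H : SimpleGraph V} {p : ℕ} {e t : ZMod (2 * p) → V}
  {Z : ZMod (2 * p) → V → Prop}

namespace Ring

variable (h : Ring H p e t Z)

include h

lemma ene (q : ZMod (2 * p)) {a b : ℕ} (ha : a < 2 * p) (hb : b < 2 * p) (hab : a ≠ b) :
    e (q + a) ≠ e (q + b) := fun k => hab (MPd41ace.cast_inj ha hb (add_left_cancel (h.einj k)))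

theorem ht : HT H := by
  have hp := h.big
  intro v
  rcases h.cov v with ⟨i, rfl⟩ | ⟨j, hj⟩
  · obtain ⟨l, h1, h2⟩ := h.chainR i (p - 1) (by omega)
    refine ⟨_, l, h1, fun x => (h2 x).2 ?_⟩
    obtain ⟨a, ha, k⟩ := h.rg_cov i x
    exact ⟨a, by omega, k⟩
  · obtain ⟨q, l0, hq, k1, k2⟩ := h.hamv j v hj
    have k3 : ∀ y, y ∈ l0 ↔ Z q y := by
      intro y
      rw [k2]
      rcases hq with rfl | rfl
      · rfl
      · rw [h.zper]
    obtain ⟨l1, m1, m2⟩ := h.chainR (q + (2 : ℕ)) (p - 3) (by omega)
    obtain ⟨l2, n1, n2⟩ := h.ham (q + (1 : ℕ))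
    have c0 : q + ((0 : ℕ) : ZMod (2 * p)) = q := by rw [Nat.cast_zero, add_zero]
    -- indices in the middle
    have hl1 : ∀ x, x ∈ l1 → ∃ a, 2 ≤ a ∧ a < p ∧ Rg p e Z (q + (a : ℕ)) x := by
      intro x hx
      obtain ⟨a, ha, hr⟩ := (m2 x).1 hx
      refine ⟨2 + a, by omega, by omega, ?_⟩
      have : q + ((2 + a : ℕ) : ZMod (2 * p)) = q + ((2 : ℕ) : ZMod (2 * p)) + a := by
        push_cast
        ring
      rwa [this]
    have r0 : ∀ x, Rg p e Z q x → x ∉ l1 := by
      intro x hx hx'
      obtain ⟨a, ha, ha', hr⟩ := hl1 x hx'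
      have := h.rg_shift (i := q) (a := 0) (b := a) (by omega) ha' (by rwa [c0]) hr
      omega
    have r1 : ∀ x, Rg p e Z (q + (1 : ℕ)) x → x ∉ l1 := by
      intro x hx hx'
      obtain ⟨a, ha, ha', hr⟩ := hl1 x hx'
      have := h.rg_shift (i := q) (a := 1) (b := a) (by omega) ha' hx hr
      omega
    have n2e : ∀ i, e i ∉ l2 := by
      intro i hi
      rw [n2] at hi
      exact h.ze _ _ hi
    -- the path, from the right
    have A2 : PathL H (e (q + (1 : ℕ))) (t (q + (1 : ℕ) + p)) (e (q + (1 : ℕ)) :: l2) :=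
      n1.cons (h.port _) (n2e _)
    have A3 : PathL H (e (q + (p : ℕ))) (t (q + (1 : ℕ) + p))
        (e (q + (p : ℕ)) :: e (q + (1 : ℕ)) :: l2) := by
      refine A2.cons ?_ ?_
      · have := h.next q
        rwa [← Nat.cast_one] at this
      · rw [List.mem_cons, not_or]
        exact ⟨h.ene q (by omega) (by omega) (by omega), n2e _⟩
    have A4 : PathL H (e (q + (2 : ℕ))) (t (q + (1 : ℕ) + p))
        (l1 ++ (e (q + (p : ℕ)) :: e (q + (1 : ℕ)) :: l2)) := by
      refine m1.append A3 ?_ ?_
      · have := h.link (q - 1)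
        have e1 : q - 1 + (p : ZMod (2 * p)) + 1 = q + (p : ℕ) := by ring
        have e2 : q + ((2 : ℕ) : ZMod (2 * p)) + ((p - 3 : ℕ) : ZMod (2 * p)) + p = q - 1 := by
          rw [Nat.cast_sub (by omega)]
          have : q + ((2 : ℕ) : ZMod (2 * p)) + ((p : ZMod (2 * p)) - ((3 : ℕ) : ZMod (2 * p))) + p
              = q - 1 + (p + p) := by
            push_cast
            ring
          rw [this, pp, add_zero]
        rw [e2]
        rwa [e1] at this
      · intro x hx hx'
        rw [List.mem_cons, List.mem_cons, n2] at hx'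
        rcases hx' with rfl | rfl | hx'
        · exact r0 _ (Or.inr (Or.inr rfl)) hx
        · exact r1 _ (Or.inr (Or.inl rfl)) hx
        · exact r1 _ (Or.inl hx') hx
    have A5 : PathL H (e (q + (p + 1 : ℕ))) (t (q + (1 : ℕ) + p))
        (e (q + (p + 1 : ℕ)) :: (l1 ++ (e (q + (p : ℕ)) :: e (q + (1 : ℕ)) :: l2))) := by
      refine A4.cons ?_ ?_
      · have := h.next (q + 1)
        have e1 : q + 1 + (p : ZMod (2 * p)) = q + ((p + 1 : ℕ) : ZMod (2 * p)) := by
          push_cast
          ring
        have e2 : q + 1 + 1 = q + ((2 : ℕ) : ZMod (2 * p)) := by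
          push_cast
          ring
        rwa [e1, e2] at this
      · rw [List.mem_append, List.mem_cons, List.mem_cons, not_or, not_or, not_or]
        refine ⟨r1 _ (Or.inr (Or.inr ?_)), h.ene q (by omega) (by omega) (by omega),
          h.ene q (by omega) (by omega) (by omega), n2e _⟩
        congr 1
        push_cast
        ring
    have A6 : PathL H (e q) (t (q + (1 : ℕ) + p))
        (e q :: e (q + (p + 1 : ℕ)) ::
          (l1 ++ (e (q + (p : ℕ)) :: e (q + (1 : ℕ)) :: l2))) := by
      refine A5.cons ?_ ?_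
      · have := h.link q
        have e1 : q + (p : ZMod (2 * p)) + 1 = q + ((p + 1 : ℕ) : ZMod (2 * p)) := by
          push_cast
          ring
        rwa [e1] at this
      · rw [List.mem_cons, List.mem_append, List.mem_cons, List.mem_cons, not_or, not_or, not_or,
          not_or]
        have h1 := h.ene q (a := 0) (b := p + 1) (by omega) (by omega) (by omega)
        have h2 := h.ene q (a := 0) (b := p) (by omega) (by omega) (by omega)
        have h3 := h.ene q (a := 0) (b := 1) (by omega) (by omega) (by omega)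
        rw [c0] at h1 h2 h3
        exact ⟨h1, r0 _ (Or.inr (Or.inl rfl)), h2, h3, n2e _⟩
    have A7 := k1.append A6 (h.port q).symm (by
      intro x hx hx'
      rw [k3] at hx
      rw [List.mem_cons, List.mem_cons, List.mem_append, List.mem_cons, List.mem_cons, n2] at hx'
      rcases hx' with rfl | rfl | hx' | rfl | rfl | hx'
      · exact h.ze _ _ hx
      · exact h.ze _ _ hx
      · exact r0 _ (Or.inl hx) hx'
      · exact h.ze _ _ hx
      · exact h.ze _ _ hx
      · have := h.rg_shift (i := q) (a := 0) (b := 1) (x := x) (by omega) (by omega)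
          (by rw [c0]; exact Or.inl hx) (Or.inl hx')
        omega)
    refine ⟨_, _, A7, ?_⟩
    intro x
    rw [List.mem_append, List.mem_cons, List.mem_cons, List.mem_append, List.mem_cons,
      List.mem_cons, n2, k3]
    obtain ⟨a, ha, hr⟩ := h.rg_cov q x
    rcases Nat.lt_or_ge a 2 with c | c
    · rcases Nat.eq_zero_or_pos a with rfl | ha0
      · rw [c0] at hr
        rcases hr with r | r | r
        · exact Or.inl r
        · exact Or.inr (Or.inl r)
        · exact Or.inr (Or.inr (Or.inr (Or.inr (Or.inl r))))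
      · have : a = 1 := by omega
        subst this
        rcases hr with r | r | r
        · exact Or.inr (Or.inr (Or.inr (Or.inr (Or.inr (Or.inr r)))))
        · exact Or.inr (Or.inr (Or.inr (Or.inr (Or.inr (Or.inl r)))))
        · right; right; left
          rw [r]
          congr 1
          push_cast
          ring
    · right; right; right; left
      rw [m2]
      refine ⟨a - 2, by omega, ?_⟩
      have : q + ((2 : ℕ) : ZMod (2 * p)) + ((a - 2 : ℕ) : ZMod (2 * p)) = q + (a : ℕ) := by
        rw [Nat.cast_sub c]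
        ring
      rwa [this]

end Ring

end MPd41ace
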