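import Pool.Agent.Lib.MP_d41ace_co.RingB

/-!
Rungs in a ring: there is no closed path through all vertices.
-/

set_option autoImplicit false

namespace MPd41ace

open SimpleGraph

variable {V : Type*} {H : SimpleGraph V} {p : ℕ} {e t : ZMod (2 * p) → V}
  {Z : ZMod (2 * p) → V → Prop}

/-- a closed path through all vertices -/
structure HC (H : SimpleGraph V) (σ : Equiv.Perm V) : Prop where
  /-- adjacent -/
  adj : ∀ x, H.Adj x (σ x)
  /-- one cycle -/
  one : ∀ A : V → Prop, (∃ x, A x) → (∀ x, A x → A (σ x)) → ∀ x, A x
  /-- at least three vertices -/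
  two : ∀ x, σ (σ x) ≠ x

lemma hc_of_path {u v : V} {l : List V} (h : PathL H u v l) (hall : ∀ x, x ∈ l)
    (hvu : H.Adj v u) (h3 : 3 ≤ l.length) : ∃ σ, HC H σ := by
  classical
  have hnd := h.nodup
  have idx : ∀ x, ∃ (i : ℕ) (hi : i < l.length), l[i] = x := fun x =>
    List.mem_iff_getElem.1 (hall x)
  have hs : ∀ (i : ℕ) (hi : i < l.length), l.formPerm l[i] =
      l[(i + 1) % l.length]'(Nat.mod_lt _ (by omega)) := fun i hi =>
    List.formPerm_apply_getElem l hnd i hi
  refine ⟨l.formPerm, ?_, ?_, ?_⟩
  · intro x
    obtain ⟨i, hi, rfl⟩ := idx x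
    rw [hs i hi]
    by_cases c : i + 1 < l.length
    · have := List.isChain_iff_getElem.1 h.chain i c
      convert this using 2
      exact Nat.mod_eq_of_lt c
    · have e1 : i = l.length - 1 := by omega
      have e2 : l[i] = v := by
        have := h.last
        rw [List.getLast?_eq_getElem?, ← e1, List.getElem?_eq_getElem hi, Option.some_inj] at this
        exact this
      have e3 : l[(i + 1) % l.length]'(Nat.mod_lt _ (by omega)) = u := by
        have := h.head
        rw [List.head?_eq_getElem?, List.getElem?_eq_getElem (by omega), Option.some_inj] at this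
        rw [← this]
        congr 1
        have : i + 1 = l.length := by omega
        rw [this, Nat.mod_self]
      rw [e2, e3]
      exact hvu
  · rintro A ⟨x, hx⟩ hA y
    obtain ⟨i, hi, rfl⟩ := idx x
    obtain ⟨j, hj, rfl⟩ := idx y
    have key : ∀ k : ℕ, A (l[(i + k) % l.length]'(Nat.mod_lt _ (by omega))) := by
      intro k
      induction k with
      | zero =>
        have : (i + 0) % l.length = i := Nat.mod_eq_of_lt hi
        simp only [this]
        exact hx
      | succ k ih =>
        have := hA _ ih
        rw [hs _ (Nat.mod_lt _ (by omega))] at this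
        have e1 : ((i + k) % l.length + 1) % l.length = (i + (k + 1)) % l.length := by
          rw [Nat.mod_add_mod, add_assoc]
        simp only [e1] at this
        exact this
    have := key (l.length - i + j)
    have e1 : (i + (l.length - i + j)) % l.length = j := by
      have : i + (l.length - i + j) = l.length + j := by omega
      rw [this, Nat.add_mod_left, Nat.mod_eq_of_lt hj]
    simp only [e1] at this
    exact this
  · intro x hx
    obtain ⟨i, hi, rfl⟩ := idx x
    rw [hs i hi, hs _ (Nat.mod_lt _ (by omega))] at hx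
    have e1 : ((i + 1) % l.length + 1) % l.length = (i + 2) % l.length := by
      rw [Nat.mod_add_mod, add_assoc]
    have e2 := (List.Nodup.getElem_inj_iff hnd).1 hx
    rw [e1] at e2
    by_cases c : i + 2 < l.length
    · rw [Nat.mod_eq_of_lt c] at e2
      omega
    · have : (i + 2) % l.length = i + 2 - l.length := by
        rw [Nat.mod_eq_sub_mod (by omega), Nat.mod_eq_of_lt (by omega)]
      omega

namespace Ring

variable (h : Ring H p e t Z)

include h

theorem not_hc (σ : Equiv.Perm V) (hσ : HC H σ) : False := by
  have hp := h.big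
  have hpp := pp p
  have P1 : ∀ j, σ (t j) = e j ∨ σ (e j) = t j := by
    intro j
    obtain ⟨x, hx, hx'⟩ : ∃ x, Z j x ∧ ¬ Z j (σ x) := by
      by_contra hcon
      push Not at hcon
      exact h.ze 0 j (hσ.one (Z j) ⟨_, h.tz j⟩ hcon _)
    obtain ⟨y, hy, hy'⟩ : ∃ y, ¬ Z j y ∧ Z j (σ y) := by
      by_contra hcon
      push Not at hcon
      exact hσ.one (fun y => ¬ Z j y) ⟨_, h.ze 0 j⟩ hcon _ (h.tz j)
    rcases h.zadj j x (σ x) hx (hσ.adj x) with k | ⟨i, hi, k1, k2⟩
    · exact absurd k hx'
    rcases h.zadj j (σ y) y hy' (hσ.adj y).symm with k | ⟨i', hi', k3, k4⟩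
    · exact absurd k hy
    have hne : i ≠ i' := by
      rintro rfl
      apply hσ.two x
      rw [k2, ← k4, k3, k1]
    rcases hi with rfl | rfl
    · left
      rw [← k1, k2]
    · rcases hi' with rfl | rfl
      · right
        rw [← k4, k3]
      · exact absurd rfl hne
  -- used links
  set U : ZMod (2 * p) → ZMod (2 * p) → Prop := fun j k => σ (e j) = e k ∨ σ (e k) = e j with hU
  have two_ne : (2 : ZMod (2 * p)) ≠ 0 := by
    have := h.natne (a := 2) (b := 0) (by omega) (by omega) (by omega)
    rwa [Nat.cast_ofNat, Nat.cast_zero] at this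
  have lne : ∀ j : ZMod (2 * p), e (j + p + 1) ≠ e (j + p - 1) := by
    intro j k
    apply two_ne
    have := h.einj k
    have e1 : (2 : ZMod (2 * p)) = (j + p + 1) - (j + p - 1) := by ring
    rw [e1, this, sub_self]
  have tne : ∀ i j, t j ≠ e i := fun i j k => h.ze i j (k ▸ h.tz j)
  have P2 : ∀ j, (U j (j + p + 1) ∨ U j (j + p - 1)) ∧ ¬ (U j (j + p + 1) ∧ U j (j + p - 1)) := by
    intro j
    rcases P1 j with k | k
    · have k1 : σ (e j) ≠ t j := by
        intro q
        apply hσ.two (t j)
        rw [k, q]
      have k3 : ∀ i, U j i → σ (e j) = e i := by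
        rintro i (q | q)
        · exact q
        · exfalso
          rw [← k] at q
          exact tne i j (σ.injective q).symm
      constructor
      · rcases h.eadj j _ (hσ.adj (e j)) with q | q | q
        · exact absurd q k1
        · exact Or.inl (Or.inl q)
        · exact Or.inr (Or.inl q)
      · rintro ⟨q1, q2⟩
        exact lne j ((k3 _ q1).symm.trans (k3 _ q2))
    · have k1 : σ (t j) ≠ e j := by
        intro q
        apply hσ.two (t j)
        rw [q, k]
      obtain ⟨y, hy⟩ := σ.surjective (e j)
      have k3 : ∀ i, U j i → y = e i := by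
        rintro i (q | q)
        · exact absurd (k.symm.trans q) (tne i j)
        · rw [← q] at hy
          exact σ.injective hy
      have k4 : H.Adj (e j) y := by
        have := hσ.adj y
        rw [hy] at this
        exact this.symm
      constructor
      · rcases h.eadj j _ k4 with q | q | q
        · exact absurd (q ▸ hy) k1
        · exact Or.inl (Or.inr (q ▸ hy))
        · exact Or.inr (Or.inr (q ▸ hy))
      · rintro ⟨q1, q2⟩
        exact lne j ((k3 _ q1).symm.trans (k3 _ q2))
  have Usymm : ∀ j k, U j k → U k j := by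
    rintro j k (q | q)
    · exact Or.inr q
    · exact Or.inl q
  set s : ZMod (2 * p) → Prop := fun j => U j (j + p + 1) with hs
  have P3 : ∀ j, s (j + p + 1) ↔ ¬ s j := by
    intro j
    have e1 : j + p + 1 + p - 1 = j := by
      have : j + (p : ZMod (2 * p)) + 1 + p - 1 = j + (p + p) := by ring
      rw [this, hpp, add_zero]
    have k := P2 (j + p + 1)
    rw [e1] at k
    have k2 : U (j + p + 1) j ↔ s j := ⟨Usymm _ _, Usymm _ _⟩
    rw [k2] at k
    have k3 : (s (j + p + 1) ∨ s j) ∧ ¬ (s (j + p + 1) ∧ s j) := k
    exact ⟨fun a b => k3.2 ⟨a, b⟩, fun nb => k3.1.resolve_right nb⟩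
  have P4 : ∀ j, s (j + 2) ↔ s j := by
    intro j
    have e1 : j + p + 1 + p + 1 = j + 2 := by
      have : j + (p : ZMod (2 * p)) + 1 + p + 1 = j + 2 + (p + p) := by ring
      rw [this, hpp, add_zero]
    have k1 := P3 (j + p + 1)
    rw [e1, P3 j, not_not] at k1
    exact k1
  have P5 : ∀ (k : ℕ) (j : ZMod (2 * p)), s (j + ((2 * k : ℕ) : ZMod (2 * p))) ↔ s j := by
    intro k
    induction k with
    | zero =>
      intro j
      rw [mul_zero, Nat.cast_zero, add_zero]
    | succ k ih =>
      intro j
      have e1 : j + ((2 * (k + 1) : ℕ) : ZMod (2 * p)) = j + ((2 * k : ℕ) : ZMod (2 * p)) + 2 := by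
        push_cast
        ring
      rw [e1, P4, ih]
  rcases Nat.even_or_odd' p with ⟨k, hk | hk⟩
  · -- `p` even
    have Q1 : ∀ j, s (j + p) ↔ s j := by
      intro j
      have := P5 k j
      rwa [← hk] at this
    have Q2 : ∀ j, s (j + 1) ↔ ¬ s j := by
      intro j
      have k1 := P3 j
      have e1 : j + (p : ZMod (2 * p)) + 1 = j + 1 + p := by ring
      rw [e1, Q1] at k1
      exact k1
    obtain ⟨j, hj⟩ : ∃ j, s j := by
      by_cases c : s 0
      · exact ⟨0, c⟩
      · exact ⟨0 + 1, (Q2 0).2 c⟩
    have hj1 : s (j + p) := (Q1 j).2 hj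
    have hj2 : ¬ s (j + 1) := fun q => (Q2 j).1 q hj
    have hj3 : ¬ s (j + 1 + p) := fun q => hj2 ((Q1 _).1 q)
    have all := hσ.one (fun x => Rg p e Z j x ∨ Rg p e Z (j + 1) x)
      ⟨_, Or.inl (Or.inl (h.tz j))⟩ (by
        have zz : ∀ i x, Z i x → Rg p e Z i (σ x) := by
          intro i x hx
          rcases h.zadj i x (σ x) hx (hσ.adj x) with q | ⟨i', hi', _, q⟩
          · exact Or.inl q
          · rcases hi' with rfl | rfl
            · exact Or.inr (Or.inl q)
            · exact Or.inr (Or.inr q)
        have E1 : ∀ i, s i → σ (e i) = t i ∨ σ (e i) = e (i + p + 1) := by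
          intro i hi
          rcases h.eadj i _ (hσ.adj (e i)) with q | q | q
          · exact Or.inl q
          · exact Or.inr q
          · exact absurd ⟨hi, Or.inl q⟩ (P2 i).2
        have E2 : ∀ i, ¬ s i → σ (e i) = t i ∨ σ (e i) = e (i + p - 1) := by
          intro i hi
          rcases h.eadj i _ (hσ.adj (e i)) with q | q | q
          · exact Or.inl q
          · exact absurd (Or.inl q) hi
          · exact Or.inr q
        rintro x ((hx | rfl | rfl) | (hx | rfl | rfl))
        · exact Or.inl (zz j x hx)
        · rcases E1 j hj with q | q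
          · rw [q]
            exact Or.inl (Or.inl (h.tz j))
          · rw [q]
            refine Or.inr (Or.inr (Or.inr ?_))
            congr 1
            ring
        · rcases E1 (j + p) hj1 with q | q
          · rw [q]
            exact Or.inl (Or.inl ((h.zper _ _).1 (h.tz _)))
          · rw [q, apap]
            exact Or.inr (Or.inr (Or.inl rfl))
        · exact Or.inr (zz _ x hx)
        · rcases E2 (j + 1) hj2 with q | q
          · rw [q]
            exact Or.inr (Or.inl (h.tz _))
          · rw [q]
            refine Or.inl (Or.inr (Or.inr ?_))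
            congr 1
            ring
        · rcases E2 (j + 1 + p) hj3 with q | q
          · rw [q]
            exact Or.inr (Or.inl ((h.zper _ _).1 (h.tz _)))
          · rw [q, apap]
            refine Or.inl (Or.inr (Or.inl ?_))
            congr 1
            ring)
    have c0 : j + ((0 : ℕ) : ZMod (2 * p)) = j := by rw [Nat.cast_zero, add_zero]
    have c1 : j + ((1 : ℕ) : ZMod (2 * p)) = j + 1 := by rw [Nat.cast_one]
    have h2 : Rg p e Z (j + ((2 : ℕ) : ZMod (2 * p))) (e (j + ((2 : ℕ) : ZMod (2 * p)))) :=
      Or.inr (Or.inl rfl)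
    rcases all (e (j + ((2 : ℕ) : ZMod (2 * p)))) with q | q
    · have := h.rg_shift (i := j) (a := 0) (b := 2) (by omega) (by omega)
        (by rw [c0]; exact q) h2
      omega
    · have := h.rg_shift (i := j) (a := 1) (b := 2) (by omega) (by omega)
        (by rw [c1]; exact q) h2
      omega
  · -- `p` odd
    have k1 := P3 0
    have k2 := P5 (k + 1) 0
    have e1 : (0 : ZMod (2 * p)) + p + 1 = 0 + ((2 * (k + 1) : ℕ) : ZMod (2 * p)) := by
      have : 2 * (k + 1) = p + 1 := by omega
      rw [this]
      push_cast
      ring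
    rw [e1, k2] at k1
    exact (iff_not_self k1).elim

end Ring

end MPd41ace
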