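import Pool.Agent.Lib.MP_d41ace_co.RingC

/-!
Rungs in a ring: every edge is needed.
-/

set_option autoImplicit false

namespace MPd41ace

open SimpleGraph

section lists

variable {V : Type*} {G : SimpleGraph V}

lemma exists_first {P : V → Prop} : ∀ {l : List V}, (∃ x ∈ l, P x) →
    ∃ l₁ x l₂, l = l₁ ++ x :: l₂ ∧ P x ∧ ∀ y ∈ l₁, ¬ P y := by
  intro l
  induction l with
  | nil =>
    rintro ⟨x, hx, _⟩
    simp at hx
  | cons a l ih =>
    intro h
    by_cases ha : P a
    · exact ⟨[], a, l, rfl, ha, by simp⟩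
    · obtain ⟨l₁, x, l₂, rfl, h1, h2⟩ := ih (by
        obtain ⟨x, hx, hP⟩ := h
        rcases List.mem_cons.1 hx with rfl | hx
        · exact absurd hP ha
        · exact ⟨x, hx, hP⟩)
      refine ⟨a :: l₁, x, l₂, rfl, h1, ?_⟩
      intro y hy
      rcases List.mem_cons.1 hy with rfl | hy
      · exact ha
      · exact h2 y hy

/-- the edge between two consecutive pieces -/
lemma PathL.mid {u w x : V} {l₁ l₂ : List V} (h : PathL G u w (l₁ ++ x :: l₂)) (h1 : l₁ ≠ []) :
    ∃ y, PathL G u y l₁ ∧ G.Adj y x := by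
  obtain ⟨y, hy⟩ := h.pre_of h1
  refine ⟨y, hy, ?_⟩
  obtain ⟨l, rfl⟩ : ∃ l, l₁ = l ++ [y] := by
    have h2 := hy.last
    refine ⟨l₁.dropLast, ?_⟩
    rw [List.getLast?_eq_some_getLast h1, Option.some_inj] at h2
    rw [← h2, List.dropLast_append_getLast]
  have := h.chain
  rw [List.append_assoc, List.singleton_append, List.isChain_append_cons_cons] at this
  exact this.2.1

/-- a path does not leave `B` -/
lemma PathL.stay {u w x : V} {l₁ l₂ : List V} (h : PathL G u w (l₁ ++ x :: l₂)) {B : V → Prop}
    (hx : B x) (hout : ∀ y z, B y → ¬ B z → G.Adj y z → z ∈ l₁) : ∀ y ∈ l₂, B y := by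
  by_contra hcon
  push Not at hcon
  obtain ⟨l₃, z, l₄, rfl, h1, h2⟩ := exists_first (P := fun y => ¬ B y) hcon
  have e1 : l₁ ++ x :: (l₃ ++ z :: l₄) = (l₁ ++ x :: l₃) ++ z :: l₄ := by simp
  rw [e1] at h
  obtain ⟨y, hy, hyz⟩ := h.mid (by simp)
  have hyB : B y := by
    have hl : (l₁ ++ x :: l₃).getLast? = some y := hy.last
    rw [List.getLast?_append_of_ne_nil _ (by simp)] at hl
    have hm : y ∈ x :: l₃ := List.mem_of_getLast? hl
    rcases List.mem_cons.1 hm with rfl | hm
    · exact hx
    · exact not_not.1 (h2 y hm)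
  have hz := hout y z hyB h1 hyz
  have hnd := (List.nodup_append'.1 h.nodup).2.2
  exact hnd (List.mem_append_left _ hz) List.mem_cons_self

lemma PathL.eq_single {u : V} {l : List V} (h : PathL G u u l) : l = [u] := by
  cases l with
  | nil => exact absurd rfl h.ne_nil
  | cons a t =>
    have e1 : a = u := by
      have := h.head
      rwa [List.head?_cons, Option.some_inj] at this
    subst e1
    by_cases ht : t = []
    · rw [ht]
    · have := h.last
      rw [List.getLast?_cons_of_ne_nil ht] at this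
      exact absurd (List.mem_of_getLast? this) (List.nodup_cons.1 h.nodup).1

/-- how a path through all vertices meets a set with two outgoing edges -/
lemma PathL.enter {v w t₁ t₂ w' : V} {l : List V} (h : PathL G v w l) (hall : ∀ x, x ∈ l)
    {B : V → Prop} (hv : ¬ B v) (hB : ∃ x, B x)
    (hout : ∀ x y, B x → ¬ B y → G.Adj x y → (x = t₁ ∧ y = v) ∨ (x = t₂ ∧ y = w')) :
    (∃ l₂, l = v :: t₁ :: l₂) ∨ ∃ l₁ l₂, l = l₁ ++ l₂ ∧ (∀ y ∈ l₁, ¬ B y) ∧ (∀ y, y ∈ l₂ ↔ B y) ∧
      PathL G v w' l₁ ∧ PathL G t₂ w l₂ := by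
  obtain ⟨x0, hx0⟩ := hB
  obtain ⟨l₁, x, l₂, rfl, h1, h2⟩ := exists_first (P := B) ⟨x0, hall x0, hx0⟩
  have hne : l₁ ≠ [] := by
    rintro rfl
    have := h.head
    rw [List.nil_append, List.head?_cons, Option.some_inj] at this
    exact hv (this ▸ h1)
  obtain ⟨y, hy, hyx⟩ := h.mid hne
  have hyB : ¬ B y := h2 y hy.mem_right
  rcases hout x y h1 hyB hyx.symm with ⟨rfl, rfl⟩ | ⟨rfl, rfl⟩
  · left
    rw [hy.eq_single]
    exact ⟨l₂, rfl⟩
  · right
    have hst := h.stay h1 (by
      intro y' z hy' hz hyz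
      rcases hout y' z hy' hz hyz with ⟨_, rfl⟩ | ⟨_, rfl⟩
      · exact hy.mem_left
      · exact hy.mem_right)
    obtain ⟨x', hx'⟩ := h.suf_of (List.cons_ne_nil x l₂)
    have e2 : x' = x := by
      have := hx'.head
      rw [List.head?_cons, Option.some_inj] at this
      exact this.symm
    subst e2
    refine ⟨l₁, x' :: l₂, rfl, h2, ?_, hy, hx'⟩
    intro z
    constructor
    · intro hz
      rcases List.mem_cons.1 hz with rfl | hz
      · exact h1
      · exact hst z hz
    · intro hz
      rcases List.mem_append.1 (hall z) with q | q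
      · exact absurd hz (h2 z q)
      · exact q

end lists

variable {V : Type*} {H : SimpleGraph V} {p : ℕ} {e t : ZMod (2 * p) → V}
  {Z : ZMod (2 * p) → V → Prop}

namespace Ring

variable (h : Ring H p e t Z)

include h

lemma no_closed {u v : V} {l : List V} (h1 : PathL H u v l) (hall : ∀ x, x ∈ l)
    (hvu : H.Adj v u) : False := by
  classical
  have hp := h.big
  obtain ⟨σ, hσ⟩ := hc_of_path h1 hall hvu (by
    have k1 : ((Finset.range 3).image fun a : ℕ => e (a : ZMod (2 * p))).card = 3 := by
      rw [Finset.card_image_of_injOn, Finset.card_range]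
      intro a ha b hb k
      rw [Finset.mem_coe, Finset.mem_range] at ha hb
      exact MPd41ace.cast_inj (by omega) (by omega) (h.einj k)
    have k2 : ((Finset.range 3).image fun a : ℕ => e (a : ZMod (2 * p))) ⊆ l.toFinset :=
      fun x _ => List.mem_toFinset.2 (hall x)
    have k3 := Finset.card_le_card k2
    rw [k1, List.toFinset_card_of_nodup h1.nodup] at k3
    exact k3)
  exact h.not_hc σ hσ

lemma tne (i j : ZMod (2 * p)) : t j ≠ e i := fun k => h.ze i j (k ▸ h.tz j)

lemma ends_ne (j : ZMod (2 * p)) : e j ≠ e (j + p) := by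
  have hp := h.big
  have := h.ene j (a := 0) (b := p) (by omega) (by omega) (by omega)
  rwa [Nat.cast_zero, add_zero] at this

/-- links are needed -/
lemma crit_link (j : ZMod (2 * p)) : ¬ HT (H.deleteEdges {s(e j, e (j + p + 1))}) := by
  have hp := h.big
  intro hH
  set G' := H.deleteEdges {s(e j, e (j + p + 1))} with hG'
  have hle : G' ≤ H := SimpleGraph.deleteEdges_le _
  obtain ⟨w, l, h1, hall⟩ := hH (e (j + p - 1))
  have ne1 : e (j + p - 1) ≠ e j := by
    have := h.ene j (a := p - 1) (b := 0) (by omega) (by omega) (by omega)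
    rw [Nat.cast_zero, add_zero, Nat.cast_sub (by omega), Nat.cast_one] at this
    rwa [add_sub_assoc]
  have back : H.Adj (e j) (e (j + p - 1)) := by
    have := h.link (j + p - 1)
    have e1 : j + (p : ZMod (2 * p)) - 1 + p + 1 = j := by
      have : j + (p : ZMod (2 * p)) - 1 + p + 1 = j + (p + p) := by ring
      rw [this, pp, add_zero]
    rw [e1] at this
    exact this.symm
  rcases h1.enter hall (B := fun x => x = e j) (t₁ := e j) (t₂ := e j) (w' := t j) ne1
    ⟨_, rfl⟩ (by
      rintro x y rfl hy hxy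
      rw [hG', SimpleGraph.deleteEdges_adj] at hxy
      rcases h.eadj j y hxy.1 with q | q | q
      · exact Or.inr ⟨rfl, q⟩
      · exfalso
        apply hxy.2
        rw [q]
        rfl
      · exact Or.inl ⟨rfl, q⟩) with ⟨l₂, hl⟩ | ⟨l₁, l₂, hl, g1, g2, g3, g4⟩
  · -- the path starts with `e (j + p - 1), e j`
    set k := j + (p : ZMod (2 * p)) - 1 with hk
    rcases h1.enter hall (B := Z k) (t₁ := t k) (t₂ := t (k + p)) (w' := e (k + p)) (h.ze _ _)
      ⟨_, h.tz k⟩ (by
        intro x y hx hy hxy
        rcases h.zadj k x y hx (hle hxy) with q | ⟨i, hi, q1, q2⟩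
        · exact absurd q hy
        · rcases hi with rfl | rfl
          · exact Or.inl ⟨q1, q2⟩
          · exact Or.inr ⟨q1, q2⟩) with ⟨l₃, hl3⟩ | ⟨l₁, l₃, hl3, g1, g2, g3, g4⟩
    · rw [hl] at hl3
      have := (List.cons.inj (List.cons.inj hl3).2).1
      exact h.tne j k this.symm
    · obtain ⟨m, m1, m2⟩ := h.ham (k + p)
      rw [apap] at m1
      refine h.no_closed ((g3.mono' hle).append m1 (h.port _) ?_) ?_ (h.port k).symm
      · intro x hx hx'
        rw [m2, h.zper] at hx'
        exact g1 x hx hx'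
      · intro x
        rw [List.mem_append, m2, h.zper, ← g2, ← List.mem_append, ← hl3]
        exact hall x
  · -- the path ends with `e j`
    have : w = e j := by
      rw [← g2]
      exact g4.mem_right
    rw [this] at h1
    exact h.no_closed (h1.mono' hle) hall back

/-- rung edges are needed -/
lemma crit_port (j : ZMod (2 * p)) : ¬ HT (H.deleteEdges {s(e j, t j)}) := by
  intro hH
  set G' := H.deleteEdges {s(e j, t j)} with hG'
  have hle : G' ≤ H := SimpleGraph.deleteEdges_le _
  obtain ⟨w, l, h1, hall⟩ := hH (e (j + p))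
  have out : ∀ x y, Z j x → ¬ Z j y → G'.Adj x y → x = t (j + p) ∧ y = e (j + p) := by
    intro x y hx hy hxy
    have hxy' := hxy
    rw [hG', SimpleGraph.deleteEdges_adj] at hxy'
    rcases h.zadj j x y hx (hle hxy) with q | ⟨i, hi, q1, q2⟩
    · exact absurd q hy
    · rcases hi with rfl | rfl
      · exfalso
        apply hxy'.2
        rw [q1, q2, Sym2.eq_swap]
        rfl
      · exact ⟨q1, q2⟩
  rcases h1.enter hall (B := Z j) (t₁ := t (j + p)) (t₂ := t (j + p)) (w' := e (j + p))
    (h.ze _ _) ⟨_, h.tz j⟩ (fun x y hx hy hxy => Or.inl (out x y hx hy hxy)) with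
    ⟨l₂, hl⟩ | ⟨l₁, l₂, hl, g1, g2, g3, g4⟩
  · have e1 : l = [e (j + p)] ++ t (j + p) :: l₂ := hl
    rw [e1] at h1
    have hst := h1.stay (B := Z j) ((h.zper _ _).1 (h.tz _)) (by
      intro y z hy hz hyz
      rw [(out y z hy hz hyz).2]
      exact List.mem_singleton_self _)
    have k := hall (e j)
    rw [hl, List.mem_cons, List.mem_cons] at k
    rcases k with k | k | k
    · exact h.ends_ne j k
    · exact h.tne j _ k.symm
    · exact h.ze _ _ (hst _ k)
  · rw [g3.eq_single] at hl
    have k := hall (e j)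
    rw [hl, List.singleton_append, List.mem_cons, g2] at k
    rcases k with k | k
    · exact h.ends_ne j k
    · exact h.ze _ _ k

/-- inner edges are needed -/
lemma crit_inner {j : ZMod (2 * p)} {x y : V} (hx : Z j x) (hy : Z j y) (hxy : H.Adj x y) :
    ¬ HT (H.deleteEdges {s(x, y)}) := by
  intro hH
  set G' := H.deleteEdges {s(x, y)} with hG'
  have hle : G' ≤ H := SimpleGraph.deleteEdges_le _
  obtain ⟨v, hv, hcr⟩ := h.crit j x y hx hy hxy
  obtain ⟨w, l, h1, hall⟩ := hH v
  obtain ⟨l₁, a, l₂, rfl, ha, hl1⟩ := exists_first (P := fun z => ¬ Z j z) ⟨_, hall (e j), h.ze _ _⟩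
  have hl1' : ∀ z ∈ l₁, Z j z := fun z hz => not_not.1 (hl1 z hz)
  have hne : l₁ ≠ [] := by
    rintro rfl
    have := h1.head
    rw [List.nil_append, List.head?_cons, Option.some_inj] at this
    exact ha (this ▸ hv)
  obtain ⟨b, hb, hba⟩ := h1.mid hne
  obtain ⟨i, hi, q1, q2⟩ := (h.zadj j b a (hl1' b hb.mem_right) (hle hba)).resolve_left ha
  subst q1 q2
  have hZ : ∀ z, Z i z ↔ Z j z := by
    intro z
    rcases hi with rfl | rfl
    · rfl
    · rw [h.zper]
  by_cases hc : ∃ c ∈ l₂, Z j c
  · obtain ⟨l₃, c, l₄, rfl, hcZ, hl3⟩ := exists_first hc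
    have e1 : l₁ ++ e i :: (l₃ ++ c :: l₄) = (l₁ ++ e i :: l₃) ++ c :: l₄ := by simp
    rw [e1] at h1
    obtain ⟨d, hd, hdc⟩ := h1.mid (by simp)
    have hdm : (e i :: l₃).getLast? = some d := by
      have := hd.last
      rwa [List.getLast?_append_of_ne_nil _ (by simp)] at this
    have hd' : d ∈ e i :: l₃ := List.mem_of_getLast? hdm
    have hdZ : ¬ Z j d := by
      rcases List.mem_cons.1 hd' with k | k
      · rw [k]
        exact h.ze _ _
      · exact hl3 d k
    obtain ⟨i', hi', r1, r2⟩ := (h.zadj j c d hcZ (hle hdc.symm)).resolve_left hdZ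
    subst r1 r2
    have hii : i ≠ i' := by
      rintro rfl
      have hnd := (List.nodup_append'.1 h1.nodup).2.2
      exact hnd (List.mem_append_left _ hb.mem_right) List.mem_cons_self
    have hip : i' + p = i := by
      rcases hi with rfl | rfl <;> rcases hi' with rfl | rfl
      · exact absurd rfl hii
      · exact apap _ _
      · rfl
      · exact absurd rfl hii
    have hst := h1.stay hcZ (B := Z j) (by
      intro y' z hy' hz hyz
      obtain ⟨i2, hi2, _, s2⟩ := (h.zadj j y' z hy' (hle hyz)).resolve_left hz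
      have : i2 = i ∨ i2 = i' := by
        rcases hi with rfl | rfl <;> rcases hi' with rfl | rfl <;> rcases hi2 with rfl | rfl
        all_goals first
          | exact Or.inl rfl
          | exact Or.inr rfl
          | exact absurd rfl hii
      rcases this with rfl | rfl
      · rw [s2]
        exact List.mem_append_right _ List.mem_cons_self
      · rw [s2]
        exact List.mem_append_right _ hd')
    obtain ⟨m, m1, m2⟩ := h.ham i'
    rw [hip] at m1
    have hmid : PathL G' (e i) (e i') (e i :: l₃) := by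
      obtain ⟨f, hf⟩ := hd.suf_of (List.cons_ne_nil (e i) l₃)
      have e2 : f = e i := by
        have := hf.head
        rw [List.head?_cons, Option.some_inj] at this
        exact this.symm
      rwa [e2] at hf
    have hZ' : ∀ z, Z i' z ↔ Z j z := by
      intro z
      rcases hi' with rfl | rfl
      · rfl
      · rw [h.zper]
    refine h.no_closed ((hmid.mono' hle).append m1 (h.port _) ?_) ?_ (h.port i).symm
    · intro z hz hz'
      rw [m2, hZ'] at hz'
      rcases List.mem_cons.1 hz with k | k
      · exact h.ze _ _ (k ▸ hz')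
      · exact hl3 z k hz'
    · intro z
      rw [List.mem_append, m2, hZ']
      have k := hall z
      simp only [List.mem_append, List.mem_cons] at k
      rcases k with k | k | k | k | k
      · exact Or.inr (hl1' z k)
      · exact Or.inl (by rw [k]; exact List.mem_cons_self)
      · exact Or.inl (List.mem_cons_of_mem _ k)
      · exact Or.inr (k ▸ hcZ)
      · exact Or.inr (hst z k)
  · push Not at hc
    refine hcr i l₁ hi hb fun z => ⟨hl1' z, fun hz => ?_⟩
    have k := hall z
    simp only [List.mem_append, List.mem_cons] at k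
    rcases k with k | k | k
    · exact k
    · exact absurd (k ▸ hz) ha
    · exact absurd hz (hc z k)

/-- all edges are needed -/
lemma crit_all (x y : V) (hxy : H.Adj x y) : ¬ HT (H.deleteEdges {s(x, y)}) := by
  have key : ∀ i y, H.Adj (e i) y → ¬ HT (H.deleteEdges {s(e i, y)}) := by
    intro i y hy
    rcases h.eadj i y hy with q | q | q
    · rw [q]
      exact h.crit_port i
    · rw [q]
      exact h.crit_link i
    · rw [q]
      have := h.crit_link (i + p - 1)
      have e1 : i + (p : ZMod (2 * p)) - 1 + p + 1 = i := by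
        have : i + (p : ZMod (2 * p)) - 1 + p + 1 = i + (p + p) := by ring
        rw [this, pp, add_zero]
      rw [e1] at this
      rwa [Sym2.eq_swap]
  rcases h.cov x with ⟨i, rfl⟩ | ⟨j, hj⟩
  · exact key i y hxy
  · rcases h.cov y with ⟨i, rfl⟩ | ⟨j', hj'⟩
    · rw [Sym2.eq_swap]
      exact key i x hxy.symm
    · rcases h.zadj j x y hj hxy with q | ⟨i, _, _, q⟩
      · exact h.crit_inner hj q hxy
      · exact absurd hj' (q ▸ h.ze _ _)

/-- neighbours are in neighbouring rungs -/
lemma rg_adj {j : ZMod (2 * p)} {x y : V} (hx : Rg p e Z j x) (hxy : H.Adj x y) :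
    Rg p e Z (j + p + 1) y ∨ Rg p e Z j y ∨ Rg p e Z (j + p - 1) y := by
  have key : ∀ j, H.Adj (e j) y →
      Rg p e Z (j + p + 1) y ∨ Rg p e Z j y ∨ Rg p e Z (j + p - 1) y := by
    intro j hj
    rcases h.eadj j y hj with q | q | q
    · exact Or.inr (Or.inl (Or.inl (q ▸ h.tz _)))
    · exact Or.inl (Or.inr (Or.inl q))
    · exact Or.inr (Or.inr (Or.inr (Or.inl q)))
  rcases hx with hx | rfl | rfl
  · rcases h.zadj j x y hx hxy with q | ⟨i, hi, _, q⟩
    · exact Or.inr (Or.inl (Or.inl q))
    · rcases hi with rfl | rfl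
      · exact Or.inr (Or.inl (Or.inr (Or.inl q)))
      · exact Or.inr (Or.inl (Or.inr (Or.inr q)))
  · exact key j hxy
  · have e1 : j + (p : ZMod (2 * p)) + p + 1 = j + p + 1 + p := by ring
    have e2 : j + (p : ZMod (2 * p)) + p - 1 = j + p - 1 + p := by ring
    have := key (j + p) hxy
    rwa [e1, e2, h.rg_per, h.rg_per, h.rg_per] at this

/-- a vertex far away -/
lemma far (x : V) : ∃ y, y ≠ x ∧ ∀ d, H.Adj x d → ¬ H.Adj d y := by
  have hp := h.big
  obtain ⟨j, hj⟩ : ∃ j, Rg p e Z j x := by
    obtain ⟨a, _, k⟩ := h.rg_cov 0 x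
    exact ⟨_, k⟩
  -- everything relative to `q = j - 1`
  set q : ZMod (2 * p) := j - 1 with hq
  have c : ∀ d, H.Adj x d → ∃ a < 3, Rg p e Z (q + (a : ℕ)) d := by
    intro d hd
    rcases h.rg_adj hj hd with k | k | k
    · refine ⟨2, by norm_num, ?_⟩
      rw [← h.rg_per]
      convert k using 1
      rw [hq]
      push_cast
      ring
    · refine ⟨1, by norm_num, ?_⟩
      convert k using 1
      rw [hq]
      push_cast
      ring
    · refine ⟨0, by norm_num, ?_⟩
      rw [← h.rg_per]
      convert k using 1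
      rw [hq]
      push_cast
      ring
  have hy : Rg p e Z (q + (4 : ℕ)) (e (q + (4 : ℕ))) := Or.inr (Or.inl rfl)
  refine ⟨e (q + (4 : ℕ)), ?_, ?_⟩
  · intro k
    have hx : Rg p e Z (q + (1 : ℕ)) x := by
      convert hj using 1
      rw [hq]
      push_cast
      ring
    rw [k] at hy
    have := h.rg_shift (by omega) (by omega) hx hy
    omega
  · intro d hd hdy
    obtain ⟨a, ha, ka⟩ := c d hd
    rcases h.rg_adj hy hdy.symm with k | k | k
    · have k5 : Rg p e Z (q + (5 : ℕ)) d := by
        rw [← h.rg_per]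
        convert k using 1
        push_cast
        ring
      have := h.rg_shift (by omega) (by omega) ka k5
      omega
    · have := h.rg_shift (by omega) (by omega) ka k
      omega
    · have k5 : Rg p e Z (q + (3 : ℕ)) d := by
        rw [← h.rg_per]
        convert k using 1
        push_cast
        ring
      have := h.rg_shift (by omega) (by omega) ka k5
      omega

theorem isMinPLD [Fintype V] {N : ℕ} (hN : Fintype.card V = N) (h2 : 2 ≤ N) :
    IsMinPLD (cone H) (N + 1) := cone_isMinPLD hN h2 h.ht h.crit_all h.far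

end Ring

end MPd41ace
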