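import Pool.Agent.Lib.MP_d41ace_co.RingD

/-!
The graphs: `x` rungs with one inner vertex, `y` rungs with two inner vertices, `z` rungs with four
inner vertices.
-/

set_option autoImplicit false

namespace MPd41ace

open SimpleGraph

/-- vertices -/
inductive VR (x y z : ℕ) where
  /-- ends -/
  | en (j : ZMod (2 * (x + y + z)))
  /-- single inner vertex -/
  | sg (i : Fin x)
  /-- two inner vertices -/
  | ed (i : Fin y) (s : Bool)
  /-- four inner vertices -/
  | qd (i : Fin z) (s u : Bool)
  deriving DecidableEq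

namespace VR

variable {x y z : ℕ}

/-- as a sum -/
def eqv (x y z : ℕ) : VR x y z ≃ (ZMod (2 * (x + y + z)) ⊕ Fin x) ⊕ ((Fin y × Bool) ⊕
    (Fin z × Bool × Bool)) where
  toFun
    | en j => .inl (.inl j)
    | sg i => .inl (.inr i)
    | ed i s => .inr (.inl (i, s))
    | qd i s u => .inr (.inr (i, s, u))
  invFun
    | .inl (.inl j) => en j
    | .inl (.inr i) => sg i
    | .inr (.inl (i, s)) => ed i s
    | .inr (.inr (i, s, u)) => qd i s u
  left_inv v := by
    cases v <;> rfl
  right_inv v := by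
    rcases v with (j | i) | (⟨i, s⟩ | ⟨i, s, u⟩) <;> rfl

instance [NeZero (2 * (x + y + z))] : Fintype (VR x y z) := Fintype.ofEquiv _ (eqv x y z).symm

lemma card [NeZero (2 * (x + y + z))] :
    Fintype.card (VR x y z) = 2 * (x + y + z) + x + (2 * y + 4 * z) := by
  rw [Fintype.card_congr (eqv x y z)]
  simp only [Fintype.card_sum, ZMod.card, Fintype.card_fin, Fintype.card_prod, Fintype.card_bool]
  ring

/-- number of the rung -/
def kk (j : ZMod (2 * (x + y + z))) : ℕ := j.val % (x + y + z)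

/-- side -/
def sd (j : ZMod (2 * (x + y + z))) : Bool := decide (x + y + z ≤ j.val)

/-- the port -/
def tt (j : ZMod (2 * (x + y + z))) : VR x y z :=
  if h : kk j < x then sg ⟨kk j, h⟩
  else if h' : kk j - x < y then ed ⟨kk j - x, h'⟩ (sd j)
  else if h'' : kk j - x - y < z then qd ⟨kk j - x - y, h''⟩ (sd j) false
  else en j

/-- the inner vertices of a rung -/
def ZZ (j : ZMod (2 * (x + y + z))) : VR x y z → Prop
  | en _ => False
  | sg i => (i : ℕ) = kk j
  | ed i _ => x + i = kk j
  | qd i _ _ => x + y + i = kk j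

/-- the relation -/
def rr : VR x y z → VR x y z → Prop
  | en j, en j' => j' = j + ((x + y + z : ℕ) : ZMod (2 * (x + y + z))) + 1
  | en j, sg i => sg i = tt j
  | en j, ed i s => ed i s = tt j
  | en j, qd i s u => qd i s u = tt j
  | ed i s, ed i' s' => i = i' ∧ s = false ∧ s' = true
  | qd i s u, qd i' s' u' => i = i' ∧ u' = true ∧ (u = false ∨ (s = false ∧ s' = true))
  | _, _ => False

/-- the graph -/
def gr (x y z : ℕ) : SimpleGraph (VR x y z) := SimpleGraph.fromRel rr

variable (hp : 0 < x + y + z)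

include hp

lemma val_add_p (j : ZMod (2 * (x + y + z))) :
    (j + ((x + y + z : ℕ) : ZMod (2 * (x + y + z)))).val =
      if j.val < x + y + z then j.val + (x + y + z) else j.val - (x + y + z) := by
  have : NeZero (2 * (x + y + z)) := ⟨by omega⟩
  have h1 := ZMod.val_lt j
  have h2 : j + ((x + y + z : ℕ) : ZMod (2 * (x + y + z))) =
      ((j.val + (x + y + z) : ℕ) : ZMod (2 * (x + y + z))) := by
    have e := Nat.cast_add (R := ZMod (2 * (x + y + z))) j.val (x + y + z)
    rw [e, ZMod.natCast_zmod_val]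
  rw [h2, ZMod.val_natCast]
  split_ifs with c
  · exact Nat.mod_eq_of_lt (by omega)
  · rw [Nat.mod_eq_sub_mod (by omega), Nat.mod_eq_of_lt (by omega)]
    omega

lemma kk_lt (j : ZMod (2 * (x + y + z))) : kk j < x + y + z := Nat.mod_lt _ hp

lemma kk_eq (j : ZMod (2 * (x + y + z))) :
    kk j = if j.val < x + y + z then j.val else j.val - (x + y + z) := by
  have : NeZero (2 * (x + y + z)) := ⟨by omega⟩
  have h1 := ZMod.val_lt j
  unfold kk
  split_ifs with c
  · exact Nat.mod_eq_of_lt c
  · rw [Nat.mod_eq_sub_mod (by omega), Nat.mod_eq_of_lt (by omega)]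

lemma kk_per (j : ZMod (2 * (x + y + z))) :
    kk (j + ((x + y + z : ℕ) : ZMod (2 * (x + y + z)))) = kk j := by
  have : NeZero (2 * (x + y + z)) := ⟨by omega⟩
  have h1 := ZMod.val_lt j
  rw [kk_eq hp, kk_eq hp, val_add_p hp]
  split_ifs <;> omega

lemma sd_per (j : ZMod (2 * (x + y + z))) :
    sd (j + ((x + y + z : ℕ) : ZMod (2 * (x + y + z)))) = !sd j := by
  have : NeZero (2 * (x + y + z)) := ⟨by omega⟩
  have h1 := ZMod.val_lt j
  unfold sd
  rw [val_add_p hp]
  by_cases c : j.val < x + y + z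
  · rw [if_pos c, decide_eq_true (by omega), decide_eq_false (by omega)]
    rfl
  · rw [if_neg c, decide_eq_false (by omega), decide_eq_true (by omega)]
    rfl

lemma kk_inj {i j : ZMod (2 * (x + y + z))} (h : kk i = kk j) :
    i = j ∨ i = j + ((x + y + z : ℕ) : ZMod (2 * (x + y + z))) := by
  have : NeZero (2 * (x + y + z)) := ⟨by omega⟩
  have h1 := ZMod.val_lt i
  have h2 := ZMod.val_lt j
  rw [kk_eq hp, kk_eq hp] at h
  rw [← (ZMod.val_injective _).eq_iff, ← (ZMod.val_injective _).eq_iff (a := i), val_add_p hp]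
  split_ifs at h ⊢ <;> omega

lemma kk_cast {k : ℕ} (hk : k < x + y + z) : kk ((k : ℕ) : ZMod (2 * (x + y + z))) = k := by
  unfold kk
  rw [ZMod.val_natCast_of_lt (by omega), Nat.mod_eq_of_lt hk]

omit hp in
lemma tt_sg {j : ZMod (2 * (x + y + z))} {i : Fin x} (h : kk j = i) : tt j = sg i := by
  unfold tt
  have := i.isLt
  rw [dif_pos (by omega)]
  congr 1
  exact Fin.ext h

omit hp in
lemma tt_ed {j : ZMod (2 * (x + y + z))} {i : Fin y} (h : kk j = x + i) : tt j = ed i (sd j) := by
  unfold tt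
  have := i.isLt
  rw [dif_neg (by omega), dif_pos (by omega)]
  congr 1
  exact Fin.ext (by
    show kk j - x = i
    omega)

omit hp in
lemma tt_qd {j : ZMod (2 * (x + y + z))} {i : Fin z} (h : kk j = x + y + i) :
    tt j = qd i (sd j) false := by
  unfold tt
  have := i.isLt
  rw [dif_neg (by omega), dif_neg (by omega), dif_pos (by omega)]
  congr 1
  exact Fin.ext (by
    show kk j - x - y = i
    omega)

lemma kcases (j : ZMod (2 * (x + y + z))) : (∃ i : Fin x, kk j = i) ∨ (∃ i : Fin y, kk j = x + i) ∨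
    ∃ i : Fin z, kk j = x + y + i := by
  have := kk_lt hp j
  rcases Nat.lt_or_ge (kk j) x with c | c
  · exact Or.inl ⟨⟨kk j, c⟩, rfl⟩
  · rcases Nat.lt_or_ge (kk j) (x + y) with c' | c'
    · exact Or.inr (Or.inl ⟨⟨kk j - x, by omega⟩, by
        show kk j = x + (kk j - x)
        omega⟩)
    · exact Or.inr (Or.inr ⟨⟨kk j - x - y, by omega⟩, by
        show kk j = x + y + (kk j - x - y)
        omega⟩)

lemma ZZ_tt (j : ZMod (2 * (x + y + z))) : ZZ j (tt j) := by
  rcases kcases hp j with ⟨i, hi⟩ | ⟨i, hi⟩ | ⟨i, hi⟩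
  · rw [tt_sg hi]
    exact hi.symm
  · rw [tt_ed hi]
    exact hi.symm
  · rw [tt_qd hi]
    exact hi.symm

end VR

end MPd41ace
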