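import Pool.Agent.Lib.MP_d41ace_co.RingE

/-!
The graphs are rings of rungs.
-/

set_option autoImplicit false

namespace MPd41ace

open SimpleGraph VR

/-- a neighbour which has only the first vertex as a neighbour -/
lemma PathL.leaf {V : Type*} {G : SimpleGraph V} {v w a : V} {l : List V} (h : PathL G v w l)
    (ha : a ∈ l) (hav : a ≠ v) (hn : ∀ y ∈ l, G.Adj a y → y = v) : l = [v, a] := by
  obtain ⟨l₁, l₂, rfl⟩ := List.append_of_mem ha
  have hne : l₁ ≠ [] := by
    rintro rfl
    have := h.head
    rw [List.nil_append, List.head?_cons, Option.some_inj] at this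
    exact hav this
  obtain ⟨y, hy, hya⟩ := h.mid hne
  have e1 : y = v := hn y (List.mem_append_left _ hy.mem_right) hya.symm
  subst e1
  have e2 := hy.eq_single
  subst e2
  cases l₂ with
  | nil => rfl
  | cons b l₃ =>
    exfalso
    have hc := h.chain
    rw [List.isChain_append_cons_cons] at hc
    have e3 : b = y := hn b (by simp) hc.2.1
    have hnd := h.nodup
    rw [e3] at hnd
    simp at hnd

variable {x y z : ℕ}

lemma gr_adj {a b : VR x y z} : (gr x y z).Adj a b ↔ a ≠ b ∧ (rr a b ∨ rr b a) := by
  unfold gr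
  rw [SimpleGraph.fromRel_adj]

lemma gr_ee {j j' : ZMod (2 * (x + y + z))} (h : (gr x y z).Adj (en j) (en j')) :
    j' = j + ((x + y + z : ℕ) : ZMod (2 * (x + y + z))) + 1 ∨
      j = j' + ((x + y + z : ℕ) : ZMod (2 * (x + y + z))) + 1 := (gr_adj.1 h).2

lemma gr_qq {i i' : Fin z} {s u s' u' : Bool} (h : (gr x y z).Adj (qd i s u) (qd i' s' u')) :
    i = i' ∧ (u = true ∨ u' = true) := by
  rcases (gr_adj.1 h).2 with k | k
  · exact ⟨k.1, Or.inr k.2.1⟩
  · exact ⟨k.1.symm, Or.inl k.2.1⟩

lemma gr_q1 (i : Fin z) (s s' : Bool) : (gr x y z).Adj (qd i s false) (qd i s' true) :=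
  gr_adj.2 ⟨by simp, Or.inl ⟨rfl, rfl, Or.inl rfl⟩⟩

lemma gr_q2 (i : Fin z) (s : Bool) : (gr x y z).Adj (qd i s true) (qd i (!s) true) := by
  cases s
  · exact gr_adj.2 ⟨by simp, Or.inl ⟨rfl, rfl, Or.inr ⟨rfl, rfl⟩⟩⟩
  · exact gr_adj.2 ⟨by simp, Or.inr ⟨rfl, rfl, Or.inr ⟨rfl, rfl⟩⟩⟩

lemma gr_d (i : Fin y) (s : Bool) : (gr x y z).Adj (ed i s) (ed i (!s)) := by
  cases s
  · exact gr_adj.2 ⟨by simp, Or.inl ⟨rfl, rfl, rfl⟩⟩
  · exact gr_adj.2 ⟨by simp, Or.inr ⟨rfl, rfl, rfl⟩⟩

lemma gr_dd {i i' : Fin y} {s s' : Bool} (h : (gr x y z).Adj (ed i s) (ed i' s')) :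
    i = i' ∧ s ≠ s' := by
  rcases (gr_adj.1 h).2 with k | k
  · exact ⟨k.1, by rw [k.2.1, k.2.2]; simp⟩
  · exact ⟨k.1.symm, by rw [k.2.1, k.2.2]; simp⟩

lemma Z_sg {j : ZMod (2 * (x + y + z))} {i : Fin x} (h : kk j = i) (v : VR x y z) :
    ZZ j v ↔ v = sg i := by
  have h1 := i.isLt
  cases v with
  | en j' => simp [ZZ]
  | sg i' =>
    simp only [ZZ, sg.injEq]
    rw [h]
    exact ⟨fun k => Fin.ext k, fun k => by rw [k]⟩
  | ed i' s =>
    simp only [ZZ, reduceCtorEq, iff_false]
    omega
  | qd i' s u =>
    simp only [ZZ, reduceCtorEq, iff_false]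
    omega

lemma Z_ed {j : ZMod (2 * (x + y + z))} {i : Fin y} (h : kk j = x + i) (v : VR x y z) :
    ZZ j v ↔ ∃ s, v = ed i s := by
  have h1 := i.isLt
  cases v with
  | en j' => simp [ZZ]
  | sg i' =>
    have h2 := i'.isLt
    simp only [ZZ, reduceCtorEq, exists_false, iff_false]
    omega
  | ed i' s =>
    simp only [ZZ, ed.injEq]
    rw [h]
    constructor
    · intro k
      exact ⟨s, Fin.ext (by omega), rfl⟩
    · rintro ⟨_, k, _⟩
      rw [k]
  | qd i' s u =>
    simp only [ZZ, reduceCtorEq, exists_false, iff_false]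
    omega

lemma Z_qd {j : ZMod (2 * (x + y + z))} {i : Fin z} (h : kk j = x + y + i) (v : VR x y z) :
    ZZ j v ↔ ∃ s u, v = qd i s u := by
  have h1 := i.isLt
  cases v with
  | en j' => simp [ZZ]
  | sg i' =>
    have h2 := i'.isLt
    simp only [ZZ, reduceCtorEq, exists_false, iff_false]
    omega
  | ed i' s =>
    have h2 := i'.isLt
    simp only [ZZ, reduceCtorEq, exists_false, iff_false]
    omega
  | qd i' s u =>
    simp only [ZZ, qd.injEq]
    rw [h]
    constructor
    · intro k
      exact ⟨s, u, Fin.ext (by omega), rfl, rfl⟩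
    · rintro ⟨_, _, k, _⟩
      rw [k]

section

variable (hp : 6 ≤ x + y + z)

include hp

lemma side {j : ZMod (2 * (x + y + z))} (s : Bool) : ∃ i, (i = j ∨ i = j +
    ((x + y + z : ℕ) : ZMod (2 * (x + y + z)))) ∧ sd i = s ∧ kk i = kk j := by
  by_cases c : sd j = s
  · exact ⟨j, Or.inl rfl, c, rfl⟩
  · refine ⟨_, Or.inr rfl, ?_, kk_per (by omega) j⟩
    rw [sd_per (by omega)]
    revert c
    cases sd j <;> cases s <;> simp

lemma no_crit_ed {j : ZMod (2 * (x + y + z))} {i : Fin y} (h : kk j = x + i) {a b : VR x y z}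
    (ha : ZZ j a) (hb : ZZ j b) (hab : (gr x y z).Adj a b) : ∃ v, ZZ j v ∧
    ∀ i l, (i = j ∨ i = j + ((x + y + z : ℕ) : ZMod (2 * (x + y + z)))) →
      PathL ((gr x y z).deleteEdges {s(a, b)}) v (tt i) l → (∀ w, w ∈ l ↔ ZZ j w) → False := by
  obtain ⟨s, rfl⟩ := (Z_ed h a).1 ha
  obtain ⟨s', rfl⟩ := (Z_ed h b).1 hb
  have hs := (gr_dd hab).2
  refine ⟨ed i s, ha, ?_⟩
  intro i' l _ hl hZ
  have e1 := hl.leaf ((hZ _).2 hb) (fun k => hs (by
    simp only [ed.injEq] at k
    exact k.2.symm)) (by
    intro w hw hadj
    obtain ⟨s2, rfl⟩ := (Z_ed h w).1 ((hZ w).1 hw)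
    rw [SimpleGraph.deleteEdges_adj] at hadj
    have h3 := (gr_dd hadj.1).2
    have : s2 = s := by
      revert hs h3
      cases s <;> cases s' <;> cases s2 <;> simp
    rw [this])
  have hc := hl.chain
  rw [e1, List.isChain_cons_cons, SimpleGraph.deleteEdges_adj] at hc
  exact hc.1.2 rfl

lemma no_crit_qd {j : ZMod (2 * (x + y + z))} {i : Fin z} (h : kk j = x + y + i) {a b : VR x y z}
    (ha : ZZ j a) (hb : ZZ j b) (hab : (gr x y z).Adj a b) : ∃ v, ZZ j v ∧
    ∀ i l, (i = j ∨ i = j + ((x + y + z : ℕ) : ZMod (2 * (x + y + z)))) →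
      PathL ((gr x y z).deleteEdges {s(a, b)}) v (tt i) l → (∀ w, w ∈ l ↔ ZZ j w) → False := by
  have mem : ∀ s u, ZZ j (qd i s u) := fun s u => (Z_qd h _).2 ⟨s, u, rfl⟩
  -- port and inner vertex
  have key : ∀ s s', ∀ i' l, PathL ((gr x y z).deleteEdges {s(qd i s false, qd i s' true)})
      (qd i (!s') true) (tt i') l → (∀ w, w ∈ l ↔ ZZ j w) → False := by
    intro s s' i' l hl hZ
    have e1 := hl.leaf ((hZ (qd i s false)).2 (mem _ _)) (by simp) (by
      intro w hw hadj
      obtain ⟨s2, u2, rfl⟩ := (Z_qd h w).1 ((hZ w).1 hw)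
      rw [SimpleGraph.deleteEdges_adj] at hadj
      have h3 := (gr_qq hadj.1).2
      have hu : u2 = true := by simpa using h3
      subst hu
      have hs : s2 ≠ s' := by
        rintro rfl
        exact hadj.2 rfl
      have : s2 = !s' := by
        revert hs
        cases s2 <;> cases s' <;> simp
      rw [this])
    have k := (hZ (qd i (!s) false)).2 (mem _ _)
    rw [e1] at k
    simp only [List.mem_cons, qd.injEq, List.not_mem_nil, or_false] at k
    rcases k with k | k
    · simp at k
    · have := k.2.1
      cases s <;> simp at this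
  obtain ⟨s, u, rfl⟩ := (Z_qd h a).1 ha
  obtain ⟨s', u', rfl⟩ := (Z_qd h b).1 hb
  rcases Bool.eq_false_or_eq_true u with hu | hu <;> rcases Bool.eq_false_or_eq_true u' with hu' | hu'
  · -- the two inner vertices
    subst hu hu'
    have hs : s ≠ s' := by
      rintro rfl
      exact SimpleGraph.irrefl _ hab
    have cl : ∀ w, ZZ j w → ∃ s2 u2, w = qd i s2 u2 := fun w hw => (Z_qd h w).1 hw
    refine ⟨qd i false false, mem _ _, ?_⟩
    intro i' l hi' hl hZ
    have alt : ∀ s1 u1 s2 u2, ((gr x y z).deleteEdges {s(qd i s true, qd i s' true)}).Adj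
        (qd i s1 u1) (qd i s2 u2) → u1 ≠ u2 := by
      intro s1 u1 s2 u2 hadj
      rw [SimpleGraph.deleteEdges_adj] at hadj
      rintro rfl
      have h3 := (gr_qq hadj.1).2
      have hu : u1 = true := by simpa using h3
      subst hu
      have hne : s1 ≠ s2 := by
        rintro rfl
        exact SimpleGraph.irrefl _ hadj.1
      apply hadj.2
      rw [Set.mem_singleton_iff, Sym2.eq_iff]
      revert hs hne
      cases s <;> cases s' <;> cases s1 <;> cases s2 <;> simp
    have hlen : l.length = 4 := by
      have e1 : l.toFinset = {qd i false false, qd i false true, qd i true false,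
          qd i true true} := by
        ext w
        rw [List.mem_toFinset, hZ, Z_qd h]
        simp only [Finset.mem_insert, Finset.mem_singleton]
        constructor
        · rintro ⟨s2, u2, rfl⟩
          cases s2 <;> cases u2 <;> simp
        · rintro (rfl | rfl | rfl | rfl)
          · exact ⟨_, _, rfl⟩
          · exact ⟨_, _, rfl⟩
          · exact ⟨_, _, rfl⟩
          · exact ⟨_, _, rfl⟩
      rw [← List.toFinset_card_of_nodup hl.nodup, e1]
      rw [Finset.card_insert_of_notMem (by simp), Finset.card_insert_of_notMem (by simp),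
        Finset.card_insert_of_notMem (by simp), Finset.card_singleton]
    have hend : ∃ s3, tt i' = qd i s3 false := by
      have hk : kk i' = x + y + i := by
        rcases hi' with rfl | rfl
        · exact h
        · rw [kk_per (by omega), h]
      exact ⟨_, tt_qd hk⟩
    obtain ⟨s3, hs3⟩ := hend
    rw [hs3] at hl
    match l, hlen with
    | [w1, w2, w3, w4], _ =>
      have e1 : w1 = qd i false false := by simpa using hl.head
      have e4 : w4 = qd i s3 false := by simpa using hl.last
      have hc := hl.chain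
      rw [List.isChain_cons_cons, List.isChain_cons_cons, List.isChain_cons_cons] at hc
      obtain ⟨s2, u2, rfl⟩ := cl w2 ((hZ _).1 (by simp))
      obtain ⟨s4, u4, rfl⟩ := cl w3 ((hZ _).1 (by simp))
      subst e1 e4
      have a1 := alt _ _ _ _ hc.1
      have a2 := alt _ _ _ _ hc.2.1
      have a3 := alt _ _ _ _ hc.2.2.1
      revert a1 a2 a3
      cases u2 <;> cases u4 <;> simp
  · subst hu hu'
    refine ⟨qd i (!s) true, mem _ _, ?_⟩
    intro i' l _ hl hZ
    rw [Sym2.eq_swap] at hl
    exact key s' s i' l hl hZ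
  · subst hu hu'
    exact ⟨qd i (!s') true, mem _ _, fun i' l _ hl hZ => key s s' i' l hl hZ⟩
  · exfalso
    have := (gr_qq hab).2
    rw [hu, hu'] at this
    simp at this

theorem ring_gr : Ring (gr x y z) (x + y + z) en tt ZZ := by
  have h0 : 0 < x + y + z := by omega
  have : NeZero (2 * (x + y + z)) := ⟨by omega⟩
  have pp' := Ring.pp (x + y + z)
  refine ⟨hp, fun i j k => by simpa using k, ?_, ?_, ?_, ?_, ZZ_tt h0, ?_, ?_, ?_, ?_, ?_, ?_, ?_⟩
  · intro j v
    cases v with
    | en j' => exact Iff.rfl
    | sg i => simp only [ZZ, kk_per h0]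
    | ed i s => simp only [ZZ, kk_per h0]
    | qd i s u => simp only [ZZ, kk_per h0]
  · intro i j v hi hj
    apply kk_inj h0
    cases v with
    | en j' => exact absurd hi (by simp [ZZ])
    | sg i => exact hi.symm.trans hj
    | ed i s => exact hi.symm.trans hj
    | qd i s u => exact hi.symm.trans hj
  · intro i j k
    exact k
  · intro v
    cases v with
    | en j => exact Or.inl ⟨j, rfl⟩
    | sg i =>
      right
      refine ⟨((i : ℕ) : ZMod (2 * (x + y + z))), ?_⟩
      show (i : ℕ) = _
      rw [kk_cast h0 (by omega)]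
    | ed i s =>
      right
      refine ⟨((x + i : ℕ) : ZMod (2 * (x + y + z))), ?_⟩
      show x + (i : ℕ) = _
      rw [kk_cast h0 (by omega)]
    | qd i s u =>
      right
      refine ⟨((x + y + i : ℕ) : ZMod (2 * (x + y + z))), ?_⟩
      show x + y + (i : ℕ) = _
      rw [kk_cast h0 (by omega)]
  · intro j
    refine gr_adj.2 ⟨?_, Or.inl rfl⟩
    intro k
    have k' : j = j + ((x + y + z : ℕ) : ZMod (2 * (x + y + z))) + 1 := by simpa using k
    have k2 : ((x + y + z + 1 : ℕ) : ZMod (2 * (x + y + z))) = ((0 : ℕ) : ZMod _) := by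
      have e1 : ((x + y + z + 1 : ℕ) : ZMod (2 * (x + y + z))) =
          j + ((x + y + z : ℕ) : ZMod (2 * (x + y + z))) + 1 - j := by
        rw [Nat.cast_add (x + y + z) 1]
        push_cast
        ring
      rw [e1, ← k', sub_self, Nat.cast_zero]
    have := MPd41ace.cast_inj (by omega) (by omega) k2
    omega
  · intro j
    have hz := ZZ_tt h0 j
    refine gr_adj.2 ⟨?_, Or.inl ?_⟩
    · intro k
      rw [← k] at hz
      exact hz
    · revert hz
      generalize hv : tt j = v
      intro hz
      cases v with
      | en j' => exact hz.elim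
      | sg i => exact hv.symm
      | ed i s => exact hv.symm
      | qd i s u => exact hv.symm
  · intro j v hv
    have h3 := gr_adj.1 hv
    cases v with
    | en j' =>
      right
      rcases gr_ee hv with k | k
      · left
        rw [k]
      · right
        have : j' = j + ((x + y + z : ℕ) : ZMod (2 * (x + y + z))) - 1 := by
          rw [k]
          have : j' + ((x + y + z : ℕ) : ZMod (2 * (x + y + z))) + 1
              + ((x + y + z : ℕ) : ZMod (2 * (x + y + z))) - 1 = j' +
              (((x + y + z : ℕ) : ZMod (2 * (x + y + z))) +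
              ((x + y + z : ℕ) : ZMod (2 * (x + y + z)))) := by ring
          rw [this, pp', add_zero]
        rw [this]
    | sg i => exact Or.inl (h3.2.resolve_right (fun k => k))
    | ed i s => exact Or.inl (h3.2.resolve_right (fun k => k))
    | qd i s u => exact Or.inl (h3.2.resolve_right (fun k => k))
  · intro j v w hv hvw
    have h3 := (gr_adj.1 hvw).2
    have port : ∀ j', w = en j' → rr (en j') v → ZZ j w ∨ ∃ i,
        (i = j ∨ i = j + ((x + y + z : ℕ) : ZMod (2 * (x + y + z)))) ∧ v = tt i ∧ w = en i := by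
      intro j' hw hr
      have hvt : v = tt j' := by
        cases v with
        | en _ => exact hv.elim
        | sg i => exact hr
        | ed i s => exact hr
        | qd i s u => exact hr
      right
      refine ⟨j', ?_, hvt, hw⟩
      have hz := ZZ_tt h0 j'
      rw [← hvt] at hz
      apply kk_inj h0
      cases v with
      | en _ => exact hv.elim
      | sg i => exact hz.symm.trans hv
      | ed i s => exact hz.symm.trans hv
      | qd i s u => exact hz.symm.trans hv
    cases w with
    | en j' =>
      rcases h3 with k | k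
      · exfalso
        cases v with
        | en _ => exact hv.elim
        | sg i => exact k
        | ed i s => exact k
        | qd i s u => exact k
      · exact port j' rfl k
    | sg i =>
      exfalso
      cases v with
      | en _ => exact hv.elim
      | sg i => exact h3.elim id id
      | ed i s => exact h3.elim id id
      | qd i s u => exact h3.elim id id
    | ed i s =>
      cases v with
      | en _ => exact hv.elim
      | sg i => exact (h3.elim id id).elim
      | ed i' s' =>
        left
        have := (gr_dd hvw).1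
        subst this
        exact hv
      | qd i s u => exact (h3.elim id id).elim
    | qd i s u =>
      cases v with
      | en _ => exact hv.elim
      | sg i => exact (h3.elim id id).elim
      | ed i s => exact (h3.elim id id).elim
      | qd i' s' u' =>
        left
        have := (gr_qq hvw).1
        subst this
        exact hv
  · intro j
    rcases kcases h0 j with ⟨i, hi⟩ | ⟨i, hi⟩ | ⟨i, hi⟩
    · refine ⟨[sg i], ?_, fun v => ?_⟩
      · rw [tt_sg hi, tt_sg (by rw [kk_per h0, hi])]
        exact PathL.single _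
      · rw [List.mem_singleton, Z_sg hi]
    · refine ⟨[ed i (sd j), ed i (!sd j)], ?_, fun v => ?_⟩
      · rw [tt_ed hi, tt_ed (i := i) (by rw [kk_per h0, hi]), sd_per h0]
        refine (PathL.single _).cons (gr_d i _) ?_
        rw [List.mem_singleton]
        simp
      · rw [Z_ed hi]
        simp only [List.mem_cons, List.not_mem_nil, or_false]
        constructor
        · rintro (k | k)
          · exact ⟨_, k⟩
          · exact ⟨_, k⟩
        · rintro ⟨s, rfl⟩
          cases s <;> cases sd j <;> simp
    · refine ⟨[qd i (sd j) false, qd i (sd j) true, qd i (!sd j) true, qd i (!sd j) false], ?_,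
        fun v => ?_⟩
      · rw [tt_qd hi, tt_qd (i := i) (by rw [kk_per h0, hi]), sd_per h0]
        refine (((PathL.single _).cons (gr_q1 i _ _).symm ?_).cons (gr_q2 i _) ?_).cons
          (gr_q1 i _ _) ?_
        · simp
        · simp
        · simp
      · rw [Z_qd hi]
        simp only [List.mem_cons, List.not_mem_nil, or_false]
        constructor
        · rintro (k | k | k | k)
          · exact ⟨_, _, k⟩
          · exact ⟨_, _, k⟩
          · exact ⟨_, _, k⟩
          · exact ⟨_, _, k⟩
        · rintro ⟨s, u, rfl⟩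
          cases s <;> cases u <;> cases sd j <;> simp
  · intro j v hv
    rcases kcases h0 j with ⟨i, hi⟩ | ⟨i, hi⟩ | ⟨i, hi⟩
    · have e := (Z_sg hi v).1 hv
      subst e
      refine ⟨j, [sg i], Or.inl rfl, ?_, fun v => ?_⟩
      · rw [tt_sg hi]
        exact PathL.single _
      · rw [List.mem_singleton, Z_sg hi]
    · obtain ⟨s, rfl⟩ := (Z_ed hi v).1 hv
      obtain ⟨i', hi', h4, h5⟩ := side hp (j := j) (!s)
      refine ⟨i', [ed i s, ed i (!s)], hi', ?_, fun v => ?_⟩
      · rw [tt_ed (i := i) (by rw [h5, hi]), h4]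
        refine (PathL.single _).cons (gr_d i _) ?_
        rw [List.mem_singleton]
        simp
      · rw [Z_ed hi]
        simp only [List.mem_cons, List.not_mem_nil, or_false]
        constructor
        · rintro (k | k)
          · exact ⟨_, k⟩
          · exact ⟨_, k⟩
        · rintro ⟨s', rfl⟩
          cases s <;> cases s' <;> simp
    · obtain ⟨s, u, rfl⟩ := (Z_qd hi v).1 hv
      obtain ⟨i', hi', h4, h5⟩ := side hp (j := j) (!s)
      cases u with
      | false =>
        refine ⟨i', [qd i s false, qd i s true, qd i (!s) true, qd i (!s) false], hi', ?_,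
          fun v => ?_⟩
        · rw [tt_qd (i := i) (by rw [h5, hi]), h4]
          refine (((PathL.single _).cons (gr_q1 i _ _).symm ?_).cons (gr_q2 i _) ?_).cons
            (gr_q1 i _ _) ?_
          · simp
          · simp
          · simp
        · rw [Z_qd hi]
          simp only [List.mem_cons, List.not_mem_nil, or_false]
          constructor
          · rintro (k | k | k | k)
            · exact ⟨_, _, k⟩
            · exact ⟨_, _, k⟩
            · exact ⟨_, _, k⟩
            · exact ⟨_, _, k⟩
          · rintro ⟨s', u', rfl⟩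
            cases s <;> cases s' <;> cases u' <;> simp
      | true =>
        refine ⟨i', [qd i s true, qd i s false, qd i (!s) true, qd i (!s) false], hi', ?_,
          fun v => ?_⟩
        · rw [tt_qd (i := i) (by rw [h5, hi]), h4]
          refine (((PathL.single _).cons (gr_q1 i _ _).symm ?_).cons (gr_q1 i _ _) ?_).cons
            (gr_q1 i _ _).symm ?_
          · simp
          · simp
          · simp
        · rw [Z_qd hi]
          simp only [List.mem_cons, List.not_mem_nil, or_false]
          constructor
          · rintro (k | k | k | k)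
            · exact ⟨_, _, k⟩
            · exact ⟨_, _, k⟩
            · exact ⟨_, _, k⟩
            · exact ⟨_, _, k⟩
          · rintro ⟨s', u', rfl⟩
            cases s <;> cases s' <;> cases u' <;> simp
  · intro j a b ha hb hab
    rcases kcases h0 j with ⟨i, hi⟩ | ⟨i, hi⟩ | ⟨i, hi⟩
    · exfalso
      rw [Z_sg hi] at ha hb
      rw [ha, hb] at hab
      exact SimpleGraph.irrefl _ hab
    · exact no_crit_ed hp hi ha hb hab
    · exact no_crit_qd hp hi ha hb hab

end

end MPd41ace
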