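import Pool.Agent.Lib.MP_d41ace_co.RingF

/-!
Order and size of the graphs; sizes between `9 (n - 1) / 4` and `5 (n - 2) / 2`.
-/

set_option autoImplicit false

namespace MPd41ace

open SimpleGraph VR

variable {x y z : ℕ}

section

variable (hp : 6 ≤ x + y + z)

include hp

lemma rr_asymm (a b : VR x y z) (h : rr a b) : a ≠ b ∧ ¬ rr b a := by
  have h0 : 0 < x + y + z := by omega
  have : NeZero (2 * (x + y + z)) := ⟨by omega⟩
  have pp' := Ring.pp (x + y + z)
  have H := ring_gr hp
  cases a with
  | en j =>
    cases b with
    | en j' =>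
      have k : j' = j + ((x + y + z : ℕ) : ZMod (2 * (x + y + z))) + 1 := h
      constructor
      · intro e
        have := (H.link j).ne
        rw [← k] at this
        exact this e
      · intro q
        have k2 : j = j' + ((x + y + z : ℕ) : ZMod (2 * (x + y + z))) + 1 := q
        have k3 : j = j + (2 : ℕ) := by
          have e : j' + ((x + y + z : ℕ) : ZMod (2 * (x + y + z))) + 1 = j + (2 : ℕ) := by
            rw [k]
            have : j + ((x + y + z : ℕ) : ZMod (2 * (x + y + z))) + 1
                + ((x + y + z : ℕ) : ZMod (2 * (x + y + z))) + 1 = j + (2 : ℕ) +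
                (((x + y + z : ℕ) : ZMod (2 * (x + y + z))) +
                ((x + y + z : ℕ) : ZMod (2 * (x + y + z)))) := by
              push_cast
              ring
            rw [this, pp', add_zero]
          rw [← e]
          exact k2
        have k4 := H.ene j (a := 2) (b := 0) (by omega) (by omega) (by omega)
        rw [Nat.cast_zero, add_zero, ← k3] at k4
        exact k4 rfl
    | sg i => exact ⟨by simp, fun q => q⟩
    | ed i s => exact ⟨by simp, fun q => q⟩
    | qd i s u => exact ⟨by simp, fun q => q⟩
  | sg i => cases b <;> exact absurd h (fun q => q)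
  | ed i s =>
    cases b with
    | en j => exact absurd h (fun q => q)
    | sg i => exact absurd h (fun q => q)
    | ed i' s' =>
      obtain ⟨h1, h2, h3⟩ := h
      subst h1 h2 h3
      refine ⟨by simp, ?_⟩
      rintro ⟨_, q, _⟩
      simp at q
    | qd i s u => exact absurd h (fun q => q)
  | qd i s u =>
    cases b with
    | en j => exact absurd h (fun q => q)
    | sg i => exact absurd h (fun q => q)
    | ed i' s' => exact absurd h (fun q => q)
    | qd i' s' u' =>
      obtain ⟨h1, h2, h3⟩ := h
      subst h1 h2
      rcases h3 with h3 | ⟨h3, h4⟩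
      · subst h3
        refine ⟨by simp, ?_⟩
        rintro ⟨_, q, _⟩
        simp at q
      · subst h3 h4
        refine ⟨by simp, ?_⟩
        rintro ⟨_, q, k | ⟨k, k'⟩⟩
        · simp at k
        · simp at k

/-- the list of edges -/
def FF (x y z : ℕ) : (ZMod (2 * (x + y + z)) ⊕ ZMod (2 * (x + y + z))) ⊕
    (Fin y ⊕ ((Fin z × Bool × Bool) ⊕ Fin z)) → VR x y z × VR x y z
  | .inl (.inl j) => (en j, en (j + ((x + y + z : ℕ) : ZMod (2 * (x + y + z))) + 1))
  | .inl (.inr j) => (en j, tt j)
  | .inr (.inl i) => (ed i false, ed i true)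
  | .inr (.inr (.inl (i, s, s'))) => (qd i s false, qd i s' true)
  | .inr (.inr (.inr i)) => (qd i false true, qd i true true)

lemma card_rr : {q : VR x y z × VR x y z | rr q.1 q.2}.ncard = 4 * (x + y + z) + y + 5 * z := by
  have h0 : 0 < x + y + z := by omega
  have : NeZero (2 * (x + y + z)) := ⟨by omega⟩
  have H := ring_gr hp
  have e1 : {q : VR x y z × VR x y z | rr q.1 q.2} = Set.range (FF x y z) := by
    ext ⟨a, b⟩
    rw [Set.mem_range]
    constructor
    · intro h
      have h' : rr a b := h
      cases a with
      | en j =>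
        cases b with
        | en j' =>
          have k : j' = j + ((x + y + z : ℕ) : ZMod (2 * (x + y + z))) + 1 := h'
          exact ⟨.inl (.inl j), by rw [k]; rfl⟩
        | sg i => exact ⟨.inl (.inr j), by rw [show sg i = tt j from h']; rfl⟩
        | ed i s => exact ⟨.inl (.inr j), by rw [show ed i s = tt j from h']; rfl⟩
        | qd i s u => exact ⟨.inl (.inr j), by rw [show qd i s u = tt j from h']; rfl⟩
      | sg i => cases b <;> exact absurd h' (fun q => q)
      | ed i s =>
        cases b with
        | en j => exact absurd h' (fun q => q)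
        | sg i => exact absurd h' (fun q => q)
        | ed i' s' =>
          obtain ⟨h1, h2, h3⟩ := h'
          subst h1 h2 h3
          exact ⟨.inr (.inl i), rfl⟩
        | qd i s u => exact absurd h' (fun q => q)
      | qd i s u =>
        cases b with
        | en j => exact absurd h' (fun q => q)
        | sg i => exact absurd h' (fun q => q)
        | ed i' s' => exact absurd h' (fun q => q)
        | qd i' s' u' =>
          obtain ⟨h1, h2, h3⟩ := h'
          subst h1 h2
          cases u with
          | false => exact ⟨.inr (.inr (.inl (i, s, s'))), rfl⟩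
          | true =>
            rcases h3 with h3 | ⟨h3, h4⟩
            · simp at h3
            · subst h3 h4
              exact ⟨.inr (.inr (.inr i)), rfl⟩
    · rintro ⟨q, hq⟩
      rw [← hq]
      rcases q with (j | j) | (i | (⟨i, s, s'⟩ | i))
      · exact rfl
      · show rr (en j) (tt j)
        have hz := H.tz j
        revert hz
        generalize hv : tt j = v
        intro hz
        cases v with
        | en j' => exact hz.elim
        | sg i => exact hv.symm
        | ed i s => exact hv.symm
        | qd i s u => exact hv.symm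
      · exact ⟨rfl, rfl, rfl⟩
      · exact ⟨rfl, rfl, Or.inl rfl⟩
      · exact ⟨rfl, rfl, Or.inr ⟨rfl, rfl⟩⟩
  have e2 : Function.Injective (FF x y z) := by
    have tn : ∀ i j : ZMod (2 * (x + y + z)), tt j ≠ en i := fun i j => H.tne i j
    rintro ((j | j) | (i | (⟨i, s, s'⟩ | i))) ((j' | j') | (i' | (⟨i', r, r'⟩ | i'))) hh
    · have k := congrArg Prod.fst hh
      simp only [FF, en.injEq] at k
      rw [k]
    · exfalso
      have k := congrArg Prod.snd hh
      exact tn _ _ k.symm
    · exact absurd (congrArg Prod.fst hh) (by simp [FF])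
    · exact absurd (congrArg Prod.fst hh) (by simp [FF])
    · exact absurd (congrArg Prod.fst hh) (by simp [FF])
    · exfalso
      have k := congrArg Prod.snd hh
      exact tn _ _ k
    · have k := congrArg Prod.fst hh
      simp only [FF, en.injEq] at k
      rw [k]
    · exact absurd (congrArg Prod.fst hh) (by simp [FF])
    · exact absurd (congrArg Prod.fst hh) (by simp [FF])
    · exact absurd (congrArg Prod.fst hh) (by simp [FF])
    · exact absurd (congrArg Prod.fst hh) (by simp [FF])
    · exact absurd (congrArg Prod.fst hh) (by simp [FF])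
    · have k := congrArg Prod.fst hh
      simp only [FF, ed.injEq, and_true] at k
      rw [k]
    · exact absurd (congrArg Prod.fst hh) (by simp [FF])
    · exact absurd (congrArg Prod.fst hh) (by simp [FF])
    · exact absurd (congrArg Prod.fst hh) (by simp [FF])
    · exact absurd (congrArg Prod.fst hh) (by simp [FF])
    · exact absurd (congrArg Prod.fst hh) (by simp [FF])
    · have k := congrArg Prod.fst hh
      have k' := congrArg Prod.snd hh
      simp only [FF, qd.injEq, and_true] at k k'
      rw [k.1, k.2, k'.2]
    · exact absurd (congrArg Prod.fst hh) (by simp [FF])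
    · exact absurd (congrArg Prod.fst hh) (by simp [FF])
    · exact absurd (congrArg Prod.fst hh) (by simp [FF])
    · exact absurd (congrArg Prod.fst hh) (by simp [FF])
    · exact absurd (congrArg Prod.fst hh) (by simp [FF])
    · have k := congrArg Prod.fst hh
      simp only [FF, qd.injEq, and_true] at k
      rw [k]
  rw [e1, ← Set.image_univ, Set.ncard_image_of_injective _ e2, Set.ncard_univ,
    Nat.card_eq_fintype_card]
  simp only [Fintype.card_sum, ZMod.card, Fintype.card_fin, Fintype.card_prod, Fintype.card_bool]
  ring

/-- THE PAIRS REALISED BY THE GRAPHS WITH RUNGS -/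
theorem ring_realised : Realised (2 * (x + y + z) + x + (2 * y + 4 * z) + 1)
    (2 * (x + y + z) + x + (2 * y + 4 * z) + (4 * (x + y + z) + y + 5 * z)) := by
  have : NeZero (2 * (x + y + z)) := ⟨by omega⟩
  have hc := VR.card (x := x) (y := y) (z := z)
  refine realised_of (G := cone (gr x y z)) ?_ ((ring_gr hp).isMinPLD hc (by omega)) ?_
  · rw [Fintype.card_option, hc]
  · rw [card_cone hc]
    congr 1
    unfold gr
    rw [card_fromRel (rr_asymm hp), card_rr hp]

end

/-- ALL SIZES FROM `9 (n - 1) / 4` TO `5 (n - 2) / 2` -/
theorem realised_mid {n m : ℕ} (hn : 40 ≤ n) (h1 : 9 * (n - 1) ≤ 4 * m) (h2 : 2 * m < 5 * (n - 2)) :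
    Realised n m := by
  obtain ⟨N, rfl⟩ : ∃ N, n = N + 1 := ⟨n - 1, by omega⟩
  obtain ⟨P, rfl⟩ : ∃ P, m = 2 * N + P := ⟨m - 2 * N, by omega⟩
  rw [Nat.add_sub_cancel] at h1
  obtain ⟨x, y, z, hx, hy⟩ : ∃ x y z, N = 3 * x + 4 * y + 6 * z ∧ P = x + y + 3 * z := by
    rcases le_total (3 * P) N with c | c
    · exact ⟨4 * P - N, N - 3 * P, 0, by omega, by omega⟩
    · exact ⟨N - 2 * P - 2 * (N % 3), N % 3, (3 * P - N + N % 3) / 3, by omega, by omega⟩
  have hp : 6 ≤ x + y + z := by omega
  have := ring_realised hp
  have e1 : 2 * (x + y + z) + x + (2 * y + 4 * z) + 1 = N + 1 := by omega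
  have e2 : 2 * (x + y + z) + x + (2 * y + 4 * z) + (4 * (x + y + z) + y + 5 * z) = 2 * N + P := by
    omega
  rwa [e1, e2] at this

end MPd41ace
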