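import Pool.Agent.Lib.MP_d41ace_co.TwPat3

/-!
Sizes between `5 (n - 2) / 2` and `5 n`.
-/

set_option autoImplicit false

namespace MPd41ace

lemma tw_real {N b a c d e n m : ℕ} (hN : N = 4 + 3 * c + 4 * a + 6 * d + 8 * e) (ha : 2 ≤ a)
    (hb : 0 < b) (hab : b + 1 ≤ a + c) (hn : N + 1 + b = n)
    (hm : 2 * N + b * (2 + 2 * c + 2 * a + 2 * d + 3 * e) + (d + 4 * e) = m) : Realised n m := by
  subst hn hm
  exact tw_realised rfl rfl rfl hN ha hb hab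

lemma low1 {n m : ℕ} (hn : 30 ≤ n) (h1 : 5 * (n - 2) ≤ 2 * m)
    (h2 : 8 * m + 80 ≤ 23 * (n - 2)) : Realised n m := by
  obtain ⟨N, rfl⟩ : ∃ N, n = N + 2 := ⟨n - 2, by omega⟩
  obtain ⟨T, rfl⟩ : ∃ T, m = 2 * N + T := ⟨m - 2 * N, by omega⟩
  rw [Nat.add_sub_cancel] at h1 h2
  obtain ⟨e, he1, he2⟩ : ∃ e, 6 * e ≤ 2 * T - N ∧ 2 * T - N < 6 * e + 6 :=
    ⟨(2 * T - N) / 6, by omega, by omega⟩
  obtain ⟨k, hk1, hk2⟩ : ∃ k, 2 * k + 7 * e ≤ T ∧ T < 2 * k + 7 * e + 2 :=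
    ⟨(T - 7 * e) / 2, by omega, by omega⟩
  refine tw_real (N := N) (b := 1) (a := 3 * k + N + 13 * e - 1 - 3 * T) (c := 2 * T - N - 6 * e)
    (d := T - 2 * k - 7 * e) (e := e) ?_ ?_ ?_ ?_ ?_ ?_ <;> omega

lemma low2 {n m : ℕ} (hn : 60 ≤ n) (h1 : 17 * n ≤ 6 * m + 12)
    (h2 : 3 * m + 80 ≤ 10 * n) : Realised n m := by
  obtain ⟨N, rfl⟩ : ∃ N, n = N + 3 := ⟨n - 3, by omega⟩
  obtain ⟨T, rfl⟩ : ∃ T, m = 2 * N + T := ⟨m - 2 * N, by omega⟩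
  obtain ⟨k, hk1, hk2, hk3, hk4⟩ : ∃ k, 4 * k ≤ T ∧ 4 * k + N ≤ 2 * T ∧ 3 * T + 3 ≤ 9 * k + N ∧
      T + 4 ≤ 5 * k := by
    rcases le_total T N with c | c
    · exact ⟨(2 * T - N) / 4, by omega, by omega, by omega, by omega⟩
    · exact ⟨T / 4, by omega, by omega, by omega, by omega⟩
  refine tw_real (N := N) (b := 2) (a := 9 * k + N - 1 - 3 * T) (c := 2 * T - N - 4 * k)
    (d := T - 4 * k) (e := 0) ?_ ?_ ?_ ?_ ?_ ?_ <;> omega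

lemma low3 {n m : ℕ} (hn : 60 ≤ n) (h1 : 19 * n + 60 ≤ 6 * m)
    (h2 : m + 50 ≤ 4 * n) : Realised n m := by
  obtain ⟨N, rfl⟩ : ∃ N, n = N + 4 := ⟨n - 4, by omega⟩
  obtain ⟨T, rfl⟩ : ∃ T, m = 2 * N + T := ⟨m - 2 * N, by omega⟩
  obtain ⟨k, hk1, hk2, hk3, hk4⟩ : ∃ k, 6 * k ≤ T ∧ 8 * k + N ≤ 2 * T ∧ 3 * T + 3 ≤ 15 * k + N ∧
      T + 5 ≤ 7 * k := by
    rcases le_total (2 * T) (3 * N) with c | c
    · exact ⟨(2 * T - N) / 8, by omega, by omega, by omega, by omega⟩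
    · exact ⟨T / 6, by omega, by omega, by omega, by omega⟩
  refine tw_real (N := N) (b := 3) (a := 15 * k + N - 1 - 3 * T) (c := 2 * T - N - 8 * k)
    (d := T - 6 * k) (e := 0) ?_ ?_ ?_ ?_ ?_ ?_ <;> omega

lemma low4 {n m : ℕ} (hn : 60 ≤ n) (h1 : 21 * n + 170 ≤ 6 * m)
    (h2 : 3 * m + 245 ≤ 14 * n) : Realised n m := by
  obtain ⟨N, rfl⟩ : ∃ N, n = N + 5 := ⟨n - 5, by omega⟩
  obtain ⟨T, rfl⟩ : ∃ T, m = 2 * N + T := ⟨m - 2 * N, by omega⟩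
  obtain ⟨k, hk1, hk2, hk3, hk4⟩ : ∃ k, 8 * k ≤ T ∧ 12 * k + N ≤ 2 * T ∧ 3 * T + 3 ≤ 21 * k + N ∧
      T + 6 ≤ 9 * k := by
    rcases le_total T (2 * N) with c | c
    · exact ⟨(2 * T - N) / 12, by omega, by omega, by omega, by omega⟩
    · exact ⟨T / 8, by omega, by omega, by omega, by omega⟩
  refine tw_real (N := N) (b := 4) (a := 21 * k + N - 1 - 3 * T) (c := 2 * T - N - 12 * k)
    (d := T - 8 * k) (e := 0) ?_ ?_ ?_ ?_ ?_ ?_ <;> omega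

lemma low5 {n m : ℕ} (hn : 60 ≤ n) (h1 : 23 * n + 320 ≤ 6 * m)
    (h2 : 3 * m + 370 ≤ 16 * n) : Realised n m := by
  obtain ⟨N, rfl⟩ : ∃ N, n = N + 6 := ⟨n - 6, by omega⟩
  obtain ⟨T, rfl⟩ : ∃ T, m = 2 * N + T := ⟨m - 2 * N, by omega⟩
  obtain ⟨k, hk1, hk2, hk3, hk4⟩ : ∃ k, 10 * k ≤ T ∧ 16 * k + N ≤ 2 * T ∧
      3 * T + 3 ≤ 27 * k + N ∧ T + 7 ≤ 11 * k := by
    rcases le_total (2 * T) (5 * N) with c | c
    · exact ⟨(2 * T - N) / 16, by omega, by omega, by omega, by omega⟩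
    · exact ⟨T / 10, by omega, by omega, by omega, by omega⟩
  refine tw_real (N := N) (b := 5) (a := 27 * k + N - 1 - 3 * T) (c := 2 * T - N - 16 * k)
    (d := T - 10 * k) (e := 0) ?_ ?_ ?_ ?_ ?_ ?_ <;> omega

/-- ALL SIZES FROM `5 (n - 2) / 2` TO `5 n` -/
theorem realised_low {n m : ℕ} (hn : 370 ≤ n) (h1 : 5 * (n - 2) ≤ 2 * m) (h2 : m ≤ 5 * n) :
    Realised n m := by
  by_cases c1 : 8 * m + 80 ≤ 23 * (n - 2)
  · exact low1 (by omega) h1 c1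
  by_cases c2 : 3 * m + 80 ≤ 10 * n
  · exact low2 (by omega) (by omega) c2
  by_cases c3 : m + 50 ≤ 4 * n
  · exact low3 (by omega) (by omega) c3
  by_cases c4 : 3 * m + 245 ≤ 14 * n
  · exact low4 (by omega) (by omega) c4
  · exact low5 (by omega) (by omega) (by omega)

end MPd41ace
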