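import Pool.Agent.Lib.MP_d41ace_co.RingG
import Pool.Agent.Lib.MP_d41ace_co.TwLow
import Pool.Agent.Lib.MP_d41ace_co.Interval2
import Pool.Agent.Lib.MP_d41ace_co.Gap2

/-!
All sizes up to `n ^ 2 / 4 - 12 n`.
-/

set_option autoImplicit false

namespace MPd41ace

open SimpleGraph

/-! ### The wheel -/

/-- a cycle -/
def cyc (N : ℕ) : SimpleGraph (ZMod N) := SimpleGraph.fromRel fun i j => j = i + 1

lemma wheel_realised {N : ℕ} (hN : 3 ≤ N) : Realised (N + 1) (2 * N) := by
  have : NeZero N := ⟨by omega⟩
  have one_ne : (1 : ZMod N) ≠ 0 := by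
    intro e
    have := MPd41ace.cast_inj (N := N) (s := 1) (t := 0) (by omega) (by omega) (by simpa using e)
    omega
  have two_ne : (2 : ZMod N) ≠ 0 := by
    intro e
    have := MPd41ace.cast_inj (N := N) (s := 2) (t := 0) (by omega) (by omega) (by simpa using e)
    omega
  have hc : Fintype.card (Option (ZMod N)) = N + 1 := by
    rw [Fintype.card_option, ZMod.card]
  have hadj : ∀ i : ZMod N, (cyc N).Adj i (i + 1) := by
    intro i
    unfold cyc
    rw [SimpleGraph.fromRel_adj]
    exact ⟨fun e => one_ne (left_eq_add.1 e), Or.inl rfl⟩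
  have hadj' : ∀ {i j : ZMod N}, (cyc N).Adj i j → j = i + 1 ∨ j = i - 1 := by
    intro i j h
    unfold cyc at h
    rw [SimpleGraph.fromRel_adj] at h
    rcases h.2 with e | e
    · exact Or.inl e
    · right
      rw [e]
      ring
  have hW : Whl (cone (cyc N)) N some none :=
    ⟨Option.some_injective _, fun i => by simp, fun i => hadj i, fun i => trivial⟩
  have hall : ∀ v, v ∈ WS (some : ZMod N → Option (ZMod N)) none := by
    rintro (_ | i)
    · exact Set.mem_insert _ _
    · exact Set.mem_insert_of_mem _ ⟨i, rfl⟩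
  have hP : IsPLD (cone (cyc N)) (N + 1) := by
    intro j h3 hj
    rw [hasP_iff]
    intro u v huv
    obtain ⟨l, h1, h2, _⟩ := hW.paths (hall u) (hall v) huv h3 hj
    exact ⟨l, h1, h2⟩
  have hd : ∀ (i : ZMod N) (d : Option (ZMod N)), (cone (cyc N)).Adj (some i) d →
      d = some (i + 1) ∨ d = some (i - 1) ∨ d = none := by
    rintro i (_ | j) h
    · exact Or.inr (Or.inr rfl)
    · rcases hadj' (cone_ss.1 h) with e | e
      · exact Or.inl (by rw [e])
      · exact Or.inr (Or.inl (by rw [e]))
  refine realised_of (G := cone (cyc N)) hc ⟨hP, ?_⟩ ?_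
  · intro e he
    induction e using Sym2.ind with
    | _ a c =>
      rw [SimpleGraph.mem_edgeSet] at he
      rcases a with _ | i
      · rcases c with _ | j
        · exact absurd he (SimpleGraph.irrefl _)
        · rw [Sym2.eq_swap]
          exact needed_deg hc (by omega) (hd j) (Or.inr (Or.inr rfl))
      · exact needed_deg hc (by omega) (hd i) (hd i c he)
  · rw [card_cone (ZMod.card N)]
    have h1 : (cyc N).edgeSet.ncard = N := by
      unfold cyc
      rw [card_fromRel (by
        rintro a b rfl
        refine ⟨fun e => one_ne (left_eq_add.1 e), fun e => two_ne ?_⟩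
        have e3 : (2 : ZMod N) = a + 1 + 1 - a := by ring
        rw [e3, ← e, sub_self])]
      have e1 : {p : ZMod N × ZMod N | p.2 = p.1 + 1} = Set.range fun i : ZMod N => (i, i + 1) := by
        ext ⟨i, j⟩
        rw [Set.mem_range]
        constructor
        · intro h
          exact ⟨i, by rw [show j = i + 1 from h]⟩
        · rintro ⟨k, hk⟩
          have k1 : k = i := (Prod.ext_iff.1 hk).1
          have k2 : k + 1 = j := (Prod.ext_iff.1 hk).2
          show j = i + 1
          rw [← k1, k2]
      rw [e1, ← Set.image_univ, Set.ncard_image_of_injective, Set.ncard_univ,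
        Nat.card_eq_fintype_card, ZMod.card]
      intro i j h
      exact (Prod.ext_iff.1 h).1
    rw [h1]
    ring

/-! ### At least `2 (n - 1)` edges -/

open scoped Classical in
theorem lower_bound {V : Type*} [Fintype V] {G : SimpleGraph V} {n : ℕ} (h : IsPLD G n)
    (hc : Fintype.card V = n) (hn : 32 ≤ n) : 2 * (n - 1) ≤ G.edgeFinset.card := by
  by_contra hcon
  rw [not_le] at hcon
  have : Nonempty V := by
    rw [← Fintype.card_pos_iff]
    omega
  obtain ⟨c, _, hcmax⟩ := Finset.exists_max_image (Finset.univ : Finset V) (fun v => G.degree v)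
    Finset.univ_nonempty
  set K : Finset V := Finset.univ.filter fun v => v ≠ c ∧ ¬ G.Adj c v with hK
  have hdis : Disjoint (G.neighborFinset c) K := by
    rw [Finset.disjoint_left]
    intro y hy hy'
    rw [SimpleGraph.mem_neighborFinset] at hy
    exact (Finset.mem_filter.1 hy').2.2 hy
  have hnot : c ∉ G.neighborFinset c ∪ K := by
    rw [Finset.mem_union, SimpleGraph.mem_neighborFinset, hK, Finset.mem_filter]
    rintro (k | k)
    · exact G.irrefl k
    · exact k.2.1 rfl
  have e : insert c (G.neighborFinset c ∪ K) = Finset.univ := by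
    ext y
    simp only [Finset.mem_insert, Finset.mem_union, SimpleGraph.mem_neighborFinset, hK,
      Finset.mem_filter, Finset.mem_univ, true_and, iff_true]
    tauto
  have hsum : G.degree c + K.card + 1 = n := by
    rw [← SimpleGraph.card_neighborFinset_eq_degree]
    have k1 := congrArg Finset.card e
    rw [Finset.card_insert_of_notMem hnot, Finset.card_union_of_disjoint hdis, Finset.card_univ,
      hc] at k1
    exact k1
  have e1 : ∑ v ∈ insert c (G.neighborFinset c ∪ K), G.degree v ≤ ∑ v, G.degree v :=
    Finset.sum_le_sum_of_subset (Finset.subset_univ _)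
  rw [Finset.sum_insert hnot, Finset.sum_union hdis] at e1
  have e2 : G.degree c * 3 ≤ ∑ v ∈ G.neighborFinset c, G.degree v := by
    have := Finset.card_nsmul_le_sum (G.neighborFinset c) (fun v => G.degree v) 3
      fun v _ => three_le_degree h hc (by omega) v
    rwa [SimpleGraph.card_neighborFinset_eq_degree, smul_eq_mul] at this
  have e0 := G.sum_degrees_eq_twice_card_edges
  rcases K.eq_empty_or_nonempty with hK0 | hKn
  · have : K.card = 0 := by rw [hK0, Finset.card_empty]
    omega
  · obtain ⟨x, hx, hxmin⟩ := Finset.exists_min_image K (fun v => G.degree v) hKn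
    have hx' := (Finset.mem_filter.1 hx).2
    have k1 := delta_bound h hc (by omega) (D := G.degree c) fun v => hcmax v (Finset.mem_univ _)
    have k2 := count_main h hc (by omega) hx'.1.symm hx'.2
    have k3 := count_two h hc (by omega) hx'.1.symm hx'.2
    have k4 : G.degree c + K.card * G.degree x + 3 * G.degree c ≤ 2 * G.edgeFinset.card := by
      have e3 : K.card * G.degree x ≤ ∑ v ∈ K, G.degree v := by
        have := Finset.card_nsmul_le_sum K (fun v => G.degree v) (G.degree x)
          fun v hv => hxmin v hv
        rwa [smul_eq_mul] at this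
      omega
    exact arith hn hsum (Finset.card_pos.2 hKn) (by omega) k1 k2 k3 k4

theorem not_realised_lt {n m : ℕ} (hn : 32 ≤ n) (h1 : m < 2 * (n - 1)) : ¬ Realised n m := by
  classical
  rintro ⟨G, hG, hm⟩
  have e := lower_bound hG.1 (Fintype.card_fin n) hn
  rw [Set.ncard_eq_toFinset_card', ← SimpleGraph.edgeFinset] at hm
  omega

/-- THE SIZES UP TO `n ^ 2 / 4 - 12 n` -/
theorem spectrum {n m : ℕ} (hn : 370 ≤ n) (hm : 4 * m + 48 * n ≤ n ^ 2) :
    Realised n m ↔ m = 2 * (n - 1) ∨ 9 * (n - 1) ≤ 4 * m := by
  constructor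
  · intro h
    by_contra hcon
    rw [not_or, not_le] at hcon
    rcases Nat.lt_or_ge m (2 * (n - 1)) with c | c
    · exact not_realised_lt (by omega) c h
    · exact not_realised (by omega) (by omega) hcon.2 h
  · rintro (rfl | h)
    · obtain ⟨N, rfl⟩ : ∃ N, n = N + 1 := ⟨n - 1, by omega⟩
      rw [Nat.add_sub_cancel]
      exact wheel_realised (by omega)
    · by_cases c1 : 2 * m < 5 * (n - 2)
      · exact realised_mid (by omega) h c1
      · by_cases c2 : m ≤ 5 * n
        · exact realised_low hn (by omega) c2
        · exact realised_interval2 (by omega) (by omega) hm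

end MPd41ace
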