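import Pool.Agent.Lib.MP_d41ace_co.Base
import Pool.Agent.Lib.MP_d41ace_co.Count

/-!
A wheel with chords and twins, all joined to the same part of the rim.
-/

set_option autoImplicit false

namespace MPd41ace

open SimpleGraph

variable {N b : ℕ} {S : ZMod N → Prop} {C : ZMod N → ZMod N → Prop}

/-- adjacency on the rim -/
def nb (C : ZMod N → ZMod N → Prop) (i j : ZMod N) : Prop :=
  i ≠ j ∧ (j = i + 1 ∨ i = j + 1 ∨ C i j ∨ C j i)

lemma nb_symm {i j : ZMod N} (h : nb C i j) : nb C j i := by
  refine ⟨h.1.symm, ?_⟩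
  rcases h.2 with k | k | k | k
  · exact Or.inr (Or.inl k)
  · exact Or.inl k
  · exact Or.inr (Or.inr (Or.inr k))
  · exact Or.inr (Or.inr (Or.inl k))

/-- `i` is the only neighbour of `k` in `S` -/
def uq (S : ZMod N → Prop) (C : ZMod N → ZMod N → Prop) (k i : ZMod N) : Prop :=
  nb C k i ∧ S i ∧ ∀ j, nb C k j → S j → j = i

/-- `i` has degree three -/
def pl (S : ZMod N → Prop) (C : ZMod N → ZMod N → Prop) (i : ZMod N) : Prop :=
  ¬ S i ∧ ∀ j, ¬ C i j ∧ ¬ C j i

/-- the relation behind the graph -/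
def relT (b : ℕ) (S : ZMod N → Prop) (C : ZMod N → ZMod N → Prop) : VT N b → VT N b → Prop
  | .inl i, .inl j => j = i + 1 ∨ C i j
  | .inl _, .inr none => True
  | .inl i, .inr (some _) => S i
  | _, _ => False

/-- the graph -/
def tw (b : ℕ) (S : ZMod N → Prop) (C : ZMod N → ZMod N → Prop) : SimpleGraph (VT N b) :=
  SimpleGraph.fromRel (relT b S C)

lemma t_rr {i j : ZMod N} : (tw b S C).Adj (rim b i) (rim b j) ↔ nb C i j := by
  unfold tw nb
  rw [SimpleGraph.fromRel_adj]
  simp only [relT, rim, ne_eq, Sum.inl.injEq]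
  tauto

lemma t_rh {i : ZMod N} : (tw b S C).Adj (rim b i) (hb N b) := by
  unfold tw
  rw [SimpleGraph.fromRel_adj]
  simp [relT, rim, hb]

lemma t_hr {i : ZMod N} : (tw b S C).Adj (hb N b) (rim b i) := t_rh.symm

lemma t_re {i : ZMod N} {x : Fin b} : (tw b S C).Adj (rim b i) (ex N x) ↔ S i := by
  unfold tw
  rw [SimpleGraph.fromRel_adj]
  simp [relT, rim, ex]

lemma t_er {i : ZMod N} {x : Fin b} : (tw b S C).Adj (ex N x) (rim b i) ↔ S i := by
  rw [SimpleGraph.adj_comm, t_re]

lemma t_he {x : Fin b} : ¬ (tw b S C).Adj (hb N b) (ex N x) := by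
  unfold tw
  rw [SimpleGraph.fromRel_adj]
  simp [relT, hb, ex]

lemma t_ee {x y : Fin b} : ¬ (tw b S C).Adj (ex N x) (ex N y) := by
  unfold tw
  rw [SimpleGraph.fromRel_adj]
  simp [relT, ex]

/-- the conditions -/
structure Tw (N b : ℕ) (S : ZMod N → Prop) (C : ZMod N → ZMod N → Prop) : Prop where
  /-- size -/
  big : 6 ≤ N
  /-- there is a further vertex -/
  pos : 0 < b
  /-- chords -/
  irr : ∀ i j, C i j → i ≠ j ∧ j ≠ i + 1 ∧ i ≠ j + 1 ∧ ¬ C j i
  /-- every rim vertex has a neighbour in `S` -/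
  dom : ∀ i, ∃ j, nb C i j ∧ S j
  /-- `S` is minimal -/
  uniq : ∀ i, S i → ∃ k, uq S C k i
  /-- rim edges are needed -/
  rimc : ∀ i, pl S C i ∨ pl S C (i + 1) ∨ uq S C i (i + 1) ∨ uq S C (i + 1) i
  /-- chords are needed -/
  chc : ∀ i j, C i j → uq S C i j ∨ uq S C j i
  /-- spokes are needed -/
  spk : ∀ i, pl S C i ∨ ∃ q, q ≠ i ∧ ¬ (S i ∧ S q) ∧ ∀ j, nb C i j → ¬ nb C q j
  /-- places for the further vertices -/
  size : b + 2 ≤ {i | S i ∧ S (i + 1)}.ncard

namespace Tw

variable (h : Tw N b S C)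

include h

lemma one_ne : (1 : ZMod N) ≠ 0 := by
  have hs := h.big
  intro e
  have := MPd41ace.cast_inj (N := N) (s := 1) (t := 0) (by omega) (by omega) (by simpa using e)
  omega

lemma two_ne : (2 : ZMod N) ≠ 0 := by
  have hs := h.big
  intro e
  have := MPd41ace.cast_inj (N := N) (s := 2) (t := 0) (by omega) (by omega) (by simpa using e)
  omega

lemma succ_ne (i : ZMod N) : i ≠ i + 1 := fun e => h.one_ne (left_eq_add.1 e)

lemma nb_succ (i : ZMod N) : nb C i (i + 1) := ⟨h.succ_ne i, Or.inl rfl⟩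

lemma whl : Whl (tw b S C) N (rim b) (hb N b) :=
  ⟨fun _ _ => rim_inj.1, rim_ne_hb, fun i => t_rr.2 (h.nb_succ i), fun _ => t_hr⟩

lemma exists_pair : ∃ i, S i ∧ S (i + 1) := by
  have h1 := h.size
  have h2 : {i | S i ∧ S (i + 1)}.Nonempty := by
    rw [Set.nonempty_iff_ne_empty]
    intro e
    rw [e, Set.ncard_empty] at h1
    omega
  exact h2

lemma bs [NeZero N] : Bs (tw b S C) N (rim b) (hb N b)
    (Finset.univ.map ⟨ex N (b := b), fun _ _ e => ex_inj.1 e⟩) (fun _ _ => False) := by
  classical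
  have hmem : ∀ x, x ∈ (Finset.univ.map ⟨ex N (b := b), fun _ _ e => ex_inj.1 e⟩) ↔
      ∃ y, ex N y = x := by
    intro x
    rw [Finset.mem_map]
    constructor
    · rintro ⟨y, _, e⟩
      exact ⟨y, e⟩
    · rintro ⟨y, e⟩
      exact ⟨y, Finset.mem_univ _, e⟩
  obtain ⟨i0, hi0, hi1⟩ := h.exists_pair
  refine ⟨h.whl, ?_, ?_, ?_, ?_, ?_⟩
  · intro x hx
    obtain ⟨y, rfl⟩ := (hmem x).1 hx
    exact ex_not_mem y
  · intro x hx
    obtain ⟨y, rfl⟩ := (hmem x).1 hx
    rw [Finset.card_map, Finset.card_univ, Fintype.card_fin]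
    refine h.size.trans (le_of_eq ?_)
    unfold tot gd
    rw [Set.ncard_eq_toFinset_card', ← Finset.card_filter]
    congr 1
    ext i
    rw [Set.mem_toFinset, Finset.mem_filter, t_er, t_er]
    exact ⟨fun q => ⟨Finset.mem_univ _, q⟩, fun q => q.2⟩
  · intro x hx v hv hxv _
    obtain ⟨y, rfl⟩ := (hmem x).1 hx
    have hz : ∀ i, rim b i ∈ WS (rim b) (hb N b) := fun i => Set.mem_insert_of_mem _ ⟨i, rfl⟩
    rcases vcases v with ⟨j, rfl⟩ | rfl | ⟨y', rfl⟩
    · obtain ⟨k, k1, k2⟩ := h.dom j
      exact ⟨rim b k, Or.inl (hz k), t_er.2 k2, t_rr.2 (nb_symm k1)⟩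
    · exact ⟨rim b i0, Or.inl (hz i0), t_er.2 hi0, t_rh⟩
    · exact ⟨rim b i0, Or.inl (hz i0), t_er.2 hi0, t_re.2 hi0⟩
  · intro x hx v
    obtain ⟨y, rfl⟩ := (hmem x).1 hx
    by_cases e : rim b i0 = v
    · refine ⟨i0 + 1, ?_, t_er.2 hi1⟩
      rw [← e, Ne, rim_inj]
      exact (h.succ_ne i0).symm
    · exact ⟨i0, e, t_er.2 hi0⟩
  · intro x hx y hy _
    obtain ⟨x', rfl⟩ := (hmem x).1 hx
    obtain ⟨y', rfl⟩ := (hmem y).1 hy
    exact ⟨i0, i0 + 1, t_rr.2 (h.nb_succ i0), t_er.2 hi0, t_re.2 hi1⟩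

theorem isPLD [NeZero N] : IsPLD (tw b S C) (N + 1 + b) := by
  classical
  have hN := h.big
  have hcard : Fintype.card (VT N b) = N + 1 + b := by
    rw [Fintype.card_sum, Fintype.card_option, ZMod.card, Fintype.card_fin]
    ring
  have k := h.bs.plx (U := Finset.univ) (by omega) (fun _ _ q => q) (by
    intro v
    refine ⟨fun _ => ?_, fun _ => Finset.mem_univ _⟩
    rcases vcases v with ⟨j, rfl⟩ | rfl | ⟨y', rfl⟩
    · exact Or.inl (Set.mem_insert_of_mem _ ⟨j, rfl⟩)
    · exact Or.inl (Set.mem_insert _ _)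
    · right
      rw [Finset.mem_map]
      exact ⟨y', Finset.mem_univ _, rfl⟩) (by
    rw [Finset.card_univ, hcard, Finset.card_map, Finset.card_univ, Fintype.card_fin])
  intro j h3 hj
  rw [hasP_iff]
  intro u v huv
  obtain ⟨l, l1, l2, _⟩ := k u (Finset.mem_univ _) v (Finset.mem_univ _) huv j h3
    (by rw [Finset.card_univ, hcard]; exact hj) (fun _ q => q)
  exact ⟨l, l1, l2⟩

theorem isMinPLD [NeZero N] : IsMinPLD (tw b S C) (N + 1 + b) := by
  refine ⟨h.isPLD, ?_⟩
  have hN := h.big
  have hn : 4 ≤ N + 1 + b := by omega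
  have hn3 : 3 ≤ N + 1 + b := by omega
  have hcard : Fintype.card (VT N b) = N + 1 + b := by
    rw [Fintype.card_sum, Fintype.card_option, ZMod.card, Fintype.card_fin]
    ring
  -- the only neighbour in `S`
  have key : ∀ (k i : ZMod N) (x : Fin b), uq S C k i → ∀ d, (tw b S C).Adj (rim b k) d →
      (tw b S C).Adj d (ex N x) → d = rim b i := by
    intro k i x hu d k1 k2
    rcases vcases d with ⟨j, rfl⟩ | rfl | ⟨y, rfl⟩
    · rw [t_rr] at k1
      rw [t_re] at k2
      rw [hu.2.2 j k1 k2]
    · exact absurd k2 t_he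
    · exact absurd k2 t_ee
  have q1 : ∀ (k i : ZMod N), uq S C k i →
      ¬ IsPLD ((tw b S C).deleteEdges {s(rim b k, rim b i)}) (N + 1 + b) := by
    intro k i hu
    exact needed hn3 (rim_ne_ex k ⟨0, h.pos⟩) fun d k1 k2 => key k i _ hu d k1 k2
  have q2 : ∀ (k i : ZMod N) (x : Fin b), uq S C k i →
      ¬ IsPLD ((tw b S C).deleteEdges {s(ex N x, rim b i)}) (N + 1 + b) := by
    intro k i x hu
    exact needed hn3 (rim_ne_ex k x).symm fun d k1 k2 => key k i x hu d k2.symm k1.symm
  have dg : ∀ i : ZMod N, pl S C i → ∀ d, (tw b S C).Adj (rim b i) d →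
      d = rim b (i + 1) ∨ d = rim b (i - 1) ∨ d = hb N b := by
    intro i hi d hd
    rcases vcases d with ⟨j, rfl⟩ | rfl | ⟨y, rfl⟩
    · rw [t_rr] at hd
      rcases hd.2 with e | e | e | e
      · exact Or.inl (by rw [e])
      · refine Or.inr (Or.inl ?_)
        have : j = i - 1 := by rw [e]; ring
        rw [this]
      · exact absurd e (hi.2 j).1
      · exact absurd e (hi.2 j).2
    · exact Or.inr (Or.inr rfl)
    · rw [t_re] at hd
      exact absurd hd hi.1
  have E1 : ∀ i : ZMod N,
      ¬ IsPLD ((tw b S C).deleteEdges {s(rim b i, rim b (i + 1))}) (N + 1 + b) := by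
    intro i
    rcases h.rimc i with k | k | k | k
    · exact needed_deg hcard hn (dg i k) (Or.inl rfl)
    · rw [Sym2.eq_swap]
      refine needed_deg hcard hn (dg (i + 1) k) (Or.inr (Or.inl ?_))
      rw [add_sub_cancel_right]
    · exact q1 _ _ k
    · rw [Sym2.eq_swap]
      exact q1 _ _ k
  have E2 : ∀ i : ZMod N,
      ¬ IsPLD ((tw b S C).deleteEdges {s(rim b i, hb N b)}) (N + 1 + b) := by
    intro i
    rcases h.spk i with k | ⟨q, h1, h2, h3⟩
    · exact needed_deg hcard hn (dg i k) (Or.inr (Or.inr rfl))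
    · refine needed (y := rim b q) hn3 (fun e => h1 (rim_inj.1 e).symm) fun d k1 k2 => ?_
      rcases vcases d with ⟨j, rfl⟩ | rfl | ⟨y, rfl⟩
      · rw [t_rr] at k1 k2
        exact absurd (nb_symm k2) (h3 j k1)
      · rfl
      · rw [t_re] at k1
        rw [t_er] at k2
        exact absurd ⟨k1, k2⟩ h2
  have E3 : ∀ (i : ZMod N) (x : Fin b), S i →
      ¬ IsPLD ((tw b S C).deleteEdges {s(rim b i, ex N x)}) (N + 1 + b) := by
    intro i x hi
    obtain ⟨k, hk⟩ := h.uniq i hi
    rw [Sym2.eq_swap]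
    exact q2 _ _ x hk
  have E4 : ∀ i j : ZMod N, C i j →
      ¬ IsPLD ((tw b S C).deleteEdges {s(rim b i, rim b j)}) (N + 1 + b) := by
    intro i j hij
    rcases h.chc i j hij with k | k
    · exact q1 _ _ k
    · rw [Sym2.eq_swap]
      exact q1 _ _ k
  intro e he
  induction e using Sym2.ind with
  | _ a c =>
    rw [SimpleGraph.mem_edgeSet] at he
    rcases vcases a with ⟨i, rfl⟩ | rfl | ⟨x, rfl⟩
    · rcases vcases c with ⟨j, rfl⟩ | rfl | ⟨y, rfl⟩
      · rw [t_rr] at he
        rcases he.2 with e | e | e | e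
        · rw [e]
          exact E1 i
        · rw [e, Sym2.eq_swap]
          exact E1 j
        · exact E4 i j e
        · rw [Sym2.eq_swap]
          exact E4 j i e
      · exact E2 i
      · exact E3 i y (t_re.1 he)
    · rcases vcases c with ⟨j, rfl⟩ | rfl | ⟨y, rfl⟩
      · rw [Sym2.eq_swap]
        exact E2 j
      · exact absurd he (SimpleGraph.irrefl _)
      · exact absurd he t_he
    · rcases vcases c with ⟨j, rfl⟩ | rfl | ⟨y, rfl⟩
      · rw [Sym2.eq_swap]
        exact E3 j x (t_er.1 he)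
      · exact absurd he.symm t_he
      · exact absurd he t_ee

open scoped Classical in
lemma card_edges [NeZero N] : (tw b S C).edgeSet.ncard =
    2 * N + b * (Finset.univ.filter S).card
      + (Finset.univ.filter fun p : ZMod N × ZMod N => C p.1 p.2).card := by
  have key : 2 * (tw b S C).edgeFinset.card = 4 * N + 2 * (b * (Finset.univ.filter S).card)
      + 2 * (Finset.univ.filter fun p : ZMod N × ZMod N => C p.1 p.2).card := by
    rw [← SimpleGraph.sum_degrees_eq_twice_card_edges]
    have deg : ∀ v, (tw b S C).degree v = ∑ u, if (tw b S C).Adj v u then 1 else 0 := by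
      intro v
      rw [← SimpleGraph.card_neighborFinset_eq_degree, SimpleGraph.neighborFinset_eq_filter,
        Finset.card_filter]
    simp only [deg, Fintype.sum_sum_type, Fintype.sum_option]
    have t1 : ∀ i : ZMod N, (∑ j : ZMod N, if (tw b S C).Adj (.inl i) (.inl j) then 1 else 0)
        = 2 + ((∑ j : ZMod N, if C i j then 1 else 0) + ∑ j : ZMod N, if C j i then 1 else 0) := by
      intro i
      have e0 : ∀ j : ZMod N, (if (tw b S C).Adj (.inl i) (.inl j) then 1 else 0)
          = (if j ∈ ({i + 1, i - 1} : Finset (ZMod N)) then 1 else 0)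
            + ((if C i j then 1 else 0) + if C j i then 1 else 0) := by
        intro j
        have e1 : (tw b S C).Adj (.inl i) (.inl j) ↔ nb C i j := t_rr
        simp only [e1]
        have hj : j ∈ ({i + 1, i - 1} : Finset (ZMod N)) ↔ j = i + 1 ∨ i = j + 1 := by
          rw [Finset.mem_insert, Finset.mem_singleton]
          constructor
          · rintro (e | e)
            · exact Or.inl e
            · right
              rw [e]
              ring
          · rintro (e | e)
            · exact Or.inl e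
            · right
              rw [e]
              ring
        by_cases c1 : C i j
        · obtain ⟨i1, i2, i3, i4⟩ := h.irr i j c1
          rw [if_pos (show nb C i j from ⟨i1, Or.inr (Or.inr (Or.inl c1))⟩), if_neg (by
            rw [hj]
            tauto), if_pos c1, if_neg i4]
        · by_cases c2 : C j i
          · obtain ⟨i1, i2, i3, i4⟩ := h.irr j i c2
            rw [if_pos (show nb C i j from ⟨i1.symm, Or.inr (Or.inr (Or.inr c2))⟩), if_neg (by
              rw [hj]
              tauto), if_neg c1, if_pos c2]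
          · rw [if_neg c1, if_neg c2]
            by_cases c3 : j = i + 1 ∨ i = j + 1
            · rw [if_pos (hj.2 c3), if_pos]
              refine ⟨?_, by tauto⟩
              rcases c3 with e | e
              · rw [e]
                exact h.succ_ne i
              · rw [e]
                exact (h.succ_ne j).symm
            · rw [if_neg (fun q => c3 (hj.1 q)), if_neg]
              rintro ⟨_, k⟩
              tauto
      rw [Finset.sum_congr rfl fun j _ => e0 j, Finset.sum_add_distrib, Finset.sum_add_distrib]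
      congr 1
      rw [Finset.sum_ite_mem, Finset.univ_inter, Finset.sum_const, smul_eq_mul, mul_one,
        Finset.card_pair]
      intro e
      apply h.two_ne
      have e3 : (2 : ZMod N) = (i + 1) - (i - 1) := by ring
      rw [e3, e]
      ring
    have t2 : ∀ i : ZMod N, (if (tw b S C).Adj (.inl i) (.inr none) then 1 else 0) = 1 := fun i =>
      if_pos t_rh
    have t3 : ∀ (i : ZMod N) (x : Fin b), (if (tw b S C).Adj (.inl i) (.inr (some x)) then 1 else 0)
        = if S i then 1 else 0 := fun i x => by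
      simp only [show (tw b S C).Adj (.inl i) (.inr (some x)) ↔ S i from t_re]
    have t4 : ∀ i : ZMod N, (if (tw b S C).Adj (.inr none) (.inl i) then 1 else 0) = 1 := fun i =>
      if_pos t_hr
    have t5 : (if (tw b S C).Adj (.inr none) (.inr none) then 1 else 0) = 0 :=
      if_neg (SimpleGraph.irrefl _)
    have t6 : ∀ x : Fin b, (if (tw b S C).Adj (.inr none) (.inr (some x)) then 1 else 0) = 0 :=
      fun x => if_neg t_he
    have t7 : ∀ (x : Fin b) (i : ZMod N), (if (tw b S C).Adj (.inr (some x)) (.inl i) then 1 else 0)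
        = if S i then 1 else 0 := fun x i => by
      simp only [show (tw b S C).Adj (.inr (some x)) (.inl i) ↔ S i from t_er]
    have t8 : ∀ x : Fin b, (if (tw b S C).Adj (.inr (some x)) (.inr none) then 1 else 0) = 0 :=
      fun x => if_neg fun k => t_he k.symm
    have t9 : ∀ x y : Fin b, (if (tw b S C).Adj (.inr (some x)) (.inr (some y)) then 1 else 0) = 0 :=
      fun x y => if_neg t_ee
    have t10 : (Finset.univ.filter fun p : ZMod N × ZMod N => C p.1 p.2).card
        = ∑ i : ZMod N, ∑ j : ZMod N, if C i j then 1 else 0 := by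
      rw [Finset.card_filter, Fintype.sum_prod_type]
    have t11 : ∑ i : ZMod N, ∑ j : ZMod N, (if C j i then 1 else 0)
        = ∑ i : ZMod N, ∑ j : ZMod N, if C i j then 1 else 0 := Finset.sum_comm
    rw [t10]
    simp only [t1, t2, t3, t4, t5, t6, t7, t8, t9, Finset.sum_add_distrib, Finset.sum_const,
      Finset.card_univ, ZMod.card, Fintype.card_fin, Finset.card_filter, smul_eq_mul, mul_zero,
      mul_one, add_zero, t11, ← Finset.mul_sum]
    ring
  rw [Set.ncard_eq_toFinset_card', ← SimpleGraph.edgeFinset]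
  omega

open scoped Classical in
/-- THE PAIRS REALISED BY THE FAMILY -/
theorem realised [NeZero N] {s k : ℕ} (hs : (Finset.univ.filter S).card = s)
    (hk : (Finset.univ.filter fun p : ZMod N × ZMod N => C p.1 p.2).card = k) :
    Realised (N + 1 + b) (2 * N + b * s + k) := by
  refine realised_of (G := tw b S C) ?_ h.isMinPLD ?_
  · rw [Fintype.card_sum, Fintype.card_option, ZMod.card, Fintype.card_fin]
    ring
  · rw [h.card_edges, hs, hk]

end Tw

end MPd41ace
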