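import Mathlib

/-!
The pattern on the rim: `SSDD`, then `c` blocks `SSD`, `a` blocks `SSDD`, `d` blocks `SDDSDD` with a
chord, `e` blocks `SDSDSDCD` with chords.
-/

set_option autoImplicit false

namespace MPd41ace

/-- the set `S` -/
def sP (A B E u : ℕ) : Prop :=
  u < 2 ∨ (4 ≤ u ∧ u < A ∧ (u - 4) % 3 < 2) ∨ (A ≤ u ∧ u < B ∧ (u - A) % 4 < 2) ∨
    (B ≤ u ∧ u < E ∧ (u - B) % 3 = 0) ∨
    (E ≤ u ∧ ((u - E) % 8 = 0 ∨ (u - E) % 8 = 2 ∨ (u - E) % 8 = 4))

instance (A B E u : ℕ) : Decidable (sP A B E u) := by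
  unfold sP
  infer_instance

/-- first ends of chords -/
def dP (B E u : ℕ) : Prop :=
  (B ≤ u ∧ u < E ∧ (u - B) % 6 = 0) ∨ (E ≤ u ∧ (u - E) % 2 = 0)

instance (B E u : ℕ) : Decidable (dP B E u) := by
  unfold dP
  infer_instance

/-- second ends of chords -/
def fP (E u : ℕ) : ℕ := if u < E then u + 3 else if (u - E) % 8 = 6 then u - 4 else 0

/-- adjacency of positions -/
def nbN (N : ℕ) (D : ℕ → Prop) (F : ℕ → ℕ) (u v : ℕ) : Prop :=
  u ≠ v ∧ (v = u + 1 ∨ (u + 1 = N ∧ v = 0) ∨ u = v + 1 ∨ (v + 1 = N ∧ u = 0) ∨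
    (D u ∧ v = F u) ∨ (D v ∧ u = F v))

/-- `v` is the only neighbour of `u` in `S` -/
def uqN (N : ℕ) (s D : ℕ → Prop) (F : ℕ → ℕ) (u v : ℕ) : Prop :=
  nbN N D F u v ∧ s v ∧ ∀ w < N, nbN N D F u w → s w → w = v

section

variable {N A B E a c d e : ℕ}

/-- positions and their classes -/
lemma cls {u : ℕ} (hA : A = 4 + 3 * c) (hB : B = A + 4 * a) (hE : E = B + 6 * d)
    (hN : N = E + 8 * e) (hu : u < N) :
    u < 4 ∨ (4 ≤ u ∧ u < A) ∨ (A ≤ u ∧ u < B) ∨ (B ≤ u ∧ u < E) ∨ (E ≤ u ∧ u < N) := by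
  omega

end

section

variable {N A B E a c d e : ℕ} (hA : A = 4 + 3 * c) (hB : B = A + 4 * a) (hE : E = B + 6 * d)
  (hN : N = E + 8 * e) (ha : 2 ≤ a)

include hA hB hE hN ha

/-- the first vertex of a block -/
lemma s_next {w : ℕ} (hw : w + 1 < N) (h : w = 3 ∨ (4 ≤ w ∧ w < A ∧ (w - 4) % 3 = 2) ∨
    (A ≤ w ∧ w < B ∧ (w - A) % 4 = 3) ∨
      (B ≤ w ∧ w < E ∧ (w - B) % 6 = 5) ∨ (E ≤ w ∧ (w - E) % 8 = 7)) : sP A B E (w + 1) := by
  unfold sP
  rcases h with rfl | h | h | h | h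
  · rcases Nat.eq_zero_or_pos c with rfl | hc
    · right; right; left; omega
    · right; left; omega
  · by_cases k1 : w + 1 < A
    · right; left; omega
    · right; right; left; omega
  · by_cases k2 : w + 1 < B
    · right; right; left; omega
    · by_cases k3 : w + 1 < E
      · right; right; right; left; omega
      · right; right; right; right; omega
  · by_cases k3 : w + 1 < E
    · right; right; right; left; omega
    · right; right; right; right; omega
  · right; right; right; right; omega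

/-- the last vertex of a block is not in `S` -/
lemma s_prev {w : ℕ} (hw : w < N) (h : w + 1 = 4 ∨ (4 ≤ w + 1 ∧ w + 1 < A ∧ (w + 1 - 4) % 3 = 0) ∨
    (A ≤ w + 1 ∧ w + 1 < B ∧ (w + 1 - A) % 4 = 0) ∨
      (B ≤ w + 1 ∧ w + 1 < E ∧ (w + 1 - B) % 3 = 0) ∨
      (E ≤ w + 1 ∧ (w + 1 - E) % 8 = 0)) : ¬ sP A B E w := by
  unfold sP
  rcases h with h | h | h | h | h
  · omega
  · by_cases k1 : w < 4
    · omega
    · omega
  · by_cases k1 : w < A
    · by_cases k2 : w < 4
      · omega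
      · omega
    · omega
  · by_cases k1 : w < B
    · by_cases k2 : w < A
      · omega
      · omega
    · omega
  · by_cases k1 : w < E
    · by_cases k2 : w < B
      · by_cases k3 : w < A
        · omega
        · omega
      · omega
    · omega

lemma dom_N {u : ℕ} (hu : u < N) : ∃ v < N, nbN N (dP B E) (fP E) u v ∧ sP A B E v := by
  have next : ∀ w, w < N → (w = 3 ∨ (4 ≤ w ∧ w < A ∧ (w - 4) % 3 = 2) ∨
      (A ≤ w ∧ w < B ∧ (w - A) % 4 = 3) ∨
      (B ≤ w ∧ w < E ∧ (w - B) % 6 = 5) ∨ (E ≤ w ∧ (w - E) % 8 = 7)) →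
      ∃ v < N, nbN N (dP B E) (fP E) w v ∧ sP A B E v := by
    intro w hw h
    by_cases k : w + 1 = N
    · exact ⟨0, by omega, ⟨by omega, Or.inr (Or.inl ⟨k, rfl⟩)⟩, Or.inl (by norm_num)⟩
    · exact ⟨w + 1, by omega, ⟨by omega, Or.inl rfl⟩, s_next hA hB hE hN ha (by omega) h⟩
  rcases cls hA hB hE hN hu with h | h | h | h | h
  · interval_cases u
    · exact ⟨1, by omega, ⟨by omega, Or.inl rfl⟩, Or.inl (by norm_num)⟩
    · exact ⟨0, by omega, ⟨by omega, Or.inr (Or.inr (Or.inl rfl))⟩, Or.inl (by norm_num)⟩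
    · exact ⟨1, by omega, ⟨by omega, Or.inr (Or.inr (Or.inl rfl))⟩, Or.inl (by norm_num)⟩
    · exact next 3 hu (Or.inl rfl)
  · have h3 : (u - 4) % 3 < 3 := Nat.mod_lt _ (by norm_num)
    by_cases k : (u - 4) % 3 = 0
    · exact ⟨u + 1, by omega, ⟨by omega, Or.inl rfl⟩, Or.inr (Or.inl (by omega))⟩
    · exact ⟨u - 1, by omega, ⟨by omega, Or.inr (Or.inr (Or.inl (by omega)))⟩,
        Or.inr (Or.inl (by omega))⟩
  · by_cases k : (u - A) % 4 = 0
    · exact ⟨u + 1, by omega, ⟨by omega, Or.inl rfl⟩, Or.inr (Or.inr (Or.inl (by omega)))⟩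
    · by_cases k' : (u - A) % 4 = 3
      · exact next u hu (Or.inr (Or.inr (Or.inl ⟨h.1, h.2, k'⟩)))
      · exact ⟨u - 1, by omega, ⟨by omega, Or.inr (Or.inr (Or.inl (by omega)))⟩,
          Or.inr (Or.inr (Or.inl (by omega)))⟩
  · have up : (u - B) % 3 = 1 → ∃ v < N, nbN N (dP B E) (fP E) u v ∧ sP A B E v := fun k =>
      ⟨u - 1, by omega, ⟨by omega, Or.inr (Or.inr (Or.inl (by omega)))⟩,
        Or.inr (Or.inr (Or.inr (Or.inl (by omega))))⟩
    have h6 : (u - B) % 6 = 0 ∨ (u - B) % 6 = 2 ∨ (u - B) % 6 = 3 ∨ (u - B) % 6 = 5 ∨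
        (u - B) % 3 = 1 := by omega
    rcases h6 with k | k | k | k | k
    · refine ⟨u + 3, by omega, ⟨by omega, ?_⟩, Or.inr (Or.inr (Or.inr (Or.inl (by omega))))⟩
      right; right; right; right; left
      exact ⟨Or.inl ⟨h.1, h.2, k⟩, by rw [fP, if_pos h.2]⟩
    · exact ⟨u + 1, by omega, ⟨by omega, Or.inl rfl⟩,
        Or.inr (Or.inr (Or.inr (Or.inl (by omega))))⟩
    · refine ⟨u - 3, by omega, ⟨by omega, ?_⟩, Or.inr (Or.inr (Or.inr (Or.inl (by omega))))⟩
      right; right; right; right; right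
      refine ⟨Or.inl ⟨by omega, by omega, by omega⟩, ?_⟩
      rw [fP, if_pos (by omega)]
      omega
    · exact next u hu (Or.inr (Or.inr (Or.inr (Or.inl ⟨h.1, h.2, k⟩))))
    · exact up k
  · have h8 : ((u - E) % 8 = 0 ∨ (u - E) % 8 = 2 ∨ (u - E) % 8 = 4) ∨
        ((u - E) % 8 = 1 ∨ (u - E) % 8 = 3 ∨ (u - E) % 8 = 5) ∨ (u - E) % 8 = 6 ∨
          (u - E) % 8 = 7 := by omega
    rcases h8 with k | k | k | k
    · refine ⟨0, by omega, ⟨by omega, ?_⟩, Or.inl (by norm_num)⟩
      right; right; right; right; left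
      refine ⟨Or.inr ⟨h.1, by omega⟩, ?_⟩
      rw [fP, if_neg (by omega), if_neg (by omega)]
    · exact ⟨u - 1, by omega, ⟨by omega, Or.inr (Or.inr (Or.inl (by omega)))⟩,
        Or.inr (Or.inr (Or.inr (Or.inr (by omega))))⟩
    · refine ⟨u - 4, by omega, ⟨by omega, ?_⟩, Or.inr (Or.inr (Or.inr (Or.inr (by omega))))⟩
      right; right; right; right; left
      refine ⟨Or.inr ⟨h.1, by omega⟩, ?_⟩
      rw [fP, if_neg (by omega), if_pos k]
    · exact next u hu (Or.inr (Or.inr (Or.inr (Or.inr ⟨h.1, k⟩))))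

/-- the neighbours of a position -/
lemma nbc {u k : ℕ} (hu1 : 1 ≤ u) (hu : u < N) (hk : k < N)
    (h : nbN N (dP B E) (fP E) u k) : k = u + 1 ∨ (u + 1 = N ∧ k = 0) ∨ u = k + 1 ∨
      (B ≤ u ∧ u < E ∧ (u - B) % 6 = 0 ∧ k = u + 3) ∨
      (B ≤ u ∧ u < E ∧ (u - B) % 6 = 3 ∧ u = k + 3) ∨
      (E ≤ u ∧ ((u - E) % 8 = 0 ∨ (u - E) % 8 = 2 ∨ (u - E) % 8 = 4) ∧ k = 0) ∨
      (E ≤ u ∧ (u - E) % 8 = 2 ∧ k = u + 4) ∨ (E ≤ u ∧ (u - E) % 8 = 6 ∧ u = k + 4) := by
  obtain ⟨_, h | h | h | h | ⟨h, h'⟩ | ⟨h, h'⟩⟩ := h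
  · exact Or.inl h
  · exact Or.inr (Or.inl h)
  · exact Or.inr (Or.inr (Or.inl h))
  · omega
  · unfold dP at h
    unfold fP at h'
    rcases h with h | h
    · rw [if_pos h.2.1] at h'
      right; right; right; left
      exact ⟨h.1, h.2.1, h.2.2, h'⟩
    · rw [if_neg (by omega)] at h'
      split_ifs at h' with q
      · right; right; right; right; right; right; right
        exact ⟨h.1, q, by omega⟩
      · right; right; right; right; right; left
        exact ⟨h.1, by omega, h'⟩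
  · unfold dP at h
    unfold fP at h'
    rcases h with h | h
    · rw [if_pos h.2.1] at h'
      right; right; right; right; left
      refine ⟨by omega, ?_, ?_, by omega⟩
      · omega
      · omega
    · rw [if_neg (by omega)] at h'
      split_ifs at h' with q
      · right; right; right; right; right; right; left
        exact ⟨by omega, by omega, by omega⟩
      · omega

lemma uq_10 : uqN N (sP A B E) (dP B E) (fP E) 1 0 := by
  refine ⟨⟨by norm_num, Or.inr (Or.inr (Or.inl rfl))⟩, Or.inl (by norm_num), ?_⟩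
  intro k hk h hs
  rcases nbc hA hB hE hN ha le_rfl (by omega) hk h with q | q | q | q | q | q | q | q
  · exfalso
    subst q
    revert hs
    unfold sP
    omega
  all_goals omega

lemma uq_01 : uqN N (sP A B E) (dP B E) (fP E) 2 1 := by
  refine ⟨⟨by norm_num, Or.inr (Or.inr (Or.inl rfl))⟩, Or.inl (by norm_num), ?_⟩
  intro k hk h hs
  rcases nbc hA hB hE hN ha (by norm_num) (by omega) hk h with q | q | q | q | q | q | q | q
  · exfalso
    subst q
    revert hs
    unfold sP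
    omega
  all_goals omega

/-- pairs of neighbours in `S`, first direction -/
lemma uq_34 {u : ℕ} (h : (4 ≤ u ∧ u < A ∧ (u - 4) % 3 = 0) ∨ (A ≤ u ∧ u < B ∧ (u - A) % 4 = 0)) :
    uqN N (sP A B E) (dP B E) (fP E) (u + 1) u := by
  refine ⟨⟨by omega, Or.inr (Or.inr (Or.inl rfl))⟩, ?_, ?_⟩
  · unfold sP
    omega
  intro k hk h1 hs
  rcases nbc hA hB hE hN ha (by omega) (by omega) hk h1 with q | q | q | q | q | q | q | q
  · exfalso
    subst q
    revert hs
    unfold sP
    rcases h with h | h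
    · omega
    · omega
  all_goals omega

/-- pairs of neighbours in `S`, second direction -/
lemma uq_43 {u : ℕ} (h : (4 ≤ u ∧ u < A ∧ (u - 4) % 3 = 0) ∨ (A ≤ u ∧ u < B ∧ (u - A) % 4 = 0)) :
    uqN N (sP A B E) (dP B E) (fP E) u (u + 1) := by
  refine ⟨⟨by omega, Or.inl rfl⟩, ?_, ?_⟩
  · unfold sP
    omega
  intro k hk h1 hs
  rcases nbc hA hB hE hN ha (by omega) (by omega) hk h1 with q | q | q | q | q | q | q | q
  · exact q
  · omega
  · exfalso
    have := s_prev hA hB hE hN ha hk (by omega)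
    exact this hs
  all_goals omega

/-- chords of the first kind -/
lemma uq_6 {u : ℕ} (h : B ≤ u ∧ u < E ∧ (u - B) % 6 = 0) :
    uqN N (sP A B E) (dP B E) (fP E) u (u + 3) := by
  refine ⟨⟨by omega, ?_⟩, ?_, ?_⟩
  · right; right; right; right; left
    exact ⟨Or.inl h, by rw [fP, if_pos h.2.1]⟩
  · unfold sP
    omega
  intro k hk h1 hs
  rcases nbc hA hB hE hN ha (by omega) (by omega) hk h1 with q | q | q | q | q | q | q | q
  · exfalso
    subst q
    revert hs
    unfold sP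
    omega
  · omega
  · exfalso
    have := s_prev hA hB hE hN ha hk (by omega)
    exact this hs
  all_goals omega

lemma uq_6' {u : ℕ} (h : B ≤ u ∧ u < E ∧ (u - B) % 6 = 0) :
    uqN N (sP A B E) (dP B E) (fP E) (u + 3) u := by
  refine ⟨⟨by omega, ?_⟩, ?_, ?_⟩
  · right; right; right; right; right
    exact ⟨Or.inl h, by rw [fP, if_pos h.2.1]⟩
  · unfold sP
    omega
  intro k hk h1 hs
  rcases nbc hA hB hE hN ha (by omega) (by omega) hk h1 with q | q | q | q | q | q | q | q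
  · exfalso
    subst q
    revert hs
    unfold sP
    omega
  · omega
  · exfalso
    revert hs
    unfold sP
    omega
  all_goals omega

/-- chords to `0` -/
lemma uq_80 {u : ℕ} (hu : u < N)
    (h : E ≤ u ∧ ((u - E) % 8 = 0 ∨ (u - E) % 8 = 2 ∨ (u - E) % 8 = 4)) :
    uqN N (sP A B E) (dP B E) (fP E) u 0 := by
  refine ⟨⟨by omega, ?_⟩, Or.inl (by norm_num), ?_⟩
  · right; right; right; right; left
    refine ⟨Or.inr ⟨h.1, by omega⟩, ?_⟩
    rw [fP, if_neg (by omega), if_neg (by omega)]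
  intro k hk h1 hs
  rcases nbc hA hB hE hN ha (by omega) (by omega) hk h1 with q | q | q | q | q | q | q | q
  · exfalso
    subst q
    revert hs
    unfold sP
    omega
  · omega
  · exfalso
    rcases h.2 with h2 | h2
    · have := s_prev hA hB hE hN ha hk (by omega)
      exact this hs
    · revert hs
      unfold sP
      omega
  · omega
  · omega
  · exact q.2.2
  · exfalso
    revert hs
    unfold sP
    omega
  · omega

/-- chords from `C` -/
lemma uq_8 {u : ℕ} (hu : u < N) (h : E ≤ u ∧ (u - E) % 8 = 6) :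
    uqN N (sP A B E) (dP B E) (fP E) u (u - 4) := by
  refine ⟨⟨by omega, ?_⟩, ?_, ?_⟩
  · right; right; right; right; left
    refine ⟨Or.inr ⟨h.1, by omega⟩, ?_⟩
    rw [fP, if_neg (by omega), if_pos h.2]
  · unfold sP
    omega
  intro k hk h1 hs
  rcases nbc hA hB hE hN ha (by omega) (by omega) hk h1 with q | q | q | q | q | q | q | q
  · exfalso
    subst q
    revert hs
    unfold sP
    omega
  · omega
  · exfalso
    revert hs
    unfold sP
    omega
  all_goals omega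

/-- the first `S` of a long block -/
lemma uq_81 {u : ℕ} (hu : u < N) (h : E ≤ u ∧ (u - E) % 8 = 0) :
    uqN N (sP A B E) (dP B E) (fP E) (u - 1) u := by
  refine ⟨⟨by omega, ?_⟩, ?_, ?_⟩
  · left
    omega
  · unfold sP
    omega
  intro k hk h1 hs
  rcases nbc hA hB hE hN ha (by omega) (by omega) hk h1 with q | q | q | q | q | q | q | q
  · omega
  · omega
  · exfalso
    revert hs
    unfold sP
    by_cases c1 : k < E
    · by_cases c2 : k < B
      · omega
      · omega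
    · omega
  all_goals omega

/-- the last `S` of a long block -/
lemma uq_85 {u : ℕ} (hu : u < N) (h : E ≤ u ∧ (u - E) % 8 = 4) :
    uqN N (sP A B E) (dP B E) (fP E) (u + 1) u := by
  refine ⟨⟨by omega, ?_⟩, ?_, ?_⟩
  · right; right; left
    omega
  · unfold sP
    omega
  intro k hk h1 hs
  rcases nbc hA hB hE hN ha (by omega) (by omega) hk h1 with q | q | q | q | q | q | q | q
  · exfalso
    revert hs
    unfold sP
    omega
  all_goals omega

end

end MPd41ace
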