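import Pool.Agent.Lib.MP_d41ace_co.TwPat

/-!
The pattern on the rim, continued.
-/

set_option autoImplicit false

namespace MPd41ace

section

variable {N A B E a c d e : ℕ} (hA : A = 4 + 3 * c) (hB : B = A + 4 * a) (hE : E = B + 6 * d)
  (hN : N = E + 8 * e) (ha : 2 ≤ a)

include hA hB hE hN ha

/-- positions of degree three -/
lemma pl_N {u : ℕ} (hu : u < N) (h : u = 2 ∨ u = 3 ∨ (4 ≤ u ∧ u < A ∧ (u - 4) % 3 = 2) ∨
    (A ≤ u ∧ u < B ∧ 2 ≤ (u - A) % 4) ∨ (B ≤ u ∧ u < E ∧ (u - B) % 3 ≠ 0) ∨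
    (E ≤ u ∧ (u - E) % 2 = 1)) :
    ¬ sP A B E u ∧ ¬ dP B E u ∧ ∀ k < N, dP B E k → fP E k ≠ u := by
  refine ⟨?_, ?_, ?_⟩
  · unfold sP
    omega
  · unfold dP
    omega
  · intro k hk h1 h2
    unfold dP at h1
    unfold fP at h2
    rcases h1 with h1 | h1
    · rw [if_pos h1.2.1] at h2
      omega
    · rw [if_neg (by omega)] at h2
      split_ifs at h2 with q
      · omega
      · omega

/-- classification of the positions -/
lemma cls2 {u : ℕ} (hu : u < N) : (u = 0 ∨ u = 1) ∨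
    (u = 2 ∨ u = 3 ∨ (4 ≤ u ∧ u < A ∧ (u - 4) % 3 = 2) ∨
    (A ≤ u ∧ u < B ∧ 2 ≤ (u - A) % 4) ∨ (B ≤ u ∧ u < E ∧ (u - B) % 3 ≠ 0) ∨
    (E ≤ u ∧ (u - E) % 2 = 1)) ∨
    ((4 ≤ u ∧ u < A ∧ (u - 4) % 3 = 0) ∨ (A ≤ u ∧ u < B ∧ (u - A) % 4 = 0)) ∨
    ((4 ≤ u ∧ u < A ∧ (u - 4) % 3 = 1) ∨ (A ≤ u ∧ u < B ∧ (u - A) % 4 = 1)) ∨
    (B ≤ u ∧ u < E ∧ (u - B) % 6 = 0) ∨ (B ≤ u ∧ u < E ∧ (u - B) % 6 = 3) ∨
    (E ≤ u ∧ ((u - E) % 8 = 0 ∨ (u - E) % 8 = 2 ∨ (u - E) % 8 = 4)) ∨
    (E ≤ u ∧ (u - E) % 8 = 6) := by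
  rcases cls hA hB hE hN hu with h | h | h | h | h
  · have : u = 0 ∨ u = 1 ∨ u = 2 ∨ u = 3 := by omega
    rcases this with q | q | q | q
    · exact Or.inl (Or.inl q)
    · exact Or.inl (Or.inr q)
    · exact Or.inr (Or.inl (Or.inl q))
    · exact Or.inr (Or.inl (Or.inr (Or.inl q)))
  · have : (u - 4) % 3 = 0 ∨ (u - 4) % 3 = 1 ∨ (u - 4) % 3 = 2 := by omega
    rcases this with q | q | q
    · exact Or.inr (Or.inr (Or.inl (Or.inl ⟨h.1, h.2, q⟩)))
    · exact Or.inr (Or.inr (Or.inr (Or.inl (Or.inl ⟨h.1, h.2, q⟩))))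
    · exact Or.inr (Or.inl (Or.inr (Or.inr (Or.inl ⟨h.1, h.2, q⟩))))
  · have : (u - A) % 4 = 0 ∨ (u - A) % 4 = 1 ∨ 2 ≤ (u - A) % 4 := by omega
    rcases this with q | q | q
    · exact Or.inr (Or.inr (Or.inl (Or.inr ⟨h.1, h.2, q⟩)))
    · exact Or.inr (Or.inr (Or.inr (Or.inl (Or.inr ⟨h.1, h.2, q⟩))))
    · exact Or.inr (Or.inl (Or.inr (Or.inr (Or.inr (Or.inl ⟨h.1, h.2, q⟩)))))
  · have : (u - B) % 3 ≠ 0 ∨ (u - B) % 6 = 0 ∨ (u - B) % 6 = 3 := by omega
    rcases this with q | q | q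
    · exact Or.inr (Or.inl (Or.inr (Or.inr (Or.inr (Or.inr (Or.inl ⟨h.1, h.2, q⟩))))))
    · exact Or.inr (Or.inr (Or.inr (Or.inr (Or.inl ⟨h.1, h.2, q⟩))))
    · exact Or.inr (Or.inr (Or.inr (Or.inr (Or.inr (Or.inl ⟨h.1, h.2, q⟩)))))
  · have : (u - E) % 2 = 1 ∨ ((u - E) % 8 = 0 ∨ (u - E) % 8 = 2 ∨ (u - E) % 8 = 4) ∨
        (u - E) % 8 = 6 := by omega
    rcases this with q | q | q
    · exact Or.inr (Or.inl (Or.inr (Or.inr (Or.inr (Or.inr (Or.inr ⟨h.1, q⟩))))))
    · exact Or.inr (Or.inr (Or.inr (Or.inr (Or.inr (Or.inr (Or.inl ⟨h.1, q⟩))))))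
    · exact Or.inr (Or.inr (Or.inr (Or.inr (Or.inr (Or.inr (Or.inr ⟨h.1, q⟩))))))

lemma uniq_N {u : ℕ} (hu : u < N) (hs : sP A B E u) :
    ∃ k < N, uqN N (sP A B E) (dP B E) (fP E) k u := by
  rcases cls2 hA hB hE hN ha hu with h | h | h | h | h | h | h | h
  · rcases h with rfl | rfl
    · exact ⟨1, by omega, uq_10 hA hB hE hN ha⟩
    · exact ⟨2, by omega, uq_01 hA hB hE hN ha⟩
  · exact absurd hs (pl_N hA hB hE hN ha hu h).1
  · exact ⟨u + 1, by omega, uq_34 hA hB hE hN ha h⟩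
  · obtain ⟨v, rfl⟩ : ∃ v, u = v + 1 := ⟨u - 1, by omega⟩
    exact ⟨v, by omega, uq_43 hA hB hE hN ha (by omega)⟩
  · exact ⟨u + 3, by omega, uq_6' hA hB hE hN ha h⟩
  · obtain ⟨v, rfl⟩ : ∃ v, u = v + 3 := ⟨u - 3, by omega⟩
    exact ⟨v, by omega, uq_6 hA hB hE hN ha (by omega)⟩
  · rcases h.2 with q | q | q
    · exact ⟨u - 1, by omega, uq_81 hA hB hE hN ha hu ⟨h.1, q⟩⟩
    · have k := uq_8 hA hB hE hN ha (u := u + 4) (by omega) ⟨by omega, by omega⟩
      rw [Nat.add_sub_cancel] at k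
      exact ⟨u + 4, by omega, k⟩
    · exact ⟨u + 1, by omega, uq_85 hA hB hE hN ha hu ⟨h.1, q⟩⟩
  · exfalso
    revert hs
    unfold sP
    omega

/-- plain positions -/
def plN (N : ℕ) (s D : ℕ → Prop) (F : ℕ → ℕ) (u : ℕ) : Prop :=
  ¬ s u ∧ ¬ D u ∧ ∀ k < N, D k → F k ≠ u

lemma rimc_N {u : ℕ} (hu : u < N) {w : ℕ} (hw : w = u + 1 ∨ (u + 1 = N ∧ w = 0)) (hwN : w < N) :
    plN N (sP A B E) (dP B E) (fP E) u ∨ plN N (sP A B E) (dP B E) (fP E) w ∨
    uqN N (sP A B E) (dP B E) (fP E) u w ∨ uqN N (sP A B E) (dP B E) (fP E) w u := by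
  rcases cls2 hA hB hE hN ha hu with h | h | h | h | h | h | h | h
  · rcases h with rfl | rfl
    · have : w = 1 := by omega
      subst this
      exact Or.inr (Or.inr (Or.inr (uq_10 hA hB hE hN ha)))
    · have : w = 2 := by omega
      subst this
      exact Or.inr (Or.inl (pl_N hA hB hE hN ha hwN (Or.inl rfl)))
  · exact Or.inl (pl_N hA hB hE hN ha hu h)
  · have : w = u + 1 := by omega
    subst this
    exact Or.inr (Or.inr (Or.inr (uq_34 hA hB hE hN ha h)))
  · have : w = u + 1 := by omega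
    subst this
    refine Or.inr (Or.inl (pl_N hA hB hE hN ha hwN ?_))
    rcases h with h | h
    · exact Or.inr (Or.inr (Or.inl (by omega)))
    · exact Or.inr (Or.inr (Or.inr (Or.inl (by omega))))
  · have : w = u + 1 := by omega
    subst this
    exact Or.inr (Or.inl (pl_N hA hB hE hN ha hwN
      (Or.inr (Or.inr (Or.inr (Or.inr (Or.inl (by omega))))))))
  · have : w = u + 1 := by omega
    subst this
    exact Or.inr (Or.inl (pl_N hA hB hE hN ha hwN
      (Or.inr (Or.inr (Or.inr (Or.inr (Or.inl (by omega))))))))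
  · have : w = u + 1 := by omega
    subst this
    exact Or.inr (Or.inl (pl_N hA hB hE hN ha hwN
      (Or.inr (Or.inr (Or.inr (Or.inr (Or.inr (by omega))))))))
  · have : w = u + 1 := by omega
    subst this
    exact Or.inr (Or.inl (pl_N hA hB hE hN ha hwN
      (Or.inr (Or.inr (Or.inr (Or.inr (Or.inr (by omega))))))))

lemma chc_N {u : ℕ} (hu : u < N) (hd : dP B E u) :
    uqN N (sP A B E) (dP B E) (fP E) u (fP E u) := by
  unfold dP at hd
  rcases hd with h | h
  · rw [fP, if_pos h.2.1]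
    exact uq_6 hA hB hE hN ha h
  · rw [fP, if_neg (by omega)]
    split_ifs with q
    · exact uq_8 hA hB hE hN ha hu ⟨h.1, q⟩
    · exact uq_80 hA hB hE hN ha hu ⟨h.1, by omega⟩

lemma irr_N {u : ℕ} (hu : u < N) (hd : dP B E u) : fP E u < N ∧ fP E u ≠ u ∧ fP E u ≠ u + 1 ∧
    u ≠ fP E u + 1 ∧ ¬ (u + 1 = N ∧ fP E u = 0) ∧ ¬ (fP E u + 1 = N ∧ u = 0) ∧
    ¬ (dP B E (fP E u) ∧ fP E (fP E u) = u) := by
  unfold dP at hd
  rcases hd with h | h
  · rw [fP, if_pos h.2.1]
    refine ⟨by omega, by omega, by omega, by omega, by omega, by omega, ?_⟩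
    rintro ⟨k, _⟩
    unfold dP at k
    omega
  · rw [fP, if_neg (by omega)]
    split_ifs with q
    · refine ⟨by omega, by omega, by omega, by omega, by omega, by omega, ?_⟩
      rintro ⟨k, k'⟩
      rw [fP, if_neg (by omega), if_neg (by omega)] at k'
      omega
    · refine ⟨by omega, by omega, by omega, by omega, by omega, by omega, ?_⟩
      rintro ⟨k, k'⟩
      unfold dP at k
      omega

lemma spk_N {u : ℕ} (hu : u < N) : plN N (sP A B E) (dP B E) (fP E) u ∨ ∃ q < N, q ≠ u ∧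
    ¬ (sP A B E u ∧ sP A B E q) ∧
    ∀ k < N, nbN N (dP B E) (fP E) u k → ¬ nbN N (dP B E) (fP E) q k := by
  have symm : ∀ u v, nbN N (dP B E) (fP E) u v → nbN N (dP B E) (fP E) v u := by
    intro u v h
    unfold nbN at h ⊢
    tauto
  by_cases h0 : u = 0
  · right
    subst h0
    refine ⟨N - 1, by omega, by omega, ?_, ?_⟩
    · intro k
      have := k.2
      revert this
      unfold sP
      by_cases c1 : N - 1 < E
      · by_cases c2 : N - 1 < B
        · omega
        · omega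
      · omega
    · intro k hk h1 h2
      have hk0 : k ≠ 0 := fun e => h1.1 e.symm
      rcases nbc hA hB hE hN ha (by omega) (by omega) hk h2 with
        q | q | q | q | q | q | q | q
      · omega
      · omega
      · rcases nbc hA hB hE hN ha (by omega) hk (by omega) (symm _ _ h1) with
          q' | q' | q' | q' | q' | q' | q' | q'
        all_goals omega
      all_goals omega
  · by_cases h4 : u = 4
    · right
      subst h4
      refine ⟨3, by omega, by omega, ?_, ?_⟩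
      · intro k
        have := k.2
        revert this
        unfold sP
        omega
      · intro k hk h1 h2
        rcases nbc hA hB hE hN ha (by omega) (by omega) hk h2 with
          q | q | q | q | q | q | q | q
        · exact h1.1 (by omega)
        · omega
        · rcases nbc hA hB hE hN ha (by omega) (by omega) hk h1 with
            q' | q' | q' | q' | q' | q' | q' | q'
          all_goals omega
        all_goals omega
    · by_cases h2 : u = 2
      · left
        exact pl_N hA hB hE hN ha hu (Or.inl h2)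
      · right
        refine ⟨2, by omega, fun e => h2 e.symm, ?_, ?_⟩
        · intro k
          have := k.2
          revert this
          unfold sP
          omega
        · intro k hk h3 h5
          rcases nbc hA hB hE hN ha (by omega) (by omega) hk h5 with
            q | q | q | q | q | q | q | q
          · rcases nbc hA hB hE hN ha (by omega) hu hk h3 with
              q' | q' | q' | q' | q' | q' | q' | q'
            all_goals omega
          · omega
          · rcases nbc hA hB hE hN ha (by omega) hu hk h3 with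
              q' | q' | q' | q' | q' | q' | q' | q'
            all_goals omega
          all_goals omega

end

end MPd41ace
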