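import Pool.Agent.Lib.MP_d41ace_co.TwPat2
import Pool.Agent.Lib.MP_d41ace_co.Tw

/-!
The graphs with twins: order and size.
-/

set_option autoImplicit false

namespace MPd41ace

open SimpleGraph

section

variable {N : ℕ} [NeZero N] {s D : ℕ → Prop} {F : ℕ → ℕ}

/-- the set on the rim -/
def SZ (N : ℕ) (s : ℕ → Prop) : ZMod N → Prop := fun i => s i.val

/-- the chords on the rim -/
def CZ (N : ℕ) (D : ℕ → Prop) (F : ℕ → ℕ) : ZMod N → ZMod N → Prop :=
  fun i j => D i.val ∧ j.val = F i.val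

lemma val_succ (hN : 2 ≤ N) (i : ZMod N) :
    (i + 1).val = if i.val + 1 = N then 0 else i.val + 1 := by
  have h1 : i + 1 = ((i.val + 1 : ℕ) : ZMod N) := by
    rw [Nat.cast_add, ZMod.natCast_zmod_val, Nat.cast_one]
  have h2 := ZMod.val_lt i
  rw [h1, ZMod.val_natCast]
  split_ifs with k
  · rw [k, Nat.mod_self]
  · exact Nat.mod_eq_of_lt (by omega)

lemma eq_succ_iff (hN : 2 ≤ N) {i j : ZMod N} :
    j = i + 1 ↔ (j.val = i.val + 1 ∨ (i.val + 1 = N ∧ j.val = 0)) := by
  have h2 := ZMod.val_lt j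
  rw [← (ZMod.val_injective N).eq_iff, val_succ hN]
  split_ifs with k
  · constructor
    · intro e
      exact Or.inr ⟨k, e⟩
    · rintro (e | e)
      · omega
      · exact e.2
  · constructor
    · exact Or.inl
    · rintro (e | e)
      · exact e
      · exact absurd e.1 k

lemma nb_iff (hN : 2 ≤ N) {i j : ZMod N} : nb (CZ N D F) i j ↔ nbN N D F i.val j.val := by
  unfold nb nbN CZ
  rw [eq_succ_iff hN, eq_succ_iff hN, Ne, Ne, (ZMod.val_injective N).eq_iff]
  tauto

lemma val_cast {k : ℕ} (hk : k < N) : ((k : ℕ) : ZMod N).val = k := ZMod.val_natCast_of_lt hk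

lemma uq_iff (hN : 2 ≤ N) {i j : ZMod N} :
    uq (SZ N s) (CZ N D F) i j ↔ uqN N s D F i.val j.val := by
  unfold uq uqN
  rw [nb_iff hN]
  refine and_congr_right fun _ => and_congr Iff.rfl ?_
  constructor
  · intro h w hw h1 h2
    have := h (w : ZMod N) ((nb_iff hN).2 (by rwa [val_cast hw])) (by
      unfold SZ
      rwa [val_cast hw])
    rw [← this, val_cast hw]
  · intro h w h1 h2
    exact ZMod.val_injective N (h w.val (ZMod.val_lt w) ((nb_iff hN).1 h1) h2)

lemma pl_of {i : ZMod N} (h : plN N s D F i.val) : pl (SZ N s) (CZ N D F) i := by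
  refine ⟨h.1, fun j => ⟨fun k => h.2.1 k.1, fun k => ?_⟩⟩
  exact h.2.2 j.val (ZMod.val_lt j) k.1 k.2.symm

lemma card_val (p : ℕ → Prop) [DecidablePred p] :
    (Finset.univ.filter fun i : ZMod N => p i.val).card = Nat.count p N := by
  rw [Nat.count_eq_card_filter_range]
  refine Finset.card_bij (fun i _ => i.val) ?_ ?_ ?_
  · intro i hi
    rw [Finset.mem_filter] at hi
    rw [Finset.mem_filter, Finset.mem_range]
    exact ⟨ZMod.val_lt i, hi.2⟩
  · intro i _ j _ e
    exact ZMod.val_injective N e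
  · intro k hk
    rw [Finset.mem_filter, Finset.mem_range] at hk
    refine ⟨(k : ZMod N), ?_, val_cast hk.1⟩
    rw [Finset.mem_filter, val_cast hk.1]
    exact ⟨Finset.mem_univ _, hk.2⟩

open scoped Classical in
lemma card_chords [DecidablePred D] (hF : ∀ u < N, D u → F u < N) :
    (Finset.univ.filter fun p : ZMod N × ZMod N => CZ N D F p.1 p.2).card = Nat.count D N := by
  rw [← card_val D]
  refine Finset.card_bij (fun p _ => p.1) ?_ ?_ ?_
  · intro p hp
    rw [Finset.mem_filter] at hp ⊢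
    exact ⟨Finset.mem_univ _, hp.2.1⟩
  · rintro ⟨i, j⟩ hp ⟨i', j'⟩ hq e
    rw [Finset.mem_filter] at hp hq
    have e' : i = i' := e
    subst e'
    have h1 := hp.2.2
    have h2 := hq.2.2
    have : j = j' := ZMod.val_injective N (h1.trans h2.symm)
    rw [this]
  · intro i hi
    rw [Finset.mem_filter] at hi
    refine ⟨(i, ((F i.val : ℕ) : ZMod N)), ?_, rfl⟩
    rw [Finset.mem_filter]
    refine ⟨Finset.mem_univ _, hi.2, ?_⟩
    exact val_cast (hF _ (ZMod.val_lt i) hi.2)

end

section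

variable {N A B E a c d e : ℕ} (hA : A = 4 + 3 * c) (hB : B = A + 4 * a) (hE : E = B + 6 * d)
  (hN : N = E + 8 * e) (ha : 2 ≤ a)

include hA hB hE hN ha

lemma cnt_s0 : Nat.count (sP A B E) 4 = 2 := by
  have h0 : sP A B E 0 := Or.inl (by norm_num)
  have h1 : sP A B E 1 := Or.inl (by norm_num)
  have h2 : ¬ sP A B E 2 := by
    unfold sP
    omega
  have h3 : ¬ sP A B E 3 := by
    unfold sP
    omega
  rw [Nat.count_succ, Nat.count_succ, Nat.count_succ, Nat.count_succ, Nat.count_zero, if_pos h0,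
    if_pos h1, if_neg h2, if_neg h3]

lemma cnt_s1 : ∀ t ≤ c, Nat.count (sP A B E) (4 + 3 * t) = 2 + 2 * t := by
  intro t
  induction t with
  | zero => exact fun _ => cnt_s0 hA hB hE hN ha
  | succ t ih =>
    intro ht
    have h0 : sP A B E (4 + 3 * t) := Or.inr (Or.inl (by omega))
    have h1 : sP A B E (4 + 3 * t + 1) := Or.inr (Or.inl (by omega))
    have h2 : ¬ sP A B E (4 + 3 * t + 1 + 1) := by
      unfold sP
      omega
    rw [show 4 + 3 * (t + 1) = 4 + 3 * t + 1 + 1 + 1 by ring, Nat.count_succ, Nat.count_succ,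
      Nat.count_succ, if_pos h0, if_pos h1, if_neg h2, ih (by omega)]
    ring

lemma cnt_s2 : ∀ t ≤ a, Nat.count (sP A B E) (A + 4 * t) = 2 + 2 * c + 2 * t := by
  intro t
  induction t with
  | zero =>
    intro _
    have := cnt_s1 hA hB hE hN ha c le_rfl
    rw [← hA] at this
    rw [mul_zero, add_zero, this]
    ring
  | succ t ih =>
    intro ht
    have h0 : sP A B E (A + 4 * t) := Or.inr (Or.inr (Or.inl (by omega)))
    have h1 : sP A B E (A + 4 * t + 1) := Or.inr (Or.inr (Or.inl (by omega)))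
    have h2 : ¬ sP A B E (A + 4 * t + 1 + 1) := by
      unfold sP
      omega
    have h3 : ¬ sP A B E (A + 4 * t + 1 + 1 + 1) := by
      unfold sP
      omega
    rw [show A + 4 * (t + 1) = A + 4 * t + 1 + 1 + 1 + 1 by ring, Nat.count_succ, Nat.count_succ,
      Nat.count_succ, Nat.count_succ, if_pos h0, if_pos h1, if_neg h2, if_neg h3, ih (by omega)]
    ring

lemma cnt_s3 : ∀ t ≤ d, Nat.count (sP A B E) (B + 6 * t) = 2 + 2 * c + 2 * a + 2 * t := by
  intro t
  induction t with
  | zero =>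
    intro _
    have := cnt_s2 hA hB hE hN ha a le_rfl
    rw [← hB] at this
    rw [mul_zero, add_zero, this]
    ring
  | succ t ih =>
    intro ht
    have h0 : sP A B E (B + 6 * t) := Or.inr (Or.inr (Or.inr (Or.inl (by omega))))
    have h1 : ¬ sP A B E (B + 6 * t + 1) := by
      unfold sP
      omega
    have h2 : ¬ sP A B E (B + 6 * t + 1 + 1) := by
      unfold sP
      omega
    have h3 : sP A B E (B + 6 * t + 1 + 1 + 1) := Or.inr (Or.inr (Or.inr (Or.inl (by omega))))
    have h4 : ¬ sP A B E (B + 6 * t + 1 + 1 + 1 + 1) := by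
      unfold sP
      omega
    have h5 : ¬ sP A B E (B + 6 * t + 1 + 1 + 1 + 1 + 1) := by
      unfold sP
      omega
    rw [show B + 6 * (t + 1) = B + 6 * t + 1 + 1 + 1 + 1 + 1 + 1 by ring, Nat.count_succ,
      Nat.count_succ, Nat.count_succ, Nat.count_succ, Nat.count_succ, Nat.count_succ, if_pos h0,
      if_neg h1, if_neg h2, if_pos h3, if_neg h4, if_neg h5, ih (by omega)]
    ring

lemma cnt_s4 : ∀ t, Nat.count (sP A B E) (E + 8 * t) = 2 + 2 * c + 2 * a + 2 * d + 3 * t := by
  intro t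
  induction t with
  | zero =>
    have := cnt_s3 hA hB hE hN ha d le_rfl
    rw [← hE] at this
    rw [mul_zero, add_zero, this]
    ring
  | succ t ih =>
    have h0 : sP A B E (E + 8 * t) := Or.inr (Or.inr (Or.inr (Or.inr (by omega))))
    have h1 : ¬ sP A B E (E + 8 * t + 1) := by
      unfold sP
      omega
    have h2 : sP A B E (E + 8 * t + 1 + 1) := Or.inr (Or.inr (Or.inr (Or.inr (by omega))))
    have h3 : ¬ sP A B E (E + 8 * t + 1 + 1 + 1) := by
      unfold sP
      omega
    have h4 : sP A B E (E + 8 * t + 1 + 1 + 1 + 1) := Or.inr (Or.inr (Or.inr (Or.inr (by omega))))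
    have h5 : ¬ sP A B E (E + 8 * t + 1 + 1 + 1 + 1 + 1) := by
      unfold sP
      omega
    have h6 : ¬ sP A B E (E + 8 * t + 1 + 1 + 1 + 1 + 1 + 1) := by
      unfold sP
      omega
    have h7 : ¬ sP A B E (E + 8 * t + 1 + 1 + 1 + 1 + 1 + 1 + 1) := by
      unfold sP
      omega
    rw [show E + 8 * (t + 1) = E + 8 * t + 1 + 1 + 1 + 1 + 1 + 1 + 1 + 1 by ring, Nat.count_succ,
      Nat.count_succ, Nat.count_succ, Nat.count_succ, Nat.count_succ, Nat.count_succ,
      Nat.count_succ, Nat.count_succ, if_pos h0,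
      if_neg h1, if_pos h2, if_neg h3, if_pos h4, if_neg h5, if_neg h6, if_neg h7, ih]
    ring

lemma cnt_d3 : ∀ t ≤ d, Nat.count (dP B E) (B + 6 * t) = t := by
  intro t
  induction t with
  | zero =>
    intro _
    rw [mul_zero, add_zero]
    refine Nat.count_of_forall_not fun u hu => ?_
    unfold dP
    omega
  | succ t ih =>
    intro ht
    have h0 : dP B E (B + 6 * t) := Or.inl (by omega)
    have h1 : ¬ dP B E (B + 6 * t + 1) := by
      unfold dP
      omega
    have h2 : ¬ dP B E (B + 6 * t + 1 + 1) := by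
      unfold dP
      omega
    have h3 : ¬ dP B E (B + 6 * t + 1 + 1 + 1) := by
      unfold dP
      omega
    have h4 : ¬ dP B E (B + 6 * t + 1 + 1 + 1 + 1) := by
      unfold dP
      omega
    have h5 : ¬ dP B E (B + 6 * t + 1 + 1 + 1 + 1 + 1) := by
      unfold dP
      omega
    rw [show B + 6 * (t + 1) = B + 6 * t + 1 + 1 + 1 + 1 + 1 + 1 by ring, Nat.count_succ,
      Nat.count_succ, Nat.count_succ, Nat.count_succ, Nat.count_succ, Nat.count_succ, if_pos h0,
      if_neg h1, if_neg h2, if_neg h3, if_neg h4, if_neg h5, ih (by omega)]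

lemma cnt_d4 : ∀ t, Nat.count (dP B E) (E + 8 * t) = d + 4 * t := by
  intro t
  induction t with
  | zero =>
    have := cnt_d3 hA hB hE hN ha d le_rfl
    rw [← hE] at this
    rw [mul_zero, add_zero, this]
    ring
  | succ t ih =>
    have h0 : dP B E (E + 8 * t) := Or.inr (by omega)
    have h1 : ¬ dP B E (E + 8 * t + 1) := by
      unfold dP
      omega
    have h2 : dP B E (E + 8 * t + 1 + 1) := Or.inr (by omega)
    have h3 : ¬ dP B E (E + 8 * t + 1 + 1 + 1) := by
      unfold dP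
      omega
    have h4 : dP B E (E + 8 * t + 1 + 1 + 1 + 1) := Or.inr (by omega)
    have h5 : ¬ dP B E (E + 8 * t + 1 + 1 + 1 + 1 + 1) := by
      unfold dP
      omega
    have h6 : dP B E (E + 8 * t + 1 + 1 + 1 + 1 + 1 + 1) := Or.inr (by omega)
    have h7 : ¬ dP B E (E + 8 * t + 1 + 1 + 1 + 1 + 1 + 1 + 1) := by
      unfold dP
      omega
    rw [show E + 8 * (t + 1) = E + 8 * t + 1 + 1 + 1 + 1 + 1 + 1 + 1 + 1 by ring, Nat.count_succ,
      Nat.count_succ, Nat.count_succ, Nat.count_succ, Nat.count_succ, Nat.count_succ,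
      Nat.count_succ, Nat.count_succ, if_pos h0,
      if_neg h1, if_pos h2, if_neg h3, if_pos h4, if_neg h5, if_pos h6, if_neg h7, ih]
    ring

/-- adjacent members of `S` -/
lemma cnt_pairs [NeZero N] :
    1 + c + a ≤ {i | SZ N (sP A B E) i ∧ SZ N (sP A B E) (i + 1)}.ncard := by
  classical
  rw [Set.ncard_eq_toFinset_card']
  have e0 : (Finset.range (1 + c + a)).card = 1 + c + a := Finset.card_range _
  set g : ℕ → ℕ := fun t => if t = 0 then 0 else if t ≤ c then 4 + 3 * (t - 1) else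
    A + 4 * (t - 1 - c) with hg
  have hgN : ∀ t < 1 + c + a, g t + 1 < N ∧ sP A B E (g t) ∧ sP A B E (g t + 1) := by
    intro t ht
    rw [hg]
    dsimp only
    by_cases k1 : t = 0
    · rw [if_pos k1]
      exact ⟨by omega, Or.inl (by norm_num), Or.inl (by norm_num)⟩
    · rw [if_neg k1]
      by_cases k2 : t ≤ c
      · rw [if_pos k2]
        exact ⟨by omega, Or.inr (Or.inl (by omega)), Or.inr (Or.inl (by omega))⟩
      · rw [if_neg k2]
        exact ⟨by omega, Or.inr (Or.inr (Or.inl (by omega))), Or.inr (Or.inr (Or.inl (by omega)))⟩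
  rw [← e0]
  refine Finset.card_le_card_of_injOn (fun t => ((g t : ℕ) : ZMod N)) ?_ ?_
  · intro t ht
    rw [Finset.mem_coe, Finset.mem_range] at ht
    obtain ⟨h1, h2, h3⟩ := hgN t ht
    rw [Finset.mem_coe, Set.mem_toFinset]
    show sP A B E _ ∧ sP A B E _
    rw [val_cast (by omega)]
    have : ((g t : ℕ) : ZMod N) + 1 = ((g t + 1 : ℕ) : ZMod N) := by push_cast; ring
    rw [this, val_cast h1]
    exact ⟨h2, h3⟩
  · intro t ht t' ht' e1
    rw [Finset.mem_coe, Finset.mem_range] at ht ht'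
    have e2 : g t = g t' := by
      have h1 := (hgN t ht).1
      have h2 := (hgN t' ht').1
      have e3 : ((g t : ℕ) : ZMod N) = ((g t' : ℕ) : ZMod N) := e1
      rw [← val_cast (N := N) (k := g t) (by omega), ← val_cast (N := N) (k := g t') (by omega), e3]
    rw [hg] at e2
    dsimp only at e2
    split_ifs at e2 with c1 c2 c3 c4 c5 c6 <;> omega

theorem tw_pat [NeZero N] {b : ℕ} (hb : 0 < b) (hab : b + 1 ≤ a + c) :
    Tw N b (SZ N (sP A B E)) (CZ N (dP B E) (fP E)) := by
  have hN2 : 2 ≤ N := by omega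
  refine ⟨by omega, hb, ?_, ?_, ?_, ?_, ?_, ?_, ?_⟩
  · rintro i j ⟨h1, h2⟩
    obtain ⟨k1, k2, k3, k4, k5, k6, k7⟩ := irr_N hA hB hE hN ha (ZMod.val_lt i) h1
    rw [← h2] at k1 k2 k3 k4 k5 k6 k7
    refine ⟨?_, ?_, ?_, ?_⟩
    · rintro rfl
      exact k2 rfl
    · rw [Ne, eq_succ_iff hN2]
      rintro (q | q)
      · exact k3 q
      · exact k5 q
    · rw [Ne, eq_succ_iff hN2]
      rintro (q | q)
      · exact k4 q
      · exact k6 q
    · rintro ⟨q1, q2⟩
      exact k7 ⟨q1, q2.symm⟩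
  · intro i
    obtain ⟨v, h1, h2, h3⟩ := dom_N hA hB hE hN ha (ZMod.val_lt i)
    refine ⟨(v : ZMod N), (nb_iff hN2).2 (by rwa [val_cast h1]), ?_⟩
    unfold SZ
    rwa [val_cast h1]
  · intro i hi
    obtain ⟨k, h1, h2⟩ := uniq_N hA hB hE hN ha (ZMod.val_lt i) hi
    exact ⟨(k : ZMod N), (uq_iff hN2).2 (by rwa [val_cast h1])⟩
  · intro i
    have := rimc_N hA hB hE hN ha (ZMod.val_lt i) (w := (i + 1).val)
      ((eq_succ_iff hN2).1 rfl) (ZMod.val_lt _)
    rcases this with h | h | h | h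
    · exact Or.inl (pl_of h)
    · exact Or.inr (Or.inl (pl_of h))
    · exact Or.inr (Or.inr (Or.inl ((uq_iff hN2).2 h)))
    · exact Or.inr (Or.inr (Or.inr ((uq_iff hN2).2 h)))
  · rintro i j ⟨h1, h2⟩
    left
    rw [uq_iff hN2, h2]
    exact chc_N hA hB hE hN ha (ZMod.val_lt i) h1
  · intro i
    rcases spk_N hA hB hE hN ha (ZMod.val_lt i) with h | ⟨q, h1, h2, h3, h4⟩
    · exact Or.inl (pl_of h)
    · right
      refine ⟨(q : ZMod N), ?_, ?_, ?_⟩
      · intro e1
        apply h2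
        rw [← e1, val_cast h1]
      · unfold SZ
        rw [val_cast h1]
        exact h3
      · intro j h5 h6
        rw [nb_iff hN2] at h5 h6
        rw [val_cast h1] at h6
        exact h4 j.val (ZMod.val_lt j) h5 h6
  · have := cnt_pairs hA hB hE hN ha
    omega

/-- THE PAIRS REALISED BY THE GRAPHS WITH TWINS -/
theorem tw_realised {b : ℕ} (hb : 0 < b) (hab : b + 1 ≤ a + c) :
    Realised (N + 1 + b) (2 * N + b * (2 + 2 * c + 2 * a + 2 * d + 3 * e) + (d + 4 * e)) := by
  classical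
  have : NeZero N := ⟨by omega⟩
  refine (tw_pat hA hB hE hN ha hb hab).realised ?_ ?_
  · have h1 := card_val (N := N) (sP A B E)
    have h2 := cnt_s4 hA hB hE hN ha e
    rw [← hN] at h2
    rw [h2] at h1
    rw [← h1]
    congr 1
    ext i
    rw [Finset.mem_filter, Finset.mem_filter]
    rfl
  · have h1 := card_chords (N := N) (D := dP B E) (F := fP E)
      fun u hu hd => (irr_N hA hB hE hN ha hu hd).1
    have h2 := cnt_d4 hA hB hE hN ha e
    rw [← hN] at h2
    rw [h1, h2]

end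

end MPd41ace
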