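import Pool.Agent.Lib.MP_d41ace_co.Basic

/-!
Paths in a wheel, with the number of rim edges used by a spanning path.
-/

set_option autoImplicit false

namespace MPd41ace

open SimpleGraph

variable {V : Type*} {G : SimpleGraph V} {N : ℕ} {z : ZMod N → V} {w : V}

/-- `z` is the rim and `w` the hub of a wheel in `G` -/
structure Whl (G : SimpleGraph V) (N : ℕ) (z : ZMod N → V) (w : V) : Prop where
  /-- distinct rim vertices -/
  inj : Function.Injective z
  /-- the hub is not on the rim -/
  hub : ∀ i, z i ≠ w
  /-- rim edges -/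
  rim : ∀ i, G.Adj (z i) (z (i + 1))
  /-- spokes -/
  spoke : ∀ i, G.Adj w (z i)

/-- the rim arc from `i` with `p` edges -/
def arc (z : ZMod N → V) (i : ZMod N) (p : ℕ) : List V :=
  (List.range (p + 1)).map fun t : ℕ => z (i + t)

lemma arc_succ (i : ZMod N) (p : ℕ) : arc z i (p + 1) = arc z i p ++ [z (i + (p + 1 : ℕ))] := by
  unfold arc
  rw [List.range_succ (n := p + 1), List.map_append]
  rfl

lemma arc_zero (i : ZMod N) : arc z i 0 = [z i] := by
  unfold arc
  simp

lemma length_arc (i : ZMod N) (p : ℕ) : (arc z i p).length = p + 1 := by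
  unfold arc
  simp

lemma mem_arc {i : ZMod N} {p : ℕ} {y : V} : y ∈ arc z i p ↔ ∃ t ≤ p, z (i + (t : ℕ)) = y := by
  unfold arc
  simp only [List.mem_map, List.mem_range, Nat.lt_succ_iff]

lemma cast_inj {s t : ℕ} (hs : s < N) (ht : t < N) (h : (s : ZMod N) = (t : ZMod N)) : s = t := by
  rw [ZMod.natCast_eq_natCast_iff'] at h
  rwa [Nat.mod_eq_of_lt hs, Nat.mod_eq_of_lt ht] at h

lemma Whl.cast_inj (h : Whl G N z w) {i : ZMod N} {s t : ℕ} (hs : s < N) (ht : t < N)
    (e : z (i + s) = z (i + t)) : s = t :=
  MPd41ace.cast_inj hs ht (add_left_cancel (h.inj e))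

lemma Whl.arc_path (h : Whl G N z w) (i : ZMod N) : ∀ {p : ℕ}, p < N →
    PathL G (z i) (z (i + p)) (arc z i p) := by
  intro p
  induction p with
  | zero =>
    intro _
    rw [arc_zero]
    simpa using PathL.single (G := G) (z i)
  | succ p ih =>
    intro hp
    rw [arc_succ]
    refine (ih (by omega)).snoc ?_ ?_
    · have := h.rim (i + p)
      have e : i + (p : ZMod N) + 1 = i + ((p + 1 : ℕ) : ZMod N) := by
        push_cast
        ring
      rwa [e] at this
    · rw [mem_arc]
      rintro ⟨t, ht, e⟩
      have := h.cast_inj (by omega) hp e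
      omega

open scoped Classical in
/-- indicator of a good rim edge -/
noncomputable def gd (z : ZMod N → V) (A : V → Prop) (t : ZMod N) : ℕ :=
  if A (z t) ∧ A (z (t + 1)) then 1 else 0

lemma cnt_arc (A : V → Prop) (i : ZMod N) (p : ℕ) :
    cnt A (arc z i p) = ∑ t ∈ Finset.range p, gd z A (i + t) := by
  classical
  induction p with
  | zero =>
    rw [arc_zero]
    simp
  | succ p ih =>
    rw [Finset.sum_range_succ, ← ih, arc_succ]
    have e : ∃ l, arc z i p = l ++ [z (i + p)] := by
      cases p with
      | zero => exact ⟨[], by rw [arc_zero]; simp⟩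
      | succ q => exact ⟨_, arc_succ i q⟩
    obtain ⟨l, hl⟩ := e
    rw [hl, cnt_concat]
    unfold gd
    have e : i + (p : ZMod N) + 1 = i + ((p + 1 : ℕ) : ZMod N) := by
      push_cast
      ring
    rw [e]

/-- number of good rim edges -/
noncomputable def tot [NeZero N] (z : ZMod N → V) (A : V → Prop) : ℕ :=
  ∑ t : ZMod N, gd z A t

lemma sum_range_rot [NeZero N] (f : ZMod N → ℕ) (i : ZMod N) :
    ∑ t ∈ Finset.range N, f (i + t) = ∑ t : ZMod N, f t := by
  refine Finset.sum_bij (fun t _ => i + (t : ZMod N)) ?_ ?_ ?_ ?_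
  · intro a _
    exact Finset.mem_univ _
  · intro a ha b hb e
    exact cast_inj (Finset.mem_range.1 ha) (Finset.mem_range.1 hb) (add_left_cancel e)
  · intro x _
    refine ⟨(x - i).val, Finset.mem_range.2 (ZMod.val_lt _), ?_⟩
    rw [ZMod.natCast_zmod_val]
    ring
  · intro a _
    rfl

/-- `wheel set` -/
def WS (z : ZMod N → V) (w : V) : Set V := insert w (Set.range z)

lemma gd_le (A : V → Prop) (t : ZMod N) : gd z A t ≤ 1 := by
  unfold gd
  split_ifs <;> omega

lemma sum_split [NeZero N] (f : ZMod N → ℕ) (i : ZMod N) {k : ℕ} (hk : 1 ≤ k) (hkN : k < N) :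
    ∑ t : ZMod N, f t = ∑ t ∈ Finset.range (k - 1), f (i + t) + f (i + ((k - 1 : ℕ) : ZMod N))
      + (∑ t ∈ Finset.range (N - 1 - k), f (i + k + t) + f (i + ((N - 1 : ℕ) : ZMod N))) := by
  rw [← sum_range_rot f i]
  obtain ⟨k, rfl⟩ : ∃ j, k = j + 1 := ⟨k - 1, by omega⟩
  obtain ⟨M, rfl⟩ : ∃ M, N = (k + 1) + (M + 1) := ⟨N - k - 2, by omega⟩
  rw [Finset.sum_range_add, Finset.sum_range_succ, Finset.sum_range_succ _ M]
  have e1 : k + 1 - 1 = k := by omega
  have e2 : k + 1 + (M + 1) - 1 - (k + 1) = M := by omega
  have e3 : k + 1 + (M + 1) - 1 = k + 1 + M := by omega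
  rw [e1, e2, e3]
  congr 1
  congr 1
  refine Finset.sum_congr rfl fun t _ => ?_
  congr 1
  push_cast
  ring

/-- THE PATHS OF A WHEEL -/
theorem Whl.paths [NeZero N] (h : Whl G N z w) {a b : V} (ha : a ∈ WS z w) (hb : b ∈ WS z w)
    (hab : a ≠ b) {j : ℕ} (h3 : 3 ≤ j) (hj : j ≤ N + 1) :
    ∃ l, PathL G a b l ∧ l.length = j ∧ (∀ y ∈ l, y ∈ WS z w) ∧
      (j = N + 1 → ∀ A : V → Prop, tot z A ≤ cnt A l + 2) := by
  classical
  have hub : ∀ i : ZMod N, ∃ l, PathL G w (z i) l ∧ l.length = j ∧ (∀ y ∈ l, y ∈ WS z w) ∧
      (j = N + 1 → ∀ A : V → Prop, tot z A ≤ cnt A l + 2) := by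
    intro i
    have hp := h.arc_path i (p := j - 2) (by omega)
    refine ⟨[w] ++ (arc z i (j - 2)).reverse, ?_, ?_, ?_, ?_⟩
    · refine (PathL.single w).append hp.reverse (h.spoke _) ?_
      intro x hx hx'
      rw [List.mem_singleton] at hx
      rw [List.mem_reverse, mem_arc] at hx'
      obtain ⟨t, _, e⟩ := hx'
      exact h.hub _ (e.trans hx)
    · rw [List.length_append, List.length_reverse, length_arc]
      simp only [List.length_singleton]
      omega
    · intro y hy
      simp only [List.singleton_append, List.mem_cons, List.mem_reverse, mem_arc] at hy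
      rcases hy with rfl | ⟨t, _, rfl⟩
      · exact Set.mem_insert _ _
      · exact Set.mem_insert_of_mem _ ⟨_, rfl⟩
    · intro hjN A
      have k1 := cnt_append_le (A := A) [w] (arc z i (j - 2)).reverse
      rw [cnt_reverse, cnt_arc] at k1
      have k2 : tot z A = ∑ t ∈ Finset.range (j - 2), gd z A (i + t)
          + gd z A (i + ((j - 2 : ℕ) : ZMod N)) := by
        unfold tot
        rw [← sum_range_rot _ i, ← Finset.sum_range_succ]
        congr 2
        omega
      have k3 := gd_le (z := z) A (i + ((j - 2 : ℕ) : ZMod N))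
      omega
  rcases ha with rfl | ⟨i, rfl⟩
  · rcases hb with rfl | ⟨i', rfl⟩
    · exact absurd rfl hab
    · exact hub i'
  · rcases hb with rfl | ⟨i', rfl⟩
    · obtain ⟨l, h1, h2, h3, h4⟩ := hub i
      refine ⟨l.reverse, h1.reverse, by rw [List.length_reverse, h2], ?_, ?_⟩
      · intro y hy
        exact h3 y (List.mem_reverse.1 hy)
      · intro e A
        rw [cnt_reverse]
        exact h4 e A
    · -- two rim vertices
      have hne : i' - i ≠ 0 := by
        intro e
        exact hab (by rw [sub_eq_zero.1 e])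
      obtain ⟨k, hk1, hkN, rfl⟩ : ∃ k : ℕ, 1 ≤ k ∧ k < N ∧ i' = i + k := by
        refine ⟨(i' - i).val, ?_, ZMod.val_lt _, ?_⟩
        · have : (i' - i).val ≠ 0 := by
            intro e
            exact hne ((ZMod.val_eq_zero _).1 e)
          omega
        · rw [ZMod.natCast_zmod_val]
          ring
      set p := min (j - 3) (k - 1) with hp
      have hp1 : p ≤ k - 1 := min_le_right _ _
      have hp2 : p ≤ j - 3 := min_le_left _ _
      set q := j - 3 - p with hq
      have hq1 : q ≤ N - 1 - k := by
        rcases le_total (j - 3) (k - 1) with c | c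
        · have : p = j - 3 := min_eq_left c
          omega
        · have : p = k - 1 := min_eq_right c
          omega
      have P1 := h.arc_path i (p := p) (by omega)
      have P2 := h.arc_path (i + k) (p := q) (by omega)
      have hdis : List.Disjoint (arc z i p) (arc z (i + k) q) := by
        intro x hx hx'
        rw [mem_arc] at hx hx'
        obtain ⟨s, hs, rfl⟩ := hx
        obtain ⟨t, ht, e⟩ := hx'
        have e' : z (i + ((k + t : ℕ) : ZMod N)) = z (i + (s : ZMod N)) := by
          rw [← e]
          congr 1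
          push_cast
          ring
        have := h.cast_inj (by omega) (by omega) e'
        omega
      have hw : ∀ (c : ZMod N) (r : ℕ), w ∉ arc z c r := by
        intro c r hc
        rw [mem_arc] at hc
        obtain ⟨t, _, e⟩ := hc
        exact h.hub _ e
      refine ⟨arc z i p ++ ([w] ++ (arc z (i + k) q).reverse), ?_, ?_, ?_, ?_⟩
      · refine P1.append ((PathL.single w).append P2.reverse (h.spoke _) ?_) (h.spoke _).symm ?_
        · intro x hx hx'
          rw [List.mem_singleton] at hx
          rw [List.mem_reverse] at hx'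
          exact hw _ _ (hx ▸ hx')
        · intro x hx hx'
          rw [List.singleton_append, List.mem_cons, List.mem_reverse] at hx'
          rcases hx' with rfl | hx'
          · exact hw _ _ hx
          · exact hdis hx hx'
      · simp only [List.length_append, List.length_reverse, length_arc, List.length_singleton]
        omega
      · intro y hy
        simp only [List.mem_append, List.mem_singleton, List.mem_reverse, mem_arc] at hy
        rcases hy with ⟨t, _, rfl⟩ | rfl | ⟨t, _, rfl⟩
        · exact Set.mem_insert_of_mem _ ⟨_, rfl⟩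
        · exact Set.mem_insert _ _
        · exact Set.mem_insert_of_mem _ ⟨_, rfl⟩
      · intro hjN A
        have k1 := cnt_append_le (A := A) (arc z i p) ([w] ++ (arc z (i + k) q).reverse)
        have k2 := cnt_append_le (A := A) [w] (arc z (i + k) q).reverse
        rw [cnt_reverse, cnt_arc] at k2
        rw [cnt_arc] at k1
        have e1 : p = k - 1 := by
          rw [hp]
          exact min_eq_right (by omega)
        have e2 : q = N - 1 - k := by omega
        have k3 : tot z A = _ := sum_split (gd z A) i hk1 hkN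
        rw [e1] at k1
        rw [e2] at k2 k1
        have k4 := gd_le (z := z) A (i + ((k - 1 : ℕ) : ZMod N))
        have k5 := gd_le (z := z) A (i + ((N - 1 : ℕ) : ZMod N))
        simp only [e1, e2]
        omega

end MPd41ace
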