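import Pool.Agent.Lib.MP_d41ace_co.GamMin
import Pool.Agent.Lib.MP_d41ace_co.Pattern

/-!
Block patterns with windows for the family with matched pairs.
-/

set_option autoImplicit false

namespace MPd41ace

open SimpleGraph VG

/-- `11000`, `110`, then `k` windows `011100110`, then blocks `110` -/
def pw (k p : ℕ) : Prop :=
  p < 2 ∨ (5 ≤ p ∧ p < 7) ∨
    (8 ≤ p ∧ p < 8 + 9 * k ∧ ((1 ≤ (p - 8) % 9 ∧ (p - 8) % 9 ≤ 3) ∨
      (6 ≤ (p - 8) % 9 ∧ (p - 8) % 9 < 8))) ∨
    (8 + 9 * k ≤ p ∧ (p - 8 - 9 * k) % 3 < 2)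

instance (k p : ℕ) : Decidable (pw k p) := by
  unfold pw
  infer_instance

/-- positions which are never used, `K` windows -/
def zw (K p : ℕ) : Prop :=
  (2 ≤ p ∧ p < 5) ∨ p = 7 ∨
    (8 ≤ p ∧ p < 8 + 9 * K ∧ ((p - 8) % 9 = 5 ∨ (p - 8) % 9 = 8)) ∨
    (8 + 9 * K ≤ p ∧ (p - 8 - 9 * K) % 3 = 2)

lemma zw_not {K k p : ℕ} (hk : k ≤ K) (h : zw K p) : ¬ pw k p := by
  unfold zw at h
  unfold pw
  omega

section

variable {N k β t : ℕ} (hN : N = 8 + 9 * k + 3 * β)

include hN

lemma pw_dom (ht : t < N) (h3 : (t + 1) % N ≠ 3) : pw k t ∨ pw k ((t + 2) % N) := by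
  rw [mod_add ht (by omega)] at h3
  rw [mod_add ht (by omega)]
  unfold pw
  split_ifs at h3 with c' <;> split_ifs with c <;> omega

lemma pw_min (ht : t < N) (h : pw k ((t + 2) % N)) : ¬ pw k ((t + 4) % N) ∨ ¬ pw k t := by
  rw [mod_add ht (by omega)] at h
  rw [mod_add ht (by omega)]
  unfold pw at h ⊢
  split_ifs with c <;> split_ifs at h with c' <;> omega

omit hN in
lemma pw_c1 (ht : t < 8) (h1 : ¬ zw k (t + 1)) (h2 : ¬ zw k (t + 2)) :
    (pw k (t + 2) ∧ ¬ pw k t) ∨ (pw k (t + 1) ∧ ¬ pw k (t + 3)) := by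
  unfold zw at h1 h2
  unfold pw
  interval_cases t <;> omega

omit hN in
lemma pw_c2 (ht : 8 ≤ t) (ht' : t + 3 < 8 + 9 * k) (h1 : ¬ zw k (t + 1)) (h2 : ¬ zw k (t + 2)) :
    (pw k (t + 2) ∧ ¬ pw k t) ∨ (pw k (t + 1) ∧ ¬ pw k (t + 3)) := by
  unfold zw at h1 h2
  unfold pw
  obtain ⟨q, u, hu, rfl⟩ : ∃ q u, u < 9 ∧ t = 8 + 9 * q + u :=
    ⟨(t - 8) / 9, (t - 8) % 9, Nat.mod_lt _ (by norm_num), by omega⟩
  interval_cases u <;> omega

omit hN in
lemma pw_c3 (ht : 8 + 9 * k ≤ t) (h1 : ¬ zw k (t + 1)) (h2 : ¬ zw k (t + 2)) :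
    (pw k (t + 2) ∧ ¬ pw k t) ∨ (pw k (t + 1) ∧ ¬ pw k (t + 3)) := by
  unfold zw at h1 h2
  unfold pw
  omega

omit hN in
lemma pw_c4 (hk : 1 ≤ k) (ht : t = 8 + 9 * k - 3 ∨ t = 8 + 9 * k - 2 ∨ t = 8 + 9 * k - 1)
    (h1 : ¬ zw k (t + 1)) (h2 : ¬ zw k (t + 2)) :
    (pw k (t + 2) ∧ ¬ pw k t) ∨ (pw k (t + 1) ∧ ¬ pw k (t + 3)) := by
  unfold zw at h1 h2
  unfold pw
  obtain ⟨k, rfl⟩ : ∃ j, k = j + 1 := ⟨k - 1, by omega⟩
  rcases ht with rfl | rfl | rfl <;> omega

omit hN in
lemma pw_c (h1 : ¬ zw k (t + 1)) (h2 : ¬ zw k (t + 2)) :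
    (pw k (t + 2) ∧ ¬ pw k t) ∨ (pw k (t + 1) ∧ ¬ pw k (t + 3)) := by
  rcases Nat.lt_or_ge t 8 with d | d
  · exact pw_c1 d h1 h2
  · rcases Nat.lt_or_ge (t + 3) (8 + 9 * k) with d' | d'
    · exact pw_c2 d d' h1 h2
    · rcases Nat.lt_or_ge t (8 + 9 * k) with d'' | d''
      · exact pw_c4 (by omega) (by omega) h1 h2
      · exact pw_c3 d'' h1 h2

/-- `t` is the predecessor -/
lemma pw_crit (ht : t < N) (h1 : ¬ zw k ((t + 1) % N)) (h2 : ¬ zw k ((t + 2) % N)) :
    (pw k ((t + 2) % N) ∧ ¬ pw k t) ∨ (pw k ((t + 1) % N) ∧ ¬ pw k ((t + 3) % N)) := by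
  rw [mod_add ht (by omega)] at h1 h2
  rw [mod_add ht (by omega), mod_add ht (by omega), mod_add ht (by omega)]
  rcases Nat.lt_or_ge (t + 3) N with c | c
  · rw [if_pos (by omega)] at h1 h2
    rw [if_pos (by omega), if_pos (by omega), if_pos (by omega)]
    exact pw_c h1 h2
  · rw [if_neg (by omega : ¬ t + 3 < N)]
    have : t = N - 3 ∨ t = N - 2 ∨ t = N - 1 := by omega
    rcases this with e | e | e
    · exfalso
      rw [if_pos (by omega)] at h2
      apply h2
      unfold zw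
      rcases Nat.eq_zero_or_pos β with hβ | hβ
      · rcases Nat.eq_zero_or_pos k with hk | hk
        · omega
        · obtain ⟨k, rfl⟩ : ∃ j, k = j + 1 := ⟨k - 1, by omega⟩
          omega
      · omega
    · exfalso
      rw [if_pos (by omega)] at h1
      apply h1
      unfold zw
      rcases Nat.eq_zero_or_pos β with hβ | hβ
      · rcases Nat.eq_zero_or_pos k with hk | hk
        · omega
        · obtain ⟨k, rfl⟩ : ∃ j, k = j + 1 := ⟨k - 1, by omega⟩
          omega
      · omega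
    · left
      rw [if_neg (by omega)]
      constructor
      · unfold pw
        omega
      · refine zw_not le_rfl ?_
        unfold zw
        rcases Nat.eq_zero_or_pos β with hβ | hβ
        · rcases Nat.eq_zero_or_pos k with hk | hk
          · omega
          · obtain ⟨k, rfl⟩ : ∃ j, k = j + 1 := ⟨k - 1, by omega⟩
            omega
        · omega

end

/-! ### Counting -/

lemma sum_periodic (k : ℕ) (P : ℕ → Prop) [DecidablePred P] (n : ℕ) :
    ∑ x ∈ Finset.range (k * n), (if P (x % k) then 1 else 0)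
      = n * ∑ x ∈ Finset.range k, (if P x then 1 else 0) := by
  induction n with
  | zero => simp
  | succ n ih =>
    rw [Nat.mul_succ, Finset.sum_range_add, ih, Nat.succ_mul]
    congr 1
    refine Finset.sum_congr rfl fun x hx => ?_
    rw [Nat.mul_add_mod, Nat.mod_eq_of_lt (Finset.mem_range.1 hx)]

lemma sum_pw (k β : ℕ) :
    ∑ p ∈ Finset.range (8 + 9 * k + 3 * β), (if pw k p then 1 else 0) = 4 + 5 * k + 2 * β := by
  rw [Finset.sum_range_add, Finset.sum_range_add]
  have e1 : ∑ p ∈ Finset.range 8, (if pw k p then 1 else 0) = 4 := by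
    have : ∑ p ∈ Finset.range 8, (if pw k p then 1 else 0)
        = ∑ p ∈ Finset.range 8, (if p < 2 ∨ (5 ≤ p ∧ p < 7) then 1 else 0) := by
      refine Finset.sum_congr rfl fun x hx => ?_
      rw [Finset.mem_range] at hx
      congr 1
      rw [eq_iff_iff]
      unfold pw
      omega
    rw [this]
    decide
  have e2 : ∑ p ∈ Finset.range (9 * k), (if pw k (8 + p) then 1 else 0) = 5 * k := by
    have := sum_periodic 9 (fun u => (1 ≤ u ∧ u ≤ 3) ∨ (6 ≤ u ∧ u < 8)) k
    have d : ∑ x ∈ Finset.range 9, (if (1 ≤ x ∧ x ≤ 3) ∨ (6 ≤ x ∧ x < 8) then 1 else 0) = 5 := by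
      decide
    rw [d, mul_comm k 5] at this
    rw [← this]
    refine Finset.sum_congr rfl fun x hx => ?_
    rw [Finset.mem_range] at hx
    congr 1
    rw [eq_iff_iff]
    unfold pw
    omega
  have e3 : ∑ p ∈ Finset.range (3 * β), (if pw k (8 + 9 * k + p) then 1 else 0) = 2 * β := by
    rw [← sum_period 3 2 (by decide) β]
    refine Finset.sum_congr rfl fun x hx => ?_
    rw [Finset.mem_range] at hx
    congr 1
    rw [eq_iff_iff]
    unfold pw
    omega
  rw [e1, e2, e3]

lemma sum_pw2 (k β : ℕ) (hN : ℕ) (h : hN = 8 + 9 * k + 3 * β) :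
    ∑ p ∈ Finset.range hN, (if pw k p ∧ pw k ((p + 1) % hN) then 1 else 0) = 2 + 3 * k + β := by
  have e0 : ∑ p ∈ Finset.range hN, (if pw k p ∧ pw k ((p + 1) % hN) then 1 else 0) =
      ∑ p ∈ Finset.range (8 + 9 * k + 3 * β), (if (p = 0 ∨ p = 5 ∨
        (8 ≤ p ∧ p < 8 + 9 * k ∧ ((p - 8) % 9 = 1 ∨ (p - 8) % 9 = 2 ∨ (p - 8) % 9 = 6)) ∨
        (8 + 9 * k ≤ p ∧ (p - 8 - 9 * k) % 3 = 0)) then 1 else 0) := by
    rw [← h]
    refine Finset.sum_congr rfl fun x hx => ?_
    rw [Finset.mem_range] at hx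
    congr 1
    rw [eq_iff_iff, mod_add hx (by omega)]
    unfold pw
    split_ifs with c <;> omega
  rw [e0, Finset.sum_range_add, Finset.sum_range_add]
  have e1 : ∑ p ∈ Finset.range 8, (if (p = 0 ∨ p = 5 ∨
        (8 ≤ p ∧ p < 8 + 9 * k ∧ ((p - 8) % 9 = 1 ∨ (p - 8) % 9 = 2 ∨ (p - 8) % 9 = 6)) ∨
        (8 + 9 * k ≤ p ∧ (p - 8 - 9 * k) % 3 = 0)) then 1 else 0) = 2 := by
    have : ∑ p ∈ Finset.range 8, (if (p = 0 ∨ p = 5 ∨
        (8 ≤ p ∧ p < 8 + 9 * k ∧ ((p - 8) % 9 = 1 ∨ (p - 8) % 9 = 2 ∨ (p - 8) % 9 = 6)) ∨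
        (8 + 9 * k ≤ p ∧ (p - 8 - 9 * k) % 3 = 0)) then 1 else 0)
        = ∑ p ∈ Finset.range 8, (if p = 0 ∨ p = 5 then 1 else 0) := by
      refine Finset.sum_congr rfl fun x hx => ?_
      rw [Finset.mem_range] at hx
      congr 1
      rw [eq_iff_iff]
      omega
    rw [this]
    decide
  have e2 : ∑ p ∈ Finset.range (9 * k), (if (8 + p = 0 ∨ 8 + p = 5 ∨
        (8 ≤ 8 + p ∧ 8 + p < 8 + 9 * k ∧ ((8 + p - 8) % 9 = 1 ∨ (8 + p - 8) % 9 = 2 ∨
          (8 + p - 8) % 9 = 6)) ∨
        (8 + 9 * k ≤ 8 + p ∧ (8 + p - 8 - 9 * k) % 3 = 0)) then 1 else 0) = 3 * k := by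
    have := sum_periodic 9 (fun u => u = 1 ∨ u = 2 ∨ u = 6) k
    have d : ∑ x ∈ Finset.range 9, (if x = 1 ∨ x = 2 ∨ x = 6 then 1 else 0) = 3 := by
      decide
    rw [d, mul_comm k 3] at this
    rw [← this]
    refine Finset.sum_congr rfl fun x hx => ?_
    rw [Finset.mem_range] at hx
    congr 1
    rw [eq_iff_iff]
    omega
  have e3 : ∑ p ∈ Finset.range (3 * β), (if (8 + 9 * k + p = 0 ∨ 8 + 9 * k + p = 5 ∨
        (8 ≤ 8 + 9 * k + p ∧ 8 + 9 * k + p < 8 + 9 * k ∧ ((8 + 9 * k + p - 8) % 9 = 1 ∨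
          (8 + 9 * k + p - 8) % 9 = 2 ∨ (8 + 9 * k + p - 8) % 9 = 6)) ∨
        (8 + 9 * k ≤ 8 + 9 * k + p ∧ (8 + 9 * k + p - 8 - 9 * k) % 3 = 0)) then 1 else 0)
      = β := by
    have := sum_period 3 1 (by decide) β
    rw [one_mul] at this
    refine Eq.trans (Finset.sum_congr rfl fun x hx => ?_) this
    rw [Finset.mem_range] at hx
    congr 1
    rw [eq_iff_iff]
    omega
  rw [e1, e2, e3]

section fam

variable {L b b0 r K : ℕ} {k : Fin b → ℕ}

/-- the family with windows satisfies all conditions -/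
theorem gd_pw {N : ℕ} [NeZero N] (hN : N = 5 + 3 * L) (h1 : 3 * K + 4 ≤ b0)
    (h2 : b0 + 1 ≤ L) (hr : 1 ≤ r) (hlo : b0 + r ≤ b) (hhi : b ≤ b0 + 2 * r)
    (hk : ∀ x, k x ≤ K) (hK : ∃ x, k x = K) :
    Gd N b r b0 (3 : ZMod N) (fun x i => pw (k x) i.val) := by
  have v1 : ∀ t : ℕ, t < N → ((t : ℕ) : ZMod N).val = t := fun t ht => ZMod.val_natCast_of_lt ht
  have hNk : ∀ x, ∃ β, N = 8 + 9 * k x + 3 * β := by
    intro x
    have := hk x
    exact ⟨L - 1 - 3 * k x, by omega⟩
  have w3 : (3 : ZMod N).val = 3 := by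
    have := v1 3 (by omega)
    push_cast at this
    exact this
  have cast3 : ∀ i : ZMod N, i.val = 3 → i = 3 := by
    intro i hi
    exact ZMod.val_injective N (hi.trans w3.symm)
  refine ⟨fun x i hi => ?_, fun x i hi => ?_, fun x => ?_, fun x => ?_, fun x => ?_,
    fun i => ?_, fun i => ?_, fun x y => ?_, fun x => ?_, fun x => ?_, hr, hlo, hhi⟩
  · obtain ⟨β, hβ⟩ := hNk x
    have e1 : i - 1 + ((1 : ℕ) : ZMod N) = i := by push_cast; ring
    have e2 : i - 1 + ((2 : ℕ) : ZMod N) = i + 1 := by push_cast; ring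
    have g := pw_dom hβ (ZMod.val_lt (i - 1)) (by
      rw [← val_add, e1]
      exact fun k => hi (cast3 i k))
    rw [← val_add, e2] at g
    exact g
  · obtain ⟨β, hβ⟩ := hNk x
    have g := pw_min hβ (ZMod.val_lt (i - 2))
    rw [← val_add, ← val_add] at g
    have e : i - 2 + ((2 : ℕ) : ZMod N) = i := by push_cast; ring
    have e' : i - 2 + ((4 : ℕ) : ZMod N) = i + 2 := by push_cast; ring
    rw [e, e'] at g
    exact g hi
  · show ¬ pw (k x) (3 : ZMod N).val
    rw [w3]
    unfold pw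
    omega
  · show ¬ pw (k x) (3 + 1 : ZMod N).val
    have := v1 4 (by omega)
    push_cast at this
    rw [show (3 + 1 : ZMod N) = 4 by ring, this]
    unfold pw
    omega
  · show ¬ pw (k x) (3 - 1 : ZMod N).val
    have := v1 2 (by omega)
    push_cast at this
    rw [show (3 - 1 : ZMod N) = 2 by ring, this]
    unfold pw
    omega
  · -- crit
    obtain ⟨x0, hx0⟩ := hK
    obtain ⟨β, hβ⟩ := hNk x0
    rw [hx0] at hβ
    have e1 : i - 1 + ((1 : ℕ) : ZMod N) = i := by push_cast; ring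
    have e2 : i - 1 + ((2 : ℕ) : ZMod N) = i + 1 := by push_cast; ring
    have e3 : i - 1 + ((3 : ℕ) : ZMod N) = i + 2 := by push_cast; ring
    by_cases c1 : zw K i.val
    · exact Or.inl fun x => zw_not (hk x) c1
    by_cases c2 : zw K (i + 1).val
    · exact Or.inr (Or.inl fun x => zw_not (hk x) c2)
    refine Or.inr (Or.inr ⟨x0, ?_⟩)
    have g := pw_crit hβ (ZMod.val_lt (i - 1)) (by rwa [← val_add, e1])
      (by rwa [← val_add, e2])
    rw [← val_add, ← val_add, ← val_add, e1, e2, e3] at g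
    rw [hx0]
    exact g
  · -- zero
    have ne : ∀ s t : ℕ, s < 10 → t < 10 → s ≠ t → (s : ZMod N) ≠ (t : ZMod N) := by
      intro s t hs' ht' hst e
      exact hst (cast_inj (by omega) (by omega) e)
    have z3 : ∀ x, ¬ pw (k x) (3 : ZMod N).val := by
      intro x
      rw [w3]
      unfold pw
      omega
    have z7 : ∀ x, ¬ pw (k x) (7 : ZMod N).val := by
      intro x
      have := v1 7 (by omega)
      push_cast at this
      rw [this]
      unfold pw
      omega
    have z2 : ∀ x, ¬ pw (k x) (2 : ZMod N).val := by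
      intro x
      have := v1 2 (by omega)
      push_cast at this
      rw [this]
      unfold pw
      omega
    by_cases c5 : i = 5
    · subst c5
      refine ⟨2, ?_, ?_, ?_, fun x hx => z2 x hx.2⟩
      · have := ne 2 5 (by norm_num) (by norm_num) (by norm_num)
        push_cast at this
        exact this
      · have := ne 2 7 (by norm_num) (by norm_num) (by norm_num)
        push_cast at this
        rwa [show (5 : ZMod N) + 2 = 7 by ring]
      · have := ne 5 4 (by norm_num) (by norm_num) (by norm_num)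
        push_cast at this
        rwa [show (2 : ZMod N) + 2 = 4 by ring]
    by_cases c31 : i = 3 ∨ i = 1
    · refine ⟨7, ?_, ?_, ?_, fun x hx => z7 x hx.2⟩
      · have k3 := ne 7 3 (by norm_num) (by norm_num) (by norm_num)
        have k1 := ne 7 1 (by norm_num) (by norm_num) (by norm_num)
        push_cast at k3 k1
        rcases c31 with rfl | rfl
        · exact k3
        · exact k1
      · have k3 := ne 7 5 (by norm_num) (by norm_num) (by norm_num)
        have k1 := ne 7 3 (by norm_num) (by norm_num) (by norm_num)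
        push_cast at k3 k1
        rcases c31 with rfl | rfl
        · rwa [show (3 : ZMod N) + 2 = 5 by ring]
        · rwa [show (1 : ZMod N) + 2 = 3 by ring]
      · have k3 := ne 3 9 (by norm_num) (by norm_num) (by norm_num)
        have k1 := ne 1 9 (by norm_num) (by norm_num) (by norm_num)
        push_cast at k3 k1
        rw [show (7 : ZMod N) + 2 = 9 by ring]
        rcases c31 with rfl | rfl
        · exact k3
        · exact k1
    · rw [not_or] at c31
      refine ⟨3, fun e => c31.1 e.symm, fun e => c31.2 ?_, fun e => c5 ?_, fun x hx => z3 x hx.2⟩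
      · have : i = i + 2 - 2 := by ring
        rw [this, ← e]
        ring
      · rw [e]
        ring
  · -- meet
    refine ⟨0, ?_, ?_⟩
    · show pw (k x) (0 : ZMod N).val
      rw [ZMod.val_zero]
      unfold pw
      omega
    · show pw (k y) (0 : ZMod N).val
      rw [ZMod.val_zero]
      unfold pw
      omega
  · -- places
    obtain ⟨β, hβ⟩ := hNk x
    have e : tot (fun i : ZMod N => i) (fun i => pw (k x) i.val)
        = ∑ p ∈ Finset.range N, (if pw (k x) p ∧ pw (k x) ((p + 1) % N) then 1 else 0) := by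
      unfold tot
      rw [← sum_range_rot _ (0 : ZMod N)]
      refine Finset.sum_congr rfl fun p hp => ?_
      rw [Finset.mem_range] at hp
      unfold gd
      have q1 : (0 + (p : ZMod N)).val = p := by
        rw [zero_add, v1 p hp]
      have q2 : (0 + (p : ZMod N) + 1).val = (p + 1) % N := by
        have := val_add (0 + (p : ZMod N)) 1
        rw [q1] at this
        rw [← this]
        push_cast
        rfl
      have q3 : ((fun i : ZMod N => pw (k x) i.val) ((fun i => i) (0 + (p : ZMod N))) ∧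
          (fun i : ZMod N => pw (k x) i.val) ((fun i => i) (0 + (p : ZMod N) + 1))) ↔
          (pw (k x) p ∧ pw (k x) ((p + 1) % N)) := by
        show (pw (k x) (0 + (p : ZMod N)).val ∧ pw (k x) (0 + (p : ZMod N) + 1).val) ↔ _
        rw [q1, q2]
      by_cases c : pw (k x) p ∧ pw (k x) ((p + 1) % N)
      · rw [if_pos (q3.2 c), if_pos c]
      · rw [if_neg (fun k => c (q3.1 k)), if_neg c]
    rw [e, sum_pw2 _ _ _ hβ]
    omega
  · -- few differences
    refine ⟨((Finset.range K).image fun w => ((8 + 9 * w : ℕ) : ZMod N)) ∪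
      ((Finset.range K).image fun w => ((10 + 9 * w : ℕ) : ZMod N)) ∪
      ((Finset.range K).image fun w => ((12 + 9 * w : ℕ) : ZMod N)), ?_, ?_⟩
    · have a1 := Finset.card_image_le (s := Finset.range K)
        (f := fun w => ((8 + 9 * w : ℕ) : ZMod N))
      have a2 := Finset.card_image_le (s := Finset.range K)
        (f := fun w => ((10 + 9 * w : ℕ) : ZMod N))
      have a3 := Finset.card_image_le (s := Finset.range K)
        (f := fun w => ((12 + 9 * w : ℕ) : ZMod N))
      rw [Finset.card_range] at a1 a2 a3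
      have a4 := Finset.card_union_le
        (((Finset.range K).image fun w => ((8 + 9 * w : ℕ) : ZMod N)) ∪
        ((Finset.range K).image fun w => ((10 + 9 * w : ℕ) : ZMod N)))
        ((Finset.range K).image fun w => ((12 + 9 * w : ℕ) : ZMod N))
      have a5 := Finset.card_union_le
        ((Finset.range K).image fun w => ((8 + 9 * w : ℕ) : ZMod N))
        ((Finset.range K).image fun w => ((10 + 9 * w : ℕ) : ZMod N))
      omega
    · intro y i hy hB
      by_contra hx
      have hi := ZMod.val_lt i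
      have ky := hk y
      have kx := hk x
      have hc : ∀ c t : ℕ, i.val = c + 9 * t → ((c + 9 * t : ℕ) : ZMod N) = i := by
        intro c t e
        rw [← e, ZMod.natCast_zmod_val]
      have hw : ∃ w < K, i.val = 8 + 9 * w ∨ i.val = 10 + 9 * w ∨ i.val = 12 + 9 * w := by
        refine ⟨(i.val - 8) / 9, ?_, ?_⟩
        · unfold pw at hy hx
          omega
        · unfold pw at hy hx
          omega
      obtain ⟨w, hw, e | e | e⟩ := hw
      · refine hB (Finset.mem_union_left _ (Finset.mem_union_left _ ?_))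
        rw [Finset.mem_image]
        exact ⟨w, Finset.mem_range.2 hw, hc 8 w e⟩
      · refine hB (Finset.mem_union_left _ (Finset.mem_union_right _ ?_))
        rw [Finset.mem_image]
        exact ⟨w, Finset.mem_range.2 hw, hc 10 w e⟩
      · refine hB (Finset.mem_union_right _ ?_)
        rw [Finset.mem_image]
        exact ⟨w, Finset.mem_range.2 hw, hc 12 w e⟩

end fam

end MPd41ace
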