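import Pool.Agent.Lib.MP_d41ace_co.Base
import Pool.Agent.Lib.MP_d41ace_co.Cone

/-!
Matched pairs joined to full vertices: a path with a consecutive pair (matched vertex, full vertex)
can be extended by any number of vertices other than one.
-/

set_option autoImplicit false

namespace MPd41ace

open SimpleGraph

variable {V : Type*}

lemma PathL.insert_list {G : SimpleGraph V} {u v a b s t : V} {l₁ l₂ m : List V}
    (h : PathL G u v (l₁ ++ a :: b :: l₂)) (hm : PathL G s t m) (h1 : G.Adj a s) (h2 : G.Adj t b)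
    (hd : List.Disjoint m (l₁ ++ a :: b :: l₂)) : PathL G u v (l₁ ++ a :: (m ++ b :: l₂)) := by
  have hc := h.chain
  rw [List.isChain_append_cons_cons] at hc
  obtain ⟨c1, _, c3⟩ := hc
  refine ⟨?_, ?_, ?_, ?_⟩
  · have p : List.Perm (l₁ ++ a :: (m ++ b :: l₂)) (m ++ (l₁ ++ a :: b :: l₂)) := by
      have q := List.perm_append_comm_assoc (l₁ ++ [a]) m (b :: l₂)
      simpa using q
    rw [p.nodup_iff, List.nodup_append']
    exact ⟨hm.nodup, h.nodup, hd⟩
  · have e : l₁ ++ a :: (m ++ b :: l₂) = (l₁ ++ [a]) ++ (m ++ (b :: l₂)) := by simp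
    rw [e]
    refine c1.append (hm.chain.append c3 ?_) ?_
    · intro x hx y hy
      rw [hm.last] at hx
      have e1 : t = x := by simpa using hx
      have e2 : b = y := by simpa using hy
      rwa [← e1, ← e2]
    · intro x hx y hy
      have e1 : a = x := by simpa using hx
      rw [List.head?_append_of_ne_nil _ hm.ne_nil, hm.head] at hy
      have e2 : s = y := by simpa using hy
      rwa [← e1, ← e2]
  · have hh := h.head
    cases l₁ with
    | nil => simpa using hh
    | cons c r => simpa using hh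
  · have hl := h.last
    have e1 : l₁ ++ a :: b :: l₂ = (l₁ ++ [a]) ++ (b :: l₂) := by simp
    have e2 : l₁ ++ a :: (m ++ b :: l₂) = (l₁ ++ a :: m) ++ (b :: l₂) := by simp
    rw [e1, List.getLast?_append_of_ne_nil _ (by simp)] at hl
    rw [e2, List.getLast?_append_of_ne_nil _ (by simp)]
    exact hl

namespace W55

variable {c β : ℕ}

/-- full vertices and matched pairs -/
structure Core (G : SimpleGraph V) (U : Fin c → V) (B : Fin β × Bool → V) : Prop where
  /-- different full vertices -/
  injU : Function.Injective U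
  /-- different matched vertices -/
  injB : Function.Injective B
  /-- full and matched vertices are different -/
  ne : ∀ k w, U k ≠ B w
  /-- full vertices are joined to all matched vertices -/
  ub : ∀ k w, G.Adj (U k) (B w)
  /-- the matching -/
  bb : ∀ i, G.Adj (B (i, false)) (B (i, true))

/-- a path with a place, and free vertices -/
structure St (G : SimpleGraph V) (U : Fin c → V) (B : Fin β × Bool → V) (s t : V) (l : List V)
    (FU : Finset (Fin c)) (FB : Finset (Fin β × Bool)) : Prop where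
  /-- the path -/
  path : PathL G s t l
  /-- the place -/
  place : ∃ l₁ w k l₂, l = l₁ ++ B w :: U k :: l₂
  /-- free full vertices -/
  dU : ∀ k ∈ FU, U k ∉ l
  /-- free matched vertices -/
  dB : ∀ w ∈ FB, B w ∉ l

variable {G : SimpleGraph V} {U : Fin c → V} {B : Fin β × Bool → V} {s t : V} {l : List V}
  {FU : Finset (Fin c)} {FB : Finset (Fin β × Bool)}

lemma St.single (h : St G U B s t l FU FB) (hC : Core G U B) {k : Fin c} {w : Fin β × Bool}
    (hk : k ∈ FU) (hw : w ∈ FB) : ∃ l', St G U B s t l' (FU.erase k) (FB.erase w) ∧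
      l'.length = l.length + 2 := by
  obtain ⟨l₁, w₀, k₀, l₂, rfl⟩ := h.place
  have hm : PathL G (U k) (B w) [U k, B w] := by
    refine (PathL.single (B w)).cons (hC.ub k w) ?_
    rw [List.mem_singleton]
    exact hC.ne k w
  have hmem : ∀ x, x ∈ l₁ ++ B w₀ :: ([U k, B w] ++ U k₀ :: l₂) →
      x = U k ∨ x = B w ∨ x ∈ l₁ ++ B w₀ :: U k₀ :: l₂ := by
    intro x hx
    simp only [List.mem_append, List.mem_cons, List.not_mem_nil, or_false] at hx ⊢
    tauto
  refine ⟨l₁ ++ B w₀ :: ([U k, B w] ++ U k₀ :: l₂), ⟨h.path.insert_list hm (hC.ub k w₀).symm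
    (hC.ub k₀ w).symm ?_, ⟨l₁ ++ [B w₀, U k], w, k₀, l₂, by simp⟩, ?_, ?_⟩, ?_⟩
  · intro x hx hx'
    simp only [List.mem_cons, List.not_mem_nil, or_false] at hx
    rcases hx with rfl | rfl
    · exact h.dU k hk hx'
    · exact h.dB w hw hx'
  · intro k' hk' hx
    rw [Finset.mem_erase] at hk'
    rcases hmem _ hx with e | e | e
    · exact hk'.1 (hC.injU e)
    · exact hC.ne _ _ e
    · exact h.dU k' hk'.2 e
  · intro w' hw' hx
    rw [Finset.mem_erase] at hw'
    rcases hmem _ hx with e | e | e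
    · exact hC.ne _ _ e.symm
    · exact hw'.1 (hC.injB e)
    · exact h.dB w' hw'.2 e
  · simp only [List.length_append, List.length_cons, List.length_nil]
    omega

lemma St.pair (h : St G U B s t l FU FB) (hC : Core G U B) {k : Fin c} {i : Fin β}
    (hk : k ∈ FU) (hw : (i, false) ∈ FB) (hw' : (i, true) ∈ FB) :
    ∃ l', St G U B s t l' (FU.erase k) ((FB.erase (i, false)).erase (i, true)) ∧
      l'.length = l.length + 3 := by
  obtain ⟨l₁, w₀, k₀, l₂, rfl⟩ := h.place
  have hm : PathL G (U k) (B (i, true)) [U k, B (i, false), B (i, true)] := by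
    refine ((PathL.single (B (i, true))).cons (hC.bb i) ?_).cons (hC.ub k (i, false)) ?_
    · rw [List.mem_singleton]
      exact (hC.bb i).ne
    · simp only [List.mem_cons, List.not_mem_nil, or_false, not_or]
      exact ⟨hC.ne _ _, hC.ne _ _⟩
  have hmem : ∀ x, x ∈ l₁ ++ B w₀ :: ([U k, B (i, false), B (i, true)] ++ U k₀ :: l₂) →
      x = U k ∨ x = B (i, false) ∨ x = B (i, true) ∨ x ∈ l₁ ++ B w₀ :: U k₀ :: l₂ := by
    intro x hx
    simp only [List.mem_append, List.mem_cons, List.not_mem_nil, or_false] at hx ⊢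
    tauto
  refine ⟨l₁ ++ B w₀ :: ([U k, B (i, false), B (i, true)] ++ U k₀ :: l₂),
    ⟨h.path.insert_list hm (hC.ub k w₀).symm (hC.ub k₀ _).symm ?_,
      ⟨l₁ ++ [B w₀, U k, B (i, false)], (i, true), k₀, l₂, by simp⟩, ?_, ?_⟩, ?_⟩
  · intro x hx hx'
    simp only [List.mem_cons, List.not_mem_nil, or_false] at hx
    rcases hx with rfl | rfl | rfl
    · exact h.dU k hk hx'
    · exact h.dB _ hw hx'
    · exact h.dB _ hw' hx'
  · intro k' hk' hx
    rw [Finset.mem_erase] at hk'
    rcases hmem _ hx with e | e | e | e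
    · exact hk'.1 (hC.injU e)
    · exact hC.ne _ _ e
    · exact hC.ne _ _ e
    · exact h.dU k' hk'.2 e
  · intro w' hw' hx
    rw [Finset.mem_erase, Finset.mem_erase] at hw'
    rcases hmem _ hx with e | e | e | e
    · exact hC.ne _ _ e.symm
    · exact hw'.2.1 (hC.injB e)
    · exact hw'.1 (hC.injB e)
    · exact h.dB w' hw'.2.2 e
  · simp only [List.length_append, List.length_cons, List.length_nil]
    omega

lemma St.grow₁ (hC : Core G U B) : ∀ (y : ℕ) (l : List V) (FU : Finset (Fin c))
    (FB : Finset (Fin β × Bool)), St G U B s t l FU FB → y ≤ FU.card → y ≤ FB.card →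
    ∃ l', PathL G s t l' ∧ l'.length = l.length + 2 * y := by
  intro y
  induction y with
  | zero => exact fun l FU FB h _ _ => ⟨l, h.path, by simp⟩
  | succ y ih =>
    intro l FU FB h h1 h2
    obtain ⟨k, hk⟩ : FU.Nonempty := Finset.card_pos.1 (by omega)
    obtain ⟨w, hw⟩ : FB.Nonempty := Finset.card_pos.1 (by omega)
    obtain ⟨l', k1, k2⟩ := h.single hC hk hw
    obtain ⟨l'', k3, k4⟩ := ih l' _ _ k1 (by
      rw [Finset.card_erase_of_mem hk]
      omega) (by
      rw [Finset.card_erase_of_mem hw]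
      omega)
    exact ⟨l'', k3, by omega⟩

lemma St.grow (hC : Core G U B) : ∀ (x y : ℕ) (l : List V) (FU : Finset (Fin c))
    (FB : Finset (Fin β × Bool)) (FP : Finset (Fin β)), St G U B s t l FU FB →
    (∀ i ∈ FP, ∀ b, (i, b) ∈ FB) → x ≤ FP.card → x + y ≤ FU.card → 2 * x + y ≤ FB.card →
    ∃ l', PathL G s t l' ∧ l'.length = l.length + 3 * x + 2 * y := by
  intro x
  induction x with
  | zero =>
    intro y l FU FB FP h _ _ h1 h2
    obtain ⟨l', k1, k2⟩ := St.grow₁ hC y l FU FB h (by omega) (by omega)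
    exact ⟨l', k1, by omega⟩
  | succ x ih =>
    intro y l FU FB FP h hP h0 h1 h2
    obtain ⟨k, hk⟩ : FU.Nonempty := Finset.card_pos.1 (by omega)
    obtain ⟨i, hi⟩ : FP.Nonempty := Finset.card_pos.1 (by omega)
    have m1 := hP i hi false
    have m2 := hP i hi true
    have m3 : (i, true) ∈ FB.erase (i, false) := by
      rw [Finset.mem_erase]
      exact ⟨by simp, m2⟩
    obtain ⟨l', k1, k2⟩ := h.pair hC hk m1 m2
    obtain ⟨l'', k3, k4⟩ := ih y l' _ _ (FP.erase i) k1 (by
      intro i' hi' b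
      rw [Finset.mem_erase] at hi'
      rw [Finset.mem_erase, Finset.mem_erase]
      have hne : ∀ b', (i', b) ≠ (i, b') := fun b' e => hi'.1 (Prod.ext_iff.1 e).1
      exact ⟨hne _, hne _, hP i' hi'.2 b⟩) (by
      rw [Finset.card_erase_of_mem hi]
      omega) (by
      rw [Finset.card_erase_of_mem hk]
      omega) (by
      rw [Finset.card_erase_of_mem m3, Finset.card_erase_of_mem m1]
      omega)
    exact ⟨l'', k3, by omega⟩

/-- EXTENSION -/
theorem ext_list (hC : Core G U B) (hl : PathL G s t l) (LU : List (Fin c))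
    (LB : List (Fin β × Bool)) (hp : ∃ l₁ w k l₂, l = l₁ ++ B w :: U k :: l₂)
    (hU : ∀ k, U k ∈ l → k ∈ LU) (hB : ∀ w, B w ∈ l → w ∈ LB) (h1 : β + LU.length ≤ c)
    (h2 : c + LB.length ≤ 2 * β + LU.length) (h3 : LB.length + 1 ≤ β) {j : ℕ}
    (hj : j = l.length ∨ (l.length + 2 ≤ j ∧ j + LU.length + LB.length ≤ c + 2 * β + l.length)) :
    ∃ l', PathL G s t l' ∧ l'.length = j := by
  classical
  rcases hj with rfl | ⟨j1, j2⟩
  · exact ⟨l, hl, rfl⟩
  obtain ⟨d, rfl⟩ : ∃ d, j = l.length + d := ⟨j - l.length, by omega⟩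
  set FU : Finset (Fin c) := LU.toFinsetᶜ with hFU
  set FB : Finset (Fin β × Bool) := LB.toFinsetᶜ with hFB
  set FP : Finset (Fin β) := (LB.map Prod.fst).toFinsetᶜ with hFP
  have cU : c - LU.length ≤ FU.card := by
    rw [hFU, Finset.card_compl, Fintype.card_fin]
    have := LU.toFinset_card_le
    omega
  have cB : 2 * β - LB.length ≤ FB.card := by
    rw [hFB, Finset.card_compl, Fintype.card_prod, Fintype.card_fin, Fintype.card_bool]
    have := LB.toFinset_card_le
    omega
  have cP : β - LB.length ≤ FP.card := by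
    rw [hFP, Finset.card_compl, Fintype.card_fin]
    have := (LB.map Prod.fst).toFinset_card_le
    rw [List.length_map] at this
    omega
  have hS : St G U B s t l FU FB := by
    refine ⟨hl, hp, fun k hk hx => ?_, fun w hw hx => ?_⟩
    · rw [hFU, Finset.mem_compl, List.mem_toFinset] at hk
      exact hk (hU k hx)
    · rw [hFB, Finset.mem_compl, List.mem_toFinset] at hw
      exact hw (hB w hx)
  have hPB : ∀ i ∈ FP, ∀ b, (i, b) ∈ FB := by
    intro i hi b
    rw [hFP, Finset.mem_compl, List.mem_toFinset] at hi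
    rw [hFB, Finset.mem_compl, List.mem_toFinset]
    exact fun k => hi (List.mem_map_of_mem k)
  obtain ⟨x, y, e, h4, h5, h6⟩ : ∃ x y, d = 3 * x + 2 * y ∧ x ≤ β - LB.length ∧
      x + y ≤ c - LU.length ∧ 2 * x + y ≤ 2 * β - LB.length := by
    rcases Nat.le_total d (2 * (c - LU.length)) with g | g
    · exact ⟨d % 2, (d - 3 * (d % 2)) / 2, by omega, by omega, by omega, by omega⟩
    · exact ⟨d - 2 * (c - LU.length), (d - 3 * (d - 2 * (c - LU.length))) / 2, by omega, by omega,
        by omega, by omega⟩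
  obtain ⟨l', k1, k2⟩ := St.grow hC x y l FU FB FP hS hPB (by omega) (by omega) (by omega)
  exact ⟨l', k1, by omega⟩

end W55

end MPd41ace
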