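import Pool.Agent.Lib.MP_d41ace_co.Win55a

/-!
The graphs with a path of three vertices among the full vertices: paths of all lengths.
-/

set_option autoImplicit false

namespace MPd41ace

open SimpleGraph

namespace W55

/-- the vertices: full vertices, matched vertices, the centre and the two leaves -/
abbrev WT (c β : ℕ) := Fin c ⊕ ((Fin β × Bool) ⊕ Option Bool)

section

variable {c β : ℕ}

/-- full vertex -/
abbrev uu (k : Fin c) : WT c β := .inl k

/-- matched vertex -/
abbrev bb (w : Fin β × Bool) : WT c β := .inr (.inl w)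

/-- the centre -/
abbrev pp : WT c β := .inr (.inr none)

/-- the leaves -/
abbrev qq (j : Bool) : WT c β := .inr (.inr (some j))

variable (J : Fin β → Bool) (T : Fin β → Prop)

/-- the edges, oriented -/
def rel : WT c β → WT c β → Prop
  | .inl _, .inr (.inl _) => True
  | .inr (.inl w), .inr (.inl w') => w.1 = w'.1 ∧ w.2 = false ∧ w'.2 = true
  | .inr (.inr none), .inr (.inl w) => w.2 = false ∨ ¬ T w.1
  | .inr (.inr (some j)), .inr (.inl w) => (w.2 = true ∧ j = J w.1) ∨ (w.2 = false ∧ T w.1)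
  | .inr (.inr none), .inr (.inr (some _)) => True
  | _, _ => False

/-- the graph -/
def gr : SimpleGraph (WT c β) := SimpleGraph.fromRel (rel J T)

variable {J T}

lemma rel_ne {a b : WT c β} (h : rel J T a b) : a ≠ b ∧ ¬ rel J T b a := by
  rcases a with k | ⟨i, b1⟩ | _ | j <;> rcases b with k' | ⟨i', b1'⟩ | _ | j' <;>
    simp_all [rel]

lemma gr_adj {a b : WT c β} : (gr J T).Adj a b ↔ rel J T a b ∨ rel J T b a := by
  unfold gr
  rw [SimpleGraph.fromRel_adj]
  constructor
  · exact fun h => h.2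
  · rintro (h | h)
    · exact ⟨(rel_ne h).1, Or.inl h⟩
    · exact ⟨(rel_ne h).1.symm, Or.inr h⟩

@[simp] lemma adj_ub {k : Fin c} {w : Fin β × Bool} : (gr J T).Adj (.inl k) (.inr (.inl w)) := by
  simp [gr_adj, rel]

@[simp] lemma adj_bu {k : Fin c} {w : Fin β × Bool} : (gr J T).Adj (.inr (.inl w)) (.inl k) :=
  adj_ub.symm

@[simp] lemma adj_bb {w w' : Fin β × Bool} :
    (gr (c := c) J T).Adj (.inr (.inl w)) (.inr (.inl w')) ↔ w.1 = w'.1 ∧ w.2 ≠ w'.2 := by
  rcases w with ⟨i, _ | _⟩ <;> rcases w' with ⟨i', _ | _⟩ <;> simp [gr_adj, rel, eq_comm]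

@[simp] lemma adj_pb {w : Fin β × Bool} :
    (gr (c := c) J T).Adj (.inr (.inr none)) (.inr (.inl w)) ↔ w.2 = false ∨ ¬ T w.1 := by
  simp [gr_adj, rel]

@[simp] lemma adj_bp {w : Fin β × Bool} :
    (gr (c := c) J T).Adj (.inr (.inl w)) (.inr (.inr none)) ↔ w.2 = false ∨ ¬ T w.1 := by
  simp [gr_adj, rel]

@[simp] lemma adj_qb {j : Bool} {w : Fin β × Bool} :
    (gr (c := c) J T).Adj (.inr (.inr (some j))) (.inr (.inl w)) ↔
      (w.2 = true ∧ j = J w.1) ∨ (w.2 = false ∧ T w.1) := by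
  simp [gr_adj, rel]

@[simp] lemma adj_bq {j : Bool} {w : Fin β × Bool} :
    (gr (c := c) J T).Adj (.inr (.inl w)) (.inr (.inr (some j))) ↔
      (w.2 = true ∧ j = J w.1) ∨ (w.2 = false ∧ T w.1) := by
  simp [gr_adj, rel]

@[simp] lemma adj_pq {j : Bool} : (gr (c := c) J T).Adj (.inr (.inr none)) (.inr (.inr (some j))) := by
  simp [gr_adj, rel]

@[simp] lemma adj_qp {j : Bool} : (gr (c := c) J T).Adj (.inr (.inr (some j))) (.inr (.inr none)) :=
  adj_pq.symm

@[simp] lemma adj_uu {k k' : Fin c} : ¬ (gr (β := β) J T).Adj (.inl k) (.inl k') := by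
  simp [gr_adj, rel]

@[simp] lemma adj_ur {k : Fin c} {z : Option Bool} :
    ¬ (gr (β := β) J T).Adj (.inl k) (.inr (.inr z)) := by
  rcases z with _ | _ <;> simp [gr_adj, rel]

@[simp] lemma adj_ru {k : Fin c} {z : Option Bool} :
    ¬ (gr (β := β) J T).Adj (.inr (.inr z)) (.inl k) := fun h => adj_ur h.symm

@[simp] lemma adj_qq {j j' : Bool} :
    ¬ (gr (c := c) J T).Adj (.inr (.inr (some j))) (.inr (.inr (some j'))) := by
  simp [gr_adj, rel]

lemma core : Core (gr J T) (uu : Fin c → WT c β) bb := by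
  refine ⟨fun k k' h => ?_, fun w w' h => ?_, fun k w h => ?_, fun k w => adj_ub, fun i => ?_⟩
  · simpa using h
  · simpa using h
  · simp at h
  · rw [adj_bb]
    simp

/-- there is a path from `s` to `t` with `j` vertices -/
def Re (J : Fin β → Bool) (T : Fin β → Prop) (s t : WT c β) (j : ℕ) : Prop :=
  ∃ l, PathL (gr J T) s t l ∧ l.length = j

lemma Re.symm {s t : WT c β} {j : ℕ} (h : Re J T s t j) : Re J T t s j := by
  obtain ⟨l, h1, h2⟩ := h
  exact ⟨l.reverse, h1.reverse, by rw [List.length_reverse, h2]⟩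

/-- the size conditions -/
structure Ok (c β : ℕ) (J : Fin β → Bool) : Prop where
  /-- enough full vertices -/
  h1 : β + 2 ≤ c
  /-- not too many full vertices -/
  h2 : c + 2 ≤ 2 * β
  /-- many pairs -/
  h3 : 14 ≤ β
  /-- many pairs for both leaves -/
  hJ : ∀ (j : Bool) (S : List (Fin β)), S.length ≤ 6 → ∃ i, i ∉ S ∧ J i = j

variable (h : Ok c β J)

include h

lemma Ok.exU (S : List (Fin c)) (hS : S.length ≤ 4) : ∃ k, k ∉ S := by
  by_contra hcon
  push Not at hcon
  have e : S.toFinset = Finset.univ := by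
    ext k
    simp [hcon k]
  have h1 := S.toFinset_card_le
  rw [e, Finset.card_univ, Fintype.card_fin] at h1
  have := h.h1
  have := h.h3
  omega

lemma Ok.ext {s t : WT c β} {l : List (WT c β)} (hl : PathL (gr J T) s t l) (LU : List (Fin c))
    (LB : List (Fin β × Bool)) (hp : ∃ l₁ w k l₂, l = l₁ ++ bb w :: uu k :: l₂)
    (hU : ∀ k, uu k ∈ l → k ∈ LU) (hB : ∀ w, bb w ∈ l → w ∈ LB) (h1 : LU.length ≤ 2)
    (h2 : LB.length ≤ LU.length + 2) {j : ℕ}
    (hj : j = l.length ∨ (l.length + 2 ≤ j ∧ j + LU.length + LB.length ≤ c + 2 * β + l.length)) :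
    Re J T s t j := by
  have g1 := h.h1
  have g2 := h.h2
  have g3 := h.h3
  exact ext_list core hl LU LB hp hU hB (by omega) (by omega) (by omega) hj

end

end W55

end MPd41ace
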