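import Pool.Agent.Lib.MP_d41ace_co.Win55b

/-!
The graphs with a path of three vertices among the full vertices are PLD-maximal.
-/

set_option autoImplicit false

namespace MPd41ace

open SimpleGraph

namespace W55

variable {c β : ℕ} {J : Fin β → Bool} {T : Fin β → Prop}

lemma pth {s t : WT c β} {l : List (WT c β)} (h1 : l.Nodup) (h2 : l.IsChain (gr J T).Adj)
    (h3 : l.head? = some s) (h4 : l.getLast? = some t) : PathL (gr J T) s t l :=
  ⟨h1, h2, h3, h4⟩


variable (h : Ok c β J)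

include h

lemma Ok.b_b {i i' : Fin β} {b b' : Bool} (hne : (i, b) ≠ (i', b')) {j : ℕ} (j3 : 3 ≤ j)
    (jn : j ≤ c + 2 * β + 3) : Re J T (bb (i, b) : WT c β) (bb (i', b')) j := by
  have g3 := h.h3
  obtain ⟨k, hk⟩ := h.exU [] (by simp)
  obtain ⟨k', hk'⟩ := h.exU [k] (by simp)
  obtain ⟨i1, h1, J1⟩ := h.hJ false [i, i'] (by simp)
  obtain ⟨i2, h2, J2⟩ := h.hJ true [i, i', i1] (by simp)
  simp only [List.mem_cons, List.not_mem_nil, or_false, not_or] at hk' h1 h2
  have hne' : i = i' → b ≠ b' := by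
    rintro rfl rfl
    exact hne rfl
  by_cases e4 : j = 4
  · subst e4
    by_cases e : i = i'
    · subst e
      have hb := hne' rfl
      rcases b with _ | _ <;> rcases b' with _ | _
      · exact absurd rfl hb
      · exact ⟨[bb (i, false), pp, qq (J i), bb (i, true)], pth (by simp) (by simp) rfl rfl, rfl⟩
      · exact ⟨[bb (i, true), qq (J i), pp, bb (i, false)], pth (by simp) (by simp) rfl rfl, rfl⟩
      · exact absurd rfl hb
    · exact ⟨[bb (i, b), bb (i, !b), uu k, bb (i', b')], pth (by simp [e]) (by simp) rfl rfl, rfl⟩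
  by_cases es : j ≤ c + 2 * β
  · refine h.ext (l := [bb (i, b), uu k, bb (i', b')]) (pth (by simpa using hne') (by simp) rfl rfl)
      [k] [(i, b), (i', b')] ⟨[], _, _, _, rfl⟩ (by simp) (by simp) (by simp) (by simp) ?_
    simp only [List.length_cons, List.length_nil]
    omega
  · refine h.ext (l := [bb (i, b), uu k, bb (i1, true), qq false, pp, qq true, bb (i2, true), uu k',
      bb (i', b')]) (pth ?_ ?_ rfl rfl)
      [k, k'] [(i, b), (i1, true), (i2, true), (i', b')] ⟨[], _, _, _, rfl⟩ (by simp) (by simp)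
      (by simp) (by simp) ?_
    · simp <;> grind
    · simp [J1, J2]
    · simp only [List.length_cons, List.length_nil]
      omega


lemma Ok.u_b {k₀ : Fin c} {i : Fin β} {b : Bool} {j : ℕ} (j3 : 3 ≤ j)
    (jn : j ≤ c + 2 * β + 3) : Re J T (uu k₀ : WT c β) (bb (i, b)) j := by
  have g3 := h.h3
  obtain ⟨k, hk⟩ := h.exU [k₀] (by simp)
  obtain ⟨i1, h1, J1⟩ := h.hJ false [i] (by simp)
  obtain ⟨i2, h2, J2⟩ := h.hJ true [i, i1] (by simp)
  simp only [List.mem_cons, List.not_mem_nil, or_false, not_or] at hk h1 h2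
  by_cases e3 : j = 3
  · subst e3
    exact ⟨[uu k₀, bb (i, !b), bb (i, b)], pth (by simp) (by simp) rfl rfl, rfl⟩
  by_cases e5 : j = 5
  · subst e5
    exact ⟨[uu k₀, bb (i1, false), bb (i1, true), uu k, bb (i, b)], pth (by simp <;> grind) (by simp) rfl rfl,
      rfl⟩
  by_cases es : j ≤ c + 2 * β
  · refine h.ext (l := [uu k₀, bb (i1, false), uu k, bb (i, b)]) (pth (by simp <;> grind) (by simp) rfl rfl)
      [k₀, k] [(i1, false), (i, b)] ⟨[uu k₀], _, _, _, rfl⟩ (by simp) (by simp) (by simp)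
      (by simp) ?_
    simp only [List.length_cons, List.length_nil]
    omega
  · refine h.ext (l := [uu k₀, bb (i1, true), qq false, pp, qq true, bb (i2, true), uu k,
      bb (i, b)]) (pth (by simp <;> grind) (by simp [J1, J2]) rfl rfl)
      [k₀, k] [(i1, true), (i2, true), (i, b)] ⟨[uu k₀, bb (i1, true), qq false, pp, qq true],
      _, _, _, rfl⟩ (by simp) (by simp) (by simp) (by simp) ?_
    simp only [List.length_cons, List.length_nil]
    omega

lemma Ok.u_u {k₀ k₁ : Fin c} (hne : k₀ ≠ k₁) {j : ℕ} (j3 : 3 ≤ j)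
    (jn : j ≤ c + 2 * β + 3) : Re J T (uu k₀ : WT c β) (uu k₁) j := by
  have g3 := h.h3
  obtain ⟨i1, h1, J1⟩ := h.hJ false [] (by simp)
  obtain ⟨i2, h2, J2⟩ := h.hJ true [i1] (by simp)
  simp only [List.mem_cons, List.not_mem_nil, or_false, not_or] at h1 h2
  by_cases e4 : j = 4
  · subst e4
    exact ⟨[uu k₀, bb (i1, false), bb (i1, true), uu k₁], pth (by simp <;> grind) (by simp) rfl rfl, rfl⟩
  by_cases es : j ≤ c + 2 * β
  · refine h.ext (l := [uu k₀, bb (i1, false), uu k₁]) (pth (by simp <;> grind) (by simp) rfl rfl)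
      [k₀, k₁] [(i1, false)] ⟨[uu k₀], _, _, _, rfl⟩ (by simp) (by simp) (by simp)
      (by simp) ?_
    simp only [List.length_cons, List.length_nil]
    omega
  · refine h.ext (l := [uu k₀, bb (i1, true), qq false, pp, qq true, bb (i2, true), uu k₁])
      (pth (by simp <;> grind) (by simp [J1, J2]) rfl rfl)
      [k₀, k₁] [(i1, true), (i2, true)] ⟨[uu k₀, bb (i1, true), qq false, pp, qq true],
      _, _, _, rfl⟩ (by simp) (by simp) (by simp) (by simp) ?_
    simp only [List.length_cons, List.length_nil]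
    omega

lemma Ok.p_b {i : Fin β} {b : Bool} {j : ℕ} (j3 : 3 ≤ j)
    (jn : j ≤ c + 2 * β + 3) : Re J T (pp : WT c β) (bb (i, b)) j := by
  have g3 := h.h3
  obtain ⟨k, hk⟩ := h.exU [] (by simp)
  obtain ⟨k', hk'⟩ := h.exU [k] (by simp)
  obtain ⟨i1, h1, J1⟩ := h.hJ false [i] (by simp)
  obtain ⟨i2, h2, J2⟩ := h.hJ true [i, i1] (by simp)
  obtain ⟨i3, h3, J3⟩ := h.hJ true [i, i1, i2] (by simp)
  simp only [List.mem_cons, List.not_mem_nil, or_false, not_or] at hk' h1 h2 h3
  by_cases e3 : j = 3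
  · subst e3
    rcases b with _ | _
    · by_cases hT : T i
      · exact ⟨[pp, qq true, bb (i, false)], pth (by simp) (by simp [hT]) rfl rfl, rfl⟩
      · exact ⟨[pp, bb (i, true), bb (i, false)], pth (by simp) (by simp [hT]) rfl rfl, rfl⟩
    · exact ⟨[pp, bb (i, false), bb (i, true)], pth (by simp) (by simp) rfl rfl, rfl⟩
  by_cases e5 : j = 5
  · subst e5
    exact ⟨[pp, bb (i1, false), bb (i1, true), uu k, bb (i, b)], pth (by simp <;> grind) (by simp) rfl rfl,
      rfl⟩
  by_cases es : j ≤ c + 2 * β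
  · refine h.ext (l := [pp, bb (i1, false), uu k, bb (i, b)]) (pth (by simp <;> grind) (by simp) rfl rfl)
      [k] [(i1, false), (i, b)] ⟨[pp], _, _, _, rfl⟩ (by simp) (by simp) (by simp)
      (by simp) ?_
    simp only [List.length_cons, List.length_nil]
    omega
  · refine h.ext (l := [pp, qq false, bb (i1, true), uu k, bb (i2, true), qq true, bb (i3, true),
      uu k', bb (i, b)]) (pth (by simp <;> grind) (by simp [J1, J2, J3]) rfl rfl)
      [k, k'] [(i1, true), (i2, true), (i3, true), (i, b)] ⟨[pp, qq false],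
      _, _, _, rfl⟩ (by simp) (by simp) (by simp) (by simp) ?_
    simp only [List.length_cons, List.length_nil]
    omega

lemma Ok.q_b {x : Bool} {i : Fin β} {b : Bool} {j : ℕ} (j3 : 3 ≤ j)
    (jn : j ≤ c + 2 * β + 3) : Re J T (qq x : WT c β) (bb (i, b)) j := by
  have g3 := h.h3
  obtain ⟨k, hk⟩ := h.exU [] (by simp)
  obtain ⟨i1, h1, J1⟩ := h.hJ x [i] (by simp)
  obtain ⟨i2, h2, J2⟩ := h.hJ (!x) [i] (by simp)
  simp only [List.mem_cons, List.not_mem_nil, or_false] at h1 h2
  by_cases e3 : j = 3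
  · subst e3
    rcases b with _ | _
    · exact ⟨[qq x, pp, bb (i, false)], pth (by simp) (by simp) rfl rfl, rfl⟩
    · by_cases hT : T i
      · exact ⟨[qq x, bb (i, false), bb (i, true)], pth (by simp) (by simp [hT]) rfl rfl, rfl⟩
      · exact ⟨[qq x, pp, bb (i, true)], pth (by simp) (by simp [hT]) rfl rfl, rfl⟩
  by_cases e5 : j = 5
  · subst e5
    exact ⟨[qq x, bb (i1, true), bb (i1, false), uu k, bb (i, b)], pth (by simp <;> grind) (by simp [J1])
      rfl rfl, rfl⟩
  by_cases es : j ≤ c + 2 * β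
  · refine h.ext (l := [qq x, bb (i1, true), uu k, bb (i, b)]) (pth (by simp <;> grind) (by simp [J1]) rfl rfl)
      [k] [(i1, true), (i, b)] ⟨[qq x], _, _, _, rfl⟩ (by simp) (by simp) (by simp)
      (by simp) ?_
    simp only [List.length_cons, List.length_nil]
    omega
  · refine h.ext (l := [qq x, pp, qq (!x), bb (i2, true), uu k, bb (i, b)])
      (pth (by simp <;> grind) (by simp [J2]) rfl rfl)
      [k] [(i2, true), (i, b)] ⟨[qq x, pp, qq (!x)],
      _, _, _, rfl⟩ (by simp) (by simp) (by simp) (by simp) ?_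
    simp only [List.length_cons, List.length_nil]
    omega

lemma Ok.p_u {k₀ : Fin c} {j : ℕ} (j3 : 3 ≤ j)
    (jn : j ≤ c + 2 * β + 3) : Re J T (pp : WT c β) (uu k₀) j := by
  have g3 := h.h3
  obtain ⟨k, hk⟩ := h.exU [k₀] (by simp)
  obtain ⟨i1, h1, J1⟩ := h.hJ false [] (by simp)
  obtain ⟨i2, h2, J2⟩ := h.hJ true [i1] (by simp)
  obtain ⟨i3, h3, J3⟩ := h.hJ true [i1, i2] (by simp)
  simp only [List.mem_cons, List.not_mem_nil, or_false, not_or] at hk h1 h2 h3
  by_cases e4 : j = 4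
  · subst e4
    exact ⟨[pp, bb (i1, false), bb (i1, true), uu k₀], pth (by simp <;> grind) (by simp) rfl rfl, rfl⟩
  by_cases es : j ≤ c + 2 * β
  · refine h.ext (l := [pp, bb (i1, false), uu k₀]) (pth (by simp <;> grind) (by simp) rfl rfl)
      [k₀] [(i1, false)] ⟨[pp], _, _, _, rfl⟩ (by simp) (by simp) (by simp)
      (by simp) ?_
    simp only [List.length_cons, List.length_nil]
    omega
  · refine h.ext (l := [pp, qq false, bb (i1, true), uu k, bb (i2, true), qq true, bb (i3, true),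
      uu k₀]) (pth (by simp <;> grind) (by simp [J1, J2, J3]) rfl rfl)
      [k, k₀] [(i1, true), (i2, true), (i3, true)] ⟨[pp, qq false],
      _, _, _, rfl⟩ (by simp) (by simp) (by simp) (by simp) ?_
    simp only [List.length_cons, List.length_nil]
    omega

lemma Ok.q_u {x : Bool} {k₀ : Fin c} {j : ℕ} (j3 : 3 ≤ j)
    (jn : j ≤ c + 2 * β + 3) : Re J T (qq x : WT c β) (uu k₀) j := by
  have g3 := h.h3
  obtain ⟨i1, h1, J1⟩ := h.hJ x [] (by simp)
  obtain ⟨i2, h2, J2⟩ := h.hJ (!x) [] (by simp)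
  by_cases e4 : j = 4
  · subst e4
    exact ⟨[qq x, bb (i1, true), bb (i1, false), uu k₀], pth (by simp <;> grind) (by simp [J1]) rfl rfl, rfl⟩
  by_cases es : j ≤ c + 2 * β
  · refine h.ext (l := [qq x, bb (i1, true), uu k₀]) (pth (by simp <;> grind) (by simp [J1]) rfl rfl)
      [k₀] [(i1, true)] ⟨[qq x], _, _, _, rfl⟩ (by simp) (by simp) (by simp)
      (by simp) ?_
    simp only [List.length_cons, List.length_nil]
    omega
  · refine h.ext (l := [qq x, pp, qq (!x), bb (i2, true), uu k₀])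
      (pth (by simp <;> grind) (by simp [J2]) rfl rfl)
      [k₀] [(i2, true)] ⟨[qq x, pp, qq (!x)],
      _, _, _, rfl⟩ (by simp) (by simp) (by simp) (by simp) ?_
    simp only [List.length_cons, List.length_nil]
    omega

lemma Ok.p_q {x : Bool} {j : ℕ} (j3 : 3 ≤ j)
    (jn : j ≤ c + 2 * β + 3) : Re J T (pp : WT c β) (qq x) j := by
  have g3 := h.h3
  obtain ⟨k, hk⟩ := h.exU [] (by simp)
  obtain ⟨i1, h1, J1⟩ := h.hJ x [] (by simp)
  obtain ⟨i2, h2, J2⟩ := h.hJ (!x) [i1] (by simp)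
  simp only [List.mem_cons, List.not_mem_nil, or_false] at h1 h2
  by_cases e3 : j = 3
  · subst e3
    by_cases hT : T i1
    · exact ⟨[pp, bb (i1, false), qq x], pth (by simp) (by simp [hT]) rfl rfl, rfl⟩
    · exact ⟨[pp, bb (i1, true), qq x], pth (by simp) (by simp [hT, J1]) rfl rfl, rfl⟩
  by_cases e4 : j = 4
  · subst e4
    exact ⟨[pp, bb (i1, false), bb (i1, true), qq x], pth (by simp) (by simp [J1]) rfl rfl, rfl⟩
  by_cases es : j ≤ c + 2 * β ∧ j ≠ 6
  · refine h.ext (l := [pp, bb (i2, false), uu k, bb (i1, true), qq x])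
      (pth (by simp <;> grind) (by simp [J1]) rfl rfl)
      [k] [(i2, false), (i1, true)] ⟨[pp], _, _, _, rfl⟩ (by simp) (by simp) (by simp)
      (by simp) ?_
    simp only [List.length_cons, List.length_nil]
    omega
  · refine h.ext (l := [pp, qq (!x), bb (i2, true), uu k, bb (i1, true), qq x])
      (pth (by simp <;> grind) (by simp [J1, J2]) rfl rfl)
      [k] [(i2, true), (i1, true)] ⟨[pp, qq (!x)],
      _, _, _, rfl⟩ (by simp) (by simp) (by simp) (by simp) ?_
    simp only [List.length_cons, List.length_nil]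
    omega

lemma Ok.q_q {x : Bool} {j : ℕ} (j3 : 3 ≤ j)
    (jn : j ≤ c + 2 * β + 3) : Re J T (qq x : WT c β) (qq (!x)) j := by
  have g3 := h.h3
  obtain ⟨k, hk⟩ := h.exU [] (by simp)
  obtain ⟨k', hk'⟩ := h.exU [k] (by simp)
  obtain ⟨i1, h1, J1⟩ := h.hJ x [] (by simp)
  obtain ⟨i2, h2, J2⟩ := h.hJ (!x) [i1] (by simp)
  obtain ⟨i3, h3, J3⟩ := h.hJ x [i1, i2] (by simp)
  obtain ⟨i4, h4, J4⟩ := h.hJ x [i1, i2, i3] (by simp)
  simp only [List.mem_cons, List.not_mem_nil, or_false, not_or] at hk' h1 h2 h3 h4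
  by_cases e3 : j = 3
  · subst e3
    exact ⟨[qq x, pp, qq (!x)], pth (by simp) (by simp) rfl rfl, rfl⟩
  by_cases e4 : j = 4
  · subst e4
    by_cases hT : T i2
    · exact ⟨[qq x, pp, bb (i2, false), qq (!x)], pth (by simp) (by simp [hT]) rfl rfl, rfl⟩
    · exact ⟨[qq x, pp, bb (i2, true), qq (!x)], pth (by simp) (by simp [hT, J2]) rfl rfl, rfl⟩
  by_cases e6 : j = 6
  · subst e6
    exact ⟨[qq x, bb (i1, true), bb (i1, false), uu k, bb (i2, true), qq (!x)],
      pth (by simp <;> grind) (by simp [J1, J2]) rfl rfl, rfl⟩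
  by_cases es : j ≤ c + 2 * β
  · refine h.ext (l := [qq x, bb (i1, true), uu k, bb (i2, true), qq (!x)])
      (pth (by simp <;> grind) (by simp [J1, J2]) rfl rfl)
      [k] [(i1, true), (i2, true)] ⟨[qq x], _, _, _, rfl⟩ (by simp) (by simp) (by simp)
      (by simp) ?_
    simp only [List.length_cons, List.length_nil]
    omega
  · refine h.ext (l := [qq x, bb (i1, true), uu k, bb (i3, false), pp, bb (i4, false), uu k',
      bb (i2, true), qq (!x)]) (pth (by simp <;> grind) (by simp [J1, J2]) rfl rfl)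
      [k, k'] [(i1, true), (i3, false), (i4, false), (i2, true)] ⟨[qq x],
      _, _, _, rfl⟩ (by simp) (by simp) (by simp) (by simp) ?_
    simp only [List.length_cons, List.length_nil]
    omega

lemma Ok.re {s t : WT c β} (hne : s ≠ t) {j : ℕ} (j3 : 3 ≤ j) (jn : j ≤ c + 2 * β + 3) :
    Re J T s t j := by
  rcases s with k | ⟨i, b⟩ | _ | x <;> rcases t with k' | ⟨i', b'⟩ | _ | x'
  · exact h.u_u (fun e => hne (by rw [e])) j3 jn
  · exact h.u_b j3 jn
  · exact (h.p_u j3 jn).symm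
  · exact (h.q_u j3 jn).symm
  · exact (h.u_b j3 jn).symm
  · exact h.b_b (fun e => hne (by rw [e])) j3 jn
  · exact (h.p_b j3 jn).symm
  · exact (h.q_b j3 jn).symm
  · exact h.p_u j3 jn
  · exact h.p_b j3 jn
  · exact absurd rfl hne
  · exact h.p_q j3 jn
  · exact h.q_u j3 jn
  · exact h.q_b j3 jn
  · exact (h.p_q j3 jn).symm
  · have e : x' = !x := by
      rcases x with _ | _ <;> rcases x' with _ | _ <;> simp at hne ⊢
    subst e
    exact h.q_q j3 jn

theorem Ok.isPLD : IsPLD (gr (c := c) J T) (c + 2 * β + 3) := by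
  intro i h3 hi
  rw [hasP_iff]
  intro s t hst
  obtain ⟨l, h1, h2⟩ := h.re (T := T) hst h3 hi
  exact ⟨l, h1, h2⟩

end W55

end MPd41ace
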