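import Pool.Agent.Lib.MP_d41ace_co.Win55c

/-!
The graphs with a path of three vertices among the full vertices: minimality, the number of edges,
and the sizes that are realised.
-/

set_option autoImplicit false

namespace MPd41ace

open SimpleGraph

namespace W55

variable {c β : ℕ} {J : Fin β → Bool} {T : Fin β → Prop}

section

variable (h : Ok c β J)

include h

theorem Ok.isMinPLD : IsMinPLD (gr (c := c) J T) (c + 2 * β + 3) := by
  refine ⟨h.isPLD, ?_⟩
  have hn3 : 3 ≤ c + 2 * β + 3 := by omega
  have hn4 : 4 ≤ c + 2 * β + 3 := by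
    have := h.h3
    omega
  obtain ⟨k₀, _⟩ := h.exU [] (by simp)
  -- a matching edge
  have E1 : ∀ (i : Fin β) (b : Bool), ¬ IsPLD ((gr (c := c) J T).deleteEdges
      {s(bb (i, b), bb (i, !b))}) (c + 2 * β + 3) := by
    intro i b
    refine needed (y := uu k₀) hn3 (by simp) fun d h1 h2 => ?_
    rcases d with k | ⟨i', b'⟩ | _ | x
    · simp at h2
    · simp at h1
      rw [← h1.1]
      rcases b with _ | _ <;> rcases b' with _ | _ <;> simp at h1 ⊢
    · simp at h2
    · simp at h2
  -- a full vertex
  have E2 : ∀ (k : Fin c) (i : Fin β) (b : Bool), ¬ IsPLD ((gr (c := c) J T).deleteEdges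
      {s(uu k, bb (i, b))}) (c + 2 * β + 3) := by
    intro k i b
    refine needed (y := bb (i, !b)) hn3 (by simp) fun d h1 h2 => ?_
    rcases d with k' | ⟨i', b'⟩ | _ | x
    · simp at h1
    · simp at h2
      rw [h2.1]
      rcases b with _ | _ <;> rcases b' with _ | _ <;> simp at h2 ⊢
    · simp at h1
    · simp at h1
  -- the only path with four vertices
  have E3 : ∀ (i : Fin β) (f : Sym2 (WT c β)), (f = s(bb (i, false), pp) ∨ f = s(pp, qq (J i)) ∨
      f = s(qq (J i), bb (i, true))) → ¬ IsPLD ((gr (c := c) J T).deleteEdges {f})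
      (c + 2 * β + 3) := by
    intro i f hf
    refine needed4 (a := bb (i, false)) (y := bb (i, true)) hn4 (by simp)
      (fun d e h1 h2 h3 h4 h5 => ?_) hf
    rcases d with k | ⟨i', b'⟩ | _ | x <;> rcases e with k' | ⟨i'', b''⟩ | _ | x' <;>
      simp_all
  -- the centre and a second vertex of a pair of type three
  have E4 : ∀ (i : Fin β), ¬ T i → ¬ IsPLD ((gr (c := c) J T).deleteEdges
      {s(pp, bb (i, true))}) (c + 2 * β + 3) := by
    intro i hT
    refine needed (y := bb (i, false)) hn3 (by simp) fun d h1 h2 => ?_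
    rcases d with k | ⟨i', b'⟩ | _ | x
    · simp at h1
    · simp at h2
      rw [h2.1]
      rcases b' with _ | _ <;> simp at h2 ⊢
    · simp at h1
    · simp [hT] at h2
  -- a leaf and a first vertex of a pair of type four
  have E5 : ∀ (x : Bool) (i : Fin β), T i → ¬ IsPLD ((gr (c := c) J T).deleteEdges
      {s(qq x, bb (i, false))}) (c + 2 * β + 3) := by
    intro x i hT
    refine needed (y := bb (i, true)) hn3 (by simp) fun d h1 h2 => ?_
    rcases d with k | ⟨i', b'⟩ | _ | x'
    · simp at h1
    · simp at h2
      rw [h2.1]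
      rcases b' with _ | _ <;> simp at h2 ⊢
    · simp [hT] at h2
    · simp at h1
  -- all edges
  have key : ∀ a e : WT c β, rel J T a e → ¬ IsPLD ((gr (c := c) J T).deleteEdges {s(a, e)})
      (c + 2 * β + 3) := by
    intro a e he
    rcases a with k | ⟨i, b⟩ | _ | x <;> rcases e with k' | ⟨i', b'⟩ | _ | x'
    · exact absurd he (by simp [rel])
    · exact E2 k i' b'
    · exact absurd he (by simp [rel])
    · exact absurd he (by simp [rel])
    · exact absurd he (by simp [rel])
    · simp only [rel] at he
      obtain ⟨rfl, rfl, rfl⟩ := he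
      exact E1 i false
    · exact absurd he (by simp [rel])
    · exact absurd he (by simp [rel])
    · exact absurd he (by simp [rel])
    · rcases b' with _ | _
      · rw [Sym2.eq_swap]
        exact E3 i' _ (Or.inl rfl)
      · simp only [rel] at he
        exact E4 i' (by simpa using he)
    · exact absurd he (by simp [rel])
    · obtain ⟨i, _, hi⟩ := h.hJ x' [] (by simp)
      exact E3 i _ (Or.inr (Or.inl (by rw [hi])))
    · exact absurd he (by simp [rel])
    · rcases b' with _ | _
      · simp only [rel] at he
        exact E5 x i' (by simpa using he)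
      · simp only [rel] at he
        have hx : x = J i' := by simpa using he
        subst hx
        exact E3 i' _ (Or.inr (Or.inr rfl))
    · exact absurd he (by simp [rel])
    · exact absurd he (by simp [rel])
  intro e he
  induction e using Sym2.ind with
  | _ a y =>
    rw [SimpleGraph.mem_edgeSet, gr_adj] at he
    rcases he with he | he
    · exact key a y he
    · rw [Sym2.eq_swap]
      exact key y a he

end

/-! ### The number of edges -/

lemma r_uu {k k' : Fin c} : rel (β := β) J T (.inl k) (.inl k') ↔ False := Iff.rfl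
lemma r_ub {k : Fin c} {w : Fin β × Bool} : rel J T (.inl k) (.inr (.inl w)) ↔ True := Iff.rfl
lemma r_ur {k : Fin c} {z : Option Bool} : rel (β := β) J T (.inl k) (.inr (.inr z)) ↔ False :=
  Iff.rfl
lemma r_bu {k : Fin c} {w : Fin β × Bool} : rel J T (.inr (.inl w)) (.inl k) ↔ False := Iff.rfl
lemma r_bb {w w' : Fin β × Bool} : rel (c := c) J T (.inr (.inl w)) (.inr (.inl w')) ↔
    w.1 = w'.1 ∧ w.2 = false ∧ w'.2 = true := Iff.rfl
lemma r_br {w : Fin β × Bool} {z : Option Bool} :
    rel (c := c) J T (.inr (.inl w)) (.inr (.inr z)) ↔ False := Iff.rfl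
lemma r_ru {k : Fin c} {z : Option Bool} : rel (β := β) J T (.inr (.inr z)) (.inl k) ↔ False := by
  rcases z with _ | _ <;> exact Iff.rfl
lemma r_pb {w : Fin β × Bool} : rel (c := c) J T (.inr (.inr none)) (.inr (.inl w)) ↔
    w.2 = false ∨ ¬ T w.1 := Iff.rfl
lemma r_qb {x : Bool} {w : Fin β × Bool} :
    rel (c := c) J T (.inr (.inr (some x))) (.inr (.inl w)) ↔
    (w.2 = true ∧ x = J w.1) ∨ (w.2 = false ∧ T w.1) := Iff.rfl
lemma r_pp : rel (c := c) J T (.inr (.inr none)) (.inr (.inr none)) ↔ False := Iff.rfl
lemma r_pq {x : Bool} : rel (c := c) J T (.inr (.inr none)) (.inr (.inr (some x))) ↔ True := Iff.rfl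
lemma r_qr {x : Bool} {z : Option Bool} :
    rel (c := c) J T (.inr (.inr (some x))) (.inr (.inr z)) ↔ False := by
  rcases z with _ | _ <;> exact Iff.rfl

open scoped Classical in
lemma card_gr (J : Fin β → Bool) (T : Fin β → Prop) : (gr (c := c) J T).edgeSet.ncard =
    2 + β * (2 * c + 4) + (Finset.univ.filter T).card := by
  unfold gr
  rw [card_fromRel (fun a b hab => rel_ne hab)]
  have e1 : {p : WT c β × WT c β | rel J T p.1 p.2}.ncard =
      ∑ a : WT c β, ∑ b : WT c β, if rel J T a b then 1 else 0 := by
    rw [Set.ncard_eq_toFinset_card', ← Fintype.sum_prod_type', ← Finset.card_filter]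
    congr 1
    ext p
    simp
  rw [e1]
  simp only [Fintype.sum_sum_type, Fintype.sum_option, Fintype.sum_prod_type, Fintype.sum_bool]
  simp only [r_uu, r_ub, r_ur, r_bu, r_bb, r_br, r_ru, r_pb, r_qb, r_pp, r_pq, r_qr]
  simp only [if_true, if_false, Finset.sum_const_zero, add_zero, zero_add, Bool.false_eq_true,
    and_true, and_false, true_and, false_and, or_false, false_or, true_or, reduceCtorEq,
    Finset.sum_ite_eq, Finset.mem_univ]
  have a1 : ∀ x : Fin β, ((if true = J x then 1 else 0) + if false = J x then 1 else 0) = 1 := by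
    intro x
    rcases J x with _ | _ <;> simp
  have a2 : ∀ x : Fin β, ((if ¬ T x then 1 else 0) + if T x then 1 else 0) = 1 := by
    intro x
    by_cases hx : T x <;> simp [hx]
  have b1 := Finset.sum_congr (rfl : (Finset.univ : Finset (Fin β)) = Finset.univ)
    fun x _ => a1 x
  have b2 := Finset.sum_congr (rfl : (Finset.univ : Finset (Fin β)) = Finset.univ)
    fun x _ => a2 x
  rw [Finset.sum_add_distrib] at b1 b2
  simp only [Finset.sum_add_distrib, Finset.sum_const, Finset.card_univ, Fintype.card_fin,
    smul_eq_mul, mul_one] at b1 b2 ⊢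
  rw [Finset.card_filter]
  have e2 : β * (2 * c + 4) = c * β + c * β + 4 * β := by ring
  rw [e2]
  linarith

/-- THE FAMILY -/
theorem realised_fam {x : ℕ} (h1 : β + 2 ≤ c) (h2 : c + 2 ≤ 2 * β) (h3 : 14 ≤ β) (hx : x ≤ β) :
    Realised (c + 2 * β + 3) (2 + β * (2 * c + 4) + x) := by
  classical
  let J : Fin β → Bool := fun i => decide (i.val % 2 = 1)
  let T : Fin β → Prop := fun i => i.val < x
  have hO : Ok c β J := by
    refine ⟨h1, h2, h3, fun j S hS => ?_⟩
    by_contra hcon
    push Not at hcon
    have hsub : (Finset.range 7).image (fun r => 2 * r + j.toNat) ⊆ (S.map Fin.val).toFinset := by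
      intro y hy
      rw [Finset.mem_image] at hy
      obtain ⟨r, hr, rfl⟩ := hy
      rw [Finset.mem_range] at hr
      rw [List.mem_toFinset, List.mem_map]
      have hj : j.toNat ≤ 1 := Bool.toNat_le j
      by_contra hS'
      refine hcon ⟨2 * r + j.toNat, by omega⟩ (fun k => hS' ⟨_, k, rfl⟩) ?_
      show decide ((2 * r + j.toNat) % 2 = 1) = j
      rcases j with _ | _ <;> simp
    have c1 := Finset.card_le_card hsub
    rw [Finset.card_image_of_injective _ (fun a b hab => by
      have : 2 * a + j.toNat = 2 * b + j.toNat := hab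
      omega), Finset.card_range] at c1
    have c2 := (S.map Fin.val).toFinset_card_le
    rw [List.length_map] at c2
    omega
  refine realised_of (G := gr (c := c) J T) ?_ hO.isMinPLD ?_
  · simp only [Fintype.card_sum, Fintype.card_fin, Fintype.card_prod, Fintype.card_bool,
      Fintype.card_option]
    omega
  · rw [card_gr]
    congr 1
    have key : ∀ inst : DecidablePred T, (@Finset.filter _ T inst Finset.univ).card = x := by
      intro inst
      have e : (@Finset.filter _ T inst Finset.univ).map Fin.valEmbedding = Finset.range x := by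
        ext y
        simp only [Finset.mem_map, Finset.mem_filter, Finset.mem_univ, true_and,
          Fin.valEmbedding_apply, Finset.mem_range]
        constructor
        · rintro ⟨i, hi, rfl⟩
          exact hi
        · intro hy
          exact ⟨⟨y, by omega⟩, hy, rfl⟩
      rw [← Finset.card_map Fin.valEmbedding, e, Finset.card_range]
    exact key _

end W55

end MPd41ace
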