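import Pool.Agent.Lib.MP_d41ace_co.Win55d

/-!
All sizes between `n ^ 2 / 4 - 12 n` and `n (n - 1) / 4`.
-/

set_option autoImplicit false

namespace MPd41ace

namespace W55

lemma exists_beta {n m : ℕ} (hn : 2400 ≤ n) (h1 : n ^ 2 ≤ 4 * m + 48 * n) :
    2 + (2 * n / 7) * (2 * n - 2) ≤ m + 4 * (2 * n / 7) ^ 2 := by
  obtain ⟨b, e, he, hb⟩ : ∃ b e, e ≤ 6 ∧ 2 * n = 7 * b + e :=
    ⟨2 * n / 7, 2 * n % 7, by omega, by omega⟩
  have hq : 2 * n / 7 = b := by omega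
  rw [hq]
  have hb1 : 684 ≤ b := by omega
  obtain ⟨k, hk⟩ : ∃ k, 2 * n - 2 = k := ⟨_, rfl⟩
  have hk' : (k : ℤ) = 2 * n - 2 := by omega
  rw [hk]
  zify at h1 he hb hb1 ⊢
  rw [hk']
  nlinarith [mul_nonneg (show (0 : ℤ) ≤ b - 684 by linarith) (show (0 : ℤ) ≤ b by linarith),
    mul_nonneg (show (0 : ℤ) ≤ 6 - e by linarith) (show (0 : ℤ) ≤ b by linarith),
    mul_self_nonneg (e : ℤ), show (n : ℤ) ^ 2 * 4 = (7 * b + e) ^ 2 by rw [← hb]; ring,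
    show (n : ℤ) * b * 2 = (7 * b + e) * b by rw [← hb]; ring]

lemma top_le {n m : ℕ} (h2 : 4 * m ≤ n * (n - 1)) (hn : 10 ≤ n) :
    m + 4 * ((n + 2) / 4) ^ 2 ≤ 2 + ((n + 2) / 4) * (2 * n - 1) := by
  obtain ⟨r, s, hs, rfl⟩ : ∃ r s, s < 4 ∧ n = 4 * r + s := ⟨n / 4, n % 4, by omega, by omega⟩
  interval_cases s
  · have e : (4 * r + 0 + 2) / 4 = r := by omega
    obtain ⟨k, hk⟩ : ∃ k, 4 * r + 0 - 1 = k := ⟨_, rfl⟩
    obtain ⟨k', hk'⟩ : ∃ k, 2 * (4 * r + 0) - 1 = k := ⟨_, rfl⟩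
    have h3 : (k : ℤ) = 4 * r - 1 := by omega
    have h4 : (k' : ℤ) = 8 * r - 1 := by omega
    rw [e, hk']
    rw [hk] at h2
    zify at h2 ⊢
    rw [h3] at h2
    rw [h4]
    nlinarith
  · have e : (4 * r + 1 + 2) / 4 = r := by omega
    obtain ⟨k, hk⟩ : ∃ k, 4 * r + 1 - 1 = k := ⟨_, rfl⟩
    obtain ⟨k', hk'⟩ : ∃ k, 2 * (4 * r + 1) - 1 = k := ⟨_, rfl⟩
    have h3 : (k : ℤ) = 4 * r := by omega
    have h4 : (k' : ℤ) = 8 * r + 1 := by omega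
    rw [e, hk']
    rw [hk] at h2
    zify at h2 ⊢
    rw [h3] at h2
    rw [h4]
    nlinarith
  · have e : (4 * r + 2 + 2) / 4 = r + 1 := by omega
    obtain ⟨k, hk⟩ : ∃ k, 4 * r + 2 - 1 = k := ⟨_, rfl⟩
    obtain ⟨k', hk'⟩ : ∃ k, 2 * (4 * r + 2) - 1 = k := ⟨_, rfl⟩
    have h3 : (k : ℤ) = 4 * r + 1 := by omega
    have h4 : (k' : ℤ) = 8 * r + 3 := by omega
    rw [e, hk']
    rw [hk] at h2
    zify at h2 ⊢
    rw [h3] at h2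
    rw [h4]
    nlinarith
  · have e : (4 * r + 3 + 2) / 4 = r + 1 := by omega
    obtain ⟨k, hk⟩ : ∃ k, 4 * r + 3 - 1 = k := ⟨_, rfl⟩
    obtain ⟨k', hk'⟩ : ∃ k, 2 * (4 * r + 3) - 1 = k := ⟨_, rfl⟩
    have h3 : (k : ℤ) = 4 * r + 2 := by omega
    have h4 : (k' : ℤ) = 8 * r + 5 := by omega
    rw [e, hk']
    rw [hk] at h2
    zify at h2 ⊢
    rw [h3] at h2
    rw [h4]
    nlinarith

end W55

open W55

/-- ALL SIZES BETWEEN `n ^ 2 / 4 - 12 n` AND `n (n - 1) / 4` -/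
theorem realised_top {n m : ℕ} (hn : 2400 ≤ n) (h1 : n ^ 2 ≤ 4 * m + 48 * n)
    (h2 : 4 * m ≤ n * (n - 1)) : Realised n m := by
  classical
  have hex : ∃ b, (n + 2) / 4 ≤ b ∧ 2 + b * (2 * n - 2) ≤ m + 4 * b ^ 2 :=
    ⟨2 * n / 7, by omega, exists_beta hn h1⟩
  obtain ⟨b, hb, hmin⟩ : ∃ b, ((n + 2) / 4 ≤ b ∧ 2 + b * (2 * n - 2) ≤ m + 4 * b ^ 2) ∧
      ∀ b' < b, ¬ ((n + 2) / 4 ≤ b' ∧ 2 + b' * (2 * n - 2) ≤ m + 4 * b' ^ 2) :=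
    ⟨Nat.find hex, Nat.find_spec hex, fun b' h => Nat.find_min hex h⟩
  have hle : b ≤ 2 * n / 7 := by
    by_contra hcon
    rw [not_le] at hcon
    exact hmin _ hcon ⟨by omega, exists_beta hn h1⟩
  obtain ⟨c, hc⟩ : ∃ c, n = c + 2 * b + 3 := ⟨n - 2 * b - 3, by omega⟩
  have hlow : 2 + b * (2 * c + 4) ≤ m := by
    have h3 := hb.2
    have e : 2 * n - 2 = 2 * c + 4 * b + 4 := by omega
    rw [e] at h3
    nlinarith
  have hup : m ≤ 2 + b * (2 * c + 4) + b := by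
    rcases Nat.eq_or_lt_of_le hb.1 with e | e
    · have h3 := top_le h2 (by omega)
      rw [e] at h3
      have e' : 2 * n - 1 = 2 * c + 4 * b + 5 := by omega
      rw [e'] at h3
      nlinarith
    · have h3 := hmin (b - 1) (by omega)
      have h4 : ¬ (2 + (b - 1) * (2 * n - 2) ≤ m + 4 * (b - 1) ^ 2) := fun k => h3 ⟨by omega, k⟩
      rw [not_le] at h4
      obtain ⟨a, ha⟩ : ∃ a, b = a + 1 := ⟨b - 1, by omega⟩
      have e' : 2 * n - 2 = 2 * c + 4 * b + 4 := by omega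
      rw [e', ha, Nat.add_sub_cancel] at h4
      rw [ha]
      have h5 : 7 * b ≤ 2 * n := by omega
      rw [hc, ha] at h5
      nlinarith
  obtain ⟨x, hx⟩ : ∃ x, m = 2 + b * (2 * c + 4) + x := ⟨m - (2 + b * (2 * c + 4)), by omega⟩
  rw [hc, hx]
  exact realised_fam (by omega) (by omega) (by omega) (by omega)

end MPd41ace
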