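import Pool.Agent.Lib.MP_d41ace_co.Win55e
import Pool.Agent.Lib.MP_d41ace_co.Spec

/-!
All sizes up to `n (n - 1) / 4`.
-/

set_option autoImplicit false

namespace MPd41ace

/-- THE SIZES UP TO `n (n - 1) / 4` -/
theorem spectrum_half {n m : ℕ} (hn : 370 ≤ n)
    (hm : 4 * m + 48 * n ≤ n ^ 2 ∨ (2400 ≤ n ∧ 4 * m ≤ n * (n - 1))) :
    Realised n m ↔ m = 2 * (n - 1) ∨ 9 * (n - 1) ≤ 4 * m := by
  by_cases h : 4 * m + 48 * n ≤ n ^ 2
  · exact spectrum hn h
  · rcases hm with hm | ⟨hn', hm⟩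
    · exact absurd hm h
    · rw [not_le] at h
      refine ⟨fun _ => Or.inr ?_, fun _ => realised_top hn' h.le hm⟩
      have h1 : 2400 * n ≤ n ^ 2 := by
        rw [pow_two]
        exact Nat.mul_le_mul_right n hn'
      omega

end MPd41ace
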